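import Pool.Agent.H276R2.Th.Spec

/-!
# Task A1: `theta` is at least `g 0` for nonnegative `g` with spectrum outside the connection set
-/

set_option autoImplicit false

namespace Pool.Agent.H276R2.Th

open Finset

/-- real part of the character -/
noncomputable def a1_C {n : ℕ} [NeZero n] (i x : ZMod n) : ℝ := (ch n (i * x)).re

/-- imaginary part of the character -/
noncomputable def a1_S {n : ℕ} [NeZero n] (i x : ZMod n) : ℝ := (ch n (i * x)).im

theorem a1_sq {n : ℕ} [NeZero n] (i x : ZMod n) : a1_C i x * a1_C i x + a1_S i x * a1_S i x = 1 := by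
  have h := norm_ch n (i * x)
  have h2 : Complex.normSq (ch n (i * x)) = 1 := by
    rw [Complex.normSq_eq_norm_sq, h, one_pow]
  rw [Complex.normSq_apply] at h2
  exact h2

theorem a1_prod {n : ℕ} [NeZero n] (i j x : ZMod n) :
    a1_C i x * a1_C j x + a1_S i x * a1_S j x = (ch n (-((i - j) * x))).re := by
  have h1 : -((i - j) * x) = -(i * x) + j * x := by ring
  rw [h1, ch_add, ch_neg]
  simp only [a1_C, a1_S, Complex.mul_re, Complex.conj_re, Complex.conj_im]
  ring

/-- the matrix entries -/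
noncomputable def a1_B {n : ℕ} [NeZero n] (g : ZMod n → ℝ) (i j : ZMod n) : ℝ :=
  (∑ x, g x * (a1_C i x * a1_C j x + a1_S i x * a1_S j x)) / (n : ℝ) ^ 2

theorem a1_B_symm {n : ℕ} [NeZero n] (g : ZMod n → ℝ) (i j : ZMod n) :
    a1_B g i j = a1_B g j i := by
  unfold a1_B
  congr 1
  refine Finset.sum_congr rfl fun x _ => ?_
  ring

theorem a1_B_fc {n : ℕ} [NeZero n] (g : ZMod n → ℝ) (i j : ZMod n) :
    a1_B g i j = (fc (fun x => (g x : ℂ)) (i - j)).re / n := by
  unfold a1_B fc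
  have hn : (n : ℝ) ≠ 0 := by exact_mod_cast NeZero.ne n
  have h1 : ((∑ x, (g x : ℂ) * ch n (-((i - j) * x))) / (n : ℂ)).re =
      (∑ x, g x * (ch n (-((i - j) * x))).re) / n := by
    have h2 : (∑ x, (g x : ℂ) * ch n (-((i - j) * x))) / (n : ℂ) =
        ((1 / n : ℝ) : ℂ) * ∑ x, (g x : ℂ) * ch n (-((i - j) * x)) := by
      push_cast
      ring
    rw [h2, Complex.re_ofReal_mul, Complex.re_sum]
    simp only [Complex.re_ofReal_mul]
    ring
  rw [h1]
  simp only [a1_prod]
  field_simp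

theorem a1_quad {n : ℕ} [NeZero n] (g : ZMod n → ℝ) (c : ZMod n → ℝ) :
    ∑ i, ∑ j, c i * a1_B g i j * c j =
      (∑ x, g x * ((∑ i, c i * a1_C i x) ^ 2 + (∑ i, c i * a1_S i x) ^ 2)) / (n : ℝ) ^ 2 := by
  unfold a1_B
  have h1 : ∀ x, (∑ i, c i * a1_C i x) ^ 2 = ∑ i, ∑ j, (c i * a1_C i x) * (c j * a1_C j x) := by
    intro x; rw [sq, Finset.sum_mul_sum]
  have h2 : ∀ x, (∑ i, c i * a1_S i x) ^ 2 = ∑ i, ∑ j, (c i * a1_S i x) * (c j * a1_S j x) := by
    intro x; rw [sq, Finset.sum_mul_sum]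
  simp only [h1, h2, ← Finset.sum_add_distrib, Finset.mul_sum, Finset.sum_div]
  have h3 : ∀ (i j : ZMod n), c i * (∑ x, g x * (a1_C i x * a1_C j x + a1_S i x * a1_S j x) / (n : ℝ) ^ 2) * c j =
      ∑ x, g x * (c i * a1_C i x * (c j * a1_C j x) + c i * a1_S i x * (c j * a1_S j x)) / (n : ℝ) ^ 2 := by
    intro i j
    rw [Finset.mul_sum, Finset.sum_mul]
    refine Finset.sum_congr rfl fun x _ => ?_
    ring
  have h4 : ∀ i : ZMod n, ∑ j, c i * (∑ x, g x * (a1_C i x * a1_C j x + a1_S i x * a1_S j x) / (n : ℝ) ^ 2) * c j =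
      ∑ x, ∑ j, g x * (c i * a1_C i x * (c j * a1_C j x) + c i * a1_S i x * (c j * a1_S j x)) / (n : ℝ) ^ 2 := by
    intro i
    rw [Finset.sum_comm]
    exact Finset.sum_congr rfl fun j _ => h3 i j
  calc _ = ∑ i : ZMod n, ∑ x, ∑ j, g x * (c i * a1_C i x * (c j * a1_C j x) + c i * a1_S i x * (c j * a1_S j x)) / (n : ℝ) ^ 2 := by
        refine Finset.sum_congr rfl fun i _ => ?_
        rw [← h4 i]
        refine Finset.sum_congr rfl fun j _ => ?_
        rw [Finset.mul_sum]
    _ = _ := by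
        rw [Finset.sum_comm]

theorem a1_total {n : ℕ} [NeZero n] (g : ZMod n → ℝ) :
    ∑ i, ∑ j, a1_B g i j = g 0 := by
  have h := a1_quad g (fun _ => 1)
  simp only [one_mul, mul_one] at h
  rw [h]
  have hn : (n : ℝ) ≠ 0 := by exact_mod_cast NeZero.ne n
  have h1 : ∀ x : ZMod n, (∑ i, a1_C i x) ^ 2 + (∑ i, a1_S i x) ^ 2 =
      if x = 0 then (n : ℝ) ^ 2 else 0 := by
    intro x
    have h2 : ∑ i, ch n (i * x) = if x = 0 then (n : ℂ) else 0 := by
      rw [← sum_ch n x]
      exact Finset.sum_congr rfl fun i _ => by rw [mul_comm]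
    have h3 : ∑ i, a1_C i x = (∑ i, ch n (i * x)).re := by rw [Complex.re_sum]; rfl
    have h4 : ∑ i, a1_S i x = (∑ i, ch n (i * x)).im := by rw [Complex.im_sum]; rfl
    rw [h3, h4, h2]
    split_ifs <;> simp
  simp only [h1]
  rw [Finset.sum_eq_single 0]
  · rw [if_pos rfl]
    field_simp
  · intro x _ hx
    rw [if_neg hx, mul_zero]
  · intro h; exact absurd (Finset.mem_univ _) h

theorem a1_trace {n : ℕ} [NeZero n] (g : ZMod n → ℝ) (hg : ∑ x, g x = n) :
    ∑ i, a1_B g i i = 1 := by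
  have hn : (n : ℝ) ≠ 0 := by exact_mod_cast NeZero.ne n
  unfold a1_B
  simp only [a1_sq, mul_one, hg]
  rw [Finset.sum_const, Finset.card_univ, ZMod.card, nsmul_eq_mul]
  field_simp

theorem a1_bdd (n : ℕ) (B : Matrix (Fin n) (Fin n) ℝ) (hB : B.PosSemidef) (ht : B.trace = 1) :
    ∑ i, ∑ j, B i j ≤ n := by
  have hs : ∀ i j, B j i = B i j := by
    intro i j
    have := hB.1.apply i j
    simpa using this
  have h2 : ∀ i j, 2 * B i j ≤ B i i + B j j := by
    intro i j
    have h := hB.dotProduct_mulVec_nonneg (Pi.single i 1 - Pi.single j 1)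
    have e1 : star (Pi.single i (1 : ℝ) - Pi.single j 1) ⬝ᵥ
        B.mulVec (Pi.single i 1 - Pi.single j 1) = B i i - B i j - (B j i - B j j) := by
      rw [Matrix.mulVec_sub, Matrix.mulVec_single_one, Matrix.mulVec_single_one, star_trivial,
        sub_dotProduct, single_one_dotProduct, single_one_dotProduct]
      simp only [Pi.sub_apply, Matrix.col_apply]
    rw [e1, hs i j] at h
    linarith
  have h3 : ∑ i, ∑ j, 2 * B i j ≤ ∑ i, ∑ j, (B i i + B j j) :=
    Finset.sum_le_sum fun i _ => Finset.sum_le_sum fun j _ => h2 i j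
  have h4 : ∑ i, ∑ j, (B i i + B j j) = 2 * n := by
    simp only [Finset.sum_add_distrib, Finset.sum_const, Finset.card_univ, Fintype.card_fin,
      nsmul_eq_mul]
    rw [← Finset.mul_sum]
    have : ∑ i, B i i = 1 := ht
    rw [this]; ring
  have h5 : ∑ i, ∑ j, 2 * B i j = 2 * ∑ i, ∑ j, B i j := by
    rw [Finset.mul_sum]
    exact Finset.sum_congr rfl fun i _ => by rw [Finset.mul_sum]
  rw [h4, h5] at h3
  linarith

/-- `Fin (m + 1)` as `ZMod (m + 1)` -/
def a1_e (m : ℕ) (i : Fin (m + 1)) : ZMod (m + 1) := i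

theorem a1_e_inj (m : ℕ) (i j : Fin (m + 1)) (h : a1_e m i = a1_e m j) : i = j := h

theorem a1_sum_e (m : ℕ) (f : ZMod (m + 1) → ℝ) :
    ∑ i : Fin (m + 1), f (a1_e m i) = ∑ k, f k := rfl

theorem a1_val_sub (m : ℕ) (i j : Fin (m + 1)) : (i - j).val = (a1_e m i - a1_e m j).val := rfl

theorem t_A1 : S_A1 := by
  intro n hn S g hS hg hg0
  obtain ⟨m, rfl⟩ : ∃ m, n = m + 1 := ⟨n - 1, by have := NeZero.ne n; omega⟩
  unfold theta
  refine le_csSup ⟨((m + 1 : ℕ) : ℝ), ?_⟩ ?_
  · rintro r ⟨B, hB, ht, _, rfl⟩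
    exact a1_bdd _ B hB ht
  · set B : Matrix (Fin (m + 1)) (Fin (m + 1)) ℝ :=
      Matrix.of fun i j => a1_B g (a1_e m i) (a1_e m j) with hBdef
    have hBij : ∀ i j, B i j = a1_B g (a1_e m i) (a1_e m j) := fun i j => rfl
    refine ⟨B, ?_, ?_, ?_, ?_⟩
    · refine Matrix.PosSemidef.of_dotProduct_mulVec_nonneg ?_ ?_
      · ext i j
        rw [Matrix.conjTranspose_apply, star_trivial, hBij, hBij]
        exact a1_B_symm g _ _
      · intro c
        obtain ⟨c', hc'⟩ : ∃ c' : ZMod (m + 1) → ℝ, ∀ i, c i = c' (a1_e m i) :=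
          ⟨c, fun _ => rfl⟩
        have e1 : star c ⬝ᵥ Matrix.mulVec B c =
            ∑ i : ZMod (m + 1), ∑ j : ZMod (m + 1), c' i * a1_B g i j * c' j := by
          have e2 : star c ⬝ᵥ Matrix.mulVec B c =
            ∑ i : Fin (m + 1), ∑ j : Fin (m + 1),
              c' (a1_e m i) * a1_B g (a1_e m i) (a1_e m j) * c' (a1_e m j) := by
            simp only [dotProduct, Matrix.mulVec, star_trivial, hBij, hc']
            refine Finset.sum_congr rfl fun i _ => ?_
            rw [Finset.mul_sum]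
            refine Finset.sum_congr rfl fun j _ => ?_
            rw [mul_assoc]
          rw [e2]
          rfl
        rw [e1, a1_quad]
        refine div_nonneg (Finset.sum_nonneg fun x _ => ?_) (by positivity)
        exact mul_nonneg (hg0 x) (by positivity)
    · exact a1_trace g hg.mean
    · intro i j hij
      rw [SimpleGraph.fromRel_adj] at hij
      obtain ⟨hne, hij⟩ := hij
      have hk : a1_e m i - a1_e m j ≠ 0 := by
        intro h
        exact hne (a1_e_inj m i j (sub_eq_zero.1 h))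
      have hcls : cls (m + 1) (a1_e m i - a1_e m j) ∈ S := by
        unfold cls
        rw [neg_sub, ← a1_val_sub, ← a1_val_sub]
        rcases hij with h | h
        · rw [min_comm]; exact h
        · exact h
      rw [hBij, a1_B_fc, hg.spec _ hk (fun h => (Finset.mem_sdiff.1 h).2 hcls)]
      simp
    · exact (a1_total g).symm

end Pool.Agent.H276R2.Th
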