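import Pool.Agent.H276R2.Th.Spec

set_option autoImplicit false

namespace Pool.Agent.H276R2.Th

open Finset

/-- the quadratic form of a positive semidefinite real matrix is nonnegative -/
theorem a2_psd {ι : Type} [Fintype ι] (B : Matrix ι ι ℝ) (hB : B.PosSemidef) (c : ι → ℝ) :
    0 ≤ ∑ i, ∑ j, B i j * (c i * c j) := by
  have h := hB.dotProduct_mulVec_nonneg c
  have h2 : star c ⬝ᵥ B.mulVec c = ∑ i, ∑ j, B i j * (c i * c j) := by
    unfold dotProduct Matrix.mulVec dotProduct
    refine Finset.sum_congr rfl fun i _ => ?_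
    rw [Finset.mul_sum]
    refine Finset.sum_congr rfl fun j _ => ?_
    simp only [Pi.star_apply, star_trivial]
    ring
  rw [h2] at h
  exact h

theorem a2_re (n : ℕ) [NeZero n] (a b : ZMod n) :
    (ch n (a - b)).re = (ch n a).re * (ch n b).re + (ch n a).im * (ch n b).im := by
  rw [sub_eq_add_neg, ch_add, ch_neg, Complex.mul_re, Complex.conj_re, Complex.conj_im]
  ring

theorem a2_main (n : ℕ) [NeZero n] (S : Finset ℕ) (h : ZMod n → ℝ) (hN : Nice S h)
    (h0 : ∀ x, 0 ≤ h x) (B : Matrix (ZMod n) (ZMod n) ℝ)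
    (hB : B.PosSemidef) (ht : B.trace = 1)
    (hadj : ∀ i j : ZMod n, i ≠ j → cls n (i - j) ∈ S → B i j = 0) :
    h 0 * ∑ i, ∑ j, B i j ≤ n := by
  have hQ : ∀ x : ZMod n, 0 ≤ ∑ i, ∑ j, B i j * (ch n ((i - j) * x)).re := by
    intro x
    have h1 := a2_psd B hB (fun i => (ch n (i * x)).re)
    have h2 := a2_psd B hB (fun i => (ch n (i * x)).im)
    have h3 : ∑ i, ∑ j, B i j * (ch n ((i - j) * x)).re =
        ∑ i, ∑ j, B i j * ((ch n (i * x)).re * (ch n (j * x)).re) +
        ∑ i, ∑ j, B i j * ((ch n (i * x)).im * (ch n (j * x)).im) := by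
      rw [← Finset.sum_add_distrib]
      refine Finset.sum_congr rfl fun i _ => ?_
      rw [← Finset.sum_add_distrib]
      refine Finset.sum_congr rfl fun j _ => ?_
      rw [sub_mul, a2_re]
      ring
    rw [h3]
    exact add_nonneg h1 h2
  have hfc : ∀ k : ZMod n, ∑ x, h x * (ch n (k * x)).re =
      n * (fc (fun x => (h x : ℂ)) (-k)).re := by
    intro k
    unfold fc
    have hn : (n : ℂ) ≠ 0 := by exact_mod_cast NeZero.ne n
    have h4 : (n : ℝ) * ((∑ x, (h x : ℂ) * ch n (-(-k * x))) / n).re =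
        (∑ x, (h x : ℂ) * ch n (-(-k * x))).re := by
      have h5 : ((n : ℝ) : ℂ) * ((∑ x, (h x : ℂ) * ch n (-(-k * x))) / n) =
          ∑ x, (h x : ℂ) * ch n (-(-k * x)) := by
        push_cast
        field_simp
      rw [← h5, Complex.re_ofReal_mul, h5]
    rw [h4, Complex.re_sum]
    refine Finset.sum_congr rfl fun x _ => ?_
    rw [Complex.re_ofReal_mul]
    congr 3
    ring
  have hsum : ∑ x, h x * ∑ i, ∑ j, B i j * (ch n ((i - j) * x)).re = n := by
    have h6 : ∑ x, h x * ∑ i, ∑ j, B i j * (ch n ((i - j) * x)).re =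
        ∑ i, ∑ j, B i j * (n * (fc (fun x => (h x : ℂ)) (-(i - j))).re) := by
      simp only [← hfc, Finset.mul_sum]
      rw [Finset.sum_comm]
      refine Finset.sum_congr rfl fun i _ => ?_
      rw [Finset.sum_comm]
      refine Finset.sum_congr rfl fun j _ => ?_
      refine Finset.sum_congr rfl fun x _ => ?_
      ring
    rw [h6]
    have h7 : ∀ i : ZMod n, ∑ j, B i j * (n * (fc (fun x => (h x : ℂ)) (-(i - j))).re) =
        B i i * n := by
      intro i
      rw [Finset.sum_eq_single i]
      · rw [sub_self, neg_zero, fc_zero_real, hN.mean, Complex.ofReal_re,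
          div_self (by exact_mod_cast NeZero.ne n), mul_one]
      · intro j _ hji
        by_cases hc : cls n (i - j) ∈ S
        · rw [hadj i j hji.symm hc, zero_mul]
        · rw [hN.spec (-(i - j)) (by
            rw [neg_ne_zero, sub_ne_zero]
            exact hji.symm) (by rwa [cls_neg]), Complex.zero_re, mul_zero, mul_zero]
      · intro hi
        exact absurd (Finset.mem_univ i) hi
    rw [Finset.sum_congr rfl fun i _ => h7 i, ← Finset.sum_mul]
    have h8 : ∑ i, B i i = 1 := ht
    rw [h8, one_mul]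
  calc h 0 * ∑ i, ∑ j, B i j = h 0 * ∑ i, ∑ j, B i j * (ch n ((i - j) * 0)).re := by
        simp only [mul_zero, ch_zero, Complex.one_re, mul_one]
    _ ≤ ∑ x, h x * ∑ i, ∑ j, B i j * (ch n ((i - j) * x)).re :=
        Finset.single_le_sum (f := fun x => h x * ∑ i, ∑ j, B i j * (ch n ((i - j) * x)).re)
          (fun x _ => mul_nonneg (h0 x) (hQ x)) (Finset.mem_univ 0)
    _ = n := hsum

theorem t_A2 : S_A2 := by
  intro n inst S h _ hN hpos h0
  obtain ⟨m, rfl⟩ : ∃ m, n = m + 1 := ⟨n - 1, by have := NeZero.pos n; omega⟩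
  unfold theta
  apply csSup_le
  · refine ⟨_, Matrix.diagonal (fun _ => (1 / ((m + 1 : ℕ) : ℝ))), ?_, ?_, ?_, rfl⟩
    · apply Matrix.PosSemidef.diagonal
      intro i
      simp only [Pi.zero_apply]
      positivity
    · rw [Matrix.trace_diagonal, Finset.sum_const, Finset.card_univ, Fintype.card_fin,
        nsmul_eq_mul]
      field_simp
    · intro i j hij
      exact Matrix.diagonal_apply_ne _ hij.ne
  · rintro r ⟨B, hB, ht, hadj, rfl⟩
    rw [le_div_iff₀ h0, mul_comm]
    exact a2_main (m + 1) S h hN hpos B hB ht (by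
      intro i j hij hc
      apply hadj i j
      rw [SimpleGraph.fromRel_adj]
      refine ⟨hij, Or.inr ?_⟩
      have h1 : cls (m + 1) (i - j) = min (i - j).val (j - i).val := by
        unfold cls
        rw [neg_sub]
      rw [h1] at hc
      exact hc)

end Pool.Agent.H276R2.Th
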