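import Pool.Agent.H276R2.Th.Spec

set_option autoImplicit false

namespace Pool.Agent.H276R2.Th

open Finset

theorem cap_norm_sqrt (n N : ℕ) : ‖((Real.sqrt n : ℝ) : ℂ) ^ N‖ ^ 2 = (n : ℝ) ^ N := by
  rw [norm_pow, ← pow_mul, mul_comm, pow_mul, Complex.norm_real, Real.norm_eq_abs, sq_abs,
    Real.sq_sqrt (Nat.cast_nonneg n)]

section cap

variable {I : Type} [Fintype I] [DecidableEq I]

/-- Insertion at a leaf. -/
def capIns {n : ℕ} (B : I → Tree) (j : I) (v : (B j).V) (z : ZMod n) : BLab n B :=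
  Pi.single j (Pi.single v z)

omit [Fintype I] in
theorem cap_bl_ins_ne {n : ℕ} (B : I → Tree) (j : I) (v : (B j).V) (z : ZMod n) (q : BE B)
    (h : q.1 ≠ j) : bl B (capIns B j v z) q = 0 := by
  unfold bl capIns
  rw [Pi.single_eq_of_ne h]
  simp [lv]

theorem cap_kb_ins {n : ℕ} (B : I → Tree) (j : I) (v : (B j).V) (z : ZMod n) :
    kb B (capIns B j v z) = z := by
  unfold kb
  rw [Finset.sum_eq_single j]
  · unfold capIns
    rw [Pi.single_eq_same, lv_single, (B j).form_root]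
    simp
  · intro i _ hij
    unfold capIns
    rw [Pi.single_eq_of_ne hij]
    simp [lv]
  · intro h
    exact absurd (Finset.mem_univ j) h

theorem cap_card (k1 : S_K1) (n : ℕ) [NeZero n] (B : I → Tree) (h : BLab n B →+ ZMod n) (j : I)
    (v : (B j).V) (hh : ∀ z, h (capIns B j v z) = z) (D : Finset (BLab n B))
    (hD : ∀ l ∈ D, h l = 0) : (D.card : ℝ) * n ≤ (n : ℝ) ^ nb B := by
  classical
  have h1 := k1 n (BLab n B) h (capIns B j v) 1 one_ne_zero (fun z => by rw [hh z]; simp) 0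
  rw [card_BLab] at h1
  have h2 : D.card ≤ Nat.card {l : BLab n B // h l = 0} := by
    rw [Nat.card_eq_fintype_card, Fintype.card_subtype]
    apply Finset.card_le_card
    intro l hl
    simp only [Finset.mem_filter, Finset.mem_univ, true_and]
    exact hD l hl
  have h3 : (D.card : ℝ) ≤ (Nat.card {l : BLab n B // h l = 0} : ℝ) := by exact_mod_cast h2
  have h4 : (0 : ℝ) ≤ n := Nat.cast_nonneg n
  calc (D.card : ℝ) * n ≤ (Nat.card {l : BLab n B // h l = 0} : ℝ) * n := by gcongr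
    _ ≤ _ := h1
    _ = _ := by push_cast; simp

theorem cap_Ex_div (n N : ℕ) (f : Finset ℕ → ℂ) :
    Ex n (fun A => ‖f A / ((Real.sqrt n : ℝ) : ℂ) ^ N‖ ^ 2) =
      ((n : ℝ) ^ N)⁻¹ * Ex n (fun A => ‖f A‖ ^ 2) := by
  rw [← Ex_mul]
  apply Ex_congr
  intro A _
  rw [norm_div, div_pow, cap_norm_sqrt]
  rw [div_eq_inv_mul]

open Classical in
theorem cap_O0 (m3 : S_M3) (k1 : S_K1) [Nonempty I] (B : I → Tree) :
    O1 (fun n _ A _ => (∑ l : BLab n B, if Gen B l ∧ kb B l = 0 then
      ((∏ p, sg A (bl B l p) : ℝ) : ℂ) else 0) / ((Real.sqrt n : ℝ) : ℂ) ^ nb B) := by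
  obtain ⟨j⟩ : Nonempty I := inferInstance
  obtain ⟨v⟩ := (B j).nonempty
  set K : ℝ := (Fintype.card (BE B)).factorial * 2 ^ Fintype.card (BE B) with hK
  have hK0 : 0 ≤ K := by positivity
  refine ⟨K, fun n _ => ?_⟩
  set D : Finset (BLab n B) := univ.filter (fun l => Gen B l ∧ kb B l = 0) with hD
  have h1 := m3 n (BE B) (BLab n B) (fun p => blH B p) D (fun _ => 1)
    (fun u hu => bl_inj B u hu) (fun l _ => by simp)
    (fun l hl => by
      have := (Finset.mem_filter.mp hl).2.1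
      exact this)
  have h2 : (D.card : ℝ) * n ≤ (n : ℝ) ^ nb B :=
    cap_card k1 n B (kbH B) j v (fun z => cap_kb_ins B j v z) D
      (fun l hl => (Finset.mem_filter.mp hl).2.2)
  have hn : (0 : ℝ) < n := by exact_mod_cast NeZero.pos n
  have hnN : (0 : ℝ) < (n : ℝ) ^ nb B := by positivity
  simp only [cap_Ex_div]
  rw [Finset.sum_const, Finset.card_univ, ZMod.card, nsmul_eq_mul]
  have h3 : Ex n (fun A => ‖∑ l : BLab n B, if Gen B l ∧ kb B l = 0 then
      ((∏ p, sg A (bl B l p) : ℝ) : ℂ) else 0‖ ^ 2) ≤ K * D.card := by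
    refine le_trans (le_of_eq ?_) h1
    congr 1
    funext A
    rw [hD, Finset.sum_filter]
    simp only [one_mul, blH_apply]
  calc (n : ℝ) * (((n : ℝ) ^ nb B)⁻¹ * Ex n (fun A => ‖∑ l : BLab n B, if Gen B l ∧ kb B l = 0 then
      ((∏ p, sg A (bl B l p) : ℝ) : ℂ) else 0‖ ^ 2))
      ≤ n * (((n : ℝ) ^ nb B)⁻¹ * (K * D.card)) := by gcongr
    _ = K * ((D.card * n) * ((n : ℝ) ^ nb B)⁻¹) := by ring
    _ ≤ K * ((n : ℝ) ^ nb B * ((n : ℝ) ^ nb B)⁻¹) := by gcongr
    _ = K := by rw [mul_inv_cancel₀ hnN.ne', mul_one]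

open Classical in
theorem cap_O2 (m2 : S_M2) (k1 : S_K1) [Nontrivial I] (B : I → Tree) (q : BE B) (ε : ℤ)
    (hε : ε = 1 ∨ ε = -1) (P : (n : ℕ) → BLab n B → Prop) [∀ n l, Decidable (P n l)]
    (hP : ∀ n l, P n l → Gen B l ∧ kb B l = (ε : ZMod n) * bl B l q) :
    O1 (fun n _ A x => (∑ l : BLab n B, if P n l then
      ((sg A (kb B l) * ∏ p, sg A (bl B l p) : ℝ) : ℂ) * ch n (kb B l * x) else 0) /
        ((Real.sqrt n : ℝ) : ℂ) ^ nb B) := by
  obtain ⟨j, hj⟩ := exists_ne q.1
  obtain ⟨v⟩ := (B j).nonempty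
  set K : ℝ := (Fintype.card {p : BE B // p ≠ q}).factorial * 2 ^ Fintype.card {p : BE B // p ≠ q}
    with hK
  have hK0 : 0 ≤ K := by positivity
  refine ⟨K, fun n _ => ?_⟩
  set D : Finset (BLab n B) := univ.filter (fun l => P n l) with hD
  have hsub : ∀ l l' : BLab n B, kb B (l - l') = kb B l - kb B l' := fun l l' =>
    map_sub (kbH B) l l'
  have hsub2 : ∀ l l' : BLab n B, bl B (l - l') q = bl B l q - bl B l' q := fun l l' =>
    map_sub (blH B q) l l'
  have h1 := m2 n {p : BE B // p ≠ q} (BLab n B) (fun p => blH B p.1) (kbH B)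
    (fun u => kb B u = (ε : ZMod n) * bl B u q) D (fun _ => 1)
    (fun l hl l' hl' => by
      have a1 := (hP n l (Finset.mem_filter.mp hl).2).2
      have a2 := (hP n l' (Finset.mem_filter.mp hl').2).2
      show kb B (l - l') = (ε : ZMod n) * bl B (l - l') q
      rw [hsub, hsub2, a1, a2, mul_sub])
    (fun l _ => by simp)
    (fun l hl => by
      have a1 := (hP n l (Finset.mem_filter.mp hl).2).1
      refine ⟨fun p => a1.1 p.1, fun p p' hpp => a1.2 p.1 p'.1 (fun h => hpp (Subtype.ext h))⟩)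
  have h2 : (D.card : ℝ) * n ≤ (n : ℝ) ^ nb B := by
    refine cap_card k1 n B (kbH B - ε • blH B q) j v (fun z => ?_) D (fun l hl => ?_)
    · show kb B (capIns B j v z) - ε • bl B (capIns B j v z) q = z
      rw [cap_kb_ins, cap_bl_ins_ne B j v z q (Ne.symm hj)]
      simp
    · show kb B l - ε • bl B l q = 0
      rw [(hP n l (Finset.mem_filter.mp hl).2).2, zsmul_eq_mul, sub_self]
  have h4 : Nat.card {u : BLab n B // kb B u = (ε : ZMod n) * bl B u q ∧
      (∀ p : {p : BE B // p ≠ q}, blH B p.1 u = 0) ∧ kbH B u = 0} ≤ 1 := by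
    rw [Finite.card_le_one_iff_subsingleton]
    constructor
    rintro ⟨u, hu⟩ ⟨u', hu'⟩
    have key : ∀ w : BLab n B, (kb B w = (ε : ZMod n) * bl B w q ∧
      (∀ p : {p : BE B // p ≠ q}, blH B p.1 w = 0) ∧ kbH B w = 0) → w = 0 := by
      rintro w ⟨w1, w2, w3⟩
      apply bl_inj B w
      intro p
      by_cases hp : p = q
      · subst hp
        rw [kbH_apply] at w3
        rw [w3] at w1
        rcases hε with rfl | rfl
        · simpa using w1.symm
        · simpa using w1.symm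
      · exact w2 ⟨p, hp⟩
    apply Subtype.ext
    show u = u'
    rw [key u hu, key u' hu']
  have hn : (0 : ℝ) < n := by exact_mod_cast NeZero.pos n
  have hnN : (0 : ℝ) < (n : ℝ) ^ nb B := by positivity
  simp only [cap_Ex_div]
  rw [← Finset.mul_sum]
  have h3 : ∑ x : ZMod n, Ex n (fun A => ‖∑ l : BLab n B, if P n l then
      ((sg A (kb B l) * ∏ p, sg A (bl B l p) : ℝ) : ℂ) * ch n (kb B l * x) else 0‖ ^ 2) ≤
      n * K * D.card := by
    have h5 : (n : ℝ) * K * D.card * (Nat.card {u : BLab n B // kb B u = (ε : ZMod n) * bl B u q ∧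
      (∀ p : {p : BE B // p ≠ q}, blH B p.1 u = 0) ∧ kbH B u = 0} : ℝ) ≤ n * K * D.card := by
      apply mul_le_of_le_one_right
      · positivity
      · exact_mod_cast h4
    refine le_trans (le_of_eq ?_) (le_trans h1 h5)
    apply Finset.sum_congr rfl
    intro x _
    congr 1
    funext A
    rw [hD, Finset.sum_filter]
    congr 2
    apply Finset.sum_congr rfl
    intro l _
    by_cases hl : P n l
    · rw [if_pos hl, if_pos hl]
      have a1 : sg A (kb B l) = sg A (bl B l q) := by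
        rw [(hP n l hl).2]
        rcases hε with rfl | rfl
        · simp
        · rw [show ((-1 : ℤ) : ZMod n) * bl B l q = -(bl B l q) by simp, sg_neg]
      have a2 : (∏ p : {p : BE B // p ≠ q}, sg A (blH B p.1 l)) =
          ∏ p ∈ univ.erase q, sg A (bl B l p) := by
        rw [Finset.prod_subtype (univ.erase q) (p := fun p => p ≠ q) (by simp)]
        rfl
      rw [a1, ← Finset.mul_prod_erase univ (fun p => sg A (bl B l p)) (Finset.mem_univ q),
        ← mul_assoc, sg_mul_self, one_mul, one_mul]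
      rw [a2]
      rfl
    · rw [if_neg hl, if_neg hl]
  calc ((n : ℝ) ^ nb B)⁻¹ * ∑ x : ZMod n, Ex n (fun A => ‖∑ l : BLab n B, if P n l then
      ((sg A (kb B l) * ∏ p, sg A (bl B l p) : ℝ) : ℂ) * ch n (kb B l * x) else 0‖ ^ 2)
      ≤ ((n : ℝ) ^ nb B)⁻¹ * (n * K * D.card) := by gcongr
    _ = K * ((D.card * n) * ((n : ℝ) ^ nb B)⁻¹) := by ring
    _ ≤ K * ((n : ℝ) ^ nb B * ((n : ℝ) ^ nb B)⁻¹) := by gcongr
    _ = K := by rw [mul_inv_cancel₀ hnN.ne', mul_one]

/-- Labellings of the bush as labellings of the capped tree. -/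
def capE (n : ℕ) [Nontrivial I] (B : I → Tree) (hB : CapRel B) :
    BLab n B ≃ ((capTree B hB).V → ZMod n) :=
  (Equiv.piCurry (fun (_ : I) (_ : (B _).V) => ZMod n)).symm

theorem capE_apply (n : ℕ) [Nontrivial I] (B : I → Tree) (hB : CapRel B) (l : BLab n B)
    (q : Σ i, (B i).V) : capE n B hB l q = l q.1 q.2 := rfl

theorem cap_lv_none (n : ℕ) [Nontrivial I] (B : I → Tree) (hB : CapRel B) (l : BLab n B) :
    lv (capTree B hB) (capE n B hB l) (none : Option (Σ i, (B i).E)) = kb B l := by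
  have h1 : lv (capTree B hB) (capE n B hB l) (none : Option (Σ i, (B i).E)) =
      ∑ q : Σ i, (B i).V, l q.1 q.2 := by
    show ∑ q : Σ i, (B i).V, (((1 : ℤ)) : ZMod n) * l q.1 q.2 = _
    simp
  rw [h1, Fintype.sum_sigma]
  unfold kb
  apply Finset.sum_congr rfl
  intro i _
  rw [lv_root]

theorem cap_lv_some (n : ℕ) [Nontrivial I] (B : I → Tree) (hB : CapRel B) (l : BLab n B)
    (p : BE B) :
    lv (capTree B hB) (capE n B hB l) (some p : Option (Σ i, (B i).E)) = bl B l p := by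
  have h1 : lv (capTree B hB) (capE n B hB l) (some p : Option (Σ i, (B i).E)) =
      ∑ q : Σ i, (B i).V, ((cf B (some p) q : ℤ) : ZMod n) * l q.1 q.2 := rfl
  rw [h1, Fintype.sum_sigma, Finset.sum_eq_single p.1]
  · unfold bl lv
    apply Finset.sum_congr rfl
    intro v _
    obtain ⟨i, e⟩ := p
    rw [cf_some_same]
  · intro j _ hj
    apply Finset.sum_eq_zero
    intro v _
    obtain ⟨i, e⟩ := p
    rw [cf_some_ne B i j e v (Ne.symm hj)]
    simp
  · intro h
    exact absurd (Finset.mem_univ _) h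

theorem cap_GenL (n : ℕ) [Nontrivial I] (B : I → Tree) (hB : CapRel B) (l : BLab n B) :
    GenL (lv (capTree B hB) (capE n B hB l)) ↔
      Gen B l ∧ kb B l ≠ 0 ∧ ∀ q, kb B l ≠ bl B l q ∧ kb B l ≠ -bl B l q := by
  constructor
  · rintro ⟨h1, h2⟩
    refine ⟨⟨fun p => ?_, fun p p' hpp => ?_⟩, ?_, fun q => ?_⟩
    · have := h1 (some p : Option (Σ i, (B i).E))
      rwa [cap_lv_some] at this
    · have := h2 (some p : Option (Σ i, (B i).E)) (some p' : Option (Σ i, (B i).E))
        (fun h => hpp (Option.some.inj h))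
      rwa [cap_lv_some, cap_lv_some] at this
    · have := h1 (none : Option (Σ i, (B i).E))
      rwa [cap_lv_none] at this
    · have := h2 (none : Option (Σ i, (B i).E)) (some q : Option (Σ i, (B i).E))
        (by rintro ⟨⟩)
      rwa [cap_lv_none, cap_lv_some] at this
  · rintro ⟨⟨h1, h2⟩, h3, h4⟩
    refine ⟨?_, ?_⟩
    · rintro (_ | p)
      · rw [cap_lv_none]; exact h3
      · rw [cap_lv_some]; exact h1 p
    · rintro (_ | p) (_ | p') hpp
      · exact absurd rfl hpp
      · rw [cap_lv_none, cap_lv_some]; exact h4 p'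
      · rw [cap_lv_none, cap_lv_some]
        refine ⟨fun h => (h4 p).1 h.symm, fun h => (h4 p).2 ?_⟩
        rw [h, neg_neg]
      · rw [cap_lv_some, cap_lv_some]
        exact h2 p p' (fun h => hpp (by rw [h]))

open Classical in
theorem cap_F (n : ℕ) [NeZero n] [Nontrivial I] (B : I → Tree) (hB : CapRel B) (A : Finset ℕ)
    (x : ZMod n) :
    F n (fun _ : Unit => capTree B hB) A x = (∑ l : BLab n B,
      if Gen B l ∧ kb B l ≠ 0 ∧ ∀ q, kb B l ≠ bl B l q ∧ kb B l ≠ -bl B l q then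
        ((sg A (kb B l) * ∏ p, sg A (bl B l p) : ℝ) : ℂ) * ch n (kb B l * x) else 0) /
        ((Real.sqrt n : ℝ) : ℂ) ^ nb B := by
  rw [F_unit]
  congr 1
  · symm
    apply Fintype.sum_equiv (capE n B hB)
    intro l
    have h1 := cap_GenL n B hB l
    by_cases h : Gen B l ∧ kb B l ≠ 0 ∧ ∀ q, kb B l ≠ bl B l q ∧ kb B l ≠ -bl B l q
    · rw [if_pos h, if_pos (h1.mpr h)]
      have h2 : (∏ e : (capTree B hB).E, sg A (lv (capTree B hB) (capE n B hB l) e)) =
          sg A (kb B l) * ∏ p, sg A (bl B l p) := by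
        show (∏ e : Option (Σ i, (B i).E), sg A (lv (capTree B hB) (capE n B hB l) e)) = _
        rw [Fintype.prod_option, cap_lv_none]
        congr 1
        apply Finset.prod_congr rfl
        intro p _
        rw [cap_lv_some]
      have h3 : lv (capTree B hB) (capE n B hB l) (capTree B hB).root = kb B l :=
        cap_lv_none n B hB l
      rw [h2, h3]
    · rw [if_neg h, if_neg (fun h' => h (h1.mp h'))]
  · congr 1
    show Fintype.card (Σ i, (B i).V) = nb B
    rw [Fintype.card_sigma]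
    rfl

open Classical in
theorem cap_TF (n : ℕ) [NeZero n] (B : I → Tree) (A : Finset ℕ) (x : ZMod n) :
    T A (F n B A) x = (∑ l : BLab n B, if Gen B l then
        ((sg A (kb B l) * ∏ p, sg A (bl B l p) : ℝ) : ℂ) * ch n (kb B l * x) else 0) /
        ((Real.sqrt n : ℝ) : ℂ) ^ nb B := by
  have h1 : F n B A = fun y => ∑ l : BLab n B, ((if Gen B l then
      ((∏ p, sg A (bl B l p) : ℝ) : ℂ) else 0) / ((Real.sqrt n : ℝ) : ℂ) ^ nb B) *
        ch n (kb B l * y) := by
    funext y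
    unfold F
    rw [Finset.sum_div]
    apply Finset.sum_congr (by congr!)
    intro l _
    split_ifs
    · ring
    · simp
  rw [h1, T_sum_ch, Finset.sum_div]
  apply Finset.sum_congr rfl
  intro l _
  split_ifs
  · push_cast
    ring
  · simp

open Classical in
theorem cap_split (n : ℕ) (B : I → Tree) (l : BLab n B) (g : ℂ) :
    (if Gen B l then g else 0) =
      (if Gen B l ∧ kb B l ≠ 0 ∧ ∀ q, kb B l ≠ bl B l q ∧ kb B l ≠ -bl B l q then g else 0) +
      (if Gen B l ∧ kb B l = 0 then g else 0) +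
      ∑ q : BE B, (if Gen B l ∧ kb B l ≠ 0 ∧ kb B l = bl B l q then g else 0) +
      ∑ q : BE B, (if Gen B l ∧ kb B l ≠ 0 ∧ kb B l = -bl B l q ∧ kb B l ≠ bl B l q
        then g else 0) := by
  by_cases hg : Gen B l
  · simp only [hg, true_and, if_true]
    by_cases h0 : kb B l = 0
    · simp [h0]
    · simp only [h0, ne_eq, not_false_eq_true, true_and, if_false, add_zero]
      by_cases h1 : ∃ q, kb B l = bl B l q
      · obtain ⟨q, hq⟩ := h1
        rw [if_neg (fun h => (h q).1 hq), zero_add, Finset.sum_eq_single q, if_pos hq,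
          Finset.sum_eq_zero, add_zero]
        · intro q' _
          rw [if_neg]
          rintro ⟨h2, h3⟩
          by_cases hqq : q = q'
          · subst hqq
            exact h3 hq
          · exact (hg.2 q q' hqq).2 (by rw [← hq, h2])
        · intro q' _ hqq
          rw [if_neg]
          intro h2
          exact (hg.2 q q' (Ne.symm hqq)).1 (by rw [← hq, h2])
        · intro h
          exact absurd (Finset.mem_univ _) h
      · push Not at h1
        rw [Finset.sum_eq_zero (s := univ) (f := fun q => if kb B l = bl B l q then g else 0)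
          (fun q _ => if_neg (h1 q)), add_zero]
        by_cases h2 : ∃ q, kb B l = -bl B l q
        · obtain ⟨q, hq⟩ := h2
          rw [if_neg (fun h => (h q).2 hq), zero_add, Finset.sum_eq_single q,
            if_pos ⟨hq, h1 q⟩]
          · intro q' _ hqq
            rw [if_neg]
            rintro ⟨h2, h3⟩
            exact (hg.2 q q' (Ne.symm hqq)).1 (neg_injective (by rw [← hq, h2]))
          · intro h
            exact absurd (Finset.mem_univ _) h
        · push Not at h2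
          rw [if_pos (fun q => ⟨h1 q, h2 q⟩), Finset.sum_eq_zero, add_zero]
          intro q _
          rw [if_neg]
          rintro ⟨h3, _⟩
          exact h2 q h3
  · simp [hg]

end cap

theorem t_CAP (m2 : S_M2) (m3 : S_M3) (k1 : S_K1) : S_CAP := by
  classical
  intro I _ _ _ B hB
  have e0 := cap_O0 m3 k1 B
  have e1 : ∀ q : BE B, O1 (fun n _ A x => (∑ l : BLab n B,
      if Gen B l ∧ kb B l ≠ 0 ∧ kb B l = bl B l q then
      ((sg A (kb B l) * ∏ p, sg A (bl B l p) : ℝ) : ℂ) * ch n (kb B l * x) else 0) /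
        ((Real.sqrt n : ℝ) : ℂ) ^ nb B) := fun q =>
    cap_O2 m2 k1 B q 1 (Or.inl rfl)
      (fun n l => Gen B l ∧ kb B l ≠ 0 ∧ kb B l = bl B l q)
      (fun n l h => ⟨h.1, by rw [h.2.2]; simp⟩)
  have e2 : ∀ q : BE B, O1 (fun n _ A x => (∑ l : BLab n B,
      if Gen B l ∧ kb B l ≠ 0 ∧ kb B l = -bl B l q ∧ kb B l ≠ bl B l q then
      ((sg A (kb B l) * ∏ p, sg A (bl B l p) : ℝ) : ℂ) * ch n (kb B l * x) else 0) /
        ((Real.sqrt n : ℝ) : ℂ) ^ nb B) := fun q =>
    cap_O2 m2 k1 B q (-1) (Or.inr rfl)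
      (fun n l => Gen B l ∧ kb B l ≠ 0 ∧ kb B l = -bl B l q ∧ kb B l ≠ bl B l q)
      (fun n l h => ⟨h.1, by rw [h.2.2.1]; simp⟩)
  have e3 := O1_add (O1_add e0 (O1_sum univ (fun q _ => e1 q))) (O1_sum univ (fun q _ => e2 q))
  refine O1_congr ?_ e3
  intro n _ A x _
  rw [cap_TF, cap_F, ← sub_div, ← Finset.sum_sub_distrib]
  rw [← Finset.sum_div, ← Finset.sum_div, ← add_div, ← add_div]
  congr 1
  rw [Finset.sum_comm, Finset.sum_comm (s := univ) (t := univ)
    (f := fun (q : BE B) (l : BLab n B) =>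
      if Gen B l ∧ kb B l ≠ 0 ∧ kb B l = -bl B l q ∧ kb B l ≠ bl B l q then
      ((sg A (kb B l) * ∏ p, sg A (bl B l p) : ℝ) : ℂ) * ch n (kb B l * x) else 0),
    ← Finset.sum_add_distrib, ← Finset.sum_add_distrib]
  apply Finset.sum_congr rfl
  intro l _
  rw [cap_split n B l]
  have h0 : (if Gen B l ∧ kb B l = 0 then
      ((sg A (kb B l) * ∏ p, sg A (bl B l p) : ℝ) : ℂ) * ch n (kb B l * x) else 0) =
      if Gen B l ∧ kb B l = 0 then ((∏ p, sg A (bl B l p) : ℝ) : ℂ) else 0 := by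
    by_cases h : Gen B l ∧ kb B l = 0
    · rw [if_pos h, if_pos h, h.2, sg_zero, zero_mul, ch_zero, one_mul, mul_one]
    · rw [if_neg h, if_neg h]
  rw [h0]
  ring

end Pool.Agent.H276R2.Th
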