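import Pool.Agent.H276R2.Th.Spec

/-!
# CR: the capped bush is a tree (pure combinatorics)
-/

set_option autoImplicit false

namespace Pool.Agent.H276R2.Th

open Finset

theorem cr_sum {I : Type} [Fintype I] [DecidableEq I] (B : I → Tree)
    (M : Finset (Option (Σ i, (B i).E))) (f : Option (Σ i, (B i).E) → ℤ) :
    ∑ e ∈ M, f e = (if none ∈ M then f none else 0) +
      ∑ j, ∑ e' : (B j).E, if some ⟨j, e'⟩ ∈ M then f (some ⟨j, e'⟩) else 0 := by
  have h1 : ∑ e ∈ M, f e = ∑ e, if e ∈ M then f e else 0 := by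
    rw [Finset.sum_ite_mem, Finset.univ_inter]
  rw [h1, Fintype.sum_option, Fintype.sum_sigma]

/-- The relation for one set of labels. -/
def CrRel {I : Type} [Fintype I] [DecidableEq I] (B : I → Tree)
    (M : Finset (Option (Σ i, (B i).E))) : Prop :=
  ∃ a : Option (Σ i, (B i).E) → ℤ,
      (∀ v, ∑ e ∈ M, a e * cf B e v = ∑ e ∈ Mᶜ, a e * cf B e v) ∧
      ∃ v, (∑ e ∈ M, a e * cf B e v = 1 ∨ ∑ e ∈ M, a e * cf B e v = -1)

theorem cr_compl {I : Type} [Fintype I] [DecidableEq I] (B : I → Tree)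
    (M : Finset (Option (Σ i, (B i).E))) (h : CrRel B Mᶜ) : CrRel B M := by
  obtain ⟨a, h1, v, h2⟩ := h
  rw [compl_compl] at h1
  refine ⟨a, fun v => (h1 v).symm, v, ?_⟩
  rw [← h1 v]
  exact h2

/-- Case 1: a tree whose labels are neither all in `M` nor all outside `M`. -/
theorem cr_case1 {I : Type} [Fintype I] [DecidableEq I] (B : I → Tree)
    (M : Finset (Option (Σ i, (B i).E))) (i : I) (e₁ e₂ : (B i).E)
    (h1 : (some ⟨i, e₁⟩ : Option (Σ i, (B i).E)) ∈ M)
    (h2 : (some ⟨i, e₂⟩ : Option (Σ i, (B i).E)) ∉ M) : CrRel B M := by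
  set Mi : Finset (B i).E := univ.filter (fun e => (some ⟨i, e⟩ : Option (Σ i, (B i).E)) ∈ M)
    with hMi
  have hmem : ∀ e, e ∈ Mi ↔ (some ⟨i, e⟩ : Option (Σ i, (B i).E)) ∈ M := by
    intro e
    rw [hMi, Finset.mem_filter]
    simp
  obtain ⟨a', ha1, v', ha2⟩ := (B i).rel Mi ⟨e₁, (hmem e₁).mpr h1⟩ ⟨e₂, fun h => h2 ((hmem e₂).mp h)⟩
  let a : Option (Σ i, (B i).E) → ℤ := fun o =>
    match o with
    | none => 0
    | some p => if h : p.1 = i then a' (h ▸ p.2) else 0
  have ha_same : ∀ e : (B i).E, a (some ⟨i, e⟩) = a' e := by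
    intro e
    simp [a]
  have ha_ne : ∀ (j : I) (e : (B j).E), j ≠ i → a (some ⟨j, e⟩) = 0 := by
    intro j e hj
    simp [a, hj]
  have ha_none : a none = 0 := rfl
  -- sums over an arbitrary set of labels
  have hS : ∀ (N : Finset (Option (Σ i, (B i).E))) (v : Σ i, (B i).V),
      ∑ e ∈ N, a e * cf B e v =
        ∑ e' : (B i).E, if some ⟨i, e'⟩ ∈ N then a' e' * cf B (some ⟨i, e'⟩) v else 0 := by
    intro N v
    rw [cr_sum, ha_none]
    have : (if (none : Option (Σ i, (B i).E)) ∈ N then (0 : ℤ) * cf B none v else 0) = 0 := by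
      split_ifs <;> simp
    rw [this, zero_add, Finset.sum_eq_single i]
    · apply Finset.sum_congr rfl
      intro e _
      rw [ha_same]
    · intro j _ hj
      apply Finset.sum_eq_zero
      intro e _
      rw [ha_ne j e hj, zero_mul, ite_self]
    · intro h
      exact absurd (Finset.mem_univ i) h
  have hS1 : ∀ (w : (B i).V), ∑ e ∈ M, a e * cf B e ⟨i, w⟩ =
      ∑ e ∈ Mi, a' e * (B i).form e w := by
    intro w
    rw [hS, hMi, Finset.sum_filter]
    apply Finset.sum_congr rfl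
    intro e _
    rw [cf_some_same]
  have hS2 : ∀ (w : (B i).V), ∑ e ∈ Mᶜ, a e * cf B e ⟨i, w⟩ =
      ∑ e ∈ Miᶜ, a' e * (B i).form e w := by
    intro w
    have hc : Miᶜ = univ.filter (fun e => (some ⟨i, e⟩ : Option (Σ i, (B i).E)) ∈ Mᶜ) := by
      ext e
      rw [Finset.mem_compl, hmem, Finset.mem_filter, Finset.mem_compl]
      simp
    rw [hS, hc, Finset.sum_filter]
    apply Finset.sum_congr rfl
    intro e _
    rw [cf_some_same]
  refine ⟨a, ?_, ⟨i, v'⟩, ?_⟩
  · rintro ⟨j, w⟩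
    by_cases hj : i = j
    · subst hj
      rw [hS1, hS2]
      exact ha1 w
    · rw [hS, hS]
      have hz : ∀ (N : Finset (Option (Σ i, (B i).E))),
          (∑ e' : (B i).E, if some ⟨i, e'⟩ ∈ N then a' e' * cf B (some ⟨i, e'⟩) ⟨j, w⟩ else 0) = 0 := by
        intro N
        apply Finset.sum_eq_zero
        intro e _
        rw [cf_some_ne B i j e w hj, mul_zero, ite_self]
      rw [hz, hz]
  · rw [hS1]
    exact ha2

/-- Case 2: the cap is in `M` and some root is not in `M`. -/
theorem cr_case2 {I : Type} [Fintype I] [DecidableEq I] (B : I → Tree)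
    (M : Finset (Option (Σ i, (B i).E))) (i : I)
    (h1 : (none : Option (Σ i, (B i).E)) ∈ M)
    (h2 : (some ⟨i, (B i).root⟩ : Option (Σ i, (B i).E)) ∉ M) : CrRel B M := by
  let a : Option (Σ i, (B i).E) → ℤ := fun o =>
    match o with
    | none => 1
    | some p => if p.2 = (B p.1).root then
        (if (some ⟨p.1, (B p.1).root⟩ : Option (Σ i, (B i).E)) ∈ M then -1 else 1) else 0
  have ha_none : a none = 1 := rfl
  have ha_some : ∀ (j : I) (e : (B j).E), a (some ⟨j, e⟩) = if e = (B j).root then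
      (if (some ⟨j, (B j).root⟩ : Option (Σ i, (B i).E)) ∈ M then -1 else 1) else 0 :=
    fun _ _ => rfl
  have hS : ∀ (N : Finset (Option (Σ i, (B i).E))) (j : I) (w : (B j).V),
      ∑ e ∈ N, a e * cf B e ⟨j, w⟩ = (if (none : Option (Σ i, (B i).E)) ∈ N then 1 else 0) +
        (if (some ⟨j, (B j).root⟩ : Option (Σ i, (B i).E)) ∈ N then
          (if (some ⟨j, (B j).root⟩ : Option (Σ i, (B i).E)) ∈ M then -1 else 1) else 0) := by
    intro N j w
    rw [cr_sum, ha_none]
    have hcn : cf B none ⟨j, w⟩ = 1 := rfl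
    rw [hcn, mul_one]
    congr 1
    rw [Finset.sum_eq_single j]
    · rw [Finset.sum_eq_single (B j).root]
      · rw [ha_some, if_pos rfl, cf_some_same, (B j).form_root, mul_one]
      · intro e _ he
        rw [ha_some, if_neg he, zero_mul, ite_self]
      · intro h
        exact absurd (Finset.mem_univ _) h
    · intro k _ hk
      apply Finset.sum_eq_zero
      intro e _
      rw [cf_some_ne B k j e w hk, mul_zero, ite_self]
    · intro h
      exact absurd (Finset.mem_univ j) h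
  obtain ⟨w⟩ := (B i).nonempty
  refine ⟨a, ?_, ⟨i, w⟩, ?_⟩
  · rintro ⟨j, w⟩
    rw [hS, hS]
    simp only [Finset.mem_compl]
    by_cases hj : (some ⟨j, (B j).root⟩ : Option (Σ i, (B i).E)) ∈ M
    · simp [h1, hj]
    · simp [h1, hj]
  · left
    rw [hS]
    simp [h1, h2]

theorem cr_none {I : Type} [Fintype I] [DecidableEq I] (B : I → Tree)
    (M : Finset (Option (Σ i, (B i).E))) (h1 : (none : Option (Σ i, (B i).E)) ∈ M)
    (h2 : ∃ e, e ∉ M) : CrRel B M := by
  by_cases h : ∃ i, (some ⟨i, (B i).root⟩ : Option (Σ i, (B i).E)) ∉ M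
  · obtain ⟨i, hi⟩ := h
    exact cr_case2 B M i h1 hi
  · push Not at h
    obtain ⟨e, he⟩ := h2
    match e, he with
    | none, he => exact absurd h1 he
    | some ⟨i, e⟩, he => exact cr_case1 B M i (B i).root e (h i) he

/-- the capped bush is a tree. -/
theorem t_CR : S_CR := by
  intro I _ _ B M h1 h2
  change CrRel B M
  by_cases h : (none : Option (Σ i, (B i).E)) ∈ M
  · exact cr_none B M h h2
  · apply cr_compl
    apply cr_none B Mᶜ (Finset.mem_compl.mpr h)
    obtain ⟨e, he⟩ := h1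
    exact ⟨e, fun h' => (Finset.mem_compl.mp h') he⟩

end Pool.Agent.H276R2.Th
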