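import Pool.Agent.H276R2.Th.Spec

set_option autoImplicit false

/-! Task D (helper655): the profile. -/

namespace Pool.Agent.H276R2.Th

open Finset Real

theorem d_abs_int : MeasureTheory.Integrable (fun x : ℝ => |x|) gam := by
  have h1 := (ProbabilityTheory.memLp_id_gaussianReal (μ := 0) (v := 1) (1 : NNReal))
  have h2 : MeasureTheory.Integrable (fun x : ℝ => ‖id x‖) gam := by
    have h3 : MeasureTheory.MemLp (id : ℝ → ℝ) 1 gam := by simpa using h1
    exact (MeasureTheory.memLp_one_iff_integrable.1 h3).norm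
  simpa using h2

theorem d_half : ∫ x in Set.Ioi (0 : ℝ), x * Real.exp (-(1 / 2) * x ^ 2) = 1 := by
  have h := integral_rpow_mul_exp_neg_mul_rpow (p := 2) (q := 1) (b := 1 / 2) (by norm_num)
    (by norm_num) (by norm_num)
  have h2 : ∫ x in Set.Ioi (0 : ℝ), x * Real.exp (-(1 / 2) * x ^ 2) =
      ∫ x in Set.Ioi (0 : ℝ), x ^ (1 : ℝ) * Real.exp (-(1 / 2) * x ^ (2 : ℝ)) := by
    refine MeasureTheory.integral_congr_ae (Filter.Eventually.of_forall fun x => ?_)
    simp only [Real.rpow_one, Real.rpow_two]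
  rw [h2, h]
  norm_num

theorem d_abs : ∫ x : ℝ, |x| ∂gam = √(2 / π) := by
  unfold gam
  rw [ProbabilityTheory.integral_gaussianReal_eq_integral_smul (by norm_num : (1 : NNReal) ≠ 0)]
  have h1 : ∀ x : ℝ, ProbabilityTheory.gaussianPDFReal 0 1 x • |x| =
      (fun y : ℝ => (√(2 * π))⁻¹ * (y * Real.exp (-(1 / 2) * y ^ 2))) |x| := by
    intro x
    unfold ProbabilityTheory.gaussianPDFReal
    simp only [smul_eq_mul, sq_abs, NNReal.coe_one, mul_one, sub_zero]
    have : -x ^ 2 / 2 = -(1 / 2) * x ^ 2 := by ring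
    rw [this]
    ring
  simp only [h1]
  rw [integral_comp_abs (f := fun y : ℝ => (√(2 * π))⁻¹ * (y * Real.exp (-(1 / 2) * y ^ 2))),
    MeasureTheory.integral_const_mul, d_half]
  have h2 : √(2 / π) = 2 / √(2 * π) := by
    rw [eq_div_iff (by positivity), ← Real.sqrt_mul (by positivity)]
    have : 2 / π * (2 * π) = 2 ^ 2 := by
      field_simp
    rw [this]
    exact Real.sqrt_sq (by norm_num)
  rw [h2]
  ring

theorem t_D (h1 : S_D1) (h2 : S_D2) : S_D := by
  intro δ hδ
  obtain ⟨hint, _, _, hsq, hlast⟩ := h1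
  -- the second moment
  have hX : ∫ x : ℝ, x ^ 2 ∂gam = 1 := by
    have h := hsq 1 (fun d => if d = 1 then 1 else 0)
    have h3 : PP 1 (fun d => if d = 1 then 1 else 0) = Polynomial.X := by
      unfold PP
      rw [Finset.sum_range_succ, Finset.sum_range_succ]
      simp [He]
    rw [h3] at h
    simp only [Polynomial.eval_X] at h
    rw [h, Finset.sum_range_succ, Finset.sum_range_succ]
    simp
  have hXi : MeasureTheory.Integrable (fun x : ℝ => x ^ 2) gam := by
    have := hint (Polynomial.X ^ 2)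
    simpa using this
  have hs2 : √(2 * π) * √(2 / π) = 2 := by
    rw [← Real.sqrt_mul (by positivity)]
    have : 2 * π * (2 / π) = 2 ^ 2 := by
      field_simp
    rw [this]
    exact Real.sqrt_sq (by norm_num)
  have hphi1 : MeasureTheory.Integrable (fun x : ℝ => √(2 * π) * |x| - 2) gam :=
    (d_abs_int.const_mul _).sub (MeasureTheory.integrable_const _)
  have hphi0 : ∫ x : ℝ, (√(2 * π) * |x| - 2) ∂gam = 0 := by
    rw [MeasureTheory.integral_sub (d_abs_int.const_mul _) (MeasureTheory.integrable_const _),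
      MeasureTheory.integral_const_mul, d_abs, hs2]
    simp
  have hphisq : ∀ x : ℝ, (√(2 * π) * |x| - 2) ^ 2 =
      (2 * π * x ^ 2 + 4) - 4 * (√(2 * π) * |x|) := by
    intro x
    have e1 : √(2 * π) ^ 2 = 2 * π := Real.sq_sqrt (by positivity)
    have e2 : |x| ^ 2 = x ^ 2 := sq_abs x
    have e3 : (√(2 * π) * |x| - 2) ^ 2 =
      √(2 * π) ^ 2 * |x| ^ 2 + 4 - 4 * (√(2 * π) * |x|) := by ring
    rw [e3, e1, e2]
  have hi1 : MeasureTheory.Integrable (fun x : ℝ => 2 * π * x ^ 2 + 4) gam :=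
    (hXi.const_mul _).add (MeasureTheory.integrable_const _)
  have hi2 : MeasureTheory.Integrable (fun x : ℝ => 4 * (√(2 * π) * |x|)) gam :=
    (d_abs_int.const_mul _).const_mul _
  have hphi2i : MeasureTheory.Integrable (fun x : ℝ => (√(2 * π) * |x| - 2) ^ 2) gam := by
    simp only [hphisq]
    exact hi1.sub hi2
  have hphi2 : ∫ x : ℝ, (√(2 * π) * |x| - 2) ^ 2 ∂gam = 2 * π - 4 := by
    simp only [hphisq]
    rw [MeasureTheory.integral_sub hi1 hi2,
      MeasureTheory.integral_add (hXi.const_mul _) (MeasureTheory.integrable_const _),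
      MeasureTheory.integral_const_mul, MeasureTheory.integral_const_mul,
      MeasureTheory.integral_const_mul, d_abs, hs2, hX]
    simp
    ring
  have hpi : π < 3.15 := Real.pi_lt_d2
  have hpi3 : 3 < π := Real.pi_gt_three
  -- parameters
  set t : ℝ := δ / 12 with ht
  have ht0 : 0 < t := by positivity
  set δ' : ℝ := min (δ / 4) (δ / (16 * (1 + 1 / t))) with hδ'
  have hδ'0 : 0 < δ' := by positivity
  have hδ'1 : δ' ≤ δ / 4 := min_le_left _ _
  have hδ'2 : (1 + 1 / t) * (4 * δ') ≤ δ / 4 := by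
    have : δ' ≤ δ / (16 * (1 + 1 / t)) := min_le_right _ _
    rw [le_div_iff₀ (by positivity)] at this
    linarith
  obtain ⟨P1, Q1, heven, hPQ, hQ1, hP1⟩ := h2 δ' hδ'0
  set κ : ℝ := ∫ x, P1.eval x ∂gam with hκ
  set q : ℝ := ∫ x, Q1.eval x ∂gam with hq
  have hQ2i : MeasureTheory.Integrable (fun x : ℝ => (Q1.eval x) ^ 2) gam := by
    have := hint (Q1 ^ 2)
    simpa using this
  have hκq : |κ| ≤ q := by
    have e1 : κ = ∫ x, (P1.eval x - (√(2 * π) * |x| - 2)) ∂gam := by
      rw [MeasureTheory.integral_sub (hint P1) hphi1, hphi0, sub_zero]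
    rw [e1, hq]
    refine (MeasureTheory.abs_integral_le_integral_abs).trans ?_
    refine MeasureTheory.integral_mono ((hint P1).sub hphi1).abs (hint Q1) fun x => ?_
    simp only
    rw [abs_sub_comm]
    exact hPQ x
  have hq2 : q ^ 2 ≤ δ' := by
    have e1 : 0 ≤ ∫ x, (Q1.eval x - q) ^ 2 ∂gam :=
      MeasureTheory.integral_nonneg fun x => sq_nonneg _
    have e2 : ∫ x, (Q1.eval x - q) ^ 2 ∂gam = ∫ x, (Q1.eval x) ^ 2 ∂gam - q ^ 2 := by
      have e3 : ∀ x, (Q1.eval x - q) ^ 2 = ((Q1.eval x) ^ 2 - (2 * q) * Q1.eval x) + q ^ 2 := by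
        intro x
        ring
      have e4 : MeasureTheory.Integrable (fun x => (Q1.eval x) ^ 2 - (2 * q) * Q1.eval x) gam :=
        hQ2i.sub ((hint Q1).const_mul _)
      simp only [e3]
      rw [MeasureTheory.integral_add e4
        (MeasureTheory.integrable_const _), MeasureTheory.integral_sub hQ2i
        ((hint Q1).const_mul _), MeasureTheory.integral_const_mul, ← hq]
      simp
      ring
    linarith
  have hκ2 : κ ^ 2 ≤ δ' := by
    have : κ ^ 2 ≤ q ^ 2 := by
      rw [← sq_abs κ]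
      exact pow_le_pow_left₀ (abs_nonneg _) hκq 2
    linarith
  -- the polynomial
  have hPeven : ∀ x, (P1 - Polynomial.C κ).eval (-x) = (P1 - Polynomial.C κ).eval x := by
    intro x
    rw [Polynomial.eval_sub, Polynomial.eval_sub, heven, Polynomial.eval_C, Polynomial.eval_C]
  have hP0 : ∫ x, (P1 - Polynomial.C κ).eval x ∂gam = 0 := by
    simp only [Polynomial.eval_sub, Polynomial.eval_C]
    rw [MeasureTheory.integral_sub (hint P1) (MeasureTheory.integrable_const _), ← hκ]
    simp
  obtain ⟨D, c, hPc, hc0, hc1, hder⟩ := hlast _ hPeven hP0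
  have hPsq := hsq D c
  rw [← hPc] at hPsq
  have hbd : ∀ x : ℝ, |√(2 * π) * |x| - 2 - (P1 - Polynomial.C κ).eval x| ≤
      (Q1 + Polynomial.C |κ|).eval x := by
    intro x
    have e := hPQ x
    rw [Polynomial.eval_sub, Polynomial.eval_add, Polynomial.eval_C, Polynomial.eval_C]
    have e2 : √(2 * π) * |x| - 2 - (P1.eval x - κ) = (√(2 * π) * |x| - 2 - P1.eval x) + κ := by
      ring
    rw [e2]
    exact (abs_add_le _ _).trans (add_le_add e le_rfl)
  have hQsq : ∫ x, ((Q1 + Polynomial.C |κ|).eval x) ^ 2 ∂gam ≤ 4 * δ' := by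
    have e1 : ∫ x, ((Q1 + Polynomial.C |κ|).eval x) ^ 2 ∂gam ≤
        ∫ x, (2 * (Q1.eval x) ^ 2 + 2 * κ ^ 2) ∂gam := by
      refine MeasureTheory.integral_mono ?_
        ((hQ2i.const_mul _).add (MeasureTheory.integrable_const _)) fun x => ?_
      · have := hint ((Q1 + Polynomial.C |κ|) ^ 2)
        simpa using this
      · simp only [Polynomial.eval_add, Polynomial.eval_C]
        nlinarith [sq_nonneg (Q1.eval x - |κ|), sq_abs κ]
    have e2 : ∫ x, (2 * (Q1.eval x) ^ 2 + 2 * κ ^ 2) ∂gam =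
        2 * ∫ x, (Q1.eval x) ^ 2 ∂gam + 2 * κ ^ 2 := by
      rw [MeasureTheory.integral_add (hQ2i.const_mul _) (MeasureTheory.integrable_const _),
        MeasureTheory.integral_const_mul]
      simp
    rw [e2] at e1
    linarith
  have hPi : MeasureTheory.Integrable (fun x : ℝ => ((P1 - Polynomial.C κ).eval x) ^ 2) gam := by
    have := hint ((P1 - Polynomial.C κ) ^ 2)
    simpa only [Polynomial.eval_pow] using this
  have hQi : MeasureTheory.Integrable (fun x : ℝ => ((Q1 + Polynomial.C |κ|).eval x) ^ 2) gam := by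
    have := hint ((Q1 + Polynomial.C |κ|) ^ 2)
    simpa only [Polynomial.eval_pow] using this
  have hdiff : |∫ x, ((P1 - Polynomial.C κ).eval x) ^ 2 ∂gam - (2 * π - 4)| ≤ δ / 2 := by
    rw [← hphi2, ← MeasureTheory.integral_sub hPi hphi2i]
    refine (MeasureTheory.abs_integral_le_integral_abs).trans ?_
    have e1 : ∫ x, |((P1 - Polynomial.C κ).eval x) ^ 2 - (√(2 * π) * |x| - 2) ^ 2| ∂gam ≤
        ∫ x, ((1 + 1 / t) * ((Q1 + Polynomial.C |κ|).eval x) ^ 2 +
          t * (√(2 * π) * |x| - 2) ^ 2) ∂gam := by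
      refine MeasureTheory.integral_mono (hPi.sub hphi2i).abs
        ((hQi.const_mul _).add (hphi2i.const_mul _)) fun x => ?_
      simp only
      have e := hbd x
      generalize (P1 - Polynomial.C κ).eval x = p at e
      generalize (Q1 + Polynomial.C |κ|).eval x = y at e
      generalize √(2 * π) * |x| - 2 = f at e
      -- |p^2 - f^2| ≤ y^2 + 2 y |f|
      have a1 : |p ^ 2 - f ^ 2| = |f - p| * |(p - f) + 2 * f| := by
        rw [← abs_mul]
        have : p ^ 2 - f ^ 2 = -((f - p) * ((p - f) + 2 * f)) := by ring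
        rw [this, abs_neg]
      have a2 : |(p - f) + 2 * f| ≤ y + 2 * |f| := by
        refine (abs_add_le _ _).trans ?_
        rw [abs_sub_comm, abs_mul, abs_two]
        linarith
      have hy : 0 ≤ y := (abs_nonneg _).trans e
      have a3 : |p ^ 2 - f ^ 2| ≤ y * (y + 2 * |f|) := by
        rw [a1]
        exact mul_le_mul e a2 (abs_nonneg _) hy
      have a4 : 2 * (y * |f|) ≤ 1 / t * y ^ 2 + t * f ^ 2 := by
        have b1 : 0 ≤ (1 / t) * (y - t * |f|) ^ 2 := by positivity
        have b2 : (1 / t) * (y - t * |f|) ^ 2 = 1 / t * y ^ 2 - 2 * (y * |f|) + t * |f| ^ 2 := by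
          field_simp
          ring
        rw [sq_abs] at b2
        linarith
      nlinarith
    refine e1.trans ?_
    rw [MeasureTheory.integral_add (hQi.const_mul _) (hphi2i.const_mul _),
      MeasureTheory.integral_const_mul, MeasureTheory.integral_const_mul, hphi2]
    have e2 : (1 + 1 / t) * ∫ x, ((Q1 + Polynomial.C |κ|).eval x) ^ 2 ∂gam ≤
        (1 + 1 / t) * (4 * δ') := mul_le_mul_of_nonneg_left hQsq (by positivity)
    have e3 : t * (2 * π - 4) ≤ δ / 4 := by
      rw [ht]
      nlinarith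
    linarith
  refine ⟨D, c, Q1 + Polynomial.C |κ|, hc0, hc1, ?_, ?_, ?_, ?_⟩
  · intro x
    rw [← hPc]
    exact hbd x
  · linarith
  · have e1 : ∑ d ∈ range (D + 1), ((d : ℝ) - 1) * (c d ^ 2 * d.factorial) =
        ∑ d ∈ range (D + 1), (d : ℝ) * (c d ^ 2 * d.factorial) -
          ∑ d ∈ range (D + 1), c d ^ 2 * d.factorial := by
      rw [← Finset.sum_sub_distrib]
      refine Finset.sum_congr rfl fun d _ => ?_
      ring
    rw [e1, ← hder, ← hPsq]
    have e2 : Polynomial.derivative (P1 - Polynomial.C κ) = Polynomial.derivative P1 := by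
      rw [Polynomial.derivative_sub, Polynomial.derivative_C, sub_zero]
    rw [e2]
    have e3 := (abs_le.1 hdiff).1
    linarith
  · rw [← hPsq]
    linarith

end Pool.Agent.H276R2.Th
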