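import Pool.Agent.H276R2.Th.Spec

set_option autoImplicit false

/-! Task D1 (helper655): Hermite expansions for the standard Gaussian. -/

namespace Pool.Agent.H276R2.Th

open Finset

theorem d1_der (d : ℕ) : Polynomial.derivative (He (d + 1)) = ((d : Polynomial ℝ) + 1) * He d := by
  have key : ∀ d : ℕ, Polynomial.derivative (He (d + 1)) = ((d : Polynomial ℝ) + 1) * He d ∧
      Polynomial.derivative (He (d + 2)) = (((d + 1 : ℕ) : Polynomial ℝ) + 1) * He (d + 1) := by
    intro d
    induction d with
    | zero =>
      refine ⟨?_, ?_⟩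
      · simp [He]
      · simp only [He, Polynomial.derivative_sub, Polynomial.derivative_mul,
          Polynomial.derivative_X, Polynomial.derivative_one, Polynomial.derivative_add,
          Polynomial.derivative_natCast]
        push_cast
        ring
    | succ d ih =>
      refine ⟨ih.2, ?_⟩
      have h1 : He (d + 1 + 2) = Polynomial.X * He (d + 1 + 1) -
          (((d + 1 : ℕ) : Polynomial ℝ) + 1) * He (d + 1) := by rw [He]
      have h2 : He (d + 1 + 1) = Polynomial.X * He (d + 1) - ((d : Polynomial ℝ) + 1) * He d := by
        rw [He]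
      rw [h1, Polynomial.derivative_sub, Polynomial.derivative_mul, Polynomial.derivative_mul,
        Polynomial.derivative_X, Polynomial.derivative_add, Polynomial.derivative_natCast,
        Polynomial.derivative_one, ih.1]
      have h3 : Polynomial.derivative (He (d + 1 + 1)) =
        (((d + 1 : ℕ) : Polynomial ℝ) + 1) * He (d + 1) := ih.2
      rw [h3]
      have h4 : (((d + 1 : ℕ) : Polynomial ℝ) + 1) * (He (d + 1 + 1)) =
        (((d + 1 : ℕ) : Polynomial ℝ) + 1) * (Polynomial.X * He (d + 1) -
          ((d : Polynomial ℝ) + 1) * He d) := by rw [h2]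
      push_cast at h4 ⊢
      linear_combination -h4
  exact (key d).1

theorem d1_succ (d : ℕ) : He (d + 1) = Polynomial.X * He d - Polynomial.derivative (He d) := by
  rcases d with _ | d
  · simp [He]
  · rw [d1_der, He]

theorem d1_deg (d : ℕ) : (He d).natDegree ≤ d ∧ (He d).coeff d = 1 := by
  induction d with
  | zero => simp [He]
  | succ d ih =>
    obtain ⟨h1, h2⟩ := ih
    refine ⟨?_, ?_⟩
    · rw [d1_succ]
      refine (Polynomial.natDegree_sub_le _ _).trans (max_le ?_ ?_)
      · refine Polynomial.natDegree_mul_le.trans ?_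
        rw [Polynomial.natDegree_X]
        omega
      · exact (Polynomial.natDegree_derivative_le _).trans (by omega)
    · rw [d1_succ, Polynomial.coeff_sub, Polynomial.coeff_X_mul, h2, Polynomial.coeff_derivative,
        Polynomial.coeff_eq_zero_of_natDegree_lt (by omega)]
      simp

theorem d1_expand (D : ℕ) : ∀ P : Polynomial ℝ, P.natDegree ≤ D → ∃ c : ℕ → ℝ,
    (∀ d, D < d → c d = 0) ∧ P = PP D c := by
  induction D with
  | zero =>
    intro P hP
    refine ⟨fun d => if d = 0 then P.coeff 0 else 0, fun d hd => if_neg (by omega), ?_⟩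
    have h1 : P = Polynomial.C (P.coeff 0) := Polynomial.eq_C_of_natDegree_le_zero hP
    unfold PP
    rw [h1]
    simp [He]
  | succ D ih =>
    intro P hP
    obtain ⟨h1, h2⟩ := d1_deg (D + 1)
    obtain ⟨c, hc0, hc⟩ := ih (P - Polynomial.C (P.coeff (D + 1)) * He (D + 1)) (by
      rw [Polynomial.natDegree_le_iff_coeff_eq_zero]
      intro j hj
      rw [Polynomial.coeff_sub, Polynomial.coeff_C_mul]
      rcases Nat.lt_or_ge (D + 1) j with h | h
      · rw [Polynomial.coeff_eq_zero_of_natDegree_lt (lt_of_le_of_lt hP h),
          Polynomial.coeff_eq_zero_of_natDegree_lt (lt_of_le_of_lt h1 h)]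
        simp
      · have hj2 : j = D + 1 := by omega
        subst hj2
        rw [h2]
        ring)
    refine ⟨fun d => if d = D + 1 then P.coeff (D + 1) else c d, ?_, ?_⟩
    · intro d hd
      simp only
      rw [if_neg (by omega)]
      exact hc0 d (by omega)
    · unfold PP at hc ⊢
      rw [Finset.sum_range_succ]
      simp only [if_true]
      have e : ∑ d ∈ range (D + 1), Polynomial.C (if d = D + 1 then P.coeff (D + 1) else c d) * He d
          = ∑ d ∈ range (D + 1), Polynomial.C (c d) * He d := by
        apply Finset.sum_congr rfl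
        intro k hk
        rw [if_neg (by have := Finset.mem_range.1 hk; omega)]
      rw [e, ← hc]
      ring

theorem d1_int_pow (n : ℕ) : MeasureTheory.Integrable (fun x : ℝ => x ^ n) gam := by
  rcases Nat.eq_zero_or_pos n with h | h
  · subst h
    simp only [pow_zero]
    exact MeasureTheory.integrable_const _
  · have h1 := (ProbabilityTheory.memLp_id_gaussianReal (μ := 0) (v := 1) (n : NNReal))
    have h2 : MeasureTheory.Integrable (fun x : ℝ => ‖id x‖ ^ n) gam := by
      have := h1.integrable_norm_pow (p := n) (by omega)
      simpa using this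
    refine h2.mono (by fun_prop) (Filter.Eventually.of_forall fun x => ?_)
    simp

theorem d1_int (P : Polynomial ℝ) : MeasureTheory.Integrable (fun x => P.eval x) gam := by
  simp only [Polynomial.eval_eq_sum_range]
  exact MeasureTheory.integrable_finsetSum _ fun i _ => (d1_int_pow i).const_mul _

/-- integration by parts -/
theorem d1_ibp (P : Polynomial ℝ) :
    ∫ x, (Polynomial.X * P - Polynomial.derivative P).eval x ∂gam = 0 := by
  have hpdf : ∀ x : ℝ, HasDerivAt (fun x => ProbabilityTheory.gaussianPDFReal 0 1 x)
      (-x * ProbabilityTheory.gaussianPDFReal 0 1 x) x := by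
    intro x
    unfold ProbabilityTheory.gaussianPDFReal
    have h1 : HasDerivAt (fun x : ℝ => -(x - 0) ^ 2 / (2 * ((1 : NNReal) : ℝ))) (-x) x := by
      have h2 := (((hasDerivAt_id x).sub_const 0).pow 2).neg.div_const (2 * ((1 : NNReal) : ℝ))
      refine h2.congr_deriv ?_
      simp
      ring
    have h3 := h1.exp.const_mul (√(2 * Real.pi * ((1 : NNReal) : ℝ)))⁻¹
    refine h3.congr_deriv ?_
    ring
  have hint : ∀ Q : Polynomial ℝ, MeasureTheory.Integrable
      (fun x => Q.eval x * ProbabilityTheory.gaussianPDFReal 0 1 x) := by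
    intro Q
    have h1 := d1_int Q
    unfold gam at h1
    rw [ProbabilityTheory.gaussianReal_of_var_ne_zero 0 (by norm_num : (1 : NNReal) ≠ 0),
      MeasureTheory.integrable_withDensity_iff_integrable_smul'
        (ProbabilityTheory.measurable_gaussianPDF 0 1)
        (Filter.Eventually.of_forall fun x => ProbabilityTheory.gaussianPDF_lt_top)] at h1
    refine h1.congr (Filter.Eventually.of_forall fun x => ?_)
    simp only [ProbabilityTheory.toReal_gaussianPDF, smul_eq_mul]
    ring
  have hder : ∀ x : ℝ, HasDerivAt (fun x => P.eval x * ProbabilityTheory.gaussianPDFReal 0 1 x)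
      (-((Polynomial.X * P - Polynomial.derivative P).eval x *
        ProbabilityTheory.gaussianPDFReal 0 1 x)) x := by
    intro x
    refine ((P.hasDerivAt x).mul (hpdf x)).congr_deriv ?_
    rw [Polynomial.eval_sub, Polynomial.eval_mul, Polynomial.eval_X]
    ring
  have h0 := MeasureTheory.integral_eq_zero_of_hasDerivAt_of_integrable hder (hint _).neg (hint P)
  rw [MeasureTheory.integral_neg, neg_eq_zero] at h0
  unfold gam
  rw [ProbabilityTheory.integral_gaussianReal_eq_integral_smul (by norm_num : (1 : NNReal) ≠ 0)]
  refine Eq.trans ?_ h0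
  refine MeasureTheory.integral_congr_ae (Filter.Eventually.of_forall fun x => ?_)
  simp only [smul_eq_mul]
  ring

theorem d1_He_int (d : ℕ) : ∫ x, (He d).eval x ∂gam = if d = 0 then 1 else 0 := by
  rcases d with _ | d
  · simp [He]
  · rw [d1_succ, d1_ibp, if_neg (by omega)]

theorem d1_orth (d e : ℕ) : ∫ x, (He d * He e).eval x ∂gam =
    if d = e then (d.factorial : ℝ) else 0 := by
  induction d generalizing e with
  | zero =>
    have h1 : He 0 * He e = He e := by simp [He]
    rw [h1, d1_He_int]
    rcases e with _ | e
    · simp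
    · simp
  | succ d ih =>
    have h1 : He (d + 1) * He e = (Polynomial.X * (He d * He e) -
        Polynomial.derivative (He d * He e)) + He d * Polynomial.derivative (He e) := by
      rw [d1_succ, Polynomial.derivative_mul]
      ring
    have h2 : ∫ x, (He (d + 1) * He e).eval x ∂gam =
        ∫ x, (He d * Polynomial.derivative (He e)).eval x ∂gam := by
      rw [h1]
      simp only [Polynomial.eval_add (p := Polynomial.X * (He d * He e) -
        Polynomial.derivative (He d * He e))]
      rw [MeasureTheory.integral_add (d1_int _) (d1_int _), d1_ibp, zero_add]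
    rw [h2]
    rcases e with _ | e
    · simp [He]
    · rw [d1_der]
      have h3 : He d * (((e : Polynomial ℝ) + 1) * He e) =
          Polynomial.C ((e : ℝ) + 1) * (He d * He e) := by
        rw [map_add, map_one, map_natCast]
        ring
      rw [h3]
      simp only [Polynomial.eval_mul (p := Polynomial.C ((e : ℝ) + 1)), Polynomial.eval_C]
      rw [MeasureTheory.integral_const_mul, ih]
      by_cases h : d = e
      · subst h
        rw [if_pos rfl, if_pos rfl, Nat.factorial_succ]
        push_cast
        ring
      · rw [if_neg h, if_neg (by omega), mul_zero]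

theorem d1_coef (D : ℕ) (c : ℕ → ℝ) (e : ℕ) : ∫ x, (PP D c * He e).eval x ∂gam =
    if e ≤ D then c e * e.factorial else 0 := by
  have h1 : ∀ x, (PP D c * He e).eval x =
      ∑ d ∈ range (D + 1), c d * (He d * He e).eval x := by
    intro x
    unfold PP
    rw [Finset.sum_mul, Polynomial.eval_finsetSum]
    refine Finset.sum_congr rfl fun d _ => ?_
    rw [mul_assoc, Polynomial.eval_mul (p := Polynomial.C (c d)), Polynomial.eval_C]
  simp only [h1]
  rw [MeasureTheory.integral_finsetSum _ fun d _ => (d1_int _).const_mul _]
  simp only [MeasureTheory.integral_const_mul, d1_orth, mul_ite, mul_zero]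
  rw [Finset.sum_ite_eq']
  simp only [Finset.mem_range, Nat.lt_succ_iff]

theorem d1_sq (D : ℕ) (c : ℕ → ℝ) :
    ∫ x, ((PP D c).eval x) ^ 2 ∂gam = ∑ d ∈ range (D + 1), c d ^ 2 * d.factorial := by
  have h1 : ∀ x, ((PP D c).eval x) ^ 2 =
      ∑ e ∈ range (D + 1), c e * (PP D c * He e).eval x := by
    intro x
    have h2 : (PP D c).eval x = ∑ e ∈ range (D + 1), c e * (He e).eval x := by
      conv_lhs => unfold PP
      rw [Polynomial.eval_finsetSum]
      refine Finset.sum_congr rfl fun d _ => ?_
      rw [Polynomial.eval_mul, Polynomial.eval_C]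
    rw [pow_two]
    nth_rewrite 2 [h2]
    rw [Finset.mul_sum]
    refine Finset.sum_congr rfl fun e _ => ?_
    rw [Polynomial.eval_mul]
    ring
  simp only [h1]
  rw [MeasureTheory.integral_finsetSum _ fun d _ => (d1_int _).const_mul _]
  refine Finset.sum_congr rfl fun e he => ?_
  rw [MeasureTheory.integral_const_mul, d1_coef, if_pos (by
    have := Finset.mem_range.1 he; omega)]
  ring

theorem d1_odd (P : Polynomial ℝ) (h : ∀ x, P.eval (-x) = -P.eval x) :
    ∫ x, P.eval x ∂gam = 0 := by
  have h1 : ∫ x, P.eval x ∂gam = ∫ x, P.eval (-x) ∂gam := by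
    have h2 : gam.map (fun x : ℝ => -x) = gam := by
      unfold gam
      rw [ProbabilityTheory.gaussianReal_map_neg, neg_zero]
    conv_lhs => rw [← h2]
    rw [MeasureTheory.integral_map (by fun_prop) (by fun_prop)]
  simp only [h, MeasureTheory.integral_neg] at h1
  linarith

theorem t_D1 : S_D1 := by
  refine ⟨d1_int, d1_He_int, ?_, d1_sq, ?_⟩
  · intro P
    obtain ⟨c, _, hc⟩ := d1_expand P.natDegree P le_rfl
    exact ⟨_, c, hc⟩
  · intro P heven hP0
    obtain ⟨c, hc0, hc⟩ := d1_expand P.natDegree P le_rfl
    set D := P.natDegree with hD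
    refine ⟨D, c, hc, ?_, ?_, ?_⟩
    · have h1 := d1_coef D c 0
      rw [← hc, if_pos (Nat.zero_le _)] at h1
      have h2 : P * He 0 = P := by simp [He]
      rw [h2, hP0] at h1
      simpa using h1.symm
    · by_cases h : 1 ≤ D
      · have h1 := d1_coef D c 1
        rw [← hc, if_pos h, d1_odd] at h1
        · simpa using h1.symm
        · intro x
          have h3 : He 1 = Polynomial.X := by rw [He]
          rw [h3, Polynomial.eval_mul, Polynomial.eval_mul, heven, Polynomial.eval_X,
            Polynomial.eval_X]
          ring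
      · exact hc0 1 (by omega)
    · have h1 : P.derivative = PP D (fun d => ((d : ℝ) + 1) * c (d + 1)) := by
        conv_lhs => rw [hc]
        unfold PP
        rw [Polynomial.derivative_sum, Finset.sum_range_succ', Finset.sum_range_succ]
        have h2 : Polynomial.derivative (Polynomial.C (c 0) * He 0) = 0 := by simp [He]
        rw [h2, add_zero]
        simp only [hc0 (D + 1) (by omega), mul_zero, map_zero, zero_mul, add_zero]
        refine Finset.sum_congr rfl fun d _ => ?_
        rw [Polynomial.derivative_C_mul, d1_der, map_mul, map_add, map_one, map_natCast]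
        ring
      rw [h1, d1_sq]
      rw [Finset.sum_range_succ' (fun d => (d : ℝ) * (c d ^ 2 * d.factorial)),
        Finset.sum_range_succ (fun d => (((d : ℝ) + 1) * c (d + 1)) ^ 2 * (d.factorial : ℝ))]
      simp only [hc0 (D + 1) (by omega), mul_zero, Nat.cast_zero, zero_mul, add_zero, ne_eq, OfNat.ofNat_ne_zero,
        not_false_eq_true, zero_pow]
      refine Finset.sum_congr rfl fun d _ => ?_
      rw [Nat.factorial_succ]
      push_cast
      ring

end Pool.Agent.H276R2.Th
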