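import Pool.Agent.H276R2.Th.Spec

/-!
# Part D2: polynomial approximation of the absolute value
-/

set_option autoImplicit false

namespace Pool.Agent.H276R2.Th

open Finset Real MeasureTheory ProbabilityTheory

open Polynomial (C X)

/-- Taylor polynomials of the cosine. -/
noncomputable def d2_T (q : ℕ) : Polynomial ℝ :=
  ∑ i ∈ range q, C ((-1) ^ i / ((2 * i).factorial : ℝ)) * X ^ (2 * i)

/-- Taylor polynomials of the sine. -/
noncomputable def d2_S (q : ℕ) : Polynomial ℝ :=
  ∑ i ∈ range q, C ((-1) ^ i / ((2 * i + 1).factorial : ℝ)) * X ^ (2 * i + 1)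

theorem d2_S_deriv (q : ℕ) : (d2_S q).derivative = d2_T q := by
  unfold d2_S d2_T
  rw [Polynomial.derivative_sum]
  refine Finset.sum_congr rfl fun i _ => ?_
  rw [Polynomial.derivative_C_mul, Polynomial.derivative_X_pow, Nat.add_sub_cancel, ← mul_assoc,
    ← Polynomial.C_mul]
  congr 2
  rw [Nat.factorial_succ]
  push_cast
  have h1 : ((2 * i).factorial : ℝ) ≠ 0 := by positivity
  have h2 : (2 * (i : ℝ) + 1) ≠ 0 := by positivity
  field_simp

theorem d2_T_deriv (q : ℕ) : (d2_T (q + 1)).derivative = -d2_S q := by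
  unfold d2_S d2_T
  rw [Polynomial.derivative_sum, Finset.sum_range_succ', ← Finset.sum_neg_distrib]
  simp only [mul_zero, pow_zero, Nat.factorial_zero, mul_one, Polynomial.derivative_C, add_zero]
  refine Finset.sum_congr rfl fun i _ => ?_
  rw [Polynomial.derivative_C_mul, Polynomial.derivative_X_pow]
  have h0 : 2 * (i + 1) - 1 = 2 * i + 1 := by omega
  rw [h0, ← mul_assoc, ← Polynomial.C_mul, ← neg_mul, ← Polynomial.C_neg]
  congr 2
  have h3 : 2 * (i + 1) = (2 * i + 1) + 1 := by ring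
  rw [h3, Nat.factorial_succ]
  push_cast
  have h1 : ((2 * i + 1).factorial : ℝ) ≠ 0 := by positivity
  have h2 : (2 * (i : ℝ) + 1 + 1) ≠ 0 := by positivity
  field_simp
  ring

theorem d2_T_even (q : ℕ) (x : ℝ) : (d2_T q).eval (-x) = (d2_T q).eval x := by
  unfold d2_T
  rw [Polynomial.eval_finsetSum, Polynomial.eval_finsetSum]
  refine Finset.sum_congr rfl fun i _ => ?_
  simp only [Polynomial.eval_mul, Polynomial.eval_C, Polynomial.eval_pow, Polynomial.eval_X]
  rw [(even_two_mul i).neg_pow]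

theorem d2_S_odd (q : ℕ) (x : ℝ) : (d2_S q).eval (-x) = -(d2_S q).eval x := by
  unfold d2_S
  rw [Polynomial.eval_finsetSum, Polynomial.eval_finsetSum, ← Finset.sum_neg_distrib]
  refine Finset.sum_congr rfl fun i _ => ?_
  simp only [Polynomial.eval_mul, Polynomial.eval_C, Polynomial.eval_pow, Polynomial.eval_X]
  have ho : Odd (2 * i + 1) := ⟨i, rfl⟩
  rw [ho.neg_pow]
  ring

/-- Integration of a bound on the derivative. -/
theorem d2_int {f f' : ℝ → ℝ} (hf : ∀ x, HasDerivAt f (f' x) x) (h0 : f 0 = 0) (k : ℕ)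
    (hb : ∀ x, 0 ≤ x → f' x ≤ x ^ k / (k.factorial : ℝ)) (x : ℝ) (hx : 0 ≤ x) :
    f x ≤ x ^ (k + 1) / ((k + 1).factorial : ℝ) := by
  have hg : ∀ y, HasDerivAt (fun y => y ^ (k + 1) / ((k + 1).factorial : ℝ) - f y)
      (y ^ k / (k.factorial : ℝ) - f' y) y := by
    intro y
    have h1 : HasDerivAt (fun y : ℝ => y ^ (k + 1) / ((k + 1).factorial : ℝ))
        (y ^ k / (k.factorial : ℝ)) y := by
      have h2 := (hasDerivAt_pow (k + 1) y).div_const ((k + 1).factorial : ℝ)
      refine h2.congr_deriv ?_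
      rw [Nat.factorial_succ, Nat.add_sub_cancel]
      push_cast
      have h1 : ((k).factorial : ℝ) ≠ 0 := by positivity
      have h2 : ((k : ℝ) + 1) ≠ 0 := by positivity
      field_simp
    exact h1.sub (hf y)
  have hmono : MonotoneOn (fun y => y ^ (k + 1) / ((k + 1).factorial : ℝ) - f y) (Set.Ici 0) := by
    apply monotoneOn_of_deriv_nonneg (convex_Ici 0)
    · exact fun y _ => (hg y).continuousAt.continuousWithinAt
    · exact fun y _ => (hg y).differentiableAt.differentiableWithinAt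
    · intro y hy
      rw [interior_Ici, Set.mem_Ioi] at hy
      rw [(hg y).deriv]
      linarith [hb y hy.le]
  have := hmono (Set.mem_Ici.2 le_rfl) (Set.mem_Ici.2 hx) hx
  simp only [h0] at this
  have h3 : (0 : ℝ) ^ (k + 1) / ((k + 1).factorial : ℝ) = 0 := by simp
  linarith

theorem d2_S_zero (q : ℕ) : (d2_S q).eval 0 = 0 := by
  have := d2_S_odd q 0
  rw [neg_zero] at this
  linarith

theorem d2_T_zero (q : ℕ) : (d2_T (q + 1)).eval 0 = 1 := by
  unfold d2_T
  rw [Polynomial.eval_finsetSum, Finset.sum_range_succ']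
  simp

theorem d2_taylor_nonneg (q : ℕ) :
    (∀ x : ℝ, 0 ≤ x → |cos x - (d2_T q).eval x| ≤ x ^ (2 * q) / ((2 * q).factorial : ℝ)) ∧
    (∀ x : ℝ, 0 ≤ x → |sin x - (d2_S q).eval x| ≤ x ^ (2 * q + 1) / ((2 * q + 1).factorial : ℝ)) := by
  have hsin : ∀ q : ℕ,
      (∀ x : ℝ, 0 ≤ x → |cos x - (d2_T q).eval x| ≤ x ^ (2 * q) / ((2 * q).factorial : ℝ)) →
      (∀ x : ℝ, 0 ≤ x →
        |sin x - (d2_S q).eval x| ≤ x ^ (2 * q + 1) / ((2 * q + 1).factorial : ℝ)) := by
    intro q h x hx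
    have hd : ∀ y : ℝ, HasDerivAt (fun y => sin y - (d2_S q).eval y) (cos y - (d2_T q).eval y) y := by
      intro y
      rw [← d2_S_deriv]
      exact (hasDerivAt_sin y).sub ((d2_S q).hasDerivAt y)
    rw [abs_le]
    constructor
    · have h2 := d2_int (f := fun y => -(sin y - (d2_S q).eval y))
        (f' := fun y => -(cos y - (d2_T q).eval y)) (fun y => (hd y).neg)
        (by simp [d2_S_zero]) (2 * q) (fun y hy => by
          have := (abs_le.1 (h y hy)).1; linarith) x hx
      beta_reduce at h2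
      linarith
    · exact d2_int (f := fun y => sin y - (d2_S q).eval y)
        (f' := fun y => cos y - (d2_T q).eval y) hd
        (by simp [d2_S_zero]) (2 * q) (fun y hy => (abs_le.1 (h y hy)).2) x hx
  induction q with
  | zero =>
    have h0 : ∀ x : ℝ, 0 ≤ x →
        |cos x - (d2_T 0).eval x| ≤ x ^ (2 * 0) / ((2 * 0).factorial : ℝ) := by
      intro x _
      simp only [d2_T, Finset.range_zero, Finset.sum_empty, Polynomial.eval_zero, sub_zero,
        mul_zero, pow_zero, Nat.factorial_zero, Nat.cast_one, div_one]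
      exact abs_cos_le_one x
    exact ⟨h0, hsin 0 h0⟩
  | succ q ih =>
    have h0 : ∀ x : ℝ, 0 ≤ x → |cos x - (d2_T (q + 1)).eval x| ≤
        x ^ (2 * (q + 1)) / ((2 * (q + 1)).factorial : ℝ) := by
      intro x hx
      have hd : ∀ y : ℝ, HasDerivAt (fun y => cos y - (d2_T (q + 1)).eval y)
          (-(sin y - (d2_S q).eval y)) y := by
        intro y
        have h1 := (hasDerivAt_cos y).sub ((d2_T (q + 1)).hasDerivAt y)
        rw [d2_T_deriv] at h1
        refine h1.congr_deriv ?_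
        rw [Polynomial.eval_neg]; ring
      have h3 : 2 * (q + 1) = (2 * q + 1) + 1 := by ring
      rw [h3, abs_le]
      constructor
      · have h2 := d2_int (f := fun y => -(cos y - (d2_T (q + 1)).eval y))
          (f' := fun y => - -(sin y - (d2_S q).eval y)) (fun y => (hd y).neg)
          (by simp [d2_T_zero]) (2 * q + 1) (fun y hy => by
            have := (abs_le.1 (ih.2 y hy)).2; linarith) x hx
        beta_reduce at h2
        linarith
      · exact d2_int (f := fun y => cos y - (d2_T (q + 1)).eval y)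
          (f' := fun y => -(sin y - (d2_S q).eval y)) hd
          (by simp [d2_T_zero]) (2 * q + 1) (fun y hy => by
            have := (abs_le.1 (ih.2 y hy)).1; linarith) x hx
    exact ⟨h0, hsin (q + 1) h0⟩

theorem d2_taylor_cos (q : ℕ) (x : ℝ) :
    |cos x - (d2_T q).eval x| ≤ x ^ (2 * q) / ((2 * q).factorial : ℝ) := by
  rcases le_total 0 x with h | h
  · exact (d2_taylor_nonneg q).1 x h
  · have := (d2_taylor_nonneg q).1 (-x) (by linarith)
    rwa [cos_neg, d2_T_even, (even_two_mul q).neg_pow] at this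

theorem d2_taylor_sin (q : ℕ) (x : ℝ) :
    |sin x - (d2_S q).eval x| ≤ |x| ^ (2 * q + 1) / ((2 * q + 1).factorial : ℝ) := by
  rcases le_total 0 x with h | h
  · rw [abs_of_nonneg h]; exact (d2_taylor_nonneg q).2 x h
  · have := (d2_taylor_nonneg q).2 (-x) (by linarith)
    rw [sin_neg, d2_S_odd] at this
    rw [abs_of_nonpos h]
    rwa [show -sin x - -(d2_S q).eval x = -(sin x - (d2_S q).eval x) by ring, abs_neg] at this

/-- Gaussian moments. -/
theorem d2_moment (m : ℕ) (t : ℝ) (ht : 0 < t) :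
    ∫ x, (x : ℝ) ^ (2 * m) ∂gam ≤ (2 * m).factorial / t ^ (2 * m) * (2 * exp (t ^ 2 / 2)) := by
  have h1 : ∀ x : ℝ, x ^ (2 * m) ≤ (2 * m).factorial / t ^ (2 * m) *
      (exp (t * x) + exp (-t * x)) := by
    intro x
    have key : ∀ y : ℝ, 0 ≤ y → y ^ (2 * m) ≤ (2 * m).factorial * exp y := by
      intro y hy
      have := Real.pow_div_factorial_le_exp y hy (2 * m)
      rw [div_le_iff₀ (by positivity)] at this
      linarith
    have h2 : (t * x) ^ (2 * m) ≤ (2 * m).factorial * (exp (t * x) + exp (-t * x)) := by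
      rcases le_total 0 (t * x) with h | h
      · have := key _ h
        have h3 := exp_pos (-t * x)
        have h4 : (0 : ℝ) < (2 * m).factorial := by positivity
        nlinarith [mul_pos h4 h3]
      · have := key (-(t * x)) (by linarith)
        rw [(even_two_mul m).neg_pow, ← neg_mul] at this
        have h3 := exp_pos (t * x)
        have h4 : (0 : ℝ) < (2 * m).factorial := by positivity
        nlinarith [mul_pos h4 h3]
    rw [mul_pow] at h2
    rw [div_mul_eq_mul_div, le_div_iff₀ (by positivity)]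
    linarith
  have i1 : Integrable (fun x : ℝ => exp (t * x)) gam := integrable_exp_mul_gaussianReal t
  have i2 : Integrable (fun x : ℝ => exp (-t * x)) gam := integrable_exp_mul_gaussianReal (-t)
  have e : ∀ t : ℝ, ∫ x, exp (t * x) ∂gam = exp (t ^ 2 / 2) := by
    intro t
    have := congrFun (mgf_id_gaussianReal (μ := 0) (v := 1)) t
    simp only [mgf, id_eq] at this
    rw [this]
    simp
  calc ∫ x, (x : ℝ) ^ (2 * m) ∂gam
      ≤ ∫ x, (2 * m).factorial / t ^ (2 * m) * (exp (t * x) + exp (-t * x)) ∂gam := by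
        apply integral_mono_of_nonneg
        · exact Filter.Eventually.of_forall fun x => (even_two_mul m).pow_nonneg x
        · exact (i1.add i2).const_mul _
        · exact Filter.Eventually.of_forall h1
    _ = (2 * m).factorial / t ^ (2 * m) * (2 * exp (t ^ 2 / 2)) := by
        rw [integral_const_mul, integral_add i1 i2, e, e]
        rw [neg_sq]; ring

theorem d2_binom (m : ℕ) : ((2 * m).factorial : ℝ) ≤ 4 ^ m * (m.factorial : ℝ) ^ 2 := by
  have h1 : (2 * m).choose m * m.factorial * (2 * m - m).factorial = (2 * m).factorial :=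
    Nat.choose_mul_factorial_mul_factorial (by omega)
  have h2 : (2 * m).choose m ≤ 2 ^ (2 * m) := Nat.choose_le_two_pow _ _
  have h3 : 2 * m - m = m := by omega
  rw [h3] at h1
  have h4 : (2 * m).factorial ≤ 4 ^ m * m.factorial ^ 2 := by
    rw [← h1, mul_assoc, ← sq]
    apply Nat.mul_le_mul_right
    rwa [pow_mul] at h2
  exact_mod_cast h4

/-- The remainder terms of the Taylor expansions are small in the mean. -/
theorem d2_tail (K Λ ε : ℝ) (hΛ : 0 < Λ) (hε : 0 < ε) :
    ∃ m₀ : ℕ, ∀ m, m₀ ≤ m → ∫ x, (K * (Λ * |x|) ^ m / m.factorial) ^ 2 ∂gam ≤ ε := by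
  have h1 : Filter.Tendsto (fun m : ℕ => K ^ 2 * (2 * exp ((4 * Λ) ^ 2 / 2)) * (1 / 4 : ℝ) ^ m)
      Filter.atTop (nhds (K ^ 2 * (2 * exp ((4 * Λ) ^ 2 / 2)) * 0)) :=
    (tendsto_pow_atTop_nhds_zero_of_lt_one (by norm_num) (by norm_num)).const_mul _
  rw [mul_zero] at h1
  have h2 := (h1.eventually (gt_mem_nhds hε)).exists_forall_of_atTop
  obtain ⟨m₀, hm₀⟩ := h2
  refine ⟨m₀, fun m hm => ?_⟩
  refine le_trans ?_ (hm₀ m hm).le
  have h3 : ∀ x : ℝ, (K * (Λ * |x|) ^ m / m.factorial) ^ 2 =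
      (K ^ 2 * Λ ^ (2 * m) / (m.factorial : ℝ) ^ 2) * x ^ (2 * m) := by
    intro x
    have : |x| ^ (2 * m) = x ^ (2 * m) := by rw [pow_mul, pow_mul, sq_abs]
    rw [← this]
    rw [div_pow, mul_pow, mul_pow, mul_pow, ← pow_mul, ← pow_mul, mul_comm m 2]
    ring
  simp_rw [h3]
  rw [integral_const_mul]
  have h4 := d2_moment m (4 * Λ) (by positivity)
  have h5 : (0 : ℝ) < m.factorial := by positivity
  calc K ^ 2 * Λ ^ (2 * m) / (m.factorial : ℝ) ^ 2 * ∫ x, (x : ℝ) ^ (2 * m) ∂gam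
      ≤ K ^ 2 * Λ ^ (2 * m) / (m.factorial : ℝ) ^ 2 *
        ((2 * m).factorial / (4 * Λ) ^ (2 * m) * (2 * exp ((4 * Λ) ^ 2 / 2))) := by
        apply mul_le_mul_of_nonneg_left h4 (by positivity)
    _ ≤ K ^ 2 * Λ ^ (2 * m) / (m.factorial : ℝ) ^ 2 *
        ((4 ^ m * (m.factorial : ℝ) ^ 2) / (4 * Λ) ^ (2 * m) * (2 * exp ((4 * Λ) ^ 2 / 2))) := by
        have := d2_binom m
        gcongr
    _ = K ^ 2 * (2 * exp ((4 * Λ) ^ 2 / 2)) * (1 / 4 : ℝ) ^ m := by
        have h6 : (4 * Λ) ^ (2 * m) = 4 ^ m * 4 ^ m * Λ ^ (2 * m) := by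
          rw [mul_pow, pow_mul]; rw [← mul_pow]; norm_num
        rw [h6, one_div, inv_pow]
        field_simp

/-- The primitive of a function close to the sign. -/
theorem d2_prim (A B : ℝ → ℝ) (ε : ℝ) (hε : 0 < ε) (hε1 : ε ≤ 1 / 2) (hA : ∀ x, HasDerivAt A (B x) x)
    (h0 : A 0 = 0) (hB : ∀ x, |B x| ≤ 1 + ε) (hB1 : ∀ x, ε ≤ x → x ≤ 1 / ε → |B x - 1| ≤ ε)
    (x : ℝ) (hx : 0 ≤ x) : |x - A x| ≤ 4 * ε * (1 + x ^ 2) := by
  have hd : ∀ x, HasDerivAt (fun y => y - A y) (1 - B x) x := fun x =>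
    (hasDerivAt_id x).sub (hA x)
  have hmv : ∀ (C a b : ℝ), a ≤ b → (∀ y, a ≤ y → y ≤ b → |1 - B y| ≤ C) →
      |(b - A b) - (a - A a)| ≤ C * (b - a) := by
    intro C a b hab hC
    have := Convex.norm_image_sub_le_of_norm_hasDerivWithin_le (𝕜 := ℝ) (s := Set.Icc a b)
      (f := fun y => y - A y) (f' := fun y => 1 - B y) (C := C) (x := a) (y := b)
      (fun y _ => (hd y).hasDerivWithinAt) (fun y hy => by
        rw [Real.norm_eq_abs]; exact hC y hy.1 hy.2) (convex_Icc a b)
      (Set.left_mem_Icc.2 hab) (Set.right_mem_Icc.2 hab)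
    rw [Real.norm_eq_abs, Real.norm_eq_abs, abs_of_nonneg (sub_nonneg.2 hab)] at this
    exact this
  have hbig : ∀ y, |1 - B y| ≤ 3 := by
    intro y
    have := abs_le.1 (hB y)
    rw [abs_le]
    constructor <;> linarith [this.1, this.2]
  have hsmall : ∀ y, ε ≤ y → y ≤ 1 / ε → |1 - B y| ≤ ε := by
    intro y h1 h2
    rw [abs_sub_comm]; exact hB1 y h1 h2
  have hεL : ε ≤ 1 / ε := by
    rw [le_div_iff₀ hε]; nlinarith
  have hx2 : x ≤ (1 + x ^ 2) / 2 := by nlinarith [sq_nonneg (x - 1)]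
  rcases le_total x ε with h | h
  · have h1 := hmv 3 0 x hx (fun y _ _ => hbig y)
    rw [h0, sub_zero, sub_zero, sub_zero] at h1
    nlinarith [sq_nonneg x]
  · have h1 := hmv 3 0 ε hε.le (fun y _ _ => hbig y)
    rw [h0, sub_zero, sub_zero, sub_zero] at h1
    rcases le_total x (1 / ε) with h' | h'
    · have h2 := hmv ε ε x h (fun y h3 h4 => hsmall y h3 (h4.trans h'))
      rw [abs_le] at h1 h2 ⊢
      have h5 : ε * x ≤ ε * ((1 + x ^ 2) / 2) := mul_le_mul_of_nonneg_left hx2 hε.le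
      constructor <;> nlinarith [h1.1, h1.2, h2.1, h2.2, sq_nonneg ε, sq_nonneg x,
        mul_nonneg hε.le (sq_nonneg x)]
    · have h2 := hmv ε ε (1 / ε) hεL (fun y h3 h4 => hsmall y h3 h4)
      have h3 := hmv 3 (1 / ε) x h' (fun y _ _ => hbig y)
      have h5 : ε * x ≤ ε * ((1 + x ^ 2) / 2) := mul_le_mul_of_nonneg_left hx2 hε.le
      have h6 : ε * (1 / ε) ≤ ε * x := mul_le_mul_of_nonneg_left h' hε.le
      have h7 : x - 1 / ε ≤ ε * x ^ 2 / 4 := by
        have h8 : 0 ≤ ε * (x - 2 / ε) ^ 2 := by positivity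
        have h9 : ε * (x - 2 / ε) ^ 2 = ε * x ^ 2 - 4 * x + 4 * (1 / ε) := by
          field_simp; ring
        linarith
      have h8 := mul_nonneg hε.le (sq_nonneg x)
      have h9 := sq_nonneg ε
      rw [abs_le] at h1 h2 h3 ⊢
      constructor <;> nlinarith [h1.1, h1.2, h2.1, h2.2, h3.1, h3.2]

theorem d2_abs_pow (a x : ℝ) (k : ℕ) : (a * x) ^ (2 * k) = (a * |x|) ^ (2 * k) := by
  rw [pow_mul, pow_mul]
  congr 1
  rw [mul_pow, mul_pow, sq_abs]

/-- Polynomial approximation of `√(2π)|x| - 2`. -/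
theorem t_D2 (h1 : S_D1) (h2 : S_D2a) : S_D2 := by
  intro δ hδ
  have hint : ∀ P : Polynomial ℝ, Integrable (fun x => P.eval x) gam := h1.1
  -- the constant
  set K0 : ℝ := ∫ x, (1 + x ^ 2) ^ 2 ∂gam with hK0
  have hK0nn : 0 ≤ K0 := integral_nonneg fun x => by positivity
  have hiK0 : Integrable (fun x : ℝ => (1 + x ^ 2) ^ 2) gam := by
    have := hint ((1 + X ^ 2) ^ 2)
    simpa using this
  have hpi := pi_pos
  set ε : ℝ := min (1 / 2) (min (δ / (128 * π * K0 + 1)) (δ / (28 * π))) with hεdef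
  have hε0 : 0 < ε := by
    rw [hεdef]
    refine lt_min (by norm_num) (lt_min (by positivity) (by positivity))
  have hε1 : ε ≤ 1 / 2 := min_le_left _ _
  have hε2 : ε ≤ δ / (128 * π * K0 + 1) := (min_le_right _ _).trans (min_le_left _ _)
  have hε3 : ε ≤ δ / (28 * π) := (min_le_right _ _).trans (min_le_right _ _)
  rw [le_div_iff₀ (by positivity)] at hε2 hε3
  have hεL : ε < 1 / ε := by
    rw [lt_div_iff₀ hε0]; nlinarith
  obtain ⟨s, b, μ, hμ, hs, hB, hB1⟩ := h2 ε (1 / ε) ε hε0 hεL hε0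
  set lam : ℕ → ℝ := fun j => j * μ with hlam
  have hlam0 : ∀ j ∈ s, 0 < lam j := by
    intro j hj
    have : 0 < j := Nat.pos_of_ne_zero fun h => hs (h ▸ hj)
    have : (0 : ℝ) < j := by exact_mod_cast this
    exact mul_pos this hμ
  set A : ℝ → ℝ := fun x => ∑ j ∈ s, b j / lam j * (1 - cos (lam j * x)) with hA
  set B : ℝ → ℝ := fun x => ∑ j ∈ s, b j * sin (lam j * x) with hBdef
  have hAd : ∀ x, HasDerivAt A (B x) x := by
    intro x
    rw [hA, hBdef]
    apply HasDerivAt.fun_sum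
    intro j hj
    have h3 : HasDerivAt (fun x : ℝ => lam j * x) (lam j) x := by
      simpa using (hasDerivAt_id x).const_mul (lam j)
    have h4 := ((h3.cos).const_sub 1).const_mul (b j / lam j)
    refine h4.congr_deriv ?_
    have := (hlam0 j hj).ne'
    field_simp
  have hA0 : A 0 = 0 := by simp [hA]
  have hAeven : ∀ x, A (-x) = A x := by
    intro x
    simp only [hA, mul_neg, cos_neg]
  have hAabs : ∀ x, |(|x| - A x)| ≤ 4 * ε * (1 + x ^ 2) := by
    intro x
    have h3 := d2_prim A B ε hε0 hε1 hAd hA0 hB hB1 |x| (abs_nonneg x)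
    rw [sq_abs] at h3
    rcases abs_choice x with h | h
    · rw [h] at h3 ⊢; exact h3
    · rw [h, hAeven] at h3
      rw [h]; exact h3
  -- constants
  set K1 : ℝ := ∑ j ∈ s, |b j| with hK1
  set K2 : ℝ := ∑ j ∈ s, |b j| / lam j with hK2
  set Λ : ℝ := ∑ j ∈ s, lam j + 1 with hΛ
  have hΛj : ∀ j ∈ s, lam j ≤ Λ := by
    intro j hj
    have := Finset.single_le_sum (f := lam) (fun i hi => (hlam0 i hi).le) hj
    linarith
  have hΛ0 : 0 < Λ := by
    have : 0 ≤ ∑ j ∈ s, lam j := Finset.sum_nonneg fun i hi => (hlam0 i hi).le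
    linarith
  have hK1nn : 0 ≤ K1 := Finset.sum_nonneg fun i _ => abs_nonneg _
  have hK2nn : 0 ≤ K2 := Finset.sum_nonneg fun i hi => div_nonneg (abs_nonneg _) (hlam0 i hi).le
  obtain ⟨m₁, hm₁⟩ := d2_tail K2 Λ (δ / (8 * π)) hΛ0 (by positivity)
  obtain ⟨m₂, hm₂⟩ := d2_tail K1 Λ (δ / (4 * π * (1 + 1 / ε))) hΛ0 (by positivity)
  set q : ℕ := m₁ + m₂ with hq
  -- the polynomials
  set P0 : Polynomial ℝ := ∑ j ∈ s, C (b j / lam j) * (1 - (d2_T (q + 1)).comp (C (lam j) * X))
    with hP0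
  set Q2 : Polynomial ℝ := C (K2 * Λ ^ (2 * (q + 1)) / (2 * (q + 1)).factorial) * X ^ (2 * (q + 1))
    with hQ2
  have hP0e : ∀ x, P0.eval x = ∑ j ∈ s, b j / lam j * (1 - (d2_T (q + 1)).eval (lam j * x)) := by
    intro x
    rw [hP0, Polynomial.eval_finsetSum]
    refine Finset.sum_congr rfl fun j _ => ?_
    simp
  have hP0d : ∀ x, P0.derivative.eval x = ∑ j ∈ s, b j * (d2_S q).eval (lam j * x) := by
    intro x
    rw [hP0, Polynomial.derivative_sum, Polynomial.eval_finsetSum]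
    refine Finset.sum_congr rfl fun j hj => ?_
    rw [Polynomial.derivative_C_mul, Polynomial.derivative_sub, Polynomial.derivative_one,
      Polynomial.derivative_comp, d2_T_deriv]
    simp only [Polynomial.derivative_C_mul, Polynomial.derivative_X, Polynomial.eval_mul,
      Polynomial.eval_C, Polynomial.eval_sub, Polynomial.eval_zero, Polynomial.eval_comp,
      Polynomial.eval_X, Polynomial.eval_neg, Polynomial.eval_one]
    have := (hlam0 j hj).ne'
    field_simp
    ring
  have hQ2e : ∀ x, Q2.eval x = K2 * (Λ * |x|) ^ (2 * (q + 1)) / (2 * (q + 1)).factorial := by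
    intro x
    rw [hQ2]
    simp only [Polynomial.eval_mul, Polynomial.eval_C, Polynomial.eval_pow, Polynomial.eval_X]
    rw [mul_pow]
    have : |x| ^ (2 * (q + 1)) = x ^ (2 * (q + 1)) := by rw [pow_mul, pow_mul, sq_abs]
    rw [this]; ring
  have hAP : ∀ x, |A x - P0.eval x| ≤ Q2.eval x := by
    intro x
    rw [hP0e, hQ2e]
    simp only [hA]
    rw [← Finset.sum_sub_distrib]
    refine (Finset.abs_sum_le_sum_abs _ _).trans ?_
    rw [hK2, Finset.sum_mul, Finset.sum_div]
    refine Finset.sum_le_sum fun j hj => ?_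
    have h3 : b j / lam j * (1 - cos (lam j * x)) -
        b j / lam j * (1 - (d2_T (q + 1)).eval (lam j * x)) =
        -(b j / lam j * (cos (lam j * x) - (d2_T (q + 1)).eval (lam j * x))) := by ring
    rw [h3, abs_neg, abs_mul, abs_div, abs_of_pos (hlam0 j hj), mul_div_assoc]
    apply mul_le_mul_of_nonneg_left _ (div_nonneg (abs_nonneg _) (hlam0 j hj).le)
    refine (d2_taylor_cos (q + 1) (lam j * x)).trans ?_
    rw [d2_abs_pow (lam j) x (q + 1)]
    have h5 := hΛj j hj
    have h6 := (hlam0 j hj).le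
    gcongr
  have hBP : ∀ x, |B x - P0.derivative.eval x| ≤
      K1 * (Λ * |x|) ^ (2 * q + 1) / (2 * q + 1).factorial := by
    intro x
    rw [hP0d]
    simp only [hBdef]
    rw [← Finset.sum_sub_distrib]
    refine (Finset.abs_sum_le_sum_abs _ _).trans ?_
    rw [hK1, Finset.sum_mul, Finset.sum_div]
    refine Finset.sum_le_sum fun j hj => ?_
    rw [← mul_sub, abs_mul, mul_div_assoc]
    apply mul_le_mul_of_nonneg_left _ (abs_nonneg _)
    refine (d2_taylor_sin q (lam j * x)).trans ?_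
    rw [abs_mul, abs_of_pos (hlam0 j hj)]
    have h5 := hΛj j hj
    have h6 := (hlam0 j hj).le
    gcongr
  have hsq : √(2 * π) ^ 2 = 2 * π := Real.sq_sqrt (by positivity)
  have hs0 : 0 ≤ √(2 * π) := Real.sqrt_nonneg _
  refine ⟨C (√(2 * π)) * P0 - C 2, C (√(2 * π)) * (C (4 * ε) * (1 + X ^ 2) + Q2), ?_, ?_, ?_, ?_⟩
  · intro x
    simp only [Polynomial.eval_sub, Polynomial.eval_mul, Polynomial.eval_C]
    rw [hP0e, hP0e]
    simp only [mul_neg, d2_T_even]
  · intro x
    simp only [Polynomial.eval_sub, Polynomial.eval_mul, Polynomial.eval_C, Polynomial.eval_add,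
      Polynomial.eval_one, Polynomial.eval_pow, Polynomial.eval_X]
    have h3 : √(2 * π) * |x| - 2 - (√(2 * π) * P0.eval x - 2) =
        √(2 * π) * ((|x| - A x) + (A x - P0.eval x)) := by ring
    rw [h3, abs_mul, abs_of_nonneg hs0]
    apply mul_le_mul_of_nonneg_left _ hs0
    exact (abs_add_le _ _).trans (add_le_add (hAabs x) (hAP x))
  · have h3 : ∀ x : ℝ, ((C (√(2 * π)) * (C (4 * ε) * (1 + X ^ 2) + Q2)).eval x) ^ 2 ≤
        64 * π * ε ^ 2 * (1 + x ^ 2) ^ 2 + 4 * π * (Q2.eval x) ^ 2 := by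
      intro x
      simp only [Polynomial.eval_mul, Polynomial.eval_C, Polynomial.eval_add,
        Polynomial.eval_one, Polynomial.eval_pow, Polynomial.eval_X]
      rw [mul_pow, hsq]
      have h4 : (4 * ε * (1 + x ^ 2) + Q2.eval x) ^ 2 ≤
          2 * (4 * ε * (1 + x ^ 2)) ^ 2 + 2 * (Q2.eval x) ^ 2 := by
        nlinarith [sq_nonneg (4 * ε * (1 + x ^ 2) - Q2.eval x)]
      calc 2 * π * (4 * ε * (1 + x ^ 2) + Q2.eval x) ^ 2
          ≤ 2 * π * (2 * (4 * ε * (1 + x ^ 2)) ^ 2 + 2 * (Q2.eval x) ^ 2) :=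
            mul_le_mul_of_nonneg_left h4 (by positivity)
        _ = 64 * π * ε ^ 2 * (1 + x ^ 2) ^ 2 + 4 * π * (Q2.eval x) ^ 2 := by ring
    have hi2 : Integrable (fun x => (Q2.eval x) ^ 2) gam := by
      have := hint (Q2 ^ 2)
      simpa using this
    have h5 : ∫ x, (Q2.eval x) ^ 2 ∂gam ≤ δ / (8 * π) := by
      have := hm₁ (2 * (q + 1)) (by omega)
      simp_rw [← hQ2e] at this
      exact this
    calc ∫ x, ((C (√(2 * π)) * (C (4 * ε) * (1 + X ^ 2) + Q2)).eval x) ^ 2 ∂gam
        ≤ ∫ x, (64 * π * ε ^ 2 * (1 + x ^ 2) ^ 2 + 4 * π * (Q2.eval x) ^ 2) ∂gam := by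
          apply integral_mono_of_nonneg
          · exact Filter.Eventually.of_forall fun x => sq_nonneg _
          · exact (hiK0.const_mul _).add (hi2.const_mul _)
          · exact Filter.Eventually.of_forall h3
      _ = 64 * π * ε ^ 2 * K0 + 4 * π * ∫ x, (Q2.eval x) ^ 2 ∂gam := by
          rw [integral_add (hiK0.const_mul _) (hi2.const_mul _), integral_const_mul,
            integral_const_mul]
      _ ≤ δ / 2 + δ / 2 := by
          apply add_le_add
          · have h6 : ε ^ 2 ≤ ε := by nlinarith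
            have h7 : 64 * π * ε ^ 2 * K0 ≤ 64 * π * ε * K0 := by gcongr
            nlinarith
          · calc 4 * π * ∫ x, (Q2.eval x) ^ 2 ∂gam ≤ 4 * π * (δ / (8 * π)) := by gcongr
              _ = δ / 2 := by field_simp; norm_num
      _ = δ := by ring
  · set E : ℝ → ℝ := fun x => K1 * (Λ * |x|) ^ (2 * q + 1) / (2 * q + 1).factorial with hE
    have hEsq : ∀ x, E x ^ 2 = (K1 * Λ ^ (2 * q + 1) / (2 * q + 1).factorial) ^ 2 *
        x ^ (2 * (2 * q + 1)) := by
      intro x
      have : |x| ^ (2 * (2 * q + 1)) = x ^ (2 * (2 * q + 1)) := by rw [pow_mul, pow_mul, sq_abs]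
      rw [← this]
      simp only [hE]
      rw [mul_pow]
      ring
    have hEi : Integrable (fun x => E x ^ 2) gam := by
      simp_rw [hEsq]
      have := (hint (X ^ (2 * (2 * q + 1)))).const_mul
        ((K1 * Λ ^ (2 * q + 1) / (2 * q + 1).factorial) ^ 2)
      simpa using this
    have hEs : ∫ x, E x ^ 2 ∂gam ≤ δ / (4 * π * (1 + 1 / ε)) := hm₂ (2 * q + 1) (by omega)
    have h3 : ∀ x : ℝ, ((C (√(2 * π)) * P0 - C 2).derivative.eval x) ^ 2 ≤
        2 * π * (1 + ε) ^ 3 + 2 * π * (1 + 1 / ε) * E x ^ 2 := by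
      intro x
      simp only [Polynomial.derivative_sub, Polynomial.derivative_C_mul, Polynomial.derivative_C,
        sub_zero, Polynomial.eval_mul, Polynomial.eval_C]
      rw [mul_pow, hsq]
      have h4 := hBP x
      have h5 := hB x
      have h6 : |P0.derivative.eval x| ≤ (1 + ε) + E x := by
        have h7 : P0.derivative.eval x = B x - (B x - P0.derivative.eval x) := by ring
        rw [h7]
        exact (abs_sub _ _).trans (add_le_add h5 h4)
      have h7 : (P0.derivative.eval x) ^ 2 ≤ ((1 + ε) + E x) ^ 2 := by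
        rw [← sq_abs]
        exact pow_le_pow_left₀ (abs_nonneg _) h6 2
      have h8 : ((1 + ε) + E x) ^ 2 ≤ (1 + ε) * (1 + ε) ^ 2 + (1 + 1 / ε) * E x ^ 2 := by
        have h9 : 0 ≤ ε * ((1 + ε) - E x / ε) ^ 2 := by positivity
        have h10 : ε * ((1 + ε) - E x / ε) ^ 2 =
            ε * (1 + ε) ^ 2 - 2 * (1 + ε) * E x + 1 / ε * E x ^ 2 := by
          field_simp
          ring
        nlinarith
      calc 2 * π * (P0.derivative.eval x) ^ 2
          ≤ 2 * π * ((1 + ε) * (1 + ε) ^ 2 + (1 + 1 / ε) * E x ^ 2) :=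
            mul_le_mul_of_nonneg_left (h7.trans h8) (by positivity)
        _ = 2 * π * (1 + ε) ^ 3 + 2 * π * (1 + 1 / ε) * E x ^ 2 := by ring
    calc ∫ x, ((C (√(2 * π)) * P0 - C 2).derivative.eval x) ^ 2 ∂gam
        ≤ ∫ x, (2 * π * (1 + ε) ^ 3 + 2 * π * (1 + 1 / ε) * E x ^ 2) ∂gam := by
          apply integral_mono_of_nonneg
          · exact Filter.Eventually.of_forall fun x => sq_nonneg _
          · exact (integrable_const _).add (hEi.const_mul _)
          · exact Filter.Eventually.of_forall h3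
      _ = 2 * π * (1 + ε) ^ 3 + 2 * π * (1 + 1 / ε) * ∫ x, E x ^ 2 ∂gam := by
          rw [integral_add (integrable_const _) (hEi.const_mul _), integral_const,
            integral_const_mul]
          simp
      _ ≤ (2 * π + δ / 2) + δ / 2 := by
          apply add_le_add
          · have h6 : ε ^ 2 ≤ ε := by nlinarith
            have h7 : (1 + ε) ^ 3 ≤ 1 + 7 * ε := by nlinarith
            have h8 : 2 * π * (1 + ε) ^ 3 ≤ 2 * π * (1 + 7 * ε) := by gcongr
            nlinarith
          · have h9 : (0 : ℝ) < 1 + 1 / ε := by positivity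
            calc 2 * π * (1 + 1 / ε) * ∫ x, E x ^ 2 ∂gam
                ≤ 2 * π * (1 + 1 / ε) * (δ / (4 * π * (1 + 1 / ε))) := by gcongr
              _ = δ / 2 := by field_simp; norm_num
      _ = 2 * π + δ := by ring

end Pool.Agent.H276R2.Th
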