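import Pool.Agent.H276R2.Th.Spec

/-!
# Part D2a: odd trigonometric polynomials close to the sign
-/

set_option autoImplicit false

namespace Pool.Agent.H276R2.Th

open Finset Real

/-- The functions `sin ((j + 1) θ)`. -/
noncomputable def d2a_v (j : ℕ) : ℝ → ℝ := fun θ => sin (((j + 1 : ℕ) : ℝ) * θ)

/-- The space of odd trigonometric polynomials. -/
noncomputable def d2a_V : Submodule ℝ (ℝ → ℝ) := Submodule.span ℝ (Set.range d2a_v)

theorem d2a_v_mem (j : ℕ) : d2a_v j ∈ d2a_V := Submodule.subset_span ⟨j, rfl⟩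

theorem d2a_mul_sq {f : ℝ → ℝ} (hf : f ∈ d2a_V) : (fun θ => sin θ ^ 2 * f θ) ∈ d2a_V := by
  refine Submodule.span_induction (p := fun f _ => (fun θ => sin θ ^ 2 * f θ) ∈ d2a_V)
    ?_ ?_ ?_ ?_ hf
  · rintro _ ⟨j, rfl⟩
    have key : ∀ k θ : ℝ, sin θ ^ 2 * sin (k * θ) =
        1 / 2 * sin (k * θ) - 1 / 4 * sin ((k + 2) * θ) - 1 / 4 * sin ((k - 2) * θ) := by
      intro k θ
      have h1 : (k + 2) * θ = k * θ + 2 * θ := by ring
      have h2 : (k - 2) * θ = k * θ - 2 * θ := by ring
      rw [h1, h2, sin_add, sin_sub, cos_two_mul]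
      have h3 : cos θ ^ 2 = 1 - sin θ ^ 2 := by rw [cos_sq']
      rw [h3]; ring
    rcases j with _ | _ | i
    · have h := d2a_V.sub_mem (d2a_V.smul_mem (3 / 4 : ℝ) (d2a_v_mem 0))
        (d2a_V.smul_mem (1 / 4 : ℝ) (d2a_v_mem 2))
      convert h using 1
      funext θ
      simp only [d2a_v, Pi.sub_apply, Pi.smul_apply, smul_eq_mul]
      have h5 := key 1 θ
      have h6 : ((1 : ℝ) - 2) * θ = -(1 * θ) := by ring
      rw [h6, sin_neg] at h5
      norm_num at h5 ⊢
      linarith
    · have h := d2a_V.sub_mem (d2a_V.smul_mem (1 / 2 : ℝ) (d2a_v_mem 1))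
        (d2a_V.smul_mem (1 / 4 : ℝ) (d2a_v_mem 3))
      convert h using 1
      funext θ
      simp only [d2a_v, Pi.sub_apply, Pi.smul_apply, smul_eq_mul]
      have h5 := key 2 θ
      have h6 : ((2 : ℝ) - 2) * θ = 0 := by ring
      rw [h6, sin_zero] at h5
      norm_num at h5 ⊢
      linarith
    · have h := d2a_V.sub_mem (d2a_V.sub_mem (d2a_V.smul_mem (1 / 2 : ℝ) (d2a_v_mem (i + 1 + 1)))
        (d2a_V.smul_mem (1 / 4 : ℝ) (d2a_v_mem (i + 4)))) (d2a_V.smul_mem (1 / 4 : ℝ) (d2a_v_mem i))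
      convert h using 1
      funext θ
      simp only [d2a_v, Pi.sub_apply, Pi.smul_apply, smul_eq_mul]
      have h5 := key ((i : ℝ) + 1 + 1 + 1) θ
      push_cast
      have h7 : ((i : ℝ) + 1 + 1 + 1 + 2) = i + 4 + 1 := by ring
      have h8 : ((i : ℝ) + 1 + 1 + 1 - 2) = i + 1 := by ring
      rw [h7, h8] at h5
      linarith
  · convert d2a_V.zero_mem using 1
    funext θ; simp
  · intro f g _ _ hf hg
    have := d2a_V.add_mem hf hg
    convert this using 1
    funext θ; simp [mul_add]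
  · intro a f _ hf
    have := d2a_V.smul_mem a hf
    convert this using 1
    funext θ; simp; ring

theorem d2a_pow (m : ℕ) : (fun θ : ℝ => sin θ ^ (2 * m + 1)) ∈ d2a_V := by
  induction m with
  | zero =>
    convert d2a_v_mem 0 using 1
    funext θ; simp [d2a_v]
  | succ m ih =>
    convert d2a_mul_sq ih using 1
    funext θ; ring

theorem d2a_poly (p : Polynomial ℝ) :
    (fun θ : ℝ => (p.eval (sin θ) - p.eval (-sin θ)) / 2) ∈ d2a_V := by
  induction p using Polynomial.induction_on' with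
  | add p q hp hq =>
    convert d2a_V.add_mem hp hq using 1
    funext θ
    simp only [Polynomial.eval_add, Pi.add_apply]
    ring
  | monomial n a =>
    rcases Nat.even_or_odd n with hn | hn
    · convert d2a_V.zero_mem using 1
      funext θ
      simp [Polynomial.eval_monomial, hn.neg_pow]
    · obtain ⟨m, rfl⟩ := hn
      convert d2a_V.smul_mem a (d2a_pow m) using 1
      funext θ
      have ho : Odd (2 * m + 1) := ⟨m, rfl⟩
      simp only [Polynomial.eval_monomial, ho.neg_pow, Pi.smul_apply, smul_eq_mul]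
      ring

theorem d2a_repr {f : ℝ → ℝ} (hf : f ∈ d2a_V) : ∃ (s : Finset ℕ) (b : ℕ → ℝ), 0 ∉ s ∧
    ∀ θ, f θ = ∑ j ∈ s, b j * sin (j * θ) := by
  unfold d2a_V at hf
  rw [Finsupp.mem_span_range_iff_exists_finsupp] at hf
  obtain ⟨c, rfl⟩ := hf
  refine ⟨c.support.map ⟨fun j => j + 1, fun a b h => by simpa using h⟩, fun j => c (j - 1), ?_, ?_⟩
  · simp
  · intro θ
    rw [Finset.sum_map]
    rw [Finsupp.sum, Finset.sum_apply]
    rfl

/-- Odd trigonometric polynomials close to the sign. -/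
theorem t_D2a : S_D2a := by
  intro τ L δ hτ hL hδ
  have hLpos : 0 < L := hτ.trans hL
  set μ : ℝ := π / (2 * L) with hμ
  have hμpos : 0 < μ := by positivity
  have hμL : μ * L = π / 2 := by rw [hμ]; field_simp
  have hμτ : μ * τ < π / 2 := by rw [← hμL]; exact mul_lt_mul_of_pos_left hL hμpos
  have hμτ0 : 0 < μ * τ := by positivity
  set s0 : ℝ := sin (μ * τ) with hs0
  have hs0pos : 0 < s0 := sin_pos_of_pos_of_lt_pi hμτ0 (by linarith [pi_pos])
  have hφc : Continuous (fun t : ℝ => max (-1) (min 1 (t / s0))) := by fun_prop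
  have hφodd : ∀ t : ℝ, max (-1 : ℝ) (min 1 ((-t) / s0)) = -max (-1) (min 1 (t / s0)) := by
    intro t
    rw [neg_div]
    rcases le_total (t / s0) 1 with h | h
    · rw [min_eq_right h]
      rcases le_total (-1) (t / s0) with h' | h'
      · rw [min_eq_right (by linarith), max_eq_right (by linarith), max_eq_right (by linarith)]
      · rw [min_eq_left (by linarith), max_eq_right (by linarith), max_eq_left (by linarith)]
        norm_num
    · rw [min_eq_left h, min_eq_right (by linarith), max_eq_left (by linarith),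
        max_eq_right (by norm_num)]
  obtain ⟨p, hp⟩ := exists_polynomial_near_of_continuousOn (-1) 1
    (fun t : ℝ => max (-1) (min 1 (t / s0))) hφc.continuousOn δ hδ
  obtain ⟨s, b, hs, hb⟩ := d2a_repr (d2a_poly p)
  have key : ∀ x : ℝ, |∑ j ∈ s, b j * sin (j * μ * x) - max (-1) (min 1 (sin (μ * x) / s0))| ≤ δ := by
    intro x
    have e1 : ∑ j ∈ s, b j * sin (j * μ * x) = (p.eval (sin (μ * x)) - p.eval (-sin (μ * x))) / 2 := by
      rw [hb (μ * x)]
      refine Finset.sum_congr rfl fun j _ => ?_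
      rw [mul_assoc]
    rw [e1]
    have h1 := hp (sin (μ * x)) ⟨neg_one_le_sin _, sin_le_one _⟩
    have h2 := hp (-sin (μ * x)) ⟨by linarith [sin_le_one (μ * x)], by linarith [neg_one_le_sin (μ * x)]⟩
    beta_reduce at h1 h2
    rw [hφodd] at h2
    rw [abs_lt] at h1 h2
    rw [abs_le]
    constructor <;> linarith [h1.1, h1.2, h2.1, h2.2]
  refine ⟨s, b, μ, hμpos, hs, ?_, ?_⟩
  · intro x
    have h := abs_le.1 (key x)
    have h1 : -1 ≤ max (-1) (min 1 (sin (μ * x) / s0)) := le_max_left _ _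
    have h2 : max (-1) (min 1 (sin (μ * x) / s0)) ≤ 1 := max_le (by norm_num) (min_le_left _ _)
    rw [abs_le]
    constructor <;> linarith [h.1, h.2]
  · intro x hx1 hx2
    have h := key x
    have h1 : 1 ≤ sin (μ * x) / s0 := by
      rw [le_div_iff₀ hs0pos, one_mul]
      apply sin_le_sin_of_le_of_le_pi_div_two
      · linarith [pi_pos]
      · rw [← hμL]; exact mul_le_mul_of_nonneg_left hx2 hμpos.le
      · exact mul_le_mul_of_nonneg_left hx1 hμpos.le
    rw [min_eq_left h1, max_eq_right (by norm_num)] at h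
    exact h

end Pool.Agent.H276R2.Th
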