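import Mathlib

/-!
# Lovasz number of random dense circulant graphs: definitions

Residues `k : ZMod n` are grouped in classes `{k, -k}`; the class of `k` is the number
`cls n k = min k (n - k)`, and the nonzero classes are `Cl n = {1, ..., n / 2}`.
-/

set_option autoImplicit false

namespace Pool.Agent.H276R2.Th

open Finset

/-- The class of a residue: `min k (n - k)`. -/
def cls (n : ℕ) (k : ZMod n) : ℕ := min k.val (-k).val

/-- The classes of the nonzero residues. -/
def Cl (n : ℕ) : Finset ℕ := Finset.Icc 1 (n / 2)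

/-- The additive character `exp (2 pi i j / n)`. -/
noncomputable def ch (n : ℕ) [NeZero n] (j : ZMod n) : ℂ := ZMod.stdAddChar j

/-- Fourier coefficient. -/
noncomputable def fc {n : ℕ} [NeZero n] (f : ZMod n → ℂ) (k : ZMod n) : ℂ :=
  (∑ x, f x * ch n (-(k * x))) / n

open Classical in
/-- The sign of the residue `k` for the set `A` of allowed classes: `1` for `k = 0` and for the
allowed classes, `-1` otherwise. -/
noncomputable def sg {n : ℕ} (A : Finset ℕ) (k : ZMod n) : ℝ := if k = 0 ∨ cls n k ∈ A then 1 else -1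

/-- The Fourier multiplier with multipliers `sg A k`. -/
noncomputable def T {n : ℕ} [NeZero n] (A : Finset ℕ) (f : ZMod n → ℂ) (x : ZMod n) : ℂ :=
  ∑ k, (sg A k : ℂ) * fc f k * ch n (k * x)

/-- Average over all sets of classes (uniform distribution), real valued. -/
noncomputable def Ex (n : ℕ) (f : Finset ℕ → ℝ) : ℝ := (∑ A ∈ (Cl n).powerset, f A) / 2 ^ (n / 2)

/-- Average over all sets of classes (uniform distribution), complex valued. -/
noncomputable def ExC (n : ℕ) (f : Finset ℕ → ℂ) : ℂ := (∑ A ∈ (Cl n).powerset, f A) / 2 ^ (n / 2)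

open Classical in
/-- Probability of an event. -/
noncomputable def Pr (n : ℕ) (p : Finset ℕ → Prop) : ℝ := Ex n (fun A => if p A then 1 else 0)

/-- `g` is an even real function with mean `1` whose spectrum lies in the allowed classes. -/
structure Nice {n : ℕ} [NeZero n] (A : Finset ℕ) (g : ZMod n → ℝ) : Prop where
  even : ∀ x, g (-x) = g x
  mean : ∑ x, g x = n
  spec : ∀ k : ZMod n, k ≠ 0 → cls n k ∉ A → fc (fun x => (g x : ℂ)) k = 0

/-- There is an approximately nonnegative function with value about `√n` at `0`. -/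
def ApproxGood (C δ : ℝ) (n : ℕ) [NeZero n] (A : Finset ℕ) : Prop :=
  ∃ g : ZMod n → ℝ, Nice A g ∧ (1 - δ) * Real.sqrt n ≤ g 0 ∧ ∑ x, (max (-(g x)) 0) ^ 2 ≤ δ * n ∧
    ∑ x, (g x) ^ 2 ≤ C * n ∧ ∀ k : ZMod n, k ≠ 0 → ‖fc (fun x => (g x : ℂ)) k‖ ≤ δ

/-- There is a nonnegative function with value about `√n` at `0`. -/
def Good (C δ : ℝ) (n : ℕ) [NeZero n] (A : Finset ℕ) : Prop :=
  ∃ g : ZMod n → ℝ, Nice A g ∧ (∀ x, 0 ≤ g x) ∧ (1 - δ) * Real.sqrt n ≤ g 0 ∧
    ∑ x, (g x) ^ 2 ≤ C * n

/-- The statement produced by the iteration (part M). -/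
def StatementM : Prop := ∃ C : ℝ, ∀ δ : ℝ, 0 < δ → ∃ n₀ : ℕ, ∀ (n : ℕ) [NeZero n], n₀ ≤ n →
  1 - δ ≤ Pr n (ApproxGood C δ n)

/-- The statement produced by the repair (part R). -/
def StatementR : Prop := ∃ C : ℝ, ∀ δ : ℝ, 0 < δ → ∃ n₀ : ℕ, ∀ (n : ℕ) [NeZero n], n₀ ≤ n →
  1 - δ ≤ Pr n (Good C δ n)

/-! ### General densities (part R) -/

/-- Weight of the set `A` of classes when each class is taken with probability `q`. -/
noncomputable def Wt (n : ℕ) (q : ℝ) (A : Finset ℕ) : ℝ := q ^ A.card * (1 - q) ^ (n / 2 - A.card)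

/-- Expectation with respect to a random set of classes of density `q`. -/
noncomputable def Ed (n : ℕ) (q : ℝ) (f : Finset ℕ → ℝ) : ℝ :=
  ∑ A ∈ (Cl n).powerset, Wt n q A * f A

open Classical in
/-- Probability with respect to a random set of classes of density `q`. -/
noncomputable def Pq (n : ℕ) (q : ℝ) (p : Finset ℕ → Prop) : ℝ :=
  Ed n q (fun A => if p A then 1 else 0)

/-! ### Trees (part M) -/

/-- A tree: a laminar system of sums. The labels are the integer forms `form e` on the leaves `V`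
(indicator functions of sets of leaves), among them the sum `root` of all leaves and the leaves
themselves; `rel` expresses connectedness. -/
structure Tree : Type 1 where
  /-- leaves -/
  V : Type
  /-- labels -/
  E : Type
  [fV : Fintype V]
  [dV : DecidableEq V]
  [fE : Fintype E]
  [dE : DecidableEq E]
  /-- coefficients of the labels -/
  form : E → V → ℤ
  /-- the sum of all leaves -/
  root : E
  /-- the leaves as labels -/
  leaf : V → E
  nonempty : Nonempty V
  form_root : ∀ v, form root v = 1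
  form_leaf : ∀ v w, form (leaf v) w = if w = v then 1 else 0
  form01 : ∀ e v, form e v = 0 ∨ form e v = 1
  form_inj : ∀ e e', (∀ v, form e v = form e' v) → e = e'
  form_pos : ∀ e, ∃ v, form e v = 1
  rel : ∀ M : Finset E, M.Nonempty → (∃ e, e ∉ M) → ∃ a : E → ℤ,
    (∀ v, ∑ e ∈ M, a e * form e v = ∑ e ∈ Mᶜ, a e * form e v) ∧
      ∃ v, (∑ e ∈ M, a e * form e v = 1 ∨ ∑ e ∈ M, a e * form e v = -1)

attribute [instance] Tree.fV Tree.dV Tree.fE Tree.dE

/-- The tree with one vertex. -/
def leafTree : Tree where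
  V := Unit
  E := Unit
  form _ _ := 1
  root := ()
  leaf _ := ()
  nonempty := ⟨()⟩
  form_root _ := rfl
  form_leaf _ _ := by simp
  form01 _ _ := Or.inr rfl
  form_inj _ _ _ := rfl
  form_pos _ := ⟨(), rfl⟩
  rel M hM hM' := by
    obtain ⟨e, he⟩ := hM
    obtain ⟨e', he'⟩ := hM'
    exact absurd he he'

/-- Value of the label `e` for the leaf labelling `l`. -/
def lv {n : ℕ} (t : Tree) (l : t.V → ZMod n) (e : t.E) : ZMod n :=
  ∑ v, ((t.form e v : ℤ) : ZMod n) * l v

/-- Labellings of a bush (a finite family of trees). -/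
abbrev BLab (n : ℕ) {I : Type} (B : I → Tree) : Type := (i : I) → (B i).V → ZMod n

/-- The labels of a bush. -/
abbrev BE {I : Type} (B : I → Tree) : Type := Σ i, (B i).E

/-- Value of a label of a bush. -/
def bl {n : ℕ} {I : Type} (B : I → Tree) (l : BLab n B) (p : BE B) : ZMod n := lv (B p.1) (l p.1) p.2

/-- The sum of the roots. -/
def kb {n : ℕ} {I : Type} [Fintype I] (B : I → Tree) (l : BLab n B) : ZMod n :=
  ∑ i, lv (B i) (l i) (B i).root

/-- Generic labellings: all labels are nonzero and distinct up to sign. -/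
def Gen {n : ℕ} {I : Type} (B : I → Tree) (l : BLab n B) : Prop :=
  (∀ p : BE B, bl B l p ≠ 0) ∧ ∀ p q : BE B, p ≠ q → bl B l p ≠ bl B l q ∧ bl B l p ≠ -bl B l q

/-- The number of leaves of a bush. -/
def nb {I : Type} [Fintype I] (B : I → Tree) : ℕ := ∑ i, Fintype.card (B i).V

open Classical in
/-- The generic chaos of a bush. -/
noncomputable def F (n : ℕ) [NeZero n] {I : Type} [Fintype I] (B : I → Tree) (A : Finset ℕ)
    (x : ZMod n) : ℂ :=
  (∑ l : BLab n B, if Gen B l then ((∏ p, sg A (bl B l p) : ℝ) : ℂ) * ch n (kb B l * x) else 0) /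
    (Real.sqrt n : ℂ) ^ nb B

/-- Families of random complex functions, one for every `n`. -/
abbrev Fam : Type := (n : ℕ) → [NeZero n] → Finset ℕ → ZMod n → ℂ

/-- Families of norm `O(1)` in `ℓ²` of the group and `L²` of the signs. -/
def O1 (f : Fam) : Prop := ∃ C : ℝ, ∀ (n : ℕ) [NeZero n], ∑ x, Ex n (fun A => ‖f n A x‖ ^ 2) ≤ C

/-- The Walsh function of a set `a` of classes. -/
noncomputable def wal (a A : Finset ℕ) : ℂ := ∏ j ∈ a, (if j ∈ A then 1 else -1)

/-- Polynomials of degree at most `D` in the signs. -/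
def Deg (n D : ℕ) (f : Finset ℕ → ℂ) : Prop := ∃ c : Finset ℕ → ℂ, ∀ A ∈ (Cl n).powerset,
  f A = ∑ a ∈ (Cl n).powerset with a.card ≤ D, c a * wal a A

/-- Families of polynomials of bounded degree with pointwise bounded second moments. -/
def Bd (f : Fam) : Prop := (∃ D : ℕ, ∀ (n : ℕ) [NeZero n] (x : ZMod n), Deg n D (fun A => f n A x)) ∧
  ∃ C : ℝ, ∀ (n : ℕ) [NeZero n] (x : ZMod n), Ex n (fun A => ‖f n A x‖ ^ 2) ≤ C

/-- The sign of a boolean. -/
def sb (b : Bool) : ℤ := if b then 1 else -1

/-- The isomorphisms with signs of two trees which reverse the sign of the root. -/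
def TIso (t t' : Tree) : Type := {p : (t.E ≃ t'.E) × (t.E → Bool) //
  p.1 t.root = t'.root ∧ p.2 t.root = false ∧ Fintype.card t.V = Fintype.card t'.V ∧
    ∀ e w, ∑ v, t.form e v * (sb (p.2 (t.leaf v)) * t'.form (p.1 (t.leaf v)) w) =
      sb (p.2 e) * t'.form (p.1 e) w}

/-- The covariance of two trees. -/
noncomputable def cc (t t' : Tree) : ℝ := Nat.card (TIso t t')

section Wick

variable {J : Type} [Fintype J] (tr : J → Tree)

/-- Linear combination of trees. -/
noncomputable def Gf (α : J → ℝ) : Fam := fun n _ A x =>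
  ∑ j, (α j : ℂ) * F n (fun _ : Unit => tr j) A x

/-- Wick product of linear combinations of trees. -/
noncomputable def Wf {r : ℕ} (γ : Fin r → J → ℝ) : Fam := fun n _ A x =>
  ∑ j : Fin r → J, ((∏ i, γ i (j i) : ℝ) : ℂ) * F n (fun i => tr (j i)) A x

/-- Covariance of linear combinations of trees. -/
noncomputable def CC (α β : J → ℝ) : ℝ := ∑ i, ∑ j, α i * β j * cc (tr i) (tr j)

end Wick

open Polynomial in
/-- Hermite polynomials. -/
noncomputable def He : ℕ → ℝ[X]
  | 0 => 1
  | 1 => X
  | d + 2 => X * He (d + 1) - ((d : ℝ[X]) + 1) * He d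

/-- The standard Gaussian measure. -/
noncomputable abbrev gam : MeasureTheory.Measure ℝ := ProbabilityTheory.gaussianReal 0 1

/-- The polynomial with Hermite coefficients `c d`, `d ≤ D`. -/
noncomputable def PP (D : ℕ) (c : ℕ → ℝ) : Polynomial ℝ :=
  ∑ d ∈ range (D + 1), Polynomial.C (c d) * He d

/-- The normalisation `s` of the iteration. -/
noncomputable def sP (D : ℕ) (c : ℕ → ℝ) : ℝ :=
  Real.sqrt (4 + ∑ d ∈ range (D + 1), c d ^ 2 * d.factorial)

/-- The correlations of consecutive iterates. -/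
noncomputable def rho (D : ℕ) (c : ℕ → ℝ) : ℕ → ℝ
  | 0 => 2 / sP D c
  | m + 1 => (4 + ∑ d ∈ range (D + 1), c d ^ 2 * d.factorial * rho D c m ^ d) / sP D c ^ 2

/-- Families of random real functions. -/
abbrev RFam : Type := (n : ℕ) → [NeZero n] → Finset ℕ → ZMod n → ℝ

/-- The properties of the iterates used in the construction: even functions whose polynomials have
Gaussian means, bounded moments and small Fourier coefficients. -/
structure GaussLike (G : RFam) : Prop where
  even : ∀ (n : ℕ) [NeZero n] (A : Finset ℕ) (x : ZMod n), G n A (-x) = G n A x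
  mean : ∀ R : Polynomial ℝ, ∃ K : ℝ, ∀ (n : ℕ) [NeZero n],
    Ex n (fun A => ((∑ x, R.eval (G n A x)) / n - ∫ x, R.eval x ∂gam) ^ 2) ≤ K / n
  bdd : ∀ R : Polynomial ℝ, ∃ K : ℝ, ∀ (n : ℕ) [NeZero n] (x : ZMod n),
    Ex n (fun A => (R.eval (G n A x)) ^ 2) ≤ K
  coef : ∀ R : Polynomial ℝ, ∃ K : ℝ, ∀ (n : ℕ) [NeZero n] (k : ZMod n), k ≠ 0 →
    Ex n (fun A => ‖fc (fun x => ((R.eval (G n A x) : ℝ) : ℂ)) k‖ ^ 4) ≤ K / n ^ 2

/-- Step `m` of the iteration: `G` and `H` are consecutive iterates. -/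
structure Step (D : ℕ) (c : ℕ → ℝ) (m : ℕ) (G H : RFam) : Prop where
  gG : GaussLike G
  gH : GaussLike H
  cov : ∃ K : ℝ, ∀ (n : ℕ) [NeZero n],
    |Ex n (fun A => (∑ x, G n A x * H n A x) / n) - rho D c m| ≤ K / Real.sqrt n
  rel : ∃ K : ℝ, ∀ (n : ℕ) [NeZero n], ∑ x, Ex n (fun A =>
    ‖T A (fun y => (((if y = 0 then 2 * Real.sqrt n else 0) + (PP D c).eval (G n A y) : ℝ) : ℂ)) x -
      ((sP D c * H n A x : ℝ) : ℂ)‖ ^ 2) ≤ K

/-! ### Theta function and the energy-bounded version (parts A and U) -/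

/-- The Lovasz number of the circulant graph with connection distances `S` (as in S13255). -/
noncomputable def theta (n : ℕ) (S : Finset ℕ) : ℝ :=
  sSup {r : ℝ | ∃ B : Matrix (Fin n) (Fin n) ℝ,
    B.PosSemidef ∧ B.trace = 1 ∧
    (∀ i j : Fin n,
      (SimpleGraph.fromRel
        (fun a b : Fin n => min (b - a).val (a - b).val ∈ S)).Adj i j →
        B i j = 0) ∧
    r = ∑ i, ∑ j, B i j}

/-- The largest value at `0` of a nonnegative function of small energy. -/
noncomputable def lam (n : ℕ) [NeZero n] (A : Finset ℕ) : ℝ :=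
  sSup {r : ℝ | ∃ g : ZMod n → ℝ, Nice A g ∧ (∀ x, 0 ≤ g x) ∧ ∑ x, (g x) ^ 2 ≤ 5 / 4 * n ∧ r = g 0}

/-- The part of `f` with spectrum in the classes of `A`. -/
noncomputable def proj {n : ℕ} [NeZero n] (A : Finset ℕ) (f : ZMod n → ℝ) (x : ZMod n) : ℝ :=
  (∑ k : ZMod n, if k ≠ 0 ∧ cls n k ∈ A then fc (fun y => (f y : ℂ)) k * ch n (k * x) else 0).re


/-! ### Further definitions -/

/-- Labels which are nonzero and distinct up to sign. -/
def GenL {n : ℕ} {M : Type} (v : M → ZMod n) : Prop :=
  (∀ p, v p ≠ 0) ∧ ∀ p q, p ≠ q → v p ≠ v q ∧ v p ≠ -v q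

/-- Families which are polynomials of bounded degree in the signs. -/
def DB (f : Fam) : Prop := ∃ D : ℕ, ∀ (n : ℕ) [NeZero n] (x : ZMod n), Deg n D (fun A => f n A x)

/-- The bush `B` with the tree `t` added. -/
def optB {I : Type} (t : Tree) (B : I → Tree) : Option I → Tree := fun o => o.elim t B

/-- The forms of the tree obtained by adding the label `sum of the roots` (`none`) to the labels of
the bush `B`. -/
def cf {I : Type} [DecidableEq I] (B : I → Tree) :
    Option (Σ i, (B i).E) → (Σ i, (B i).V) → ℤ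
  | none, _ => 1
  | some p, q => if h : p.1 = q.1 then (B q.1).form (h ▸ p.2) q.2 else 0

/-- The relation property of the capped bush (the statement `S_CapRel` of the file `Spec`). -/
def CapRel {I : Type} [Fintype I] [DecidableEq I] (B : I → Tree) : Prop :=
  ∀ M : Finset (Option (Σ i, (B i).E)), M.Nonempty → (∃ e, e ∉ M) →
    ∃ a : Option (Σ i, (B i).E) → ℤ,
      (∀ v, ∑ e ∈ M, a e * cf B e v = ∑ e ∈ Mᶜ, a e * cf B e v) ∧
      ∃ v, (∑ e ∈ M, a e * cf B e v = 1 ∨ ∑ e ∈ M, a e * cf B e v = -1)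

lemma cf_some_same {I : Type} [DecidableEq I] (B : I → Tree) (i : I) (e : (B i).E) (v : (B i).V) :
    cf B (some ⟨i, e⟩) ⟨i, v⟩ = (B i).form e v := by
  simp [cf]

lemma cf_some_ne {I : Type} [DecidableEq I] (B : I → Tree) (i j : I) (e : (B i).E) (v : (B j).V)
    (h : i ≠ j) : cf B (some ⟨i, e⟩) ⟨j, v⟩ = 0 := by
  simp [cf, h]

/-- The capped bush: a tree with the labels of the bush and the sum of the roots as new root. -/
def capTree {I : Type} [Fintype I] [DecidableEq I] [Nontrivial I] (B : I → Tree) (hB : CapRel B) :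
    Tree where
  V := Σ i, (B i).V
  E := Option (Σ i, (B i).E)
  form := cf B
  root := none
  leaf := fun q => some ⟨q.1, (B q.1).leaf q.2⟩
  nonempty := by
    obtain ⟨i⟩ : Nonempty I := inferInstance
    obtain ⟨v⟩ := (B i).nonempty
    exact ⟨⟨i, v⟩⟩
  form_root := fun _ => rfl
  form_leaf := by
    rintro ⟨i, v⟩ ⟨j, w⟩
    by_cases h : i = j
    · subst h
      rw [cf_some_same, (B i).form_leaf]
      by_cases hw : w = v
      · simp [hw]
      · rw [if_neg hw, if_neg]
        rintro h
        exact hw (eq_of_heq (Sigma.mk.inj h).2)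
    · rw [cf_some_ne _ _ _ _ _ h, if_neg]
      rintro h'
      exact h (Sigma.mk.inj h').1.symm
  form01 := by
    rintro (_ | ⟨i, e⟩) ⟨j, v⟩
    · right; rfl
    · by_cases h : i = j
      · subst h
        rw [cf_some_same]
        exact (B i).form01 e v
      · left; exact cf_some_ne _ _ _ _ _ h
  form_inj := by
    rintro (_ | ⟨i, e⟩) (_ | ⟨j, e'⟩) h
    · rfl
    · exfalso
      obtain ⟨k, hk⟩ := exists_ne j
      obtain ⟨v⟩ := (B k).nonempty
      have := h ⟨k, v⟩
      rw [cf_some_ne _ _ _ _ _ hk.symm] at this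
      exact one_ne_zero this
    · exfalso
      obtain ⟨k, hk⟩ := exists_ne i
      obtain ⟨v⟩ := (B k).nonempty
      have := h ⟨k, v⟩
      rw [cf_some_ne _ _ _ _ _ hk.symm] at this
      exact one_ne_zero this.symm
    · by_cases hij : i = j
      · subst hij
        have : e = e' := (B i).form_inj e e' fun v => by
          have := h ⟨i, v⟩
          rwa [cf_some_same, cf_some_same] at this
        rw [this]
      · exfalso
        obtain ⟨v, hv⟩ := (B i).form_pos e
        have := h ⟨i, v⟩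
        rw [cf_some_same, cf_some_ne _ _ _ _ _ (Ne.symm hij), hv] at this
        exact one_ne_zero this
  form_pos := by
    rintro (_ | ⟨i, e⟩)
    · obtain ⟨i⟩ : Nonempty I := inferInstance
      obtain ⟨v⟩ := (B i).nonempty
      exact ⟨⟨i, v⟩, rfl⟩
    · obtain ⟨v, hv⟩ := (B i).form_pos e
      exact ⟨⟨i, v⟩, by rw [cf_some_same]; exact hv⟩
  rel := hB

/-! #### Patterns of coincidences between the labels of a tree and of a bush -/

section Pattern

variable (t : Tree) {I : Type} (B : I → Tree)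

/-- A pattern: every label of `t` is matched with a label of `B`, with a sign, or unmatched. -/
abbrev Pat : Type := t.E → Option (BE B × Bool)

/-- Pairs of labellings of `t` and of `B`. -/
abbrev PL (n : ℕ) : Type := (t.V → ZMod n) × BLab n B

variable {t B}

/-- The pair of labellings `l` has exactly the coincidences of the pattern `π` (sign `true` has
priority when both signs hold). -/
def PatOK (π : Pat t B) {n : ℕ} (l : PL t B n) : Prop :=
  (∀ e, π e = none → ∀ p, lv t l.1 e ≠ bl B l.2 p ∧ lv t l.1 e ≠ -bl B l.2 p) ∧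
  (∀ e p, π e = some (p, true) → lv t l.1 e = bl B l.2 p) ∧
  (∀ e p, π e = some (p, false) → lv t l.1 e = -bl B l.2 p ∧ lv t l.1 e ≠ bl B l.2 p)

/-- The label `p` of the bush is matched. -/
def Mtc (π : Pat t B) (p : BE B) : Prop := ∃ e b, π e = some (p, b)

open Classical in
/-- The part of the product of the chaoses of `t` and of `B` with coincidence pattern `π`. -/
noncomputable def PT [Fintype I] (n : ℕ) [NeZero n] (π : Pat t B) (A : Finset ℕ) (x : ZMod n) : ℂ :=
  (∑ l : PL t B n, if GenL (lv t l.1) ∧ Gen B l.2 ∧ PatOK π l then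
    (((∏ e, if π e = none then sg A (lv t l.1 e) else 1) *
      (∏ p, if Mtc π p then 1 else sg A (bl B l.2 p)) : ℝ) : ℂ) *
      ch n ((lv t l.1 t.root + kb B l.2) * x) else 0) /
    (Real.sqrt n : ℂ) ^ (Fintype.card t.V + nb B)

/-- The relations of the pattern `π`. -/
def RelP (π : Pat t B) {n : ℕ} (l : PL t B n) : Prop :=
  ∀ e p b, π e = some (p, b) → lv t l.1 e = ((sb b : ℤ) : ZMod n) * bl B l.2 p

/-- The relations of the pattern `π`, and all unmatched labels and the sum of roots vanish. -/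
def WP [Fintype I] (π : Pat t B) {n : ℕ} (l : PL t B n) : Prop :=
  RelP π l ∧ (∀ e, π e = none → lv t l.1 e = 0) ∧ (∀ p, ¬ Mtc π p → bl B l.2 p = 0) ∧
    lv t l.1 t.root + kb B l.2 = 0

/-- Patterns matching `t` with one tree `B i` completely, the root with minus the root. -/
def Perfect (π : Pat t B) (i : I) (φ : t.E ≃ (B i).E) (b : t.E → Bool) : Prop :=
  φ t.root = (B i).root ∧ b t.root = false ∧ ∀ e, π e = some (⟨i, φ e⟩, b e)

end Pattern

/-- The condition defining `TIso`. -/
def IsTIso (t t' : Tree) (φ : t.E ≃ t'.E) (b : t.E → Bool) : Prop :=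
  φ t.root = t'.root ∧ b t.root = false ∧ Fintype.card t.V = Fintype.card t'.V ∧
    ∀ e w, ∑ v, t.form e v * (sb (b (t.leaf v)) * t'.form (φ (t.leaf v)) w) =
      sb (b e) * t'.form (φ e) w

/-- State of the iteration. -/
structure St (D : ℕ) (c : ℕ → ℝ) (m : ℕ) {J : Type} [Fintype J] (tr : J → Tree)
    (α β : J → ℝ) : Prop where
  nα : CC tr α α = 1
  nβ : CC tr β β = 1
  cov : CC tr α β = rho D c m
  rel : O1 (fun n _ A x => T A (fun y => (if y = 0 then ((2 * Real.sqrt n : ℝ) : ℂ) else 0) +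
    Polynomial.aeval (Gf tr α n A y) (PP D c)) x - ((sP D c : ℝ) : ℂ) * Gf tr β n A x)

end Pool.Agent.H276R2.Th
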