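import Pool.Agent.H276R2.Th.Spec

/-!
Task FB (helper231): the chaoses have bounded second moments and small Fourier coefficients.
-/

set_option autoImplicit false

namespace Pool.Agent.H276R2.Th

open Finset Real

theorem fb_norm {n : ℕ} [NeZero n] (S : ℂ) (N : ℕ) :
    ‖S / (Real.sqrt n : ℂ) ^ N‖ ^ 2 = 1 / (n : ℝ) ^ N * ‖S‖ ^ 2 := by
  have hn : (0 : ℝ) ≤ n := Nat.cast_nonneg n
  rw [norm_div, norm_pow, Complex.norm_real, Real.norm_eq_abs, abs_of_nonneg (Real.sqrt_nonneg _),
    div_pow, ← pow_mul, mul_comm N 2, pow_mul, Real.sq_sqrt hn]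
  ring

theorem fb_kb {n : ℕ} {I : Type} [Fintype I] [DecidableEq I] (B : I → Tree) (i : I) (v : (B i).V)
    (z : ZMod n) : kb B (Pi.single i (Pi.single v z)) = z := by
  unfold kb
  rw [Finset.sum_eq_single i]
  · rw [Pi.single_eq_same, lv_single, (B i).form_root]
    simp
  · intro j _ hj
    rw [Pi.single_eq_of_ne hj]
    simp [lv]
  · intro h
    exact absurd (Finset.mem_univ i) h

theorem t_FB (h3 : S_M3) (k1 : S_K1) : S_FB := by
  classical
  intro I _ B
  obtain ⟨K, hK⟩ : ∃ K : ℝ, K = (Fintype.card (BE B)).factorial * 2 ^ Fintype.card (BE B) :=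
    ⟨_, rfl⟩
  have hK0 : 0 ≤ K := by rw [hK]; positivity
  have key : ∀ (n : ℕ) [NeZero n] (D : Finset (BLab n B)) (z : BLab n B → ℂ),
      (∀ l ∈ D, ‖z l‖ ≤ 1) → (∀ l ∈ D, Gen B l) →
      Ex n (fun A => ‖(∑ l ∈ D, z l * ((∏ p, sg A (bl B l p) : ℝ) : ℂ)) /
        (Real.sqrt n : ℂ) ^ nb B‖ ^ 2) ≤ K * (D.card / (n : ℝ) ^ nb B) := by
    intro n _ D z hz hD
    have h1 := h3 n (BE B) (BLab n B) (fun p => blH B p) D z (fun u hu => bl_inj B u hu) hz
      (fun l hl => hD l hl)
    simp only [fb_norm]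
    rw [Ex_mul]
    have hn : (0 : ℝ) < (n : ℝ) ^ nb B := by
      have := NeZero.pos n
      positivity
    calc 1 / (n : ℝ) ^ nb B * Ex n (fun A => ‖∑ l ∈ D, z l * ((∏ p, sg A (bl B l p) : ℝ) : ℂ)‖ ^ 2)
        ≤ 1 / (n : ℝ) ^ nb B * (K * D.card) := by
          apply mul_le_mul_of_nonneg_left _ (by positivity)
          rw [hK]
          exact h1
      _ = K * (D.card / (n : ℝ) ^ nb B) := by ring
  have hcard : ∀ (n : ℕ) [NeZero n] (D : Finset (BLab n B)), (D.card : ℝ) ≤ (n : ℝ) ^ nb B := by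
    intro n _ D
    have h1 : D.card ≤ Nat.card (BLab n B) := by
      rw [Nat.card_eq_fintype_card]
      exact Finset.card_le_univ D
    rw [card_BLab] at h1
    exact_mod_cast h1
  refine ⟨⟨DB_F B, K, ?_⟩, ?_⟩
  · intro n _ x
    have h1 := key n (univ.filter (fun l => Gen B l)) (fun l => ch n (kb B l * x))
      (fun l _ => (norm_ch n _).le) (fun l hl => (Finset.mem_filter.mp hl).2)
    have h2 : ∀ A, F n B A x = (∑ l ∈ univ.filter (fun l => Gen B l),
        ch n (kb B l * x) * ((∏ p, sg A (bl B l p) : ℝ) : ℂ)) / (Real.sqrt n : ℂ) ^ nb B := by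
      intro A
      unfold F
      rw [Finset.sum_filter]
      congr 1
      apply Finset.sum_congr rfl
      intro l _
      by_cases hl : Gen B l
      · rw [if_pos hl, if_pos hl, mul_comm]
      · rw [if_neg hl, if_neg hl]
    simp only [h2]
    refine h1.trans ?_
    have h4 := hcard n (univ.filter (fun l => Gen B l))
    have hn : (0 : ℝ) < (n : ℝ) ^ nb B := by
      have := NeZero.pos n
      positivity
    have h5 : ((univ.filter (fun l : BLab n B => Gen B l)).card : ℝ) / (n : ℝ) ^ nb B ≤ 1 := by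
      rw [div_le_one hn]
      exact h4
    nlinarith
  · rintro ⟨i⟩
    obtain ⟨v⟩ := (B i).nonempty
    refine ⟨K, ?_⟩
    intro n _ k
    have h1 := key n (univ.filter (fun l => Gen B l ∧ kb B l = k)) (fun _ => 1)
      (fun l _ => by simp) (fun l hl => (Finset.mem_filter.mp hl).2.1)
    have h2 : ∀ A, fc (F n B A) k = (∑ l ∈ univ.filter (fun l => Gen B l ∧ kb B l = k),
        (1 : ℂ) * ((∏ p, sg A (bl B l p) : ℝ) : ℂ)) / (Real.sqrt n : ℂ) ^ nb B := by
      intro A
      rw [fc_F, Finset.sum_filter]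
      congr 1
      apply Finset.sum_congr rfl
      intro l _
      by_cases hl : Gen B l ∧ kb B l = k
      · rw [if_pos hl, if_pos hl, one_mul]
      · rw [if_neg hl, if_neg hl]
    simp only [h2]
    refine h1.trans ?_
    have hn0 : (0 : ℝ) < n := by
      have := NeZero.pos n
      exact_mod_cast this
    have hn : (0 : ℝ) < (n : ℝ) ^ nb B := by positivity
    have h3' := k1 n (BLab n B) (kbH B) (fun z => Pi.single i (Pi.single v z)) 1 one_ne_zero
      (fun z => by
        rw [kbH_apply, fb_kb]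
        simp) k
    have h4 : ((univ.filter (fun l : BLab n B => Gen B l ∧ kb B l = k)).card : ℝ) ≤
        Nat.card {l : BLab n B // kbH B l = k} := by
      have h5 : (univ.filter (fun l : BLab n B => Gen B l ∧ kb B l = k)).card ≤
          (univ.filter (fun l : BLab n B => kbH B l = k)).card := by
        apply Finset.card_le_card
        intro l hl
        rw [Finset.mem_filter] at hl ⊢
        exact ⟨hl.1, hl.2.2⟩
      have h6 : Nat.card {l : BLab n B // kbH B l = k} =
          (univ.filter (fun l : BLab n B => kbH B l = k)).card := by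
        rw [Nat.card_eq_fintype_card, Fintype.card_subtype]
      rw [h6]
      exact_mod_cast h5
    rw [card_BLab] at h3'
    simp only [Int.cast_one, abs_one, one_mul, Nat.cast_pow] at h3'
    have h7 : ((univ.filter (fun l : BLab n B => Gen B l ∧ kb B l = k)).card : ℝ) /
        (n : ℝ) ^ nb B ≤ 1 / n := by
      rw [div_le_div_iff₀ hn hn0, one_mul]
      exact (mul_le_mul_of_nonneg_right h4 hn0.le).trans h3'
    calc K * (((univ.filter (fun l : BLab n B => Gen B l ∧ kb B l = k)).card : ℝ) /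
          (n : ℝ) ^ nb B) ≤ K * (1 / n) := mul_le_mul_of_nonneg_left h7 hK0
      _ = K / n := by ring

end Pool.Agent.H276R2.Th
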