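import Pool.Agent.H276R2.Th.Spec

set_option autoImplicit false

namespace Pool.Agent.H276R2.Th

open Finset

theorem gl_fc_sum {n : ℕ} [NeZero n] {ι : Type} (s : Finset ι) (f : ι → ZMod n → ℂ) (k : ZMod n) :
    fc (fun x => ∑ i ∈ s, f i x) k = ∑ i ∈ s, fc (f i) k := by
  unfold fc
  simp only [Finset.sum_mul]
  rw [Finset.sum_comm, Finset.sum_div]

theorem gl_fc_zero {n : ℕ} [NeZero n] (f : ZMod n → ℂ) : fc f 0 = (∑ x, f x) / n := by
  unfold fc
  simp only [zero_mul, neg_zero, ch_zero, mul_one]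

theorem gl_aeval (R : Polynomial ℝ) (y : ℝ) :
    Polynomial.aeval (y : ℂ) R = ((R.eval y : ℝ) : ℂ) := by
  have h := Polynomial.aeval_algebraMap_apply ℂ y R
  rw [Polynomial.coe_aeval_eq_eval] at h
  exact h

theorem gl_norm_sum_sq {ι : Type} (s : Finset ι) (a : ι → ℂ) :
    ‖∑ i ∈ s, a i‖ ^ 2 ≤ s.card * ∑ i ∈ s, ‖a i‖ ^ 2 := by
  calc ‖∑ i ∈ s, a i‖ ^ 2 ≤ (∑ i ∈ s, ‖a i‖) ^ 2 :=
        pow_le_pow_left₀ (norm_nonneg _) (norm_sum_le _ _) 2
    _ ≤ _ := sq_sum_le_card_mul_sum_sq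

theorem gl_norm_add_sq (a b : ℂ) : ‖a + b‖ ^ 2 ≤ 2 * ‖a‖ ^ 2 + 2 * ‖b‖ ^ 2 := by
  have h : ‖a + b‖ ^ 2 ≤ (‖a‖ + ‖b‖) ^ 2 :=
    pow_le_pow_left₀ (norm_nonneg _) (norm_add_le _ _) 2
  nlinarith [sq_nonneg (‖a‖ - ‖b‖)]

theorem gl_int (d1 : S_D1) (D : ℕ) (c : ℕ → ℝ) : ∫ x, (PP D c).eval x ∂gam = c 0 := by
  obtain ⟨hint, hHe, -⟩ := d1
  have h1 : ∀ x, (PP D c).eval x = ∑ d ∈ range (D + 1), c d * (He d).eval x := by
    intro x
    unfold PP
    rw [Polynomial.eval_finsetSum]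
    exact Finset.sum_congr rfl fun d _ => by rw [Polynomial.eval_mul, Polynomial.eval_C]
  simp only [h1]
  rw [MeasureTheory.integral_finsetSum _ (fun d _ => (hint (He d)).const_mul (c d))]
  have h2 : ∀ d ∈ range (D + 1), ∫ x, c d * (He d).eval x ∂gam = if d = 0 then c 0 else 0 := by
    intro d _
    rw [MeasureTheory.integral_const_mul, hHe d]
    split_ifs with h
    · subst h; ring
    · ring
  rw [Finset.sum_congr rfl h2, Finset.sum_ite_eq' (range (D + 1)) 0]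
  simp

/-- the second moments of the centred Fourier coefficients -/
theorem gl_key (w0 : S_W0) (w2 : S_W2) (J : Type) [Fintype J] (tr : J → Tree)
    (α : J → ℝ) (hα : CC tr α α = 1) (D : ℕ) (c : ℕ → ℝ) :
    ∃ K : ℝ, 0 ≤ K ∧ ∀ (n : ℕ) [NeZero n] (k : ZMod n),
      Ex n (fun A => ‖fc (fun x => (((PP D c).eval ((Gf tr α n A x).re) : ℝ) : ℂ)) k -
        (if k = 0 then (c 0 : ℂ) else 0)‖ ^ 2) ≤ K / n := by
  classical
  -- the constants of the Wick powers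
  have hW : ∀ d : ℕ, ∃ C : ℝ, 0 ≤ C ∧ (0 < d → ∀ (n : ℕ) [NeZero n] (k : ZMod n),
      Ex n (fun A => ‖fc (Wf tr (fun _ : Fin d => α) n A) k‖ ^ 2) ≤ C / n) := by
    intro d
    by_cases hd : 0 < d
    · obtain ⟨-, C, hC⟩ := (w0 J tr d (fun _ => α)).2.2.2.2.1 hd
      refine ⟨|C|, abs_nonneg _, fun _ n _ k => (hC n k).trans ?_⟩
      exact div_le_div_of_nonneg_right (le_abs_self C) (Nat.cast_nonneg n)
    · exact ⟨0, le_rfl, fun h => absurd h hd⟩
  choose C hC0 hC using hW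
  -- the error term
  have hE : O1 (fun n _ A x => ∑ d ∈ range (D + 1), (c d : ℂ) *
      (Polynomial.aeval (Gf tr α n A x) (He d) - Wf tr (fun _ : Fin d => α) n A x)) :=
    O1_sum (range (D + 1)) (fun d _ => O1_smul (c d : ℂ) (w2 J tr α hα d))
  obtain ⟨CE, hCE⟩ := hE
  have hCE0 : 0 ≤ |CE| := abs_nonneg _
  refine ⟨2 * (D * ∑ d ∈ Finset.Icc 1 D, c d ^ 2 * C d) + 2 * |CE|, ?_, ?_⟩
  · have : 0 ≤ ∑ d ∈ Finset.Icc 1 D, c d ^ 2 * C d :=
      Finset.sum_nonneg fun d _ => mul_nonneg (sq_nonneg _) (hC0 d)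
    positivity
  intro n _ k
  have hn : (0 : ℝ) < n := by exact_mod_cast Nat.pos_of_ne_zero (NeZero.ne n)
  set Er : Finset ℕ → ZMod n → ℂ := fun A x => ∑ d ∈ range (D + 1), (c d : ℂ) *
      (Polynomial.aeval (Gf tr α n A x) (He d) - Wf tr (fun _ : Fin d => α) n A x) with hEr
  have hdec : ∀ A, fc (fun x => (((PP D c).eval ((Gf tr α n A x).re) : ℝ) : ℂ)) k -
        (if k = 0 then (c 0 : ℂ) else 0) =
      ∑ d ∈ Finset.Icc 1 D, (c d : ℂ) * fc (Wf tr (fun _ : Fin d => α) n A) k + fc (Er A) k := by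
    intro A
    have h1 : (fun x => (((PP D c).eval ((Gf tr α n A x).re) : ℝ) : ℂ)) =
        fun x => ((c 0 : ℂ) + ∑ d ∈ Finset.Icc 1 D, (c d : ℂ) * Wf tr (fun _ : Fin d => α) n A x) +
          Er A x := by
      funext x
      have hre := ((w0 J tr 0 (fun i => i.elim0)).2.2.1 α n A x).1
      have h2 : (((PP D c).eval ((Gf tr α n A x).re) : ℝ) : ℂ) =
          ∑ d ∈ range (D + 1), (c d : ℂ) * Polynomial.aeval (Gf tr α n A x) (He d) := by
        rw [← gl_aeval, ← hre]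
        unfold PP
        rw [map_sum]
        refine Finset.sum_congr rfl fun d _ => ?_
        rw [map_mul, Polynomial.aeval_C]
        rfl
      rw [h2]
      have h3 : ∀ d ∈ range (D + 1), (c d : ℂ) * Polynomial.aeval (Gf tr α n A x) (He d) =
          (c d : ℂ) * Wf tr (fun _ : Fin d => α) n A x + (c d : ℂ) *
            (Polynomial.aeval (Gf tr α n A x) (He d) - Wf tr (fun _ : Fin d => α) n A x) := by
        intro d _; ring
      rw [Finset.sum_congr rfl h3, Finset.sum_add_distrib]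
      congr 1
      rw [Finset.sum_range_succ', Finset.range_eq_Ico,
        Finset.sum_Ico_add' (fun d => (c d : ℂ) * Wf tr (fun _ : Fin d => α) n A x) 0 D 1]
      have h4 : Wf tr (fun _ : Fin 0 => α) n A x = 1 :=
        (w0 J tr 0 (fun _ => α)).2.2.2.2.2.1 rfl n A x
      rw [h4, mul_one, add_comm]
      congr 1
    rw [h1, fc_add, fc_add, fc_const, gl_fc_sum]
    have h5 : ∀ d ∈ Finset.Icc 1 D, fc (fun x => (c d : ℂ) * Wf tr (fun _ : Fin d => α) n A x) k =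
        (c d : ℂ) * fc (Wf tr (fun _ : Fin d => α) n A) k := fun d _ => fc_mul _ _ k
    rw [Finset.sum_congr rfl h5]
    ring
  have hbound : ∀ A, A ⊆ Cl n → ‖fc (fun x => (((PP D c).eval ((Gf tr α n A x).re) : ℝ) : ℂ)) k -
        (if k = 0 then (c 0 : ℂ) else 0)‖ ^ 2 ≤
      2 * (D * ∑ d ∈ Finset.Icc 1 D, c d ^ 2 * ‖fc (Wf tr (fun _ : Fin d => α) n A) k‖ ^ 2) +
        2 * ((∑ x, ‖Er A x‖ ^ 2) / n) := by
    intro A _
    rw [hdec A]
    refine (gl_norm_add_sq _ _).trans ?_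
    have h6 := gl_norm_sum_sq (Finset.Icc 1 D)
      (fun d => (c d : ℂ) * fc (Wf tr (fun _ : Fin d => α) n A) k)
    rw [Nat.card_Icc, Nat.add_sub_cancel] at h6
    have h7 : ∀ d, ‖(c d : ℂ) * fc (Wf tr (fun _ : Fin d => α) n A) k‖ ^ 2 =
        c d ^ 2 * ‖fc (Wf tr (fun _ : Fin d => α) n A) k‖ ^ 2 := by
      intro d
      rw [norm_mul, mul_pow, Complex.norm_real, Real.norm_eq_abs, sq_abs]
    simp only [h7] at h6
    have h8 : ‖fc (Er A) k‖ ^ 2 ≤ (∑ x, ‖Er A x‖ ^ 2) / n := by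
      rw [le_div_iff₀ hn, mul_comm]
      exact fc_sq_le (Er A) k
    linarith
  refine (Ex_mono n _ _ hbound).trans ?_
  rw [Ex_add, Ex_mul, Ex_mul, Ex_mul, Ex_sum]
  have h9 : ∑ d ∈ Finset.Icc 1 D, Ex n (fun A => c d ^ 2 *
      ‖fc (Wf tr (fun _ : Fin d => α) n A) k‖ ^ 2) ≤ ∑ d ∈ Finset.Icc 1 D, c d ^ 2 * C d / n := by
    refine Finset.sum_le_sum fun d hd => ?_
    rw [Finset.mem_Icc] at hd
    rw [Ex_mul, mul_div_assoc]
    exact mul_le_mul_of_nonneg_left (hC d (by omega) n k) (sq_nonneg _)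
  have h10 : Ex n (fun A => (∑ x, ‖Er A x‖ ^ 2) / n) ≤ |CE| / n := by
    have h11 : Ex n (fun A => (∑ x, ‖Er A x‖ ^ 2) / n) = (∑ x, Ex n (fun A => ‖Er A x‖ ^ 2)) / n := by
      have : (fun A => (∑ x, ‖Er A x‖ ^ 2) / (n : ℝ)) = fun A => (1 / (n : ℝ)) * ∑ x, ‖Er A x‖ ^ 2 := by
        funext A; ring
      rw [this, Ex_mul, Ex_sum]
      ring
    rw [h11]
    exact div_le_div_of_nonneg_right ((hCE n).trans (le_abs_self _)) hn.le
  rw [← Finset.sum_div] at h9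
  have hD : (0 : ℝ) ≤ D := Nat.cast_nonneg D
  calc _ ≤ 2 * (D * ((∑ d ∈ Finset.Icc 1 D, c d ^ 2 * C d) / n)) + 2 * (|CE| / n) := by
        have := mul_le_mul_of_nonneg_left h9 hD
        linarith
    _ = _ := by ring

theorem t_GL (d1 : S_D1) (w0 : S_W0) (w2 : S_W2) : S_GL := by
  intro J _ tr α hα
  have hre : ∀ (n : ℕ) [NeZero n] (A : Finset ℕ) (x : ZMod n),
      Gf tr α n A x = ((Gf tr α n A x).re : ℂ) := fun n _ A x =>
    ((w0 J tr 0 (fun i => i.elim0)).2.2.1 α n A x).1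
  have hB : Bd (fun n _ A x => Gf tr α n A x) := (w0 J tr 0 (fun i => i.elim0)).2.1 α
  refine ⟨?_, ?_, ?_, ?_⟩
  · intro n _ A x
    exact congrArg Complex.re ((w0 J tr 0 (fun i => i.elim0)).2.2.1 α n A x).2
  · intro R
    obtain ⟨D, c, hR⟩ := d1.2.2.1 R
    obtain ⟨K, hK0, hK⟩ := gl_key w0 w2 J tr α hα D c
    refine ⟨K, fun n _ => ?_⟩
    have h1 := hK n 0
    rw [hR, gl_int d1 D c]
    refine le_trans (le_of_eq ?_) h1
    congr 1
    funext A
    rw [if_pos rfl, gl_fc_zero]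
    have : (∑ x, (((PP D c).eval ((Gf tr α n A x).re) : ℝ) : ℂ)) / n - (c 0 : ℂ) =
        (((∑ x, (PP D c).eval ((Gf tr α n A x).re)) / n - c 0 : ℝ) : ℂ) := by
      push_cast; rfl
    rw [this, Complex.norm_real, Real.norm_eq_abs, sq_abs]
  · intro R
    obtain ⟨-, C, hC⟩ := Bd_aeval hB R
    refine ⟨C, fun n _ x => ?_⟩
    refine le_trans (le_of_eq ?_) (hC n x)
    congr 1
    funext A
    show (R.eval ((Gf tr α n A x).re)) ^ 2 = ‖Polynomial.aeval (Gf tr α n A x) R‖ ^ 2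
    have h2 := gl_aeval R (Gf tr α n A x).re
    rw [← hre n A x] at h2
    rw [h2, Complex.norm_real, Real.norm_eq_abs, sq_abs]
  · intro R
    obtain ⟨D, c, hR⟩ := d1.2.2.1 R
    obtain ⟨K, hK0, hK⟩ := gl_key w0 w2 J tr α hα D c
    obtain ⟨D', hD'⟩ := DB_aeval hB.1 R
    refine ⟨9 ^ D' * K ^ 2, fun n _ k hk => ?_⟩
    have hdeg : Deg n D' (fun A => fc (fun x => ((R.eval ((Gf tr α n A x).re) : ℝ) : ℂ)) k) := by
      have h1 : (fun A => fc (fun x => ((R.eval ((Gf tr α n A x).re) : ℝ) : ℂ)) k) =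
          fun A => (1 / (n : ℂ)) * ∑ x, ch n (-(k * x)) * Polynomial.aeval (Gf tr α n A x) R := by
        funext A
        unfold fc
        rw [Finset.sum_div, Finset.mul_sum]
        refine Finset.sum_congr rfl fun x _ => ?_
        have h2 := gl_aeval R (Gf tr α n A x).re
        rw [← hre n A x] at h2
        rw [h2]
        ring
      rw [h1]
      exact Deg_smul _ (Deg_sum _ fun x _ => Deg_smul _ (hD' n x))
    have h2 := bonami hdeg
    have h3 := hK n k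
    simp only [if_neg hk, sub_zero] at h3
    rw [← hR] at h3
    refine h2.trans ?_
    have h4 : (0 : ℝ) ≤ Ex n (fun A => ‖fc (fun x => ((R.eval ((Gf tr α n A x).re) : ℝ) : ℂ)) k‖ ^ 2) :=
      Ex_nonneg n _ fun A _ => by positivity
    calc _ ≤ (9 : ℝ) ^ D' * (K / n) ^ 2 := by
          apply mul_le_mul_of_nonneg_left _ (by positivity)
          exact pow_le_pow_left₀ h4 h3 2
      _ = _ := by ring

end Pool.Agent.H276R2.Th
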