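import Pool.Agent.H276R2.Th.Spec

/-!
# IT0 (helper509): start of the iteration
-/

set_option autoImplicit false

namespace Pool.Agent.H276R2.Th

open Finset Real

theorem it0_cc : cc leafTree leafTree = 1 := by
  have h : Nat.card (TIso leafTree leafTree) = 1 := by
    rw [Nat.card_eq_one_iff_unique]
    constructor
    · constructor
      rintro ⟨⟨p, b⟩, hp⟩ ⟨⟨p', b'⟩, hp'⟩
      apply Subtype.ext
      have h1 : p = p' := Equiv.ext (fun _ => Subsingleton.elim (α := Unit) _ _)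
      have h2 : b = b' := by
        funext e
        have he : e = leafTree.root := Subsingleton.elim (α := Unit) _ _
        rw [he]
        exact hp.2.1.trans hp'.2.1.symm
      show (p, b) = (p', b')
      rw [h1, h2]
    · refine ⟨⟨(Equiv.refl _, fun _ => false), rfl, rfl, rfl, ?_⟩⟩
      intro e w
      simp [leafTree, sb]
  unfold cc
  rw [h]
  norm_num

/-- the tree family of the start -/
def it0_tr {K : Type} (tr : K → Tree) : Option K → Tree := fun o => o.elim leafTree tr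

/-- the indicator of the leaf -/
def it0_a {K : Type} : Option K → ℝ := fun o => o.elim 1 (fun _ => 0)

theorem it0_Gf {K : Type} [Fintype K] (tr : K → Tree) (n : ℕ) [NeZero n] (A : Finset ℕ)
    (x : ZMod n) : Gf (it0_tr tr) it0_a n A x = F n (fun _ : Unit => leafTree) A x := by
  unfold Gf
  rw [Fintype.sum_option]
  simp [it0_tr, it0_a]

theorem it0_Gf0 (n : ℕ) [NeZero n] (A : Finset ℕ) (x : ZMod n) :
    Gf (fun _ : Unit => leafTree) (fun _ => 1) n A x = F n (fun _ : Unit => leafTree) A x := by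
  unfold Gf
  simp

theorem it0_CC {K : Type} [Fintype K] (tr : K → Tree) :
    CC (it0_tr tr) it0_a it0_a = 1 := by
  unfold CC
  rw [Fintype.sum_option, Fintype.sum_option]
  simp [it0_tr, it0_a, it0_cc]

theorem it0_CC0 : CC (fun _ : Unit => leafTree) (fun _ => 1) (fun _ => 1) = 1 := by
  unfold CC
  simp [it0_cc]

theorem it0_PP (D : ℕ) : PP D (fun _ => 0) = 0 := by
  unfold PP
  simp

theorem it0_s (D : ℕ) (c : ℕ → ℝ) : 0 < sP D c ∧
    sP D c * sP D c = 4 + ∑ d ∈ range (D + 1), c d ^ 2 * d.factorial := by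
  have h : (0 : ℝ) < 4 + ∑ d ∈ range (D + 1), c d ^ 2 * d.factorial := by
    have : 0 ≤ ∑ d ∈ range (D + 1), c d ^ 2 * (d.factorial : ℝ) :=
      Finset.sum_nonneg (fun d _ => by positivity)
    linarith
  exact ⟨Real.sqrt_pos.2 h, Real.mul_self_sqrt h.le⟩

/-- the difference between `T (√n δ₀)` and the chaos of the leaf -/
theorem it0_diff (n : ℕ) [NeZero n] (A : Finset ℕ) (x : ZMod n) :
    T A (fun y => if y = 0 then ((1 * √n : ℝ) : ℂ) else 0) x -
      F n (fun _ : Unit => leafTree) A x = 1 / ((√n : ℝ) : ℂ) := by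
  have hn : (0 : ℝ) < n := by exact_mod_cast Nat.pos_of_ne_zero (NeZero.ne n)
  have hs : (0 : ℝ) < √n := Real.sqrt_pos.2 hn
  have hsc : ((√n : ℝ) : ℂ) ≠ 0 := by exact_mod_cast hs.ne'
  have hnc : (n : ℂ) = ((√n : ℝ) : ℂ) * ((√n : ℝ) : ℂ) := by
    rw [← Complex.ofReal_mul, Real.mul_self_sqrt hn.le]
    simp
  rw [T_delta, F_leaf, one_mul]
  have h1 : ∑ k : ZMod n, (sg A k : ℂ) * ch n (k * x) =
      1 + ∑ k : ZMod n, if k = 0 then 0 else (sg A k : ℂ) * ch n (k * x) := by
    have h2 : ∀ k : ZMod n, (sg A k : ℂ) * ch n (k * x) = (if k = 0 then 1 else 0) +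
        if k = 0 then 0 else (sg A k : ℂ) * ch n (k * x) := by
      intro k
      by_cases hk : k = 0
      · rw [if_pos hk, if_pos hk, hk, sg_zero, zero_mul, ch_zero]
        simp
      · rw [if_neg hk, if_neg hk, zero_add]
    rw [Finset.sum_congr rfl (fun k _ => h2 k), Finset.sum_add_distrib, Finset.sum_ite_eq' ,
      if_pos (Finset.mem_univ _)]
  rw [h1, hnc]
  field_simp
  ring

theorem it0_O1 {K : Type} [Fintype K] (tr : K → Tree) (D : ℕ) :
    O1 (fun n _ A x => T A (fun y => (if y = 0 then ((1 * √n : ℝ) : ℂ) else 0) +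
      Polynomial.aeval (Gf (it0_tr tr) it0_a n A y) (PP D (fun _ => 0))) x -
        ((1 : ℝ) : ℂ) * Gf (it0_tr tr) it0_a n A x) := by
  refine ⟨1, ?_⟩
  intro n _
  have h : ∀ (x : ZMod n) (A : Finset ℕ),
      ‖T A (fun y => (if y = 0 then ((1 * √n : ℝ) : ℂ) else 0) +
        Polynomial.aeval (Gf (it0_tr tr) it0_a n A y) (PP D (fun _ => 0))) x -
          ((1 : ℝ) : ℂ) * Gf (it0_tr tr) it0_a n A x‖ ^ 2 = 1 / n := by
    intro x A
    have e1 : (fun y : ZMod n => (if y = 0 then ((1 * √n : ℝ) : ℂ) else 0) +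
        Polynomial.aeval (Gf (it0_tr tr) it0_a n A y) (PP D (fun _ => 0))) =
        fun y : ZMod n => if y = 0 then ((1 * √n : ℝ) : ℂ) else 0 := by
      funext y
      rw [it0_PP, map_zero, add_zero]
    have e2 : T A (fun y => if y = 0 then ((1 * √n : ℝ) : ℂ) else 0) x -
        ((1 : ℝ) : ℂ) * Gf (it0_tr tr) it0_a n A x = 1 / ((√n : ℝ) : ℂ) := by
      rw [← it0_diff n A x, it0_Gf, Complex.ofReal_one]
      ring
    rw [e1, e2, norm_div, norm_one, Complex.norm_real, Real.norm_eq_abs, abs_of_nonneg (Real.sqrt_nonneg _), div_pow, one_pow,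
      Real.sq_sqrt (Nat.cast_nonneg n)]
  have hn : (0 : ℝ) < n := by exact_mod_cast Nat.pos_of_ne_zero (NeZero.ne n)
  have h2 : ∑ x : ZMod n, Ex n (fun A =>
      ‖T A (fun y => (if y = 0 then ((1 * √n : ℝ) : ℂ) else 0) +
        Polynomial.aeval (Gf (it0_tr tr) it0_a n A y) (PP D (fun _ => 0))) x -
          ((1 : ℝ) : ℂ) * Gf (it0_tr tr) it0_a n A x‖ ^ 2) = ∑ x : ZMod n, (1 / n : ℝ) := by
    refine Finset.sum_congr rfl (fun x _ => ?_)
    rw [Ex_congr n _ (fun _ => (1 / n : ℝ)) (fun A _ => h x A), Ex_const]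
  rw [h2, Finset.sum_const, Finset.card_univ, ZMod.card, nsmul_eq_mul]
  rw [mul_one_div_cancel hn.ne']

theorem t_IT0 (nx : S_NX) (w4 : S_W4) : S_IT0 := by
  intro D c hc0 hc1
  obtain ⟨hs, hss⟩ := it0_s D c
  obtain ⟨K, hK, tr, H⟩ := nx Unit (fun _ => leafTree) D c (sP D c) hs.ne' hc0 hc1
  obtain ⟨β, hβ⟩ := H (fun _ => 1) it0_CC0
  have hrel : O1 (fun n _ A x => T A (fun y => (if y = 0 then ((2 * √n : ℝ) : ℂ) else 0) +
      Polynomial.aeval (Gf (it0_tr tr) it0_a n A y) (PP D c)) x -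
        ((sP D c : ℝ) : ℂ) * Gf (it0_tr tr) β n A x) := by
    refine O1_congr ?_ hβ
    intro n _ A x _
    have e1 : (fun y : ZMod n => (if y = 0 then ((2 * √n : ℝ) : ℂ) else 0) +
        Polynomial.aeval (Gf (it0_tr tr) it0_a n A y) (PP D c)) =
        fun y : ZMod n => (if y = 0 then ((2 * √n : ℝ) : ℂ) else 0) +
          Polynomial.aeval (Gf (fun _ : Unit => leafTree) (fun _ => 1) n A y) (PP D c) := by
      funext y
      rw [it0_Gf, it0_Gf0]
    rw [e1]
    rfl
  refine ⟨Option K, inferInstance, it0_tr tr, it0_a, β, ?_, ?_, ?_, ?_⟩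
  · exact it0_CC tr
  · have h := w4 (Option K) (Option K) (it0_tr tr) (it0_tr tr) it0_a it0_a β β D c c 2 2
      (sP D c) (sP D c) (it0_CC tr) (it0_CC tr) hrel hrel
    rw [it0_CC tr, hss] at h
    have h1 : (2 : ℝ) * 2 + ∑ d ∈ range (D + 1), c d * c d * d.factorial * 1 ^ d =
        4 + ∑ d ∈ range (D + 1), c d ^ 2 * d.factorial := by
      congr 1
      · norm_num
      · refine Finset.sum_congr rfl (fun d _ => ?_)
        rw [one_pow, mul_one, sq]
    rw [h1, ← hss] at h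
    have h2 : sP D c * sP D c ≠ 0 := (mul_pos hs hs).ne'
    exact mul_left_cancel₀ h2 (h.trans (mul_one _).symm)
  · have h := w4 (Option K) (Option K) (it0_tr tr) (it0_tr tr) it0_a it0_a it0_a β D
      (fun _ => 0) c 1 2 1 (sP D c) (it0_CC tr) (it0_CC tr) (it0_O1 tr D) hrel
    have h1 : ∑ d ∈ range (D + 1), (fun _ : ℕ => (0 : ℝ)) d * c d * d.factorial *
        CC (it0_tr tr) it0_a it0_a ^ d = 0 := by
      refine Finset.sum_eq_zero (fun d _ => ?_)
      ring
    rw [h1, one_mul, one_mul, add_zero] at h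
    show CC (it0_tr tr) it0_a β = 2 / sP D c
    rw [eq_div_iff hs.ne', mul_comm]
    exact h
  · exact hrel

end Pool.Agent.H276R2.Th
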