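import Pool.Agent.H276R2.Th.Spec

/-! Task IT1: one step of the iteration. -/

set_option autoImplicit false

namespace Pool.Agent.H276R2.Th

open Finset

theorem it1_s2 (D : ℕ) (c : ℕ → ℝ) :
    sP D c * sP D c = 4 + ∑ d ∈ range (D + 1), c d ^ 2 * d.factorial := by
  unfold sP
  apply Real.mul_self_sqrt
  positivity

theorem it1_spos (D : ℕ) (c : ℕ → ℝ) : 0 < sP D c := by
  unfold sP
  apply Real.sqrt_pos.2
  positivity

theorem t_IT1 (w0 : S_W0) (nx : S_NX) (w4 : S_W4) : S_IT1 := by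
  rintro D c m h0 h1 ⟨J, hJ, tr, α, β, h⟩
  have hs := it1_spos D c
  have hs2 := it1_s2 D c
  obtain ⟨K, hK, tr'', hnx⟩ := nx J tr D c (sP D c) hs.ne' h0 h1
  obtain ⟨α', hα'⟩ := hnx α h.nα
  obtain ⟨β', hβ'⟩ := hnx β h.nβ
  have key : ∀ (x y : J → ℝ) (x' y' : Option K → ℝ), CC tr x x = 1 → CC tr y y = 1 →
      O1 (fun n _ A z => T A (fun y => (if y = 0 then ((2 * √n : ℝ) : ℂ) else 0) +
        Polynomial.aeval (Gf tr x n A y) (PP D c)) z -
          ((sP D c : ℝ) : ℂ) * Gf (fun o : Option K => o.elim leafTree tr'') x' n A z) →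
      O1 (fun n _ A z => T A (fun w => (if w = 0 then ((2 * √n : ℝ) : ℂ) else 0) +
        Polynomial.aeval (Gf tr y n A w) (PP D c)) z -
          ((sP D c : ℝ) : ℂ) * Gf (fun o : Option K => o.elim leafTree tr'') y' n A z) →
      CC (fun o : Option K => o.elim leafTree tr'') x' y' =
        (4 + ∑ d ∈ range (D + 1), c d ^ 2 * d.factorial * CC tr x y ^ d) / sP D c ^ 2 := by
    intro x y x' y' hx hy hx' hy'
    have := w4 J (Option K) tr (fun o : Option K => o.elim leafTree tr'') x y x' y' D c c 2 2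
      (sP D c) (sP D c) hx hy hx' hy'
    rw [eq_div_iff (by positivity)]
    have h2 : ∑ d ∈ range (D + 1), c d * c d * d.factorial * CC tr x y ^ d =
        ∑ d ∈ range (D + 1), c d ^ 2 * d.factorial * CC tr x y ^ d :=
      Finset.sum_congr rfl fun d _ => by ring
    rw [h2] at this
    linarith
  have hone : (4 + ∑ d ∈ range (D + 1), c d ^ 2 * d.factorial * (1 : ℝ) ^ d) / sP D c ^ 2 = 1 := by
    simp only [one_pow, mul_one]
    rw [← hs2, pow_two]
    exact div_self (by positivity)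
  refine ⟨Option K, inferInstance, fun o => o.elim leafTree tr'', α', β', ?_, ?_, ?_, ?_⟩
  · rw [key α α α' α' h.nα h.nα hα' hα', h.nα]
    exact hone
  · rw [key β β β' β' h.nβ h.nβ hβ' hβ', h.nβ]
    exact hone
  · rw [key α β α' β' h.nα h.nβ hα' hβ', h.cov]
    rfl
  · -- the relation
    have hsC : ((sP D c : ℝ) : ℂ) ≠ 0 := by exact_mod_cast hs.ne'
    have hd : O1 (fun n _ A x =>
        Gf (fun o : Option K => o.elim leafTree tr'') α' n A x - Gf tr β n A x) := by
      refine O1_congr (f := fun n _ A x => (((sP D c : ℝ) : ℂ)⁻¹) *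
        ((T A (fun y => (if y = 0 then ((2 * Real.sqrt n : ℝ) : ℂ) else 0) +
          Polynomial.aeval (Gf tr α n A y) (PP D c)) x - ((sP D c : ℝ) : ℂ) * Gf tr β n A x) -
        (T A (fun y => (if y = 0 then ((2 * √n : ℝ) : ℂ) else 0) +
          Polynomial.aeval (Gf tr α n A y) (PP D c)) x -
          ((sP D c : ℝ) : ℂ) * Gf (fun o : Option K => o.elim leafTree tr'') α' n A x))) ?_
        (O1_smul _ (O1_sub h.rel hα'))
      intro n _ A x _
      field_simp
      ring
    have hb1 := (w0 (Option K) (fun o => o.elim leafTree tr'') 0 (fun i => i.elim0)).2.1 α'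
    have hb2 := (w0 J tr 0 (fun i => i.elim0)).2.1 β
    have hP := O1_T (O1_aeval_sub hb1 hb2 hd (PP D c))
    refine O1_congr ?_ (O1_add hP hβ')
    intro n _ A x _
    rw [T_sub]
    have e1 : ∀ g : ZMod n → ℂ, T A (fun y => (if y = 0 then ((2 * √n : ℝ) : ℂ) else 0) + g y) x =
        T A (fun y => (if y = 0 then ((2 * √n : ℝ) : ℂ) else 0)) x + T A g x :=
      fun g => T_add A _ g x
    rw [e1, e1]
    ring

end Pool.Agent.H276R2.Th
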