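import Pool.Agent.H276R2.Th.Spec

/-! # Counting solutions of a linear equation (task K1) -/

set_option autoImplicit false

namespace Pool.Agent.H276R2.Th

open Finset

theorem k1_card {α β : Type} [AddCommGroup α] [AddCommGroup β] (f : α →+ β) :
    Nat.card f.ker * Nat.card f.range = Nat.card α := by
  rw [AddSubgroup.card_eq_card_quotient_mul_card_addSubgroup f.ker,
    Nat.card_congr (QuotientAddGroup.quotientKerEquivRange f).toEquiv, mul_comm]

theorem t_K1 : S_K1 := by
  intro n _ Λ _ _ h ι a ha hι c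
  classical
  have hm : 0 < a.natAbs := Int.natAbs_pos.2 ha
  let φ : ZMod n →+ ZMod n := nsmulAddMonoidHom a.natAbs
  have hφ : ∀ z, φ z = a.natAbs • z := fun z => rfl
  have hker : Nat.card φ.ker ≤ a.natAbs := by
    have h1 := IsAddCyclic.card_nsmul_eq_zero_le (α := ZMod n) hm
    refine le_trans (le_of_eq ?_) h1
    rw [Nat.card_eq_fintype_card, Fintype.card_subtype]
    exact congrArg Finset.card (Finset.filter_congr fun z _ => by
      rw [AddMonoidHom.mem_ker, hφ])
  have hrange : φ.range ≤ h.range := by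
    rintro _ ⟨z, rfl⟩
    rcases Int.natAbs_eq a with h1 | h1
    · refine ⟨ι z, ?_⟩
      rw [hι, hφ, nsmul_eq_mul, h1]
      simp
    · refine ⟨-(ι z), ?_⟩
      rw [map_neg, hι, hφ, nsmul_eq_mul, h1]
      simp
  have e1 : Nat.card φ.ker * Nat.card φ.range = n := by
    rw [k1_card, Nat.card_zmod]
  have e2 : Nat.card h.ker * Nat.card h.range = Nat.card Λ := k1_card h
  have e3 : Nat.card {l : Λ // h l = c} ≤ Nat.card h.ker := by
    by_cases hc : ∃ l0, h l0 = c
    · obtain ⟨l0, hl0⟩ := hc
      refine Nat.card_le_card_of_injective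
        (fun l : {l : Λ // h l = c} => (⟨l.1 - l0, by
          rw [AddMonoidHom.mem_ker, map_sub, l.2, hl0, sub_self]⟩ : h.ker)) ?_
      intro l l' hll
      have := congrArg Subtype.val hll
      exact Subtype.ext (sub_left_injective this)
    · have : IsEmpty {l : Λ // h l = c} := ⟨fun l => hc ⟨l.1, l.2⟩⟩
      simp
  have e4 : Nat.card φ.range ≤ Nat.card h.range := by
    exact Nat.card_le_card_of_injective _ (AddSubgroup.inclusion_injective hrange)
  have e5 : Nat.card {l : Λ // h l = c} * n ≤ a.natAbs * Nat.card Λ := by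
    calc Nat.card {l : Λ // h l = c} * n ≤ Nat.card h.ker * (Nat.card φ.ker * Nat.card φ.range) := by
          rw [e1]; exact Nat.mul_le_mul_right _ e3
      _ ≤ Nat.card h.ker * (a.natAbs * Nat.card h.range) :=
          Nat.mul_le_mul_left _ (Nat.mul_le_mul hker e4)
      _ = a.natAbs * Nat.card Λ := by rw [← e2]; ring
  have e6 : (|(a : ℝ)|) = (a.natAbs : ℝ) := by
    rw [Nat.cast_natAbs, Int.cast_abs]
  rw [e6]
  exact_mod_cast e5

end Pool.Agent.H276R2.Th
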