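import Pool.Agent.H276R2.Th.Spec

set_option autoImplicit false

namespace Pool.Agent.H276R2.Th

open Finset

lemma m1_wal_mul (a b A : Finset ℕ) : wal a A * wal b A = wal (symmDiff a b) A := by
  classical
  unfold wal
  have hs : ∀ s : Finset ℕ, (∏ j ∈ s, if j ∈ A then (1:ℂ) else -1) *
      (∏ j ∈ s, if j ∈ A then (1:ℂ) else -1) = 1 := by
    intro s
    rw [← Finset.prod_mul_distrib]
    refine Finset.prod_eq_one fun j _ => ?_
    split_ifs <;> norm_num
  have h1 := Finset.prod_sdiff (f := fun j => if j ∈ A then (1:ℂ) else -1)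
    (Finset.inter_subset_left : a ∩ b ⊆ a)
  have h2 := Finset.prod_sdiff (f := fun j => if j ∈ A then (1:ℂ) else -1)
    (Finset.inter_subset_right : a ∩ b ⊆ b)
  rw [Finset.sdiff_inter_self_left] at h1
  rw [Finset.sdiff_inter_self_right] at h2
  rw [← h1, ← h2, symmDiff_def, Finset.sup_eq_union, Finset.prod_union disjoint_sdiff_sdiff]
  have h3 := hs (a ∩ b)
  linear_combination (∏ j ∈ a \ b, if j ∈ A then (1:ℂ) else -1) *
    (∏ j ∈ b \ a, if j ∈ A then (1:ℂ) else -1) * h3

lemma m1_inj {n : ℕ} [NeZero n] {M : Type} {v : M → ZMod n} (hv : GenL v) :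
    Function.Injective (fun p => cls n (v p)) := by
  intro p q h
  by_contra hne
  rcases (cls_eq_iff n _ _).mp h with h1 | h1
  · exact (hv.2 p q hne).1 h1
  · exact (hv.2 p q hne).2 h1

lemma m1_prod {n : ℕ} [NeZero n] {M : Type} [Fintype M] {v : M → ZMod n} (hv : GenL v)
    (A : Finset ℕ) :
    ((∏ p, sg A (v p) : ℝ) : ℂ) = wal (univ.image (fun p => cls n (v p))) A := by
  classical
  have h1 : wal (univ.image (fun p => cls n (v p))) A =
      ∏ p : M, (if cls n (v p) ∈ A then (1:ℂ) else -1) := by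
    unfold wal
    rw [Finset.prod_image (fun p _ q _ h => m1_inj hv h)]
  rw [h1, Complex.ofReal_prod]
  refine Finset.prod_congr rfl fun p _ => ?_
  rw [sg_eq_wal A (v p) (hv.1 p)]
  unfold wal
  rw [Finset.prod_singleton]

/-- Task M1 (helper469). -/
theorem t_M1 : S_M1 := by
  classical
  intro n _ M _ v w hv hw hno
  set a := univ.image (fun p => cls n (v p)) with ha
  set b := univ.image (fun p => cls n (w p)) with hb
  have hab : a ≠ b := by
    intro hab
    apply hno
    have h1 : ∀ p, ∃ q, cls n (v q) = cls n (w p) := by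
      intro p
      have h2 : cls n (w p) ∈ a := by
        rw [hab, hb]
        exact Finset.mem_image_of_mem _ (mem_univ p)
      rw [ha, Finset.mem_image] at h2
      obtain ⟨q, _, hq⟩ := h2
      exact ⟨q, hq⟩
    choose σ hσ using h1
    have hinj : Function.Injective σ := by
      intro p q h
      apply m1_inj hw
      simp only
      rw [← hσ p, ← hσ q, h]
    have hbij : Function.Bijective σ := (Finite.injective_iff_bijective).mp hinj
    refine ⟨Equiv.ofBijective σ hbij, fun p => ?_⟩
    have h3 := (cls_eq_iff n _ _).mp (hσ p)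
    rw [Equiv.ofBijective_apply]
    rcases h3 with h3 | h3
    · left; exact h3.symm
    · right; rw [h3, neg_neg]
  have hsub : symmDiff a b ⊆ Cl n := by
    have ha' : a ⊆ Cl n := by
      intro j hj
      rw [ha, Finset.mem_image] at hj
      obtain ⟨p, _, rfl⟩ := hj
      exact cls_mem n _ (hv.1 p)
    have hb' : b ⊆ Cl n := by
      intro j hj
      rw [hb, Finset.mem_image] at hj
      obtain ⟨p, _, rfl⟩ := hj
      exact cls_mem n _ (hw.1 p)
    intro j hj
    rw [Finset.mem_symmDiff] at hj
    rcases hj with hj | hj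
    · exact ha' hj.1
    · exact hb' hj.1
  have hne : symmDiff a b ≠ ∅ := by
    intro h
    apply hab
    rw [← Finset.bot_eq_empty, symmDiff_eq_bot] at h
    exact h
  have h5 : ((Ex n (fun A => (∏ p, sg A (v p)) * ∏ p, sg A (w p)) : ℝ) : ℂ) = 0 := by
    rw [← ExC_ofReal]
    have h6 : (fun A => (((∏ p, sg A (v p)) * ∏ p, sg A (w p) : ℝ) : ℂ)) =
        wal (symmDiff a b) := by
      funext A
      rw [Complex.ofReal_mul, m1_prod hv A, m1_prod hw A, ← ha, ← hb, m1_wal_mul]
    rw [h6, ExC_wal n _ hsub, if_neg hne]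
  exact_mod_cast h5

end Pool.Agent.H276R2.Th
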