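import Pool.Agent.H276R2.Th.Spec

/-!
# Second moment bounds for sums of products of signs (task M2)
-/

set_option autoImplicit false

namespace Pool.Agent.H276R2.Th

open Finset

open Classical in
theorem m2_fibre (n : ℕ) [NeZero n] (M Λ : Type) [Fintype M] [AddCommGroup Λ] [Fintype Λ]
    (h : M → Λ →+ ZMod n) (κ : Λ →+ ZMod n) (R : Λ → Prop) (D : Finset Λ)
    (hR : ∀ l ∈ D, ∀ l' ∈ D, R (l - l')) (v : M → ZMod n) (k : ZMod n) :
    (D.filter (fun l' => κ l' = k ∧ ∀ p, h p l' = v p)).card ≤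
      Nat.card {u : Λ // R u ∧ (∀ p, h p u = 0) ∧ κ u = 0} := by
  rcases (D.filter (fun l' => κ l' = k ∧ ∀ p, h p l' = v p)).eq_empty_or_nonempty with he | ⟨l0, hl0⟩
  · rw [he]; simp
  rw [Finset.mem_filter] at hl0
  have hmem : ∀ l : {l // l ∈ D.filter (fun l' => κ l' = k ∧ ∀ p, h p l' = v p)},
      R (l.1 - l0) ∧ (∀ p, h p (l.1 - l0) = 0) ∧ κ (l.1 - l0) = 0 := by
    rintro ⟨l, hl⟩
    rw [Finset.mem_filter] at hl
    refine ⟨hR l hl.1 l0 hl0.1, fun p => ?_, ?_⟩
    · rw [map_sub, hl.2.2 p, hl0.2.2 p, sub_self]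
    · rw [map_sub, hl.2.1, hl0.2.1, sub_self]
  have key := Nat.card_le_card_of_injective
    (fun l : {l // l ∈ D.filter (fun l' => κ l' = k ∧ ∀ p, h p l' = v p)} =>
      (⟨l.1 - l0, hmem l⟩ : {u : Λ // R u ∧ (∀ p, h p u = 0) ∧ κ u = 0})) (by
      intro a b hab
      have := congrArg Subtype.val hab
      simp only [sub_left_inj] at this
      exact Subtype.ext this)
  rwa [Nat.card_eq_fintype_card, Fintype.card_coe] at key

open Classical in
/-- matching relation -/
def m2_mt {n : ℕ} {M : Type} (v w : M → ZMod n) : Prop :=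
  ∃ σ : Equiv.Perm M, ∀ p, w p = v (σ p) ∨ w p = -v (σ p)

open Classical in
theorem m2_count (n : ℕ) [NeZero n] (M Λ : Type) [Fintype M] [AddCommGroup Λ] [Fintype Λ]
    (h : M → Λ →+ ZMod n) (κ : Λ →+ ZMod n) (R : Λ → Prop) (D : Finset Λ)
    (hR : ∀ l ∈ D, ∀ l' ∈ D, R (l - l')) :
    ∑ l ∈ D, (D.filter (fun l' => κ l' = κ l ∧
      m2_mt (fun p => h p l) (fun p => h p l'))).card ≤
      ((Fintype.card M).factorial * 2 ^ Fintype.card M) * D.card *
      Nat.card {u : Λ // R u ∧ (∀ p, h p u = 0) ∧ κ u = 0} := by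
  have h1 : ∀ l ∈ D, (D.filter (fun l' => κ l' = κ l ∧
      m2_mt (fun p => h p l) (fun p => h p l'))).card ≤
      ((Fintype.card M).factorial * 2 ^ Fintype.card M) *
      Nat.card {u : Λ // R u ∧ (∀ p, h p u = 0) ∧ κ u = 0} := by
    intro l _
    have hsub : D.filter (fun l' => κ l' = κ l ∧ m2_mt (fun p => h p l) (fun p => h p l')) ⊆
        (univ : Finset (Equiv.Perm M × (M → Bool))).biUnion (fun q =>
          D.filter (fun l' => κ l' = κ l ∧
            ∀ p, h p l' = if q.2 p then h (q.1 p) l else -h (q.1 p) l)) := by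
      intro l' hl'
      rw [Finset.mem_filter] at hl'
      obtain ⟨hl', hk, σ, hσ⟩ := hl'
      rw [Finset.mem_biUnion]
      refine ⟨(σ, fun p => decide (h p l' = h (σ p) l)), Finset.mem_univ _, ?_⟩
      rw [Finset.mem_filter]
      refine ⟨hl', hk, fun p => ?_⟩
      by_cases hp : h p l' = h (σ p) l
      · simp [hp]
      · rcases hσ p with h2 | h2
        · exact absurd h2 hp
        · simp only [hp, decide_false, Bool.false_eq_true, if_false]
          exact h2
    refine (Finset.card_le_card hsub).trans (Finset.card_biUnion_le.trans ?_)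
    refine (Finset.sum_le_card_nsmul _ _ _ (fun q _ =>
      m2_fibre n M Λ h κ R D hR (fun p => if q.2 p then h (q.1 p) l else -h (q.1 p) l) (κ l))).trans ?_
    rw [Finset.card_univ, Fintype.card_prod, Fintype.card_perm, Fintype.card_fun, Fintype.card_bool,
      smul_eq_mul]
  refine (Finset.sum_le_card_nsmul _ _ _ h1).trans ?_
  rw [smul_eq_mul]
  apply le_of_eq
  ring

theorem m2_abs_prod {n : ℕ} {M : Type} [Fintype M] (A : Finset ℕ) (v : M → ZMod n) :
    |∏ p, sg A (v p)| = 1 := by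
  rw [Finset.abs_prod]
  exact Finset.prod_eq_one (fun p _ => abs_sg A (v p))

/-- the coefficient of a pair, in mean -/
theorem m2_pair (h1 : S_M1) (n : ℕ) [NeZero n] (M : Type) [Fintype M] (v w : M → ZMod n)
    (hv : GenL v) (hw : GenL w) (c : ℝ) (hc : |c| ≤ 1) :
    c * Ex n (fun A => (∏ p, sg A (v p)) * ∏ p, sg A (w p)) ≤
      (by classical exact if m2_mt v w then 1 else 0) := by
  classical
  by_cases hm : m2_mt v w
  · have h2 : |Ex n (fun A => (∏ p, sg A (v p)) * ∏ p, sg A (w p))| ≤ 1 := by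
      refine (abs_Ex_le n _).trans ?_
      have : (fun A : Finset ℕ => |(∏ p, sg A (v p)) * ∏ p, sg A (w p)|) = fun _ => (1 : ℝ) := by
        funext A
        rw [abs_mul, m2_abs_prod, m2_abs_prod, one_mul]
      rw [this, Ex_const]
    simp only [hm, if_true]
    calc c * Ex n (fun A => (∏ p, sg A (v p)) * ∏ p, sg A (w p))
        ≤ |c * Ex n (fun A => (∏ p, sg A (v p)) * ∏ p, sg A (w p))| := le_abs_self _
      _ = |c| * |Ex n (fun A => (∏ p, sg A (v p)) * ∏ p, sg A (w p))| := abs_mul _ _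
      _ ≤ 1 * 1 := mul_le_mul hc h2 (abs_nonneg _) zero_le_one
      _ = 1 := one_mul _
  · rw [h1 n M v w hv hw hm]
    simp [hm]

theorem m2_re_le {z w : ℂ} (hz : ‖z‖ ≤ 1) (hw : ‖w‖ ≤ 1) :
    |(z * (starRingEnd ℂ) w).re| ≤ 1 := by
  refine (Complex.abs_re_le_norm _).trans ?_
  rw [norm_mul, RCLike.norm_conj]
  calc ‖z‖ * ‖w‖ ≤ 1 * 1 := mul_le_mul hz hw (norm_nonneg _) zero_le_one
    _ = 1 := one_mul _

theorem m2_sq (z : ℂ) : ‖z‖ ^ 2 = (z * (starRingEnd ℂ) z).re := by
  rw [Complex.mul_conj, Complex.ofReal_re, Complex.normSq_eq_norm_sq]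

open Classical in
theorem t_M2 (h1 : S_M1) : S_M2 := by
  intro n _ M Λ _ _ _ h κ R D a hR ha hG
  have hexp : ∀ A : Finset ℕ,
      ∑ x : ZMod n, ‖∑ l ∈ D, a l * ((∏ p, sg A (h p l) : ℝ) : ℂ) * ch n (κ l * x)‖ ^ 2 =
      ∑ l ∈ D, ∑ l' ∈ D, if κ l' = κ l then
        n * ((a l * (starRingEnd ℂ) (a l')).re *
          ((∏ p, sg A (h p l)) * ∏ p, sg A (h p l'))) else 0 := by
    intro A
    have e1 : ∀ x : ZMod n,
        ‖∑ l ∈ D, a l * ((∏ p, sg A (h p l) : ℝ) : ℂ) * ch n (κ l * x)‖ ^ 2 =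
        (∑ l ∈ D, ∑ l' ∈ D, (a l * (starRingEnd ℂ) (a l')) *
          (((∏ p, sg A (h p l)) * ∏ p, sg A (h p l') : ℝ) : ℂ) *
            ch n ((κ l - κ l') * x)).re := by
      intro x
      rw [m2_sq, map_sum, Finset.sum_mul_sum]
      congr 1
      apply Finset.sum_congr rfl
      intro l _
      apply Finset.sum_congr rfl
      intro l' _
      rw [map_mul, map_mul, Complex.conj_ofReal, ← ch_neg, sub_mul, sub_eq_add_neg, ch_add]
      push_cast
      ring
    simp_rw [e1]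
    rw [← Complex.re_sum, Finset.sum_comm]
    simp_rw [Complex.re_sum]
    apply Finset.sum_congr rfl
    intro l _
    rw [Finset.sum_comm]
    apply Finset.sum_congr rfl
    intro l' _
    rw [← Complex.re_sum, ← Finset.mul_sum, sum_ch]
    by_cases hk : κ l' = κ l
    · rw [if_pos hk, if_pos (by rw [hk, sub_self])]
      have : (a l * (starRingEnd ℂ) (a l') * (((∏ p, sg A (h p l)) * ∏ p, sg A (h p l') : ℝ) : ℂ) *
          (n : ℂ)) = (a l * (starRingEnd ℂ) (a l')) *
          (((((∏ p, sg A (h p l)) * ∏ p, sg A (h p l')) * n : ℝ)) : ℂ) := by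
        push_cast; ring
      rw [this, Complex.re_mul_ofReal]
      ring
    · rw [if_neg hk, if_neg (fun h' => hk (sub_eq_zero.mp h').symm), mul_zero]
      rfl
  have hsum : ∑ x : ZMod n, Ex n (fun A =>
      ‖∑ l ∈ D, a l * ((∏ p, sg A (h p l) : ℝ) : ℂ) * ch n (κ l * x)‖ ^ 2) =
      ∑ l ∈ D, ∑ l' ∈ D, if κ l' = κ l then
        n * ((a l * (starRingEnd ℂ) (a l')).re *
          Ex n (fun A => (∏ p, sg A (h p l)) * ∏ p, sg A (h p l'))) else 0 := by
    rw [← Ex_sum]
    simp_rw [hexp]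
    rw [Ex_sum]
    apply Finset.sum_congr rfl
    intro l _
    rw [Ex_sum]
    apply Finset.sum_congr rfl
    intro l' _
    by_cases hk : κ l' = κ l
    · simp only [hk, if_true]
      rw [Ex_mul, Ex_mul]
    · simp only [hk, if_false]
      rw [Ex_const]
  rw [hsum]
  have hbd : ∑ l ∈ D, ∑ l' ∈ D, (if κ l' = κ l then
        (n : ℝ) * ((a l * (starRingEnd ℂ) (a l')).re *
          Ex n (fun A => (∏ p, sg A (h p l)) * ∏ p, sg A (h p l'))) else 0) ≤
      n * ((∑ l ∈ D, (D.filter (fun l' => κ l' = κ l ∧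
      m2_mt (fun p => h p l) (fun p => h p l'))).card : ℕ) : ℝ) := by
    rw [Nat.cast_sum, Finset.mul_sum]
    apply Finset.sum_le_sum
    intro l hl
    rw [Finset.card_filter, Nat.cast_sum, Finset.mul_sum]
    apply Finset.sum_le_sum
    intro l' hl'
    by_cases hk : κ l' = κ l
    · rw [if_pos hk]
      apply mul_le_mul_of_nonneg_left _ (Nat.cast_nonneg n)
      have := m2_pair h1 n M (fun p => h p l) (fun p => h p l') (hG l hl) (hG l' hl')
        (a l * (starRingEnd ℂ) (a l')).re (m2_re_le (ha l hl) (ha l' hl'))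
      refine this.trans (le_of_eq ?_)
      simp [hk]
    · simp [hk]
  refine hbd.trans ?_
  have := m2_count n M Λ h κ R D hR
  have h3 : ((∑ l ∈ D, (D.filter (fun l' => κ l' = κ l ∧
      m2_mt (fun p => h p l) (fun p => h p l'))).card : ℕ) : ℝ) ≤
      (((Fintype.card M).factorial * 2 ^ Fintype.card M) * D.card *
      Nat.card {u : Λ // R u ∧ (∀ p, h p u = 0) ∧ κ u = 0} : ℕ) := by exact_mod_cast this
  refine (mul_le_mul_of_nonneg_left h3 (Nat.cast_nonneg n)).trans (le_of_eq ?_)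
  push_cast
  ring

open Classical in
theorem t_M3 (h1 : S_M1) : S_M3 := by
  intro n _ M Λ _ _ _ h D z hinj hz hG
  have hexp : ∀ A : Finset ℕ,
      ‖∑ l ∈ D, z l * ((∏ p, sg A (h p l) : ℝ) : ℂ)‖ ^ 2 =
      ∑ l ∈ D, ∑ l' ∈ D, (z l * (starRingEnd ℂ) (z l')).re *
          ((∏ p, sg A (h p l)) * ∏ p, sg A (h p l')) := by
    intro A
    rw [m2_sq, map_sum, Finset.sum_mul_sum, Complex.re_sum]
    apply Finset.sum_congr rfl
    intro l _
    rw [Complex.re_sum]
    apply Finset.sum_congr rfl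
    intro l' _
    rw [← Complex.re_mul_ofReal, map_mul, Complex.conj_ofReal]
    congr 1
    push_cast
    ring
  simp_rw [hexp]
  rw [Ex_sum]
  have hbd : ∑ l ∈ D, Ex n (fun A => ∑ l' ∈ D, (z l * (starRingEnd ℂ) (z l')).re *
          ((∏ p, sg A (h p l)) * ∏ p, sg A (h p l'))) ≤
      ((∑ l ∈ D, (D.filter (fun l' => (0 : Λ →+ ZMod n) l' = (0 : Λ →+ ZMod n) l ∧
      m2_mt (fun p => h p l) (fun p => h p l'))).card : ℕ) : ℝ) := by
    rw [Nat.cast_sum]
    apply Finset.sum_le_sum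
    intro l hl
    rw [Ex_sum, Finset.card_filter, Nat.cast_sum]
    apply Finset.sum_le_sum
    intro l' hl'
    rw [Ex_mul]
    have := m2_pair h1 n M (fun p => h p l) (fun p => h p l') (hG l hl) (hG l' hl')
        (z l * (starRingEnd ℂ) (z l')).re (m2_re_le (hz l hl) (hz l' hl'))
    refine this.trans (le_of_eq ?_)
    simp
  refine hbd.trans ?_
  have h2 := m2_count n M Λ h 0 (fun _ => True) D (fun _ _ _ _ => trivial)
  have h3 : Nat.card {u : Λ // True ∧ (∀ p, h p u = 0) ∧ (0 : Λ →+ ZMod n) u = 0} ≤ 1 := by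
    rw [Nat.card_eq_fintype_card, Fintype.card_le_one_iff]
    rintro ⟨u, hu⟩ ⟨w, hw⟩
    apply Subtype.ext
    show u = w
    rw [hinj u hu.2.1, hinj w hw.2.1]
  have h4 : ∑ l ∈ D, (D.filter (fun l' => (0 : Λ →+ ZMod n) l' = (0 : Λ →+ ZMod n) l ∧
      m2_mt (fun p => h p l) (fun p => h p l'))).card ≤
      ((Fintype.card M).factorial * 2 ^ Fintype.card M) * D.card := by
    refine h2.trans ?_
    calc _ ≤ ((Fintype.card M).factorial * 2 ^ Fintype.card M) * D.card * 1 :=
          Nat.mul_le_mul_left _ h3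
      _ = _ := mul_one _
  exact_mod_cast h4

end Pool.Agent.H276R2.Th
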