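import Pool.Agent.H276R2.Th.Spec

/-!
# N1: the construction for one graph
-/

set_option autoImplicit false

namespace Pool.Agent.H276R2.Th

open Finset Real

section n1

variable {n : ℕ} [NeZero n]

/-- the real function `T ψ` -/
noncomputable def n1_t (A : Finset ℕ) (f : ZMod n → ℝ) (x : ZMod n) : ℝ :=
  (T A (fun y => (f y : ℂ)) x).re

theorem n1_t_eq (A : Finset ℕ) (f : ZMod n → ℝ) (hf : ∀ x, f (-x) = f x) (x : ZMod n) :
    ((n1_t A f x : ℝ) : ℂ) = T A (fun y => (f y : ℂ)) x :=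
  Complex.ext (by simp [n1_t]) (by rw [T_im_real_even A f hf x]; simp)

theorem n1_t_neg (A : Finset ℕ) (f : ZMod n → ℝ) (hf : ∀ x, f (-x) = f x) (x : ZMod n) :
    n1_t A f (-x) = n1_t A f x := by
  unfold n1_t
  rw [T_neg_even A (fun y => (f y : ℂ)) (fun x => by rw [hf]) x]

/-- the function -/
noncomputable def n1_g (A : Finset ℕ) (f : ZMod n → ℝ) (x : ZMod n) : ℝ :=
  1 + (f x + n1_t A f x) / 2 - (∑ y, f y) / n

theorem n1_fc (A : Finset ℕ) (f : ZMod n → ℝ) (hf : ∀ x, f (-x) = f x) (k : ZMod n) :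
    fc (fun x => (n1_g A f x : ℂ)) k = (if k = 0 then ((1 - (∑ y, f y) / n : ℝ) : ℂ) else 0) +
      (1 + (sg A k : ℂ)) / 2 * fc (fun x => (f x : ℂ)) k := by
  have h1 : (fun x => (n1_g A f x : ℂ)) = fun x => (((1 - (∑ y, f y) / n : ℝ) : ℂ)) +
      (1 / 2 * (f x : ℂ) + 1 / 2 * T A (fun y => (f y : ℂ)) x) := by
    funext x
    rw [← n1_t_eq A f hf x]
    unfold n1_g
    push_cast
    ring
  rw [h1, fc_add (fun _ => ((1 - (∑ y, f y) / n : ℝ) : ℂ)), fc_const,
    fc_add (fun x => 1 / 2 * (f x : ℂ)), fc_mul, fc_mul]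
  have h2 : fc (fun x => T A (fun y => (f y : ℂ)) x) k = sg A k * fc (fun x => (f x : ℂ)) k :=
    fc_T A _ k
  rw [h2]
  ring

theorem n1_norm_fc (A : Finset ℕ) (f : ZMod n → ℝ) (hf : ∀ x, f (-x) = f x) (k : ZMod n)
    (hk : k ≠ 0) : ‖fc (fun x => (n1_g A f x : ℂ)) k‖ ≤ ‖fc (fun x => (f x : ℂ)) k‖ := by
  rw [n1_fc A f hf k, if_neg hk, zero_add, norm_mul]
  have h1 : ‖(1 + (sg A k : ℂ)) / 2‖ ≤ 1 := by
    have h2 : (1 + (sg A k : ℂ)) / 2 = (((1 + sg A k) / 2 : ℝ) : ℂ) := by push_cast; ring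
    rw [h2, Complex.norm_real, Real.norm_eq_abs]
    have h3 := abs_le.1 (abs_sg A k).le
    rw [abs_le]
    constructor <;> linarith [h3.1, h3.2]
  calc ‖(1 + (sg A k : ℂ)) / 2‖ * ‖fc (fun x => (f x : ℂ)) k‖ ≤
      1 * ‖fc (fun x => (f x : ℂ)) k‖ := mul_le_mul_of_nonneg_right h1 (norm_nonneg _)
    _ = _ := one_mul _

theorem n1_fc_zero (A : Finset ℕ) (f : ZMod n → ℝ) (hf : ∀ x, f (-x) = f x) :
    fc (fun x => (n1_g A f x : ℂ)) 0 = 1 := by
  rw [n1_fc A f hf 0, if_pos rfl, sg_zero, fc_zero_real]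
  push_cast
  ring

theorem n1_nice (A : Finset ℕ) (f : ZMod n → ℝ) (hf : ∀ x, f (-x) = f x) :
    Nice A (n1_g A f) where
  even x := by
    unfold n1_g
    rw [hf, n1_t_neg A f hf]
  mean := by
    have h1 := n1_fc_zero A f hf
    rw [fc_zero_real] at h1
    have h2 : (∑ x, n1_g A f x) / n = 1 := by exact_mod_cast h1
    have hn : (n : ℝ) ≠ 0 := by exact_mod_cast NeZero.ne n
    rwa [div_eq_one_iff_eq hn] at h2
  spec k hk hA := by
    have h1 : sg A k = -1 := by
      unfold sg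
      rw [if_neg]
      rintro (h | h)
      · exact hk h
      · exact hA h
    rw [n1_fc A f hf k, if_neg hk, h1]
    push_cast
    ring

end n1

theorem t_N1 : S_N1 := by
  intro n _ A G H P Q s hA hG hs hPQ
  have hψ : ∀ x, psi n P G (-x) = psi n P G x := by
    intro x
    unfold psi
    rw [hG]
    simp only [neg_eq_zero]
  have hn : (0 : ℝ) < n := by
    have := NeZero.pos n
    exact_mod_cast this
  have hsn : 0 < √(n : ℝ) := Real.sqrt_pos.2 hn
  have hsq : √(n : ℝ) ^ 2 = n := Real.sq_sqrt hn.le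
  have hpi : 0 ≤ √(2 * π) := Real.sqrt_nonneg _
  have hpi2 : √(2 * π) ^ 2 = 2 * π := Real.sq_sqrt (by positivity)
  set ψ := psi n P G with hψd
  set m : ℝ := (∑ x, ψ x) / n with hm
  have hQ : ∀ x, 0 ≤ Q.eval x := fun x => (abs_nonneg _).trans (hPQ x)
  -- the error
  have he : ∀ x, ‖T A (fun y => (ψ y : ℂ)) x - ((s * H x : ℝ) : ℂ)‖ =
      |n1_t A ψ x - s * H x| := by
    intro x
    rw [← n1_t_eq A ψ hψ x, ← Complex.ofReal_sub, Complex.norm_real, Real.norm_eq_abs]
  refine ⟨n1_g A ψ, n1_nice A ψ hψ, ?_, ?_, ?_, ?_⟩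
  · -- the value at `0`
    rw [he]
    have h1 : n1_g A ψ 0 = √n + (1 + (P.eval (G 0) + s * H 0) / 2) +
        (n1_t A ψ 0 - s * H 0) / 2 - m := by
      unfold n1_g
      rw [← hm, hψd]
      unfold psi
      rw [if_pos rfl]
      ring
    have h2 := neg_abs_le (1 + (P.eval (G 0) + s * H 0) / 2)
    have h3 := neg_abs_le (n1_t A ψ 0 - s * H 0)
    have h4 := le_abs_self m
    have h5 := abs_nonneg (n1_t A ψ 0 - s * H 0)
    rw [h1]
    linarith
  · -- the negative part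
    have key : ∀ x, (max (-(n1_g A ψ x)) 0) ^ 2 ≤ 5 * (2 * π * (G x - H x) ^ 2 +
        (s - √(2 * π)) ^ 2 * H x ^ 2 + Q.eval (G x) ^ 2 +
        |n1_t A ψ x - s * H x| ^ 2 + m ^ 2) := by
      intro x
      set a := √(2 * π) * |G x - H x| with ha
      set b := |s - √(2 * π)| * |H x| with hb
      set c := Q.eval (G x) with hc
      set d := |n1_t A ψ x - s * H x| with hd
      have ha0 : 0 ≤ a := by positivity
      have hb0 : 0 ≤ b := by positivity
      have hc0 : 0 ≤ c := hQ _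
      have hd0 : 0 ≤ d := abs_nonneg _
      have h1 : -(n1_g A ψ x) ≤ (a + b + c + d) / 2 + |m| := by
        have e1 : n1_g A ψ x = 1 + (ψ x + n1_t A ψ x) / 2 - m := rfl
        have e2 : P.eval (G x) ≤ ψ x := by
          rw [hψd]; unfold psi
          split_ifs
          · linarith
          · linarith
        have e3 := (abs_le.1 (hPQ (G x))).2
        have e4 := neg_abs_le (n1_t A ψ x - s * H x)
        have e5 : -(s * |H x|) ≤ s * H x := by
          have := neg_abs_le (H x)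
          nlinarith
        have e6 : s * |H x| ≤ √(2 * π) * |H x| + b := by
          have := le_abs_self (s - √(2 * π))
          have h0 := abs_nonneg (H x)
          rw [hb]
          nlinarith
        have e7 : √(2 * π) * |H x| ≤ √(2 * π) * |G x| + a := by
          rw [ha, ← mul_add]
          refine mul_le_mul_of_nonneg_left ?_ hpi
          have : H x = G x - (G x - H x) := by ring
          calc |H x| = |G x - (G x - H x)| := by rw [← this]
            _ ≤ |G x| + |G x - H x| := abs_sub _ _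
        have e8 := le_abs_self m
        rw [e1]
        linarith
      have h2 : max (-(n1_g A ψ x)) 0 ≤ (a + b + c + d) / 2 + |m| :=
        max_le h1 (by positivity)
      have h3 : (0 : ℝ) ≤ max (-(n1_g A ψ x)) 0 := le_max_right _ _
      have h4 : (max (-(n1_g A ψ x)) 0) ^ 2 ≤ ((a + b + c + d) / 2 + |m|) ^ 2 :=
        pow_le_pow_left₀ h3 h2 2
      have h5 : a ^ 2 = 2 * π * (G x - H x) ^ 2 := by rw [ha, mul_pow, hpi2, sq_abs]
      have h6 : b ^ 2 = (s - √(2 * π)) ^ 2 * H x ^ 2 := by rw [hb, mul_pow, sq_abs, sq_abs]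
      have h7 : |m| ^ 2 = m ^ 2 := sq_abs m
      rw [← h5, ← h6, ← h7]
      nlinarith [sq_nonneg (a / 2 - b / 2), sq_nonneg (a / 2 - c / 2), sq_nonneg (a / 2 - d / 2),
        sq_nonneg (a / 2 - |m|), sq_nonneg (b / 2 - c / 2), sq_nonneg (b / 2 - d / 2),
        sq_nonneg (b / 2 - |m|), sq_nonneg (c / 2 - d / 2), sq_nonneg (c / 2 - |m|),
        sq_nonneg (d / 2 - |m|), sq_nonneg a, sq_nonneg b, sq_nonneg c, sq_nonneg d]
    calc ∑ x, (max (-(n1_g A ψ x)) 0) ^ 2 ≤ ∑ x, 5 * (2 * π * (G x - H x) ^ 2 +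
        (s - √(2 * π)) ^ 2 * H x ^ 2 + Q.eval (G x) ^ 2 +
        |n1_t A ψ x - s * H x| ^ 2 + m ^ 2) := Finset.sum_le_sum fun x _ => key x
      _ = _ := by
        rw [← Finset.mul_sum]
        simp only [Finset.sum_add_distrib, ← Finset.mul_sum, he]
        congr 2
        rw [Finset.sum_const, nsmul_eq_mul, Finset.card_univ, ZMod.card]
  · -- the energy
    have h1 : ∑ x, n1_g A ψ x ^ 2 = n * ∑ k, ‖fc (fun x => (n1_g A ψ x : ℂ)) k‖ ^ 2 := by
      rw [← parseval]
      refine Finset.sum_congr rfl fun x _ => ?_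
      rw [Complex.norm_real, Real.norm_eq_abs, sq_abs]
    have h2 : ∑ k, ‖fc (fun x => (n1_g A ψ x : ℂ)) k‖ ^ 2 ≤
        1 + ∑ k, ‖fc (fun x => (ψ x : ℂ)) k‖ ^ 2 := by
      rw [← Finset.add_sum_erase _ _ (Finset.mem_univ (0 : ZMod n)), n1_fc_zero A ψ hψ,
        norm_one, one_pow]
      refine add_le_add_right ?_ 1
      calc ∑ k ∈ univ.erase (0 : ZMod n), ‖fc (fun x => (n1_g A ψ x : ℂ)) k‖ ^ 2 ≤
          ∑ k ∈ univ.erase (0 : ZMod n), ‖fc (fun x => (ψ x : ℂ)) k‖ ^ 2 := by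
            refine Finset.sum_le_sum fun k hk => ?_
            exact pow_le_pow_left₀ (norm_nonneg _)
              (n1_norm_fc A ψ hψ k (Finset.ne_of_mem_erase hk)) 2
        _ ≤ _ := Finset.sum_le_sum_of_subset_of_nonneg (Finset.erase_subset _ _)
            fun _ _ _ => by positivity
    have h3 : n * ∑ k, ‖fc (fun x => (ψ x : ℂ)) k‖ ^ 2 = ∑ x, ψ x ^ 2 := by
      rw [← parseval]
      refine Finset.sum_congr rfl fun x _ => ?_
      rw [Complex.norm_real, Real.norm_eq_abs, sq_abs]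
    have h4 : ∑ x, ψ x ^ 2 ≤ 8 * n + 2 * ∑ x, P.eval (G x) ^ 2 := by
      calc ∑ x, ψ x ^ 2 ≤ ∑ x, ((if x = 0 then 8 * (n : ℝ) else 0) +
            2 * P.eval (G x) ^ 2) := by
            refine Finset.sum_le_sum fun x _ => ?_
            rw [hψd]; unfold psi
            split_ifs
            · nlinarith [sq_nonneg (2 * √(n : ℝ) - P.eval (G x))]
            · nlinarith [sq_nonneg (P.eval (G x))]
        _ = _ := by
            rw [Finset.sum_add_distrib, Finset.sum_ite_eq' univ (0 : ZMod n)]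
            simp [Finset.mul_sum]
    have h5 : 0 ≤ ∑ x, P.eval (G x) ^ 2 := Finset.sum_nonneg fun _ _ => sq_nonneg _
    calc ∑ x, n1_g A ψ x ^ 2 ≤ n * (1 + ∑ k, ‖fc (fun x => (ψ x : ℂ)) k‖ ^ 2) := by
          rw [h1]; exact mul_le_mul_of_nonneg_left h2 hn.le
      _ = n + ∑ x, ψ x ^ 2 := by rw [mul_add, mul_one, h3]
      _ ≤ _ := by linarith
  · -- the coefficients
    intro k hk
    refine (n1_norm_fc A ψ hψ k hk).trans ?_
    have h1 : (fun x => (ψ x : ℂ)) = fun x => (if x = 0 then ((2 * √(n : ℝ) : ℝ) : ℂ) else 0) +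
        ((P.eval (G x) : ℝ) : ℂ) := by
      funext x
      rw [hψd]; unfold psi
      split_ifs <;> push_cast <;> rfl
    rw [h1, fc_add (fun x => if x = 0 then ((2 * √(n : ℝ) : ℝ) : ℂ) else 0)]
    refine (norm_add_le _ _).trans (add_le_add_left ?_ _)
    have h2 : fc (fun x : ZMod n => if x = 0 then ((2 * √(n : ℝ) : ℝ) : ℂ) else 0) k =
        ((2 * √(n : ℝ) / n : ℝ) : ℂ) := by
      unfold fc
      rw [Finset.sum_eq_single (0 : ZMod n)]
      · simp only [if_true, mul_zero, neg_zero, ch_zero, mul_one]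
        push_cast
        rfl
      · intro x _ hx
        simp only [if_neg hx, zero_mul]
      · intro h; exact absurd (Finset.mem_univ _) h
    rw [h2, Complex.norm_real, Real.norm_eq_abs, abs_of_nonneg (by positivity)]
    refine le_of_eq ?_
    rw [div_eq_div_iff hn.ne' hsn.ne']
    linear_combination 2 * hsq

end Pool.Agent.H276R2.Th
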