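import Pool.Agent.H276R2.Th.Spec

/-!
# Task N2: the probabilistic estimate
-/

set_option autoImplicit false

namespace Pool.Agent.H276R2.Th

open Finset Real

theorem n2_sqrt_pos (n : ℕ) [NeZero n] : 0 < √(n : ℝ) :=
  Real.sqrt_pos.2 (by exact_mod_cast Nat.pos_of_ne_zero (NeZero.ne n))

theorem n2_one_le (n : ℕ) [NeZero n] : (1 : ℝ) ≤ n := by
  exact_mod_cast Nat.pos_of_ne_zero (NeZero.ne n)

theorem n2_div_le (n : ℕ) [NeZero n] (K : ℝ) (hK : 0 ≤ K) : K / n ≤ K / √(n : ℝ) := by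
  have h1 := n2_one_le n
  have h2 := n2_sqrt_pos n
  refine div_le_div_of_nonneg_left hK h2 ?_
  have h3 : 1 ≤ √(n : ℝ) := Real.one_le_sqrt.2 h1
  have h4 : √(n : ℝ) * √(n : ℝ) = n := Real.mul_self_sqrt (by positivity)
  nlinarith

theorem n2_avg {G : RFam} (hG : GaussLike G) (R : Polynomial ℝ) :
    ∃ K : ℝ, 0 ≤ K ∧ ∀ (n : ℕ) [NeZero n],
      |Ex n (fun A => (∑ x, R.eval (G n A x)) / n) - ∫ x, R.eval x ∂gam| ≤ K / √(n : ℝ) := by
  obtain ⟨K, hK⟩ := hG.mean R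
  refine ⟨√|K|, Real.sqrt_nonneg _, fun n _ => ?_⟩
  have h1 : (Ex n (fun A => (∑ x, R.eval (G n A x)) / n) - ∫ x, R.eval x ∂gam) ^ 2 ≤ |K| / n := by
    have h2 : Ex n (fun A => (∑ x, R.eval (G n A x)) / n) - ∫ x, R.eval x ∂gam =
        Ex n (fun A => (∑ x, R.eval (G n A x)) / n - ∫ x, R.eval x ∂gam) := by
      rw [Ex_sub, Ex_const]
    rw [h2]
    refine (sq_Ex_le n _).trans ((hK n).trans ?_)
    gcongr
    exact le_abs_self K
  have h3 := Real.abs_le_sqrt h1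
  rwa [Real.sqrt_div (abs_nonneg K)] at h3

theorem n2_int_X2 (h1 : S_D1) : ∫ x, ((Polynomial.X : Polynomial ℝ) ^ 2).eval x ∂gam = 1 := by
  have h := h1.2.2.2.1 1 (fun d => if d = 1 then 1 else 0)
  have hP : PP 1 (fun d => if d = 1 then 1 else 0) = Polynomial.X := by
    simp [PP, He]
  rw [hP] at h
  simp only [Polynomial.eval_pow, Polynomial.eval_X] at h ⊢
  rw [h]
  simp

theorem n2_int_PP (h1 : S_D1) (D : ℕ) (c : ℕ → ℝ) (hc0 : c 0 = 0) :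
    ∫ x, (PP D c).eval x ∂gam = 0 := by
  have h2 : ∀ x : ℝ, (PP D c).eval x = ∑ d ∈ range (D + 1), c d * (He d).eval x := by
    intro x
    simp [PP, Polynomial.eval_finsetSum]
  simp only [h2]
  rw [MeasureTheory.integral_finsetSum]
  · refine Finset.sum_eq_zero fun d _ => ?_
    rw [MeasureTheory.integral_const_mul, h1.2.1 d]
    by_cases hd : d = 0
    · subst hd; simp [hc0]
    · simp [hd]
  · intro d _
    exact (h1.1 (He d)).const_mul _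

/-- mean of `psi` -/
theorem n2_pb (n : ℕ) [NeZero n] (P : Polynomial ℝ) (G : ZMod n → ℝ) :
    (∑ x, psi n P G x) / n = 2 / √(n : ℝ) + (∑ x, P.eval (G x)) / n := by
  have h2 := n2_sqrt_pos n
  have h4 : √(n : ℝ) * √(n : ℝ) = n := Real.mul_self_sqrt (by positivity)
  simp only [psi, Finset.sum_add_distrib]
  rw [add_div]
  congr 1
  rw [Finset.sum_ite_eq' Finset.univ (0 : ZMod n)]
  simp only [Finset.mem_univ, if_true]
  have h5 : (n : ℝ) ≠ 0 := by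
    have := n2_one_le n
    positivity
  rw [div_eq_div_iff h5 h2.ne', mul_assoc, h4]

theorem n2_pb_sq (h1 : S_D1) {G : RFam} (hG : GaussLike G) (D : ℕ) (c : ℕ → ℝ) (hc0 : c 0 = 0) :
    ∃ K : ℝ, 0 ≤ K ∧ ∀ (n : ℕ) [NeZero n],
      Ex n (fun A => ((∑ x, psi n (PP D c) (G n A) x) / n) ^ 2) ≤ K / n := by
  obtain ⟨K, hK⟩ := hG.mean (PP D c)
  rw [n2_int_PP h1 D c hc0] at hK
  simp only [sub_zero] at hK
  refine ⟨8 + 2 * |K|, by positivity, fun n _ => ?_⟩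
  have h2 := n2_sqrt_pos n
  have h3 := n2_one_le n
  have h4 : √(n : ℝ) * √(n : ℝ) = n := Real.mul_self_sqrt (by positivity)
  have h5 : Ex n (fun A => ((∑ x, psi n (PP D c) (G n A) x) / n) ^ 2) ≤
      Ex n (fun A => 8 / n + 2 * ((∑ x, (PP D c).eval (G n A x)) / n) ^ 2) := by
    refine Ex_mono n _ _ fun A _ => ?_
    rw [n2_pb]
    have h6 : (2 / √(n : ℝ)) ^ 2 = 4 / n := by
      rw [div_pow, sq (√(n : ℝ)), h4]; norm_num
    have h7 : (8 : ℝ) / n = 2 * (4 / n) := by ring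
    rw [h7, ← h6]
    nlinarith [sq_nonneg (2 / √(n : ℝ) - (∑ x, (PP D c).eval (G n A x)) / n)]
  refine h5.trans ?_
  rw [Ex_add, Ex_const, Ex_mul, add_div]
  have h8 : K / n ≤ |K| / n := by gcongr; exact le_abs_self K
  have h9 := hK n
  have h10 : 2 * |K| / n = 2 * (|K| / n) := by ring
  rw [h10]
  linarith

/-- the error term -/
noncomputable def n2e (D : ℕ) (c : ℕ → ℝ) (G H : RFam) (n : ℕ) [NeZero n] (A : Finset ℕ)
    (x : ZMod n) : ℂ :=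
  T A (fun y => (psi n (PP D c) (G n A) y : ℂ)) x - ((sP D c * H n A x : ℝ) : ℂ)

/-- the bound for the negative part -/
noncomputable def n2X (D : ℕ) (c : ℕ → ℝ) (G H : RFam) (Q : Polynomial ℝ) (n : ℕ) [NeZero n]
    (A : Finset ℕ) : ℝ :=
  5 * (2 * π * ∑ x, (G n A x - H n A x) ^ 2 +
      (sP D c - √(2 * π)) ^ 2 * ∑ x, H n A x ^ 2 + ∑ x, (Q.eval (G n A x)) ^ 2 +
      ∑ x, ‖n2e D c G H n A x‖ ^ 2 +
      n * ((∑ x, psi n (PP D c) (G n A) x) / n) ^ 2) / n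

theorem n2_E1 (h1 : S_D1) (D : ℕ) (c : ℕ → ℝ) (m : ℕ) (G H : RFam) (Q : Polynomial ℝ)
    (hst : Step D c m G H) (hc0 : c 0 = 0) : ∃ K : ℝ, 0 ≤ K ∧ ∀ (n : ℕ) [NeZero n],
      Ex n (n2X D c G H Q n) ≤ 5 * (4 * π * (1 - rho D c m) + (sP D c - √(2 * π)) ^ 2 +
        ∫ x, (Q.eval x) ^ 2 ∂gam) + K / √(n : ℝ) := by
  obtain ⟨K1, hK1, e1⟩ := n2_avg hst.gG (Polynomial.X ^ 2)
  obtain ⟨K2, hK2, e2⟩ := n2_avg hst.gH (Polynomial.X ^ 2)
  obtain ⟨K4, hK4, e4⟩ := n2_avg hst.gG (Q ^ 2)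
  obtain ⟨K3, e3⟩ := hst.cov
  obtain ⟨K5, e5⟩ := hst.rel
  obtain ⟨K6, hK6, e6⟩ := n2_pb_sq h1 hst.gG D c hc0
  rw [n2_int_X2 h1] at e1 e2
  simp only [Polynomial.eval_pow, Polynomial.eval_X] at e1 e2 e4
  have hpi := Real.pi_pos
  refine ⟨5 * (2 * π * (K1 + K2 + 2 * |K3|) + (sP D c - √(2 * π)) ^ 2 * K2 + K4 + |K5| + K6),
    by positivity, fun n _ => ?_⟩
  have hn1 := n2_one_le n
  have hs := n2_sqrt_pos n
  have hX : Ex n (n2X D c G H Q n) = 5 * (2 * π * (Ex n (fun A => (∑ x, G n A x ^ 2) / n) +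
      Ex n (fun A => (∑ x, H n A x ^ 2) / n) - 2 * Ex n (fun A => (∑ x, G n A x * H n A x) / n)) +
      (sP D c - √(2 * π)) ^ 2 * Ex n (fun A => (∑ x, H n A x ^ 2) / n) +
      Ex n (fun A => (∑ x, Q.eval (G n A x) ^ 2) / n) +
      (∑ x, Ex n (fun A => ‖n2e D c G H n A x‖ ^ 2)) / n +
      Ex n (fun A => ((∑ x, psi n (PP D c) (G n A) x) / n) ^ 2)) := by
    have hsum : (∑ x, Ex n (fun A => ‖n2e D c G H n A x‖ ^ 2)) / n =
        Ex n (fun A => (1 / n : ℝ) * ∑ x, ‖n2e D c G H n A x‖ ^ 2) := by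
      rw [Ex_mul, Ex_sum]; ring
    rw [hsum, ← Ex_mul n 2, ← Ex_add, ← Ex_sub, ← Ex_mul, ← Ex_mul, ← Ex_add, ← Ex_add, ← Ex_add,
      ← Ex_add, ← Ex_mul]
    refine Ex_congr n _ _ fun A _ => ?_
    simp only [n2X, sub_sq, Finset.sum_add_distrib, Finset.sum_sub_distrib]
    have h7 : ∑ x, 2 * G n A x * H n A x = 2 * ∑ x, G n A x * H n A x := by
      rw [Finset.mul_sum]; exact Finset.sum_congr rfl fun x _ => by ring
    rw [h7]
    have hn0 : (n : ℝ) ≠ 0 := by positivity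
    field_simp
    ring
  rw [hX]
  have f1 := (abs_le.1 (e1 n)).2
  have f2 := (abs_le.1 (e2 n)).2
  have f4 := (abs_le.1 (e4 n)).2
  have f3 := (abs_le.1 (e3 n)).1
  have f3' : K3 / √(n : ℝ) ≤ |K3| / √(n : ℝ) := by gcongr; exact le_abs_self K3
  have f5 : (∑ x, Ex n (fun A => ‖n2e D c G H n A x‖ ^ 2)) / n ≤ |K5| / √(n : ℝ) := by
    refine le_trans ?_ (n2_div_le n |K5| (abs_nonneg _))
    gcongr
    exact (e5 n).trans (le_abs_self K5)
  have f6 := (e6 n).trans (n2_div_le n K6 hK6)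
  have g1 : 2 * π * (Ex n (fun A => (∑ x, G n A x ^ 2) / n) +
      Ex n (fun A => (∑ x, H n A x ^ 2) / n) - 2 * Ex n (fun A => (∑ x, G n A x * H n A x) / n)) ≤
      2 * π * (2 * (1 - rho D c m) + (K1 + K2 + 2 * |K3|) / √(n : ℝ)) := by
    apply mul_le_mul_of_nonneg_left _ (by positivity)
    rw [add_div, add_div, mul_div_assoc]
    linarith
  have g2 : (sP D c - √(2 * π)) ^ 2 * Ex n (fun A => (∑ x, H n A x ^ 2) / n) ≤
      (sP D c - √(2 * π)) ^ 2 * (1 + K2 / √(n : ℝ)) := by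
    apply mul_le_mul_of_nonneg_left _ (sq_nonneg _)
    linarith
  have g3 : 5 * (4 * π * (1 - rho D c m) + (sP D c - √(2 * π)) ^ 2 +
        ∫ x, (Q.eval x) ^ 2 ∂gam) + 5 * (2 * π * (K1 + K2 + 2 * |K3|) +
        (sP D c - √(2 * π)) ^ 2 * K2 + K4 + |K5| + K6) / √(n : ℝ) =
      5 * (2 * π * (2 * (1 - rho D c m) + (K1 + K2 + 2 * |K3|) / √(n : ℝ)) +
        (sP D c - √(2 * π)) ^ 2 * (1 + K2 / √(n : ℝ)) +
        (∫ x, (Q.eval x) ^ 2 ∂gam + K4 / √(n : ℝ)) + |K5| / √(n : ℝ) + K6 / √(n : ℝ)) := by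
    field_simp
    ring
  rw [g3]
  linarith

/-- energy of `P(G)` -/
theorem n2_E2 (h1 : S_D1) (D : ℕ) (c : ℕ → ℝ) (G : RFam) (hG : GaussLike G)
    (h52 : ∑ d ∈ range (D + 1), c d ^ 2 * d.factorial ≤ 5 / 2) : ∃ K : ℝ, 0 ≤ K ∧
    ∀ (n : ℕ) [NeZero n], Pr n (fun A => 3 * n < ∑ x, ((PP D c).eval (G n A x)) ^ 2) ≤ K / n := by
  obtain ⟨K, hK⟩ := hG.mean ((PP D c) ^ 2)
  simp only [Polynomial.eval_pow] at hK
  rw [h1.2.2.2.1 D c] at hK
  refine ⟨8 * |K|, by positivity, fun n _ => ?_⟩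
  have hn1 := n2_one_le n
  set I : ℝ := ∑ d ∈ range (D + 1), c d ^ 2 * d.factorial with hI
  have h2 : Pr n (fun A => 3 * n < ∑ x, ((PP D c).eval (G n A x)) ^ 2) ≤
      Pr n (fun A => 1 / 8 < ((∑ x, ((PP D c).eval (G n A x)) ^ 2) / n - I) ^ 2) := by
    refine Pr_mono n _ _ fun A _ hA => ?_
    have h3 : 3 < (∑ x, ((PP D c).eval (G n A x)) ^ 2) / n := by
      rw [lt_div_iff₀ (by linarith)]
      exact hA
    nlinarith
  have h3 := Pr_markov n (fun A => ((∑ x, ((PP D c).eval (G n A x)) ^ 2) / n - I) ^ 2)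
    (fun A _ => sq_nonneg _) (1 / 8) (by norm_num)
  refine h2.trans (h3.trans ?_)
  rw [div_le_iff₀ (by norm_num)]
  refine (hK n).trans ?_
  have h4 : K / n ≤ |K| / n := by gcongr; exact le_abs_self K
  refine h4.trans (le_of_eq ?_)
  ring

/-- the error at `0` -/
noncomputable def n2Y (D : ℕ) (c : ℕ → ℝ) (G H : RFam) (n : ℕ) [NeZero n] (A : Finset ℕ) : ℝ :=
  |1 + ((PP D c).eval (G n A 0) + sP D c * H n A 0) / 2| + ‖n2e D c G H n A 0‖ +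
    |(∑ x, psi n (PP D c) (G n A) x) / n|

theorem n2_E3 (h1 : S_D1) (D : ℕ) (c : ℕ → ℝ) (m : ℕ) (G H : RFam)
    (hst : Step D c m G H) (hc0 : c 0 = 0) (δ : ℝ) (hδ : 0 < δ) : ∃ K : ℝ, 0 ≤ K ∧
    ∀ (n : ℕ) [NeZero n], Pr n (fun A => δ * √(n : ℝ) < n2Y D c G H n A) ≤ K / n := by
  obtain ⟨K1, e1⟩ := hst.gG.bdd (PP D c)
  obtain ⟨K2, e2⟩ := hst.gH.bdd Polynomial.X
  obtain ⟨K5, e5⟩ := hst.rel
  obtain ⟨K6, hK6, e6⟩ := n2_pb_sq h1 hst.gG D c hc0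
  simp only [Polynomial.eval_X] at e2
  set s := sP D c with hs
  refine ⟨(3 * (3 * (1 + |K1| / 4 + s ^ 2 * |K2| / 4) + |K5| + K6)) / δ ^ 2, by positivity,
    fun n _ => ?_⟩
  have hn1 := n2_one_le n
  have hsq := n2_sqrt_pos n
  have hsq2 : √(n : ℝ) ^ 2 = n := Real.sq_sqrt (by positivity)
  have h2 : Pr n (fun A => δ * √(n : ℝ) < n2Y D c G H n A) ≤
      Pr n (fun A => δ ^ 2 * n < 3 * (3 * (1 + (PP D c).eval (G n A 0) ^ 2 / 4 +
        s ^ 2 * H n A 0 ^ 2 / 4) + ∑ x, ‖n2e D c G H n A x‖ ^ 2 +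
        ((∑ x, psi n (PP D c) (G n A) x) / n) ^ 2)) := by
    refine Pr_mono n _ _ fun A _ hA => ?_
    set a := |1 + ((PP D c).eval (G n A 0) + s * H n A 0) / 2| with ha
    set b := ‖n2e D c G H n A 0‖ with hb
    set d := |(∑ x, psi n (PP D c) (G n A) x) / n| with hd
    have hY : n2Y D c G H n A = a + b + d := rfl
    rw [hY] at hA
    have h3 : (δ * √(n : ℝ)) ^ 2 < (a + b + d) ^ 2 := by
      have : 0 < δ * √(n : ℝ) := by positivity
      nlinarith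
    rw [mul_pow, hsq2] at h3
    have h4 : (a + b + d) ^ 2 ≤ 3 * (a ^ 2 + b ^ 2 + d ^ 2) := by
      nlinarith [sq_nonneg (a - b), sq_nonneg (b - d), sq_nonneg (a - d)]
    have h5 : a ^ 2 ≤ 3 * (1 + (PP D c).eval (G n A 0) ^ 2 / 4 + s ^ 2 * H n A 0 ^ 2 / 4) := by
      rw [ha, sq_abs]
      nlinarith [sq_nonneg (1 - (PP D c).eval (G n A 0) / 2), sq_nonneg (1 - s * H n A 0 / 2),
        sq_nonneg ((PP D c).eval (G n A 0) / 2 - s * H n A 0 / 2)]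
    have h6 : b ^ 2 ≤ ∑ x, ‖n2e D c G H n A x‖ ^ 2 :=
      Finset.single_le_sum (f := fun x => ‖n2e D c G H n A x‖ ^ 2) (fun x _ => sq_nonneg _)
        (Finset.mem_univ 0)
    have h7 : d ^ 2 = ((∑ x, psi n (PP D c) (G n A) x) / n) ^ 2 := sq_abs _
    linarith
  have h3 := Pr_markov n (fun A => 3 * (3 * (1 + (PP D c).eval (G n A 0) ^ 2 / 4 +
        s ^ 2 * H n A 0 ^ 2 / 4) + ∑ x, ‖n2e D c G H n A x‖ ^ 2 +
        ((∑ x, psi n (PP D c) (G n A) x) / n) ^ 2))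
    (fun A _ => by positivity) (δ ^ 2 * n) (by positivity)
  refine h2.trans (h3.trans ?_)
  rw [div_div]
  apply div_le_div_of_nonneg_right _ (by positivity)
  have h8 : Ex n (fun A => 3 * (3 * (1 + (PP D c).eval (G n A 0) ^ 2 / 4 +
        s ^ 2 * H n A 0 ^ 2 / 4) + ∑ x, ‖n2e D c G H n A x‖ ^ 2 +
        ((∑ x, psi n (PP D c) (G n A) x) / n) ^ 2)) =
      3 * (3 * (Ex n (fun _ => 1) + (1 / 4) * Ex n (fun A => (PP D c).eval (G n A 0) ^ 2) +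
        (s ^ 2 / 4) * Ex n (fun A => H n A 0 ^ 2)) + ∑ x, Ex n (fun A => ‖n2e D c G H n A x‖ ^ 2) +
        Ex n (fun A => ((∑ x, psi n (PP D c) (G n A) x) / n) ^ 2)) := by
    rw [← Ex_sum, ← Ex_mul n (1 / 4), ← Ex_mul n (s ^ 2 / 4)]
    rw [← Ex_add, ← Ex_add, ← Ex_mul, ← Ex_add, ← Ex_add, ← Ex_mul]
    refine Ex_congr n _ _ fun A _ => ?_
    ring
  rw [h8, Ex_const]
  have f1 := (e1 n 0).trans (le_abs_self K1)
  have f2 := (e2 n 0).trans (le_abs_self K2)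
  have f5 := (e5 n).trans (le_abs_self K5)
  have f6 : Ex n (fun A => ((∑ x, psi n (PP D c) (G n A) x) / n) ^ 2) ≤ K6 := by
    refine (e6 n).trans ?_
    exact div_le_self hK6 hn1
  have f2' : (s ^ 2 / 4) * Ex n (fun A => H n A 0 ^ 2) ≤ (s ^ 2 / 4) * |K2| :=
    mul_le_mul_of_nonneg_left f2 (by positivity)
  have f5' : ∑ x, Ex n (fun A => ‖n2e D c G H n A x‖ ^ 2) ≤ |K5| := f5
  linarith

/-- the Fourier coefficients -/
theorem n2_E4 (D : ℕ) (c : ℕ → ℝ) (G : RFam) (hG : GaussLike G) (δ : ℝ) (hδ : 0 < δ) :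
    ∃ K : ℝ, 0 ≤ K ∧ ∀ (n : ℕ) [NeZero n], Pr n (fun A => ∃ k : ZMod n, k ≠ 0 ∧
      δ / 2 < ‖fc (fun x => (((PP D c).eval (G n A x) : ℝ) : ℂ)) k‖) ≤ K / n := by
  obtain ⟨K, e⟩ := hG.coef (PP D c)
  refine ⟨|K| / (δ / 2) ^ 4, by positivity, fun n _ => ?_⟩
  have hn1 := n2_one_le n
  set f : ZMod n → Finset ℕ → ℝ := fun k A =>
    if k = 0 then 0 else ‖fc (fun x => (((PP D c).eval (G n A x) : ℝ) : ℂ)) k‖ ^ 4 with hf
  have hf0 : ∀ k A, 0 ≤ f k A := by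
    intro k A
    simp only [hf]
    split_ifs <;> positivity
  have h2 : Pr n (fun A => ∃ k : ZMod n, k ≠ 0 ∧
      δ / 2 < ‖fc (fun x => (((PP D c).eval (G n A x) : ℝ) : ℂ)) k‖) ≤
      Pr n (fun A => (δ / 2) ^ 4 < ∑ k, f k A) := by
    refine Pr_mono n _ _ fun A _ hA => ?_
    obtain ⟨k, hk, hkA⟩ := hA
    have h3 : f k A ≤ ∑ k, f k A :=
      Finset.single_le_sum (f := fun k => f k A) (fun x _ => hf0 x A) (Finset.mem_univ k)
    have h4 : f k A = ‖fc (fun x => (((PP D c).eval (G n A x) : ℝ) : ℂ)) k‖ ^ 4 := by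
      simp [hf, hk]
    refine lt_of_lt_of_le ?_ h3
    rw [h4]
    gcongr
  have h3 := Pr_markov n (fun A => ∑ k, f k A)
    (fun A _ => Finset.sum_nonneg fun k _ => hf0 k A) ((δ / 2) ^ 4) (by positivity)
  refine h2.trans (h3.trans ?_)
  rw [div_right_comm]
  apply div_le_div_of_nonneg_right _ (by positivity)
  rw [Ex_sum]
  have h5 : ∀ k ∈ (Finset.univ : Finset (ZMod n)), Ex n (f k) ≤ |K| / n ^ 2 := by
    intro k _
    by_cases hk : k = 0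
    · have : f k = fun _ => 0 := by funext A; simp [hf, hk]
      rw [this, Ex_const]; positivity
    · have : f k = fun A => ‖fc (fun x => (((PP D c).eval (G n A x) : ℝ) : ℂ)) k‖ ^ 4 := by
        funext A; simp [hf, hk]
      rw [this]
      refine (e n k hk).trans ?_
      gcongr
      exact le_abs_self K
  refine (Finset.sum_le_sum h5).trans (le_of_eq ?_)
  rw [Finset.sum_const, Finset.card_univ, ZMod.card, nsmul_eq_mul]
  field_simp

/-- N2 -/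
theorem t_N2 (h1 : S_D1) (n1 : S_N1) : S_N2 := by
  intro D c m G H Q δ hst hc0 hc1 hδ hQ h52 hmain
  obtain ⟨K1, hK1, e1⟩ := n2_E1 h1 D c m G H Q hst hc0
  obtain ⟨K2, hK2, e2⟩ := n2_E2 h1 D c G hst.gG h52
  obtain ⟨K3, hK3, e3⟩ := n2_E3 h1 D c m G H hst hc0 δ hδ
  obtain ⟨K4, hK4, e4⟩ := n2_E4 D c G hst.gG δ hδ
  set K : ℝ := K1 / δ + K2 + K3 + K4 + 4 with hK
  have hKpos : 0 < K := by positivity
  obtain ⟨n₀, hn₀⟩ := exists_nat_gt ((2 * K / δ) ^ 2)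
  refine ⟨n₀, fun n _ hn => ?_⟩
  have hn1 := n2_one_le n
  have hsq := n2_sqrt_pos n
  have hsq2 : √(n : ℝ) ^ 2 = n := Real.sq_sqrt (by positivity)
  have hbig : 2 * K / δ < √(n : ℝ) := by
    apply Real.lt_sqrt_of_sq_lt
    refine hn₀.trans_le ?_
    exact_mod_cast hn
  have hsmall : K / √(n : ℝ) ≤ δ / 2 := by
    rw [div_lt_iff₀ hδ] at hbig
    rw [div_le_iff₀ hsq]
    linarith
  -- the bad event
  set p1 : Finset ℕ → Prop := fun A => δ < n2X D c G H Q n A with hp1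
  set p2 : Finset ℕ → Prop := fun A => 3 * n < ∑ x, ((PP D c).eval (G n A x)) ^ 2 with hp2
  set p3 : Finset ℕ → Prop := fun A => δ * √(n : ℝ) < n2Y D c G H n A with hp3
  set p4 : Finset ℕ → Prop := fun A => ∃ k : ZMod n, k ≠ 0 ∧
      δ / 2 < ‖fc (fun x => (((PP D c).eval (G n A x) : ℝ) : ℂ)) k‖ with hp4
  have hX0 : ∀ A, 0 ≤ n2X D c G H Q n A := by
    intro A
    have hpi := Real.pi_pos
    unfold n2X
    positivity
  have b1 : Pr n p1 ≤ δ / 4 + (K1 / δ) / √(n : ℝ) := by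
    refine (Pr_markov n (n2X D c G H Q n) (fun A _ => hX0 A) δ hδ).trans ?_
    rw [div_le_iff₀ hδ]
    refine (e1 n).trans ?_
    have : (δ / 4 + K1 / δ / √(n : ℝ)) * δ = δ ^ 2 / 4 + K1 / √(n : ℝ) := by
      field_simp
    rw [this]
    linarith
  have b2 := (e2 n).trans (n2_div_le n K2 hK2)
  have b3 := (e3 n).trans (n2_div_le n K3 hK3)
  have b4 := (e4 n).trans (n2_div_le n K4 hK4)
  have hbad : Pr n (fun A => ¬ ApproxGood 30 δ n A) ≤ Pr n (fun A => p1 A ∨ p2 A ∨ p3 A ∨ p4 A) := by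
    refine Pr_mono n _ _ fun A hA hnot => ?_
    by_contra hcon
    push Not at hcon
    obtain ⟨c1, c2, c3, c4⟩ := hcon
    apply hnot
    obtain ⟨g, hg, ga, gb, gc, gd⟩ := n1 n A (G n A) (H n A) (PP D c) Q (sP D c) hA
      (hst.gG.even n A) (Real.sqrt_nonneg _) hQ
    refine ⟨g, hg, ?_, ?_, ?_, ?_⟩
    · have c3' : n2Y D c G H n A ≤ δ * √(n : ℝ) := not_lt.1 c3
      unfold n2Y n2e at c3'
      linarith
    · refine gb.trans ?_
      have c1' : n2X D c G H Q n A ≤ δ := not_lt.1 c1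
      unfold n2X n2e at c1'
      rw [div_le_iff₀ (by linarith)] at c1'
      exact c1'
    · have c2' := not_lt.1 c2
      linarith
    · intro k hk
      refine (gd k hk).trans ?_
      have h5 : ‖fc (fun x => (((PP D c).eval (G n A x) : ℝ) : ℂ)) k‖ ≤ δ / 2 := by
        by_contra h
        exact c4 ⟨k, hk, not_le.1 h⟩
      have h6 : 2 / √(n : ℝ) ≤ K / √(n : ℝ) := by
        gcongr
        have : 0 ≤ K1 / δ := by positivity
        linarith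
      linarith
  have hor : Pr n (fun A => p1 A ∨ p2 A ∨ p3 A ∨ p4 A) ≤ Pr n p1 + (Pr n p2 + (Pr n p3 + Pr n p4)) :=
    (Pr_or_le n p1 _).trans (by
      gcongr
      exact (Pr_or_le n p2 _).trans (by
        gcongr
        exact Pr_or_le n p3 p4))
  rw [Pr_not] at hbad
  have hsum : (K1 / δ) / √(n : ℝ) + K2 / √(n : ℝ) + K3 / √(n : ℝ) + K4 / √(n : ℝ) ≤
      K / √(n : ℝ) := by
    rw [← add_div, ← add_div, ← add_div]
    gcongr
    linarith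
  linarith

end Pool.Agent.H276R2.Th
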