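import Pool.Agent.H276R2.Th.Spec

set_option autoImplicit false

namespace Pool.Agent.H276R2.Th

open Finset Real

theorem n3_sqrt (S s w : ℝ) (hs : 0 ≤ s) (hw : 1 ≤ w) (hs2 : s ^ 2 = 4 + S) (d : ℝ)
    (hw2 : w ^ 2 = 2 * π) (hd0 : 0 ≤ d) (hd1 : d ≤ 1) (h : |S - (2 * π - 4)| ≤ d) :
    (s - w) ^ 2 ≤ d := by
  have h1 : |(s - w) * (s + w)| ≤ d := by
    have : (s - w) * (s + w) = S - (2 * π - 4) := by
      have : (s - w) * (s + w) = s ^ 2 - w ^ 2 := by ring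
      rw [this, hs2, hw2]
      ring
    rw [this]
    exact h
  rw [abs_mul] at h1
  have h2 : 1 ≤ |s + w| := by
    rw [abs_of_nonneg (by linarith)]
    linarith
  have h3 : |s - w| ≤ d := by
    have := mul_le_mul_of_nonneg_left h2 (abs_nonneg (s - w))
    linarith
  calc (s - w) ^ 2 = |s - w| ^ 2 := (sq_abs _).symm
    _ ≤ d ^ 2 := pow_le_pow_left₀ (abs_nonneg _) h3 2
    _ ≤ d := by nlinarith

theorem t_N3 (hD : S_D) (hS : S_S) (n2 : S_N2) : S_N3 := by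
  intro hstep
  refine ⟨30, fun δ hδ => ?_⟩
  by_cases hδ1 : 1 < δ
  · refine ⟨0, fun n _ _ => ?_⟩
    have := Pr_nonneg n (ApproxGood 30 δ n)
    linarith
  have hδ2 : δ ≤ 1 := not_lt.1 hδ1
  have hpi := Real.pi_pos
  obtain ⟨d0, hd0, hS'⟩ := hS (δ ^ 2 / (320 * π)) (by positivity)
  set d1 : ℝ := min d0 (min (1 / 10) (δ ^ 2 / 100)) with hd1
  have hd1pos : 0 < d1 := by
    rw [hd1]
    exact lt_min hd0 (lt_min (by norm_num) (by positivity))
  have hd1a : d1 ≤ d0 := min_le_left _ _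
  have hd1b : d1 ≤ 1 / 10 := (min_le_right _ _).trans (min_le_left _ _)
  have hd1c : d1 ≤ δ ^ 2 / 100 := (min_le_right _ _).trans (min_le_right _ _)
  obtain ⟨D, c, Q, hc0, hc1, hQ, hQ2, hw, hs⟩ := hD d1 hd1pos
  obtain ⟨m, hm⟩ := hS' D c hc0 hc1 (by linarith) (hs.trans hd1a)
  obtain ⟨G, H, hGH⟩ := hstep D c hc0 hc1 m
  set S : ℝ := ∑ d ∈ range (D + 1), c d ^ 2 * d.factorial with hSdef
  have hS0 : 0 ≤ S := Finset.sum_nonneg (fun d _ => by positivity)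
  have hsP : sP D c = √(4 + S) := rfl
  have hsP2 : sP D c ^ 2 = 4 + S := by
    rw [hsP]
    exact Real.sq_sqrt (by linarith)
  have hπ2 : (√(2 * π)) ^ 2 = 2 * π := Real.sq_sqrt (by positivity)
  have hπ3 : 1 ≤ √(2 * π) := by
    rw [Real.one_le_sqrt]
    have := Real.pi_gt_three
    linarith
  have h1 : (sP D c - √(2 * π)) ^ 2 ≤ d1 :=
    n3_sqrt S (sP D c) (√(2 * π)) (Real.sqrt_nonneg _) hπ3 hsP2 d1 hπ2 hd1pos.le
      (by linarith) hs
  have h2 : S ≤ 5 / 2 := by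
    have := (abs_le.1 hs).2
    have h3 := Real.pi_lt_d2
    linarith
  have h3 : 4 * π * (1 - rho D c m) ≤ δ ^ 2 / 80 := by
    have := mul_le_mul_of_nonneg_left hm (show (0 : ℝ) ≤ 4 * π by positivity)
    have h4 : 4 * π * (δ ^ 2 / (320 * π)) = δ ^ 2 / 80 := by
      field_simp
      ring
    linarith
  refine n2 D c m G H Q δ hGH hc0 hc1 hδ hQ h2 ?_
  linarith

end Pool.Agent.H276R2.Th
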