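import Pool.Agent.H276R2.Th.Spec

/-!
# Task NX: one step of the iteration as a linear combination of capped trees
-/

set_option autoImplicit false

namespace Pool.Agent.H276R2.Th

open Finset Real

/-- the trees of the next step -/
noncomputable def nx_tr (cr : S_CR) {J : Type} (tr : J → Tree) (d : ℕ) (j : Fin d → J) : Tree :=
  if h : 2 ≤ d then
    @capTree (Fin d) _ _ (Fin.nontrivial_iff_two_le.2 h) (fun i => tr (j i)) (cr _ _)
  else leafTree

theorem nx_cap (cr : S_CR) (cap : S_CAP) {J : Type} (tr : J → Tree) (d : ℕ) (h : 2 ≤ d)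
    (j : Fin d → J) :
    O1 (fun n _ A x => T A (F n (fun i : Fin d => tr (j i)) A) x -
      F n (fun _ : Unit => nx_tr cr tr d j) A x) := by
  have : Nontrivial (Fin d) := Fin.nontrivial_iff_two_le.2 h
  have h1 : nx_tr cr tr d j = capTree (fun i => tr (j i)) (cr _ _) := by
    unfold nx_tr
    rw [dif_pos h]
  rw [h1]
  exact cap (Fin d) (fun i => tr (j i)) (cr _ _)

/-- the constant family `2 / sqrt n` is `O(1)` -/
theorem nx_const : O1 (fun n _ _ _ => ((2 / Real.sqrt n : ℝ) : ℂ)) := by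
  refine ⟨4, fun n hn => ?_⟩
  have hn0 : (0 : ℝ) < n := by exact_mod_cast Nat.pos_of_ne_zero (NeZero.ne n)
  have h1 : ∀ x : ZMod n, Ex n (fun _ => ‖((2 / Real.sqrt n : ℝ) : ℂ)‖ ^ 2) = 4 / n := by
    intro x
    rw [Ex_const, Complex.norm_real, Real.norm_eq_abs, sq_abs, div_pow, Real.sq_sqrt hn0.le]
    norm_num
  rw [Finset.sum_congr rfl fun x _ => h1 x, Finset.sum_const, Finset.card_univ, ZMod.card,
    nsmul_eq_mul]
  rw [mul_div_cancel₀ _ hn0.ne']

theorem nx_delta (n : ℕ) [NeZero n] (A : Finset ℕ) (x : ZMod n) :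
    T A (fun y => if y = 0 then ((2 * Real.sqrt n : ℝ) : ℂ) else 0) x =
      ((2 / Real.sqrt n : ℝ) : ℂ) + 2 * F n (fun _ : Unit => leafTree) A x := by
  have hn0 : (0 : ℝ) < n := by exact_mod_cast Nat.pos_of_ne_zero (NeZero.ne n)
  have hs : (Real.sqrt n : ℂ) ≠ 0 := by
    exact_mod_cast (Real.sqrt_pos.2 hn0).ne'
  have hs2 : (n : ℂ) = (Real.sqrt n : ℂ) * (Real.sqrt n : ℂ) := by
    rw [← Complex.ofReal_mul, Real.mul_self_sqrt hn0.le]
    simp
  rw [T_delta, F_leaf]
  have h1 : ∑ k : ZMod n, (sg A k : ℂ) * ch n (k * x) =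
      1 + ∑ l : ZMod n, if l = 0 then 0 else (sg A l : ℂ) * ch n (l * x) := by
    have h2 : ∀ k : ZMod n, (sg A k : ℂ) * ch n (k * x) =
        (if k = 0 then 1 else 0) + (if k = 0 then 0 else (sg A k : ℂ) * ch n (k * x)) := by
      intro k
      by_cases hk : k = 0
      · subst hk
        simp [sg_zero, ch_zero]
      · simp [hk]
    rw [Finset.sum_congr rfl fun k _ => h2 k, Finset.sum_add_distrib]
    simp
  rw [h1]
  have h3 : ((2 * Real.sqrt n : ℝ) : ℂ) / (n : ℂ) = 2 / (Real.sqrt n : ℂ) := by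
    rw [hs2]
    push_cast
    field_simp
  rw [h3]
  push_cast
  field_simp

theorem t_NX (cr : S_CR) (cap : S_CAP) (_w0 : S_W0) (w2 : S_W2) : S_NX := by
  intro J _ tr D c s hs hc0 hc1
  classical
  refine ⟨Σ d : Fin (D + 1), (Fin d → J), inferInstance, fun k => nx_tr cr tr k.1 k.2,
    fun α hα => ⟨fun o => o.elim (2 / s) (fun k => c k.1 * (∏ i, α (k.2 i)) / s), ?_⟩⟩
  have hE1 : O1 (fun n _ A x => ∑ d ∈ range (D + 1), (c d : ℂ) * T A (fun y =>
      Polynomial.aeval (Gf tr α n A y) (He d) - Wf tr (fun _ : Fin d => α) n A y) x) := by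
    refine O1_sum (f := fun d n _ A x => (c d : ℂ) * T A (fun y =>
      Polynomial.aeval (Gf tr α n A y) (He d) - Wf tr (fun _ : Fin d => α) n A y) x) _
      fun d _ => ?_
    exact O1_smul _ (O1_T (w2 J tr α hα d))
  have hE2k : ∀ k : (Σ d : Fin (D + 1), (Fin d → J)), O1 (fun n _ A x =>
      ((c k.1 * ∏ i, α (k.2 i) : ℝ) : ℂ) * (T A (F n (fun i : Fin k.1 => tr (k.2 i)) A) x -
        F n (fun _ : Unit => nx_tr cr tr k.1 k.2) A x)) := by
    intro k
    by_cases h2 : 2 ≤ (k.1 : ℕ)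
    · exact O1_smul _ (nx_cap cr cap tr k.1 h2 k.2)
    · have h3 : c k.1 = 0 := by
        have h4 : (k.1 : ℕ) = 0 ∨ (k.1 : ℕ) = 1 := by omega
        rcases h4 with h | h
        · rw [h, hc0]
        · rw [h, hc1]
      refine O1_congr (fun n _ A x _ => ?_) O1_zero
      rw [h3, zero_mul, Complex.ofReal_zero, zero_mul]
  have hE2 : O1 (fun n _ A x => ∑ k : (Σ d : Fin (D + 1), (Fin d → J)),
      ((c k.1 * ∏ i, α (k.2 i) : ℝ) : ℂ) * (T A (F n (fun i : Fin k.1 => tr (k.2 i)) A) x -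
        F n (fun _ : Unit => nx_tr cr tr k.1 k.2) A x)) :=
    O1_sum Finset.univ (fun k _ => hE2k k)
  refine O1_congr (fun n hn A x _ => ?_) (O1_add (O1_add nx_const hE1) hE2)
  have hsC : (s : ℂ) ≠ 0 := by exact_mod_cast hs
  -- the polynomial part
  have hP : ∀ y : ZMod n, Polynomial.aeval (Gf tr α n A y) (PP D c) =
      ∑ d ∈ range (D + 1), ((c d : ℂ) * (Polynomial.aeval (Gf tr α n A y) (He d) -
        Wf tr (fun _ : Fin d => α) n A y) + (c d : ℂ) * Wf tr (fun _ : Fin d => α) n A y) := by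
    intro y
    rw [PP, map_sum]
    refine Finset.sum_congr rfl fun d _ => ?_
    rw [map_mul, Polynomial.aeval_C]
    simp only [Complex.coe_algebraMap]
    ring
  have hTW : ∀ d : ℕ, T A (fun y => Wf tr (fun _ : Fin d => α) n A y) x =
      ∑ j : Fin d → J, ((∏ i, α (j i) : ℝ) : ℂ) * T A (F n (fun i : Fin d => tr (j i)) A) x := by
    intro d
    unfold Wf
    rw [T_sum A Finset.univ
      (fun (j : Fin d → J) y => ((∏ i, α (j i) : ℝ) : ℂ) * F n (fun i : Fin d => tr (j i)) A y) x]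
    refine Finset.sum_congr rfl fun j _ => ?_
    rw [T_mul]
  have hT : T A (fun y => Polynomial.aeval (Gf tr α n A y) (PP D c)) x =
      (∑ d ∈ range (D + 1), (c d : ℂ) * T A (fun y =>
        Polynomial.aeval (Gf tr α n A y) (He d) - Wf tr (fun _ : Fin d => α) n A y) x) +
      ∑ k : (Σ d : Fin (D + 1), (Fin d → J)), ((c k.1 * ∏ i, α (k.2 i) : ℝ) : ℂ) *
        T A (F n (fun i : Fin k.1 => tr (k.2 i)) A) x := by
    simp only [hP]
    rw [T_sum A (range (D + 1)) (fun d y =>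
      ((c d : ℂ) * (Polynomial.aeval (Gf tr α n A y) (He d) -
        Wf tr (fun _ : Fin d => α) n A y) + (c d : ℂ) * Wf tr (fun _ : Fin d => α) n A y)) x]
    have h5 : ∀ d ∈ range (D + 1), T A (fun y =>
        ((c d : ℂ) * (Polynomial.aeval (Gf tr α n A y) (He d) -
        Wf tr (fun _ : Fin d => α) n A y) + (c d : ℂ) * Wf tr (fun _ : Fin d => α) n A y)) x =
        (c d : ℂ) * T A (fun y => Polynomial.aeval (Gf tr α n A y) (He d) -
          Wf tr (fun _ : Fin d => α) n A y) x +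
        ∑ j : Fin d → J, ((c d * ∏ i, α (j i) : ℝ) : ℂ) *
          T A (F n (fun i : Fin d => tr (j i)) A) x := by
      intro d _
      rw [T_add, T_mul, T_mul, hTW, Finset.mul_sum]
      congr 1
      refine Finset.sum_congr rfl fun j _ => ?_
      push_cast
      ring
    rw [Finset.sum_congr rfl h5, Finset.sum_add_distrib]
    congr 1
    rw [Finset.sum_range, Fintype.sum_sigma]
  rw [T_add, nx_delta, hT]
  have hG : (s : ℂ) * Gf (fun o : Option (Σ d : Fin (D + 1), (Fin d → J)) =>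
      o.elim leafTree (fun k => nx_tr cr tr k.1 k.2))
      (fun o => o.elim (2 / s) (fun k => c k.1 * (∏ i, α (k.2 i)) / s)) n A x =
      2 * F n (fun _ : Unit => leafTree) A x +
      ∑ k : (Σ d : Fin (D + 1), (Fin d → J)), ((c k.1 * ∏ i, α (k.2 i) : ℝ) : ℂ) *
        F n (fun _ : Unit => nx_tr cr tr k.1 k.2) A x := by
    unfold Gf
    rw [Fintype.sum_option, mul_add, Finset.mul_sum]
    simp only [Option.elim_none, Option.elim_some]
    congr 1
    · push_cast
      field_simp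
    · refine Finset.sum_congr rfl fun k _ => ?_
      push_cast
      field_simp
  rw [hG]
  have hE2' : ∑ k : (Σ d : Fin (D + 1), (Fin d → J)),
      ((c k.1 * ∏ i, α (k.2 i) : ℝ) : ℂ) * (T A (F n (fun i : Fin k.1 => tr (k.2 i)) A) x -
        F n (fun _ : Unit => nx_tr cr tr k.1 k.2) A x) =
      (∑ k : (Σ d : Fin (D + 1), (Fin d → J)), ((c k.1 * ∏ i, α (k.2 i) : ℝ) : ℂ) *
        T A (F n (fun i : Fin k.1 => tr (k.2 i)) A) x) -
      ∑ k : (Σ d : Fin (D + 1), (Fin d → J)), ((c k.1 * ∏ i, α (k.2 i) : ℝ) : ℂ) *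
        F n (fun _ : Unit => nx_tr cr tr k.1 k.2) A x := by
    rw [← Finset.sum_sub_distrib]
    refine Finset.sum_congr rfl fun k _ => ?_
    ring
  rw [hE2']
  ring

end Pool.Agent.H276R2.Th
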