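import Pool.Agent.H276R2.Th.Spec

set_option autoImplicit false

namespace Pool.Agent.H276R2.Th

open Finset

section

variable {t : Tree} {I : Type} {B : I → Tree} {n : ℕ}

/-- two patterns with the same coincidences agree -/
theorem p1_unique (l : PL t B n) (hB : Gen B l.2) (τ τ' : Pat t B) (h : PatOK τ l)
    (h' : PatOK τ' l) : τ = τ' := by
  funext e
  have key : ∀ (σ σ' : Pat t B), PatOK σ l → PatOK σ' l → ∀ p b, σ e = some (p, b) →
      σ' e = some (p, b) := by
    intro σ σ' hσ hσ' p b he
    obtain ⟨a1, a2, a3⟩ := hσ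
    obtain ⟨b1, b2, b3⟩ := hσ'
    rcases hc : σ' e with _ | ⟨q, c⟩
    · exfalso
      cases b
      · exact (b1 e hc p).2 (a3 e p he).1
      · exact (b1 e hc p).1 (a2 e p he)
    · have hpq : p = q := by
        by_contra hne
        have hg := hB.2 p q hne
        cases b <;> cases c
        · have h1 := (a3 e p he).1
          have h2 := (b3 e q hc).1
          apply hg.1
          rw [h1] at h2
          exact neg_injective h2
        · have h1 := (a3 e p he).1
          have h2 := b2 e q hc
          apply hg.2
          rw [← h2, h1, neg_neg]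
        · have h1 := a2 e p he
          have h2 := (b3 e q hc).1
          apply hg.2
          rw [← h1, h2]
        · have h1 := a2 e p he
          have h2 := b2 e q hc
          apply hg.1
          rw [← h1, h2]
      subst hpq
      have hbc : b = c := by
        cases b <;> cases c
        · rfl
        · exact absurd (b2 e p hc) (a3 e p he).2
        · exact absurd (a2 e p he) (b3 e p hc).2
        · rfl
      rw [hbc]
  rcases hc : τ e with _ | ⟨p, b⟩
  · rcases hc' : τ' e with _ | ⟨q, c⟩
    · rfl
    · rw [key τ' τ h' h q c hc'] at hc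
      exact absurd hc (by simp)
  · rw [key τ τ' h h' p b hc]

/-- every pair of labellings has a pattern -/
theorem p1_exists (l : PL t B n) : ∃ τ : Pat t B, PatOK τ l := by
  classical
  have h : ∀ e : t.E, ∃ o : Option (BE B × Bool),
      (o = none → ∀ p, lv t l.1 e ≠ bl B l.2 p ∧ lv t l.1 e ≠ -bl B l.2 p) ∧
      (∀ p, o = some (p, true) → lv t l.1 e = bl B l.2 p) ∧
      (∀ p, o = some (p, false) → lv t l.1 e = -bl B l.2 p ∧ lv t l.1 e ≠ bl B l.2 p) := by
    intro e
    by_cases h1 : ∃ p, lv t l.1 e = bl B l.2 p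
    · obtain ⟨p, hp⟩ := h1
      refine ⟨some (p, true), ?_, ?_, ?_⟩
      · intro h
        exact absurd h (by simp)
      · intro q hq
        simp only [Option.some.injEq, Prod.mk.injEq, and_true] at hq
        rw [← hq]
        exact hp
      · intro q hq
        simp at hq
    · by_cases h2 : ∃ p, lv t l.1 e = -bl B l.2 p
      · obtain ⟨p, hp⟩ := h2
        refine ⟨some (p, false), ?_, ?_, ?_⟩
        · intro h
          exact absurd h (by simp)
        · intro q hq
          simp at hq
        · intro q hq
          simp only [Option.some.injEq, Prod.mk.injEq, and_true] at hq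
          rw [← hq]
          exact ⟨hp, fun h => h1 ⟨p, h⟩⟩
      · refine ⟨none, ?_, ?_, ?_⟩
        · intro _ p
          exact ⟨fun h => h1 ⟨p, h⟩, fun h => h2 ⟨p, h⟩⟩
        · intro q hq
          simp at hq
        · intro q hq
          simp at hq
  choose τ h1 h2 h3 using h
  exact ⟨τ, fun e he => h1 e he, fun e p he => h2 e p he, fun e p he => h3 e p he⟩

/-- matched labels agree up to sign -/
theorem p1_pm (l : PL t B n) (τ : Pat t B) (h : PatOK τ l) (e : t.E) (p : BE B) (b : Bool)
    (he : τ e = some (p, b)) : lv t l.1 e = bl B l.2 p ∨ lv t l.1 e = -bl B l.2 p := by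
  cases b
  · exact Or.inr (h.2.2 e p he).1
  · exact Or.inl (h.2.1 e p he)

open Classical in
/-- cancellation of the matched signs -/
theorem p1_prod [Fintype I] (A : Finset ℕ) (l : PL t B n) (τ : Pat t B) (ht : GenL (lv t l.1))
    (h : PatOK τ l) :
    (∏ e, sg A (lv t l.1 e)) * ∏ p, sg A (bl B l.2 p) =
      (∏ e, if τ e = none then sg A (lv t l.1 e) else 1) *
      (∏ p, if Mtc τ p then 1 else sg A (bl B l.2 p)) := by
  have h1 : ∏ e, sg A (lv t l.1 e) = (∏ e, if τ e = none then sg A (lv t l.1 e) else 1) *
      ∏ e, if τ e ≠ none then sg A (lv t l.1 e) else 1 := by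
    rw [← Finset.prod_mul_distrib]
    refine Finset.prod_congr rfl fun e _ => ?_
    by_cases he : τ e = none
    · rw [if_pos he, if_neg (not_not.2 he), mul_one]
    · rw [if_neg he, if_pos he, one_mul]
  have h2 : ∏ p, sg A (bl B l.2 p) = (∏ p, if Mtc τ p then 1 else sg A (bl B l.2 p)) *
      ∏ p, if Mtc τ p then sg A (bl B l.2 p) else 1 := by
    rw [← Finset.prod_mul_distrib]
    refine Finset.prod_congr rfl fun p _ => ?_
    by_cases hp : Mtc τ p
    · rw [if_pos hp, if_pos hp, one_mul]
    · rw [if_neg hp, if_neg hp, mul_one]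
  have h3 : (∏ e, if τ e ≠ none then sg A (lv t l.1 e) else 1) =
      ∏ p, if Mtc τ p then sg A (bl B l.2 p) else 1 := by
    rw [← Finset.prod_filter, ← Finset.prod_filter]
    refine Finset.prod_bij (fun e he => ((τ e).get (Option.isSome_iff_ne_none.2
      (Finset.mem_filter.1 he).2)).1) ?_ ?_ ?_ ?_
    · intro e he
      rw [Finset.mem_filter]
      refine ⟨Finset.mem_univ _, e, ((τ e).get (Option.isSome_iff_ne_none.2
        (Finset.mem_filter.1 he).2)).2, ?_⟩
      simp
    · intro e he e' he' hee
      by_contra hne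
      have k1 : τ e = some (((τ e).get (Option.isSome_iff_ne_none.2
          (Finset.mem_filter.1 he).2)).1, ((τ e).get (Option.isSome_iff_ne_none.2
          (Finset.mem_filter.1 he).2)).2) := by simp
      have k2 : τ e' = some (((τ e').get (Option.isSome_iff_ne_none.2
          (Finset.mem_filter.1 he').2)).1, ((τ e').get (Option.isSome_iff_ne_none.2
          (Finset.mem_filter.1 he').2)).2) := by simp
      have k3 := p1_pm l τ h e _ _ k1
      have k4 := p1_pm l τ h e' _ _ k2
      rw [← hee] at k4
      have k5 := ht.2 e e' hne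
      rcases k3 with k3 | k3 <;> rcases k4 with k4 | k4
      · exact k5.1 (k3.trans k4.symm)
      · apply k5.2
        rw [k3, k4, neg_neg]
      · apply k5.2
        rw [k3, k4]
      · exact k5.1 (k3.trans k4.symm)
    · intro p hp
      obtain ⟨e, b, he⟩ := (Finset.mem_filter.1 hp).2
      refine ⟨e, Finset.mem_filter.2 ⟨Finset.mem_univ _, by rw [he]; simp⟩, ?_⟩
      simp [he]
    · intro e he
      have k1 : τ e = some (((τ e).get (Option.isSome_iff_ne_none.2
          (Finset.mem_filter.1 he).2)).1, ((τ e).get (Option.isSome_iff_ne_none.2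
          (Finset.mem_filter.1 he).2)).2) := by simp
      rcases p1_pm l τ h e _ _ k1 with k3 | k3
      · rw [k3]
      · rw [k3, sg_neg]
  have h4 : (∏ p, if Mtc τ p then sg A (bl B l.2 p) else 1) *
      (∏ p, if Mtc τ p then sg A (bl B l.2 p) else 1) = 1 := by
    rw [← Finset.prod_mul_distrib]
    apply Finset.prod_eq_one
    intro p _
    by_cases hp : Mtc τ p
    · rw [if_pos hp, sg_mul_self]
    · rw [if_neg hp, one_mul]
  rw [h1, h2, h3]
  calc (∏ e, if τ e = none then sg A (lv t l.1 e) else 1) *
        (∏ p, if Mtc τ p then sg A (bl B l.2 p) else 1) *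
        ((∏ p, if Mtc τ p then 1 else sg A (bl B l.2 p)) *
        ∏ p, if Mtc τ p then sg A (bl B l.2 p) else 1)
      = (∏ e, if τ e = none then sg A (lv t l.1 e) else 1) *
        (∏ p, if Mtc τ p then 1 else sg A (bl B l.2 p)) *
        ((∏ p, if Mtc τ p then sg A (bl B l.2 p) else 1) *
        (∏ p, if Mtc τ p then sg A (bl B l.2 p) else 1)) := by ring
    _ = _ := by rw [h4, mul_one]

end

theorem t_P1 : S_P1 := by
  classical
  intro t I _ hI B n _ A x
  clear hI
  constructor
  · rw [F_unit]
    unfold F PT
    rw [div_mul_div_comm, ← pow_add, Finset.sum_mul_sum, ← Finset.sum_div]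
    congr 1
    rw [Finset.sum_comm (s := (Finset.univ : Finset (Pat t B))), ← Finset.univ_product_univ,
      Finset.sum_product]
    refine Finset.sum_congr rfl fun l1 _ => Finset.sum_congr rfl fun l2 _ => ?_
    by_cases h1 : GenL (lv t l1)
    · by_cases h2 : Gen B l2
      · obtain ⟨τ, hτ⟩ := p1_exists (t := t) (B := B) (l1, l2)
        rw [Finset.sum_eq_single τ]
        · rw [if_pos h1, if_pos h2, if_pos ⟨h1, h2, hτ⟩]
          have h3 := p1_prod A (l1, l2) τ h1 hτ
          have h4 : ch n ((lv t l1 t.root + kb B l2) * x) =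
              ch n (lv t l1 t.root * x) * ch n (kb B l2 * x) := by
            rw [← ch_add, add_mul]
          simp only at h3 ⊢
          rw [h4, ← h3]
          push_cast
          ring
        · intro τ' _ hne
          rw [if_neg]
          rintro ⟨_, _, h5⟩
          exact hne (p1_unique (l1, l2) h2 τ' τ h5 hτ)
        · intro h
          exact absurd (Finset.mem_univ _) h
      · rw [if_neg h2, mul_zero, Finset.sum_eq_zero]
        intro τ _
        rw [if_neg]
        rintro ⟨_, h3, _⟩
        exact h2 h3
    · rw [if_neg h1, zero_mul, Finset.sum_eq_zero]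
      intro τ _
      rw [if_neg]
      rintro ⟨h3, _⟩
      exact h1 h3
  · rw [F_optB]
    unfold PT
    congr 1
    refine Finset.sum_congr rfl fun l _ => ?_
    have h1 : PatOK (fun _ => none : Pat t B) l ↔
        ∀ e p, lv t l.1 e ≠ bl B l.2 p ∧ lv t l.1 e ≠ -bl B l.2 p := by
      constructor
      · rintro ⟨a1, _⟩ e p
        exact a1 e rfl p
      · intro a
        refine ⟨fun e _ p => a e p, ?_, ?_⟩
        · intro e p h
          exact absurd h (by simp)
        · intro e p h
          exact absurd h (by simp)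
    have h2 : ∀ p : BE B, ¬ Mtc (fun _ => none : Pat t B) p := by
      rintro p ⟨e, b, h⟩
      exact absurd h (by simp)
    by_cases h3 : GenL (lv t l.1) ∧ Gen B l.2 ∧
        ∀ e p, lv t l.1 e ≠ bl B l.2 p ∧ lv t l.1 e ≠ -bl B l.2 p
    · rw [if_pos h3, if_pos ⟨h3.1, h3.2.1, h1.2 h3.2.2⟩]
      simp only [if_true, h2, if_false]
    · rw [if_neg h3, if_neg]
      rintro ⟨a1, a2, a3⟩
      exact h3 ⟨a1, a2, h1.1 a3⟩

end Pool.Agent.H276R2.Th
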