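import Pool.Agent.H276R2.Th.Spec

/-! # Counting for bad patterns (task P2) -/

set_option autoImplicit false

namespace Pool.Agent.H276R2.Th

open Finset

theorem p2_lv_add {n : ℕ} (t : Tree) (x y : t.V → ZMod n) (e : t.E) :
    lv t (x + y) e = lv t x e + lv t y e := (lvH t e).map_add x y

theorem p2_lv_sub {n : ℕ} (t : Tree) (x y : t.V → ZMod n) (e : t.E) :
    lv t (x - y) e = lv t x e - lv t y e := (lvH t e).map_sub x y

theorem p2_lv_zero {n : ℕ} (t : Tree) (e : t.E) : lv t (0 : t.V → ZMod n) e = 0 :=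
  (lvH t e).map_zero

theorem p2_bl_add {n : ℕ} {I : Type} (B : I → Tree) (x y : BLab n B) (p : BE B) :
    bl B (x + y) p = bl B x p + bl B y p := (blH B p).map_add x y

theorem p2_bl_sub {n : ℕ} {I : Type} (B : I → Tree) (x y : BLab n B) (p : BE B) :
    bl B (x - y) p = bl B x p - bl B y p := (blH B p).map_sub x y

theorem p2_bl_zero {n : ℕ} {I : Type} (B : I → Tree) (p : BE B) :
    bl B (0 : BLab n B) p = 0 := (blH B p).map_zero

theorem p2_sb_sq (b : Bool) : sb b * sb b = 1 := by cases b <;> simp [sb]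

theorem p2_sb_sq' {n : ℕ} (b : Bool) (z : ZMod n) :
    ((sb b : ℤ) : ZMod n) * (((sb b : ℤ) : ZMod n) * z) = z := by
  rw [← mul_assoc, ← Int.cast_mul, p2_sb_sq, Int.cast_one, one_mul]

theorem p2_lin {n : ℕ} (t : Tree) (M : Finset t.E) (a : t.E → ℤ) (l : t.V → ZMod n) :
    ∑ e ∈ M, ((a e : ℤ) : ZMod n) * lv t l e =
      ∑ v, ((∑ e ∈ M, a e * t.form e v : ℤ) : ZMod n) * l v := by
  simp only [lv, Finset.mul_sum]
  rw [Finset.sum_comm]
  refine Finset.sum_congr rfl fun v _ => ?_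
  rw [Int.cast_sum, Finset.sum_mul]
  refine Finset.sum_congr rfl fun e _ => ?_
  push_cast
  ring

theorem p2_bl_single {n : ℕ} {I : Type} [DecidableEq I] (B : I → Tree) (i : I) (v : (B i).V)
    (z : ZMod n) (e : (B i).E) :
    bl B (Pi.single i (Pi.single v z) : BLab n B) ⟨i, e⟩ = (((B i).form e v : ℤ) : ZMod n) * z := by
  rw [bl]
  simp only [Pi.single_eq_same]
  exact lv_single _ _ _ _

theorem p2_bl_single_ne {n : ℕ} {I : Type} [DecidableEq I] (B : I → Tree) {i j : I} (h : j ≠ i)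
    (v : (B i).V) (z : ZMod n) (e : (B j).E) :
    bl B (Pi.single i (Pi.single v z) : BLab n B) ⟨j, e⟩ = 0 := by
  rw [bl]
  simp only [Pi.single_eq_of_ne h]
  exact p2_lv_zero _ _

section

variable {t : Tree} {I : Type} {B : I → Tree} (τ : Pat t B) {n : ℕ}

/-- partner value of a label of `t` -/
def p2mt (e : t.E) (y : BLab n B) : ZMod n :=
  (τ e).elim 0 (fun pb => ((sb pb.2 : ℤ) : ZMod n) * bl B y pb.1)

theorem p2mt_add (e : t.E) (x y : BLab n B) : p2mt τ e (x + y) = p2mt τ e x + p2mt τ e y := by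
  unfold p2mt
  cases τ e with
  | none => simp
  | some pb => simp only [Option.elim, p2_bl_add, mul_add]

theorem p2mt_zero (e : t.E) : p2mt τ e (0 : BLab n B) = 0 := by
  unfold p2mt
  cases τ e with
  | none => simp
  | some pb => simp only [Option.elim, p2_bl_zero, mul_zero]

theorem p2mt_rel {l : PL t B n} (hl : RelP τ l) {e : t.E} (he : τ e ≠ none) :
    p2mt τ e l.2 = lv t l.1 e := by
  obtain ⟨⟨p, b⟩, hpb⟩ := Option.ne_none_iff_exists'.1 he
  rw [hl e p b hpb, p2mt, hpb]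
  rfl

open Classical in
/-- partner value of a label of the bush -/
noncomputable def p2pm (p : BE B) (x : t.V → ZMod n) : ZMod n :=
  if h : Mtc τ p then ((sb h.choose_spec.choose : ℤ) : ZMod n) * lv t x h.choose else 0

theorem p2pm_add (p : BE B) (x y : t.V → ZMod n) :
    p2pm τ p (x + y) = p2pm τ p x + p2pm τ p y := by
  unfold p2pm
  split_ifs
  · rw [p2_lv_add, mul_add]
  · rw [add_zero]

theorem p2pm_zero (p : BE B) : p2pm τ p (0 : t.V → ZMod n) = 0 := by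
  unfold p2pm
  split_ifs
  · rw [p2_lv_zero, mul_zero]
  · rfl

theorem p2pm_rel {l : PL t B n} (hl : RelP τ l) {p : BE B} (hp : Mtc τ p) :
    p2pm τ p l.1 = bl B l.2 p := by
  unfold p2pm
  rw [dif_pos hp]
  have h := hp.choose_spec.choose_spec
  rw [hl _ _ _ h, p2_sb_sq']

theorem RelP.sub {l l' : PL t B n} (hl : RelP τ l) (hl' : RelP τ l') : RelP τ (l - l') := by
  intro e p b h
  rw [Prod.fst_sub, Prod.snd_sub, p2_lv_sub, p2_bl_sub, hl e p b h, hl' e p b h, mul_sub]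

theorem RelP.of_zero_fst {l : PL t B n} (hl : RelP τ l) (h : l.1 = 0) {p : BE B}
    (hp : Mtc τ p) : bl B l.2 p = 0 := by
  rw [← p2pm_rel τ hl hp, h, p2pm_zero]

theorem RelP.of_zero_snd {l : PL t B n} (hl : RelP τ l) (h : l.2 = 0) {e : t.E}
    (he : τ e ≠ none) : lv t l.1 e = 0 := by
  rw [← p2mt_rel τ hl he, h, p2mt_zero]

end

section final

variable {t : Tree} {I : Type} [Fintype I] [DecidableEq I] {B : I → Tree} (τ : Pat t B) {n : ℕ}
  [NeZero n]

theorem p2_final (k1 : S_K1) (H : PL t B n →+ ZMod n) (ι : ZMod n → PL t B n) (a : ℤ)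
    (ha : a ≠ 0) (ha2 : |a| ≤ 2) (hH : ∀ z, H (ι z) = (a : ZMod n) * z)
    (Φ : PL t B n → PL t B n → PL t B n)
    (hΦ : ∀ u w, RelP τ u → WP τ w → H (Φ u w) = 0)
    (hinj : ∀ u w u' w', RelP τ u → WP τ w → RelP τ u' → WP τ w' → Φ u w = Φ u' w' →
      u = u' ∧ w = w') :
    (Nat.card {l : PL t B n // RelP τ l} : ℝ) * Nat.card {l : PL t B n // WP τ l} * n ≤
      2 * Nat.card (PL t B n) := by
  classical
  have h1 := k1 n (PL t B n) H ι a ha hH 0
  have h2 : Nat.card {l : PL t B n // RelP τ l} * Nat.card {l : PL t B n // WP τ l} ≤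
      Nat.card {l : PL t B n // H l = 0} := by
    rw [← Nat.card_prod]
    refine Nat.card_le_card_of_injective
      (fun q : {l : PL t B n // RelP τ l} × {l : PL t B n // WP τ l} =>
        (⟨Φ q.1.1 q.2.1, hΦ _ _ q.1.2 q.2.2⟩ : {l : PL t B n // H l = 0})) ?_
    rintro ⟨⟨u, hu⟩, ⟨w, hw⟩⟩ ⟨⟨u', hu'⟩, ⟨w', hw'⟩⟩ h
    have h3 := hinj u w u' w' hu hw hu' hw' (congrArg Subtype.val h)
    obtain ⟨rfl, rfl⟩ := h3
    rfl
  have h3 : (Nat.card {l : PL t B n // RelP τ l} : ℝ) * Nat.card {l : PL t B n // WP τ l} ≤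
      Nat.card {l : PL t B n // H l = 0} := by exact_mod_cast h2
  have h4 : |(a : ℝ)| ≤ 2 := by exact_mod_cast ha2
  calc _ ≤ (Nat.card {l : PL t B n // H l = 0} : ℝ) * n :=
        mul_le_mul_of_nonneg_right h3 (Nat.cast_nonneg _)
    _ ≤ |(a : ℝ)| * Nat.card (PL t B n) := h1
    _ ≤ _ := mul_le_mul_of_nonneg_right h4 (Nat.cast_nonneg _)

theorem p2_WP_sub {l l' : PL t B n} (hl : WP τ l) (hl' : WP τ l') : WP τ (l - l') := by
  obtain ⟨h1, h2, h3, h4⟩ := hl
  obtain ⟨h1', h2', h3', h4'⟩ := hl'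
  refine ⟨h1.sub τ h1', fun e he => ?_, fun p hp => ?_, ?_⟩
  · rw [Prod.fst_sub, p2_lv_sub, h2 e he, h2' e he, sub_zero]
  · rw [Prod.snd_sub, p2_bl_sub, h3 p hp, h3' p hp, sub_zero]
  · have h5 : kb B (l.2 - l'.2) = kb B l.2 - kb B l'.2 := (kbH (n := n) B).map_sub l.2 l'.2
    rw [Prod.fst_sub, Prod.snd_sub, p2_lv_sub, h5, sub_add_sub_comm, h4, h4', sub_zero]

/-- injectivity of `(l, m) ↦ (l1 + m1, l2)` -/
theorem p2_inj_a (u w u' w' : PL t B n) (hu : RelP τ u) (hw : WP τ w) (hu' : RelP τ u')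
    (hw' : WP τ w') (h : ((u.1 + w.1, u.2) : PL t B n) = (u'.1 + w'.1, u'.2)) :
    u = u' ∧ w = w' := by
  have hd := hu.sub τ hu'
  have he := p2_WP_sub τ hw hw'
  have h1 : u.1 + w.1 = u'.1 + w'.1 := (Prod.mk.inj h).1
  have h2 : u.2 = u'.2 := (Prod.mk.inj h).2
  have hd2 : (u - u').2 = 0 := by rw [Prod.snd_sub, h2, sub_self]
  have hsum : (w - w').1 = - (u - u').1 := by
    rw [Prod.fst_sub, Prod.fst_sub, neg_sub, sub_eq_sub_iff_add_eq_add, add_comm w.1 u.1, h1]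
  have hd1 : (u - u').1 = 0 := by
    apply lv_inj
    intro e
    by_cases hm : τ e = none
    · have h3 := he.2.1 e hm
      rw [hsum] at h3
      have h4 : lv t (-(u - u').1) e = - lv t (u - u').1 e := (lvH (n := n) t e).map_neg (u - u').1
      rw [h4, neg_eq_zero] at h3
      exact h3
    · exact hd.of_zero_snd τ hd2 hm
  have he1 : (w - w').1 = 0 := by rw [hsum, hd1, neg_zero]
  have he2 : (w - w').2 = 0 := by
    apply bl_inj
    intro p
    by_cases hm : Mtc τ p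
    · exact he.1.of_zero_fst τ he1 hm
    · exact he.2.2.1 p hm
  exact ⟨sub_eq_zero.1 (Prod.ext hd1 hd2), sub_eq_zero.1 (Prod.ext he1 he2)⟩

/-- injectivity of `(l, m) ↦ (l1, l2 + m2)` -/
theorem p2_inj_b (u w u' w' : PL t B n) (hu : RelP τ u) (hw : WP τ w) (hu' : RelP τ u')
    (hw' : WP τ w') (h : ((u.1, u.2 + w.2) : PL t B n) = (u'.1, u'.2 + w'.2)) :
    u = u' ∧ w = w' := by
  have hd := hu.sub τ hu'
  have he := p2_WP_sub τ hw hw'
  have h1 : u.1 = u'.1 := (Prod.mk.inj h).1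
  have h2 : u.2 + w.2 = u'.2 + w'.2 := (Prod.mk.inj h).2
  have hd1 : (u - u').1 = 0 := by rw [Prod.fst_sub, h1, sub_self]
  have hsum : (w - w').2 = - (u - u').2 := by
    rw [Prod.snd_sub, Prod.snd_sub, neg_sub, sub_eq_sub_iff_add_eq_add, add_comm w.2 u.2, h2]
  have hd2 : (u - u').2 = 0 := by
    apply bl_inj
    intro p
    by_cases hm : Mtc τ p
    · exact hd.of_zero_fst τ hd1 hm
    · have h3 := he.2.2.1 p hm
      rw [hsum] at h3
      have h4 : bl B (-(u - u').2) p = - bl B (u - u').2 p := (blH (n := n) B p).map_neg (u - u').2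
      rw [h4, neg_eq_zero] at h3
      exact h3
  have he2 : (w - w').2 = 0 := by rw [hsum, hd2, neg_zero]
  have he1 : (w - w').1 = 0 := by
    apply lv_inj
    intro e
    by_cases hm : τ e = none
    · exact he.2.1 e hm
    · exact he.1.of_zero_snd τ he2 hm
  exact ⟨sub_eq_zero.1 (Prod.ext hd1 hd2), sub_eq_zero.1 (Prod.ext he1 he2)⟩

/-- case (a) -/
theorem p2_case_a (k1 : S_K1) (hne : ∃ e, τ e ≠ none) (hall : ∃ e, τ e = none) :
    (Nat.card {l : PL t B n // RelP τ l} : ℝ) * Nat.card {l : PL t B n // WP τ l} * n ≤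
      2 * Nat.card (PL t B n) := by
  classical
  let M : Finset t.E := Finset.univ.filter fun e => τ e ≠ none
  have hM : ∀ e, e ∈ M ↔ τ e ≠ none := fun e => by simp [M]
  have hMc : ∀ e, e ∈ Mᶜ ↔ τ e = none := fun e => by simp [M]
  obtain ⟨a, ha, v0, hv0⟩ := t.rel M (by obtain ⟨e, he⟩ := hne; exact ⟨e, (hM e).2 he⟩)
    (by obtain ⟨e, he⟩ := hall; exact ⟨e, fun h => (hM e).1 h he⟩)
  let H : PL t B n →+ ZMod n := AddMonoidHom.mk' (fun x =>
    ∑ e ∈ M, ((a e : ℤ) : ZMod n) * p2mt τ e x.2 - ∑ e ∈ Mᶜ, ((a e : ℤ) : ZMod n) * lv t x.1 e)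
    (by
      intro x y
      simp only [Prod.fst_add, Prod.snd_add, p2mt_add, p2_lv_add, mul_add, Finset.sum_add_distrib]
      ring)
  have hHdef : ∀ x, H x = ∑ e ∈ M, ((a e : ℤ) : ZMod n) * p2mt τ e x.2 -
      ∑ e ∈ Mᶜ, ((a e : ℤ) : ZMod n) * lv t x.1 e := fun x => rfl
  have hrel : ∀ l : t.V → ZMod n, ∑ e ∈ M, ((a e : ℤ) : ZMod n) * lv t l e =
      ∑ e ∈ Mᶜ, ((a e : ℤ) : ZMod n) * lv t l e := by
    intro l
    rw [p2_lin, p2_lin]
    exact Finset.sum_congr rfl fun v _ => by rw [ha v]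
  refine p2_final τ k1 H (fun z => (Pi.single v0 z, 0)) (-(∑ e ∈ M, a e * t.form e v0)) ?_ ?_ ?_
    (fun u w => (u.1 + w.1, u.2)) ?_ (p2_inj_a τ)
  · rcases hv0 with h | h <;> rw [h] <;> norm_num
  · rcases hv0 with h | h <;> rw [h] <;> norm_num
  · intro z
    rw [hHdef]
    simp only [p2mt_zero, mul_zero, Finset.sum_const_zero, zero_sub, lv_single]
    rw [ha v0]
    push_cast
    rw [neg_mul, Finset.sum_mul]
    congr 1
    exact Finset.sum_congr rfl fun e _ => by ring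
  · intro u w hu hw
    rw [hHdef]
    simp only [p2_lv_add, mul_add, Finset.sum_add_distrib]
    have h1 : ∑ e ∈ M, ((a e : ℤ) : ZMod n) * p2mt τ e u.2 =
        ∑ e ∈ M, ((a e : ℤ) : ZMod n) * lv t u.1 e :=
      Finset.sum_congr rfl fun e he => by rw [p2mt_rel τ hu ((hM e).1 he)]
    have h2 : ∑ e ∈ Mᶜ, ((a e : ℤ) : ZMod n) * lv t w.1 e = 0 :=
      Finset.sum_eq_zero fun e he => by rw [hw.2.1 e ((hMc e).1 he), mul_zero]
    rw [h1, h2, add_zero, hrel, sub_self]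

/-- case (b) -/
theorem p2_case_b (k1 : S_K1) (i : I) (hne : ∃ e, Mtc τ (⟨i, e⟩ : BE B))
    (hall : ∃ e, ¬ Mtc τ (⟨i, e⟩ : BE B)) :
    (Nat.card {l : PL t B n // RelP τ l} : ℝ) * Nat.card {l : PL t B n // WP τ l} * n ≤
      2 * Nat.card (PL t B n) := by
  classical
  let M : Finset (B i).E := Finset.univ.filter fun e => Mtc τ (⟨i, e⟩ : BE B)
  have hM : ∀ e, e ∈ M ↔ Mtc τ (⟨i, e⟩ : BE B) := fun e => by simp [M]
  have hMc : ∀ e, e ∈ Mᶜ ↔ ¬ Mtc τ (⟨i, e⟩ : BE B) := fun e => by simp [M]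
  obtain ⟨a, ha, v0, hv0⟩ := (B i).rel M (by obtain ⟨e, he⟩ := hne; exact ⟨e, (hM e).2 he⟩)
    (by obtain ⟨e, he⟩ := hall; exact ⟨e, fun h => he ((hM e).1 h)⟩)
  let H : PL t B n →+ ZMod n := AddMonoidHom.mk' (fun x =>
    ∑ e ∈ M, ((a e : ℤ) : ZMod n) * p2pm τ (⟨i, e⟩ : BE B) x.1 -
      ∑ e ∈ Mᶜ, ((a e : ℤ) : ZMod n) * bl B x.2 ⟨i, e⟩)
    (by
      intro x y
      simp only [Prod.fst_add, Prod.snd_add, p2pm_add, p2_bl_add, mul_add, Finset.sum_add_distrib]
      ring)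
  have hHdef : ∀ x, H x = ∑ e ∈ M, ((a e : ℤ) : ZMod n) * p2pm τ (⟨i, e⟩ : BE B) x.1 -
      ∑ e ∈ Mᶜ, ((a e : ℤ) : ZMod n) * bl B x.2 ⟨i, e⟩ := fun x => rfl
  have hrel : ∀ l : BLab n B, ∑ e ∈ M, ((a e : ℤ) : ZMod n) * bl B l ⟨i, e⟩ =
      ∑ e ∈ Mᶜ, ((a e : ℤ) : ZMod n) * bl B l ⟨i, e⟩ := by
    intro l
    simp only [bl]
    rw [p2_lin, p2_lin]
    exact Finset.sum_congr rfl fun v _ => by rw [ha v]
  refine p2_final τ k1 H (fun z => (0, Pi.single i (Pi.single v0 z)))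
    (-(∑ e ∈ M, a e * (B i).form e v0)) ?_ ?_ ?_
    (fun u w => (u.1, u.2 + w.2)) ?_ (p2_inj_b τ)
  · rcases hv0 with h | h <;> rw [h] <;> norm_num
  · rcases hv0 with h | h <;> rw [h] <;> norm_num
  · intro z
    rw [hHdef]
    simp only [p2pm_zero, mul_zero, Finset.sum_const_zero, zero_sub, p2_bl_single]
    rw [ha v0]
    push_cast
    rw [neg_mul, Finset.sum_mul]
    congr 1
    exact Finset.sum_congr rfl fun e _ => by ring
  · intro u w hu hw
    rw [hHdef]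
    simp only [p2_bl_add, mul_add, Finset.sum_add_distrib]
    have h1 : ∑ e ∈ M, ((a e : ℤ) : ZMod n) * p2pm τ (⟨i, e⟩ : BE B) u.1 =
        ∑ e ∈ M, ((a e : ℤ) : ZMod n) * bl B u.2 ⟨i, e⟩ :=
      Finset.sum_congr rfl fun e he => by rw [p2pm_rel τ hu ((hM e).1 he)]
    have h2 : ∑ e ∈ Mᶜ, ((a e : ℤ) : ZMod n) * bl B w.2 ⟨i, e⟩ = 0 :=
      Finset.sum_eq_zero fun e he => by rw [hw.2.2.1 _ ((hMc e).1 he), mul_zero]
    rw [h1, h2, add_zero, hrel, sub_self]

/-- case (c) -/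
theorem p2_case_c (k1 : S_K1)
    (hinjτ : ∀ e e' p b b', τ e = some (p, b) → τ e' = some (p, b') → e = e')
    (hperf : ¬ ∃ (i : I) (φ : t.E ≃ (B i).E) (b : t.E → Bool), Perfect τ i φ b)
    (hall : ∀ e, τ e ≠ none)
    (hdich : ∀ i, (∀ e, Mtc τ (⟨i, e⟩ : BE B)) ∨ (∀ e, ¬ Mtc τ (⟨i, e⟩ : BE B))) :
    (Nat.card {l : PL t B n // RelP τ l} : ℝ) * Nat.card {l : PL t B n // WP τ l} * n ≤
      2 * Nat.card (PL t B n) := by
  classical
  let R : Finset I := Finset.univ.filter fun i => ∀ e, Mtc τ (⟨i, e⟩ : BE B)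
  have hR : ∀ i, i ∈ R ↔ ∀ e, Mtc τ (⟨i, e⟩ : BE B) := fun i => by simp [R]
  have hmR : ∀ i e, Mtc τ (⟨i, e⟩ : BE B) → i ∈ R := by
    intro i e h
    rw [hR]
    rcases hdich i with h1 | h1
    · exact h1
    · exact absurd h (h1 e)
  obtain ⟨⟨⟨i0, e0⟩, b0⟩, hroot⟩ := Option.ne_none_iff_exists'.1 (hall t.root)
  have hm0 : Mtc τ (⟨i0, e0⟩ : BE B) := ⟨t.root, b0, hroot⟩
  have hi0 : i0 ∈ R := hmR i0 e0 hm0
  let H : PL t B n →+ ZMod n := AddMonoidHom.mk' (fun x =>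
    ((sb b0 : ℤ) : ZMod n) * (bl B x.2 ⟨i0, e0⟩ - p2pm τ (⟨i0, e0⟩ : BE B) x.1) +
      ∑ i ∈ R, (bl B x.2 ⟨i, (B i).root⟩ - p2pm τ (⟨i, (B i).root⟩ : BE B) x.1))
    (by
      intro x y
      simp only [Prod.fst_add, Prod.snd_add, p2pm_add, p2_bl_add, Finset.sum_sub_distrib,
        Finset.sum_add_distrib]
      ring)
  have hHdef : ∀ x, H x = ((sb b0 : ℤ) : ZMod n) *
      (bl B x.2 ⟨i0, e0⟩ - p2pm τ (⟨i0, e0⟩ : BE B) x.1) +
      ∑ i ∈ R, (bl B x.2 ⟨i, (B i).root⟩ - p2pm τ (⟨i, (B i).root⟩ : BE B) x.1) := fun x => rfl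
  have hΦ : ∀ u w, RelP τ u → WP τ w → H (u.1, u.2 + w.2) = 0 := by
    intro u w hu hw
    rw [hHdef]
    simp only [p2_bl_add]
    have h1 : bl B u.2 ⟨i0, e0⟩ + bl B w.2 ⟨i0, e0⟩ - p2pm τ (⟨i0, e0⟩ : BE B) u.1 =
        bl B w.2 ⟨i0, e0⟩ := by
      rw [p2pm_rel τ hu hm0]
      ring
    have h2 : ∑ i ∈ R, (bl B u.2 ⟨i, (B i).root⟩ + bl B w.2 ⟨i, (B i).root⟩ -
        p2pm τ (⟨i, (B i).root⟩ : BE B) u.1) = ∑ i ∈ R, bl B w.2 ⟨i, (B i).root⟩ := by
      refine Finset.sum_congr rfl fun i hi => ?_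
      rw [p2pm_rel τ hu ((hR i).1 hi _)]
      ring
    have h3 : kb B w.2 = ∑ i ∈ R, bl B w.2 ⟨i, (B i).root⟩ := by
      rw [kb]
      symm
      apply Finset.sum_subset (Finset.subset_univ R)
      intro i _ hi
      exact hw.2.2.1 ⟨i, (B i).root⟩ (fun h => hi (hmR i _ h))
    rw [h1, h2, ← h3, ← hw.1 _ _ _ hroot]
    exact hw.2.2.2
  by_cases hother : ∃ i ∈ R, i ≠ i0
  · obtain ⟨i, hi, hne⟩ := hother
    obtain ⟨v⟩ := (B i).nonempty
    refine p2_final τ k1 H (fun z => (0, Pi.single i (Pi.single v z))) 1 one_ne_zero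
      (by norm_num) ?_ (fun u w => (u.1, u.2 + w.2)) hΦ (p2_inj_b τ)
    intro z
    rw [hHdef]
    simp only [p2pm_zero, sub_zero]
    rw [p2_bl_single_ne B (Ne.symm hne), mul_zero, zero_add, Finset.sum_eq_single i]
    · rw [p2_bl_single, (B i).form_root]
    · intro j _ hj
      exact p2_bl_single_ne B hj v z _
    · intro h
      exact absurd hi h
  · push Not at hother
    have hRi : ∀ i ∈ R, i = i0 := hother
    have hcoef : ∀ (v : (B i0).V) (z : ZMod n),
        H ((0, Pi.single i0 (Pi.single v z)) : PL t B n) =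
          ((1 + sb b0 * (B i0).form e0 v : ℤ) : ZMod n) * z := by
      intro v z
      rw [hHdef]
      simp only [p2pm_zero, sub_zero]
      rw [p2_bl_single, Finset.sum_eq_single i0]
      · rw [p2_bl_single, (B i0).form_root]
        push_cast
        ring
      · intro j hj hne
        exact absurd (hRi j hj) hne
      · intro h
        exact absurd hi0 h
    by_cases he0 : e0 = (B i0).root
    · cases hb : b0 with
      | true =>
        obtain ⟨v⟩ := (B i0).nonempty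
        refine p2_final τ k1 H (fun z => (0, Pi.single i0 (Pi.single v z))) 2 two_ne_zero
          (by norm_num) ?_ (fun u w => (u.1, u.2 + w.2)) hΦ (p2_inj_b τ)
        intro z
        rw [hcoef, he0, (B i0).form_root, hb]
        simp only [sb, if_true]
        norm_num
      | false =>
        exfalso
        apply hperf
        -- all partners are in the tree `i0`
        have hp : ∀ e, ∃ (e' : (B i0).E) (b : Bool), τ e = some (⟨i0, e'⟩, b) := by
          intro e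
          obtain ⟨⟨⟨i, e'⟩, b⟩, h⟩ := Option.ne_none_iff_exists'.1 (hall e)
          have hi : i = i0 := hRi i (hmR i e' ⟨e, b, h⟩)
          subst hi
          exact ⟨e', b, h⟩
        choose f b hfb using hp
        have hinj : Function.Injective f := by
          intro e e' h
          refine hinjτ e e' ⟨i0, f e⟩ (b e) (b e') (hfb e) ?_
          rw [h]
          exact hfb e'
        have hsurj : Function.Surjective f := by
          intro e'
          obtain ⟨e, b', h⟩ := (hR i0).1 hi0 e'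
          have h1 := hfb e
          rw [h] at h1
          have h2 := congrArg Prod.fst (Option.some.inj h1)
          have h3 : e' = f e := by
            have h4 : (⟨i0, e'⟩ : BE B) = ⟨i0, f e⟩ := h2
            exact eq_of_heq (Sigma.mk.inj h4).2
          exact ⟨e, h3.symm⟩
        refine ⟨i0, Equiv.ofBijective f ⟨hinj, hsurj⟩, b, ?_, ?_, hfb⟩
        · have h1 := hfb t.root
          rw [hroot] at h1
          have h2 : (⟨i0, e0⟩ : BE B) = ⟨i0, f t.root⟩ := congrArg Prod.fst (Option.some.inj h1)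
          have h3 : e0 = f t.root := eq_of_heq (Sigma.mk.inj h2).2
          rw [Equiv.ofBijective_apply, ← h3, he0]
        · have h1 := hfb t.root
          rw [hroot] at h1
          have h2 : b0 = b t.root := congrArg Prod.snd (Option.some.inj h1)
          rw [← h2, hb]
    · -- a leaf not below `e0`
      have hv : ∃ v, (B i0).form e0 v = 0 := by
        by_contra hno
        push Not at hno
        apply he0
        apply (B i0).form_inj
        intro v
        rw [(B i0).form_root]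
        rcases (B i0).form01 e0 v with h | h
        · exact absurd h (hno v)
        · exact h
      obtain ⟨v, hv⟩ := hv
      refine p2_final τ k1 H (fun z => (0, Pi.single i0 (Pi.single v z))) 1 one_ne_zero
        (by norm_num) ?_ (fun u w => (u.1, u.2 + w.2)) hΦ (p2_inj_b τ)
      intro z
      rw [hcoef, hv, mul_zero, add_zero]

end final

theorem t_P2 (k1 : S_K1) : S_P2 := by
  intro t I _ _ B τ hne hinj hperf n _
  by_cases ha : ∃ e, τ e = none
  · exact p2_case_a τ k1 hne ha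
  · push Not at ha
    by_cases hb : ∃ i, (∃ e, Mtc τ (⟨i, e⟩ : BE B)) ∧ ∃ e, ¬ Mtc τ (⟨i, e⟩ : BE B)
    · obtain ⟨i, h1, h2⟩ := hb
      exact p2_case_b τ k1 i h1 h2
    · push Not at hb
      refine p2_case_c τ k1 hinj hperf ha (fun i => ?_)
      by_cases h : ∃ e, Mtc τ (⟨i, e⟩ : BE B)
      · exact Or.inl (hb i h)
      · push Not at h
        exact Or.inr h

end Pool.Agent.H276R2.Th
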