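import Pool.Agent.H276R2.Th.P5

set_option autoImplicit false
set_option linter.unusedSectionVars false

namespace Pool.Agent.H276R2.Th

open Finset

section

variable {t : Tree} {I : Type} [Fintype I] [DecidableEq I] {B : I → Tree}

/-- glue a labelling of `B i` and of the other trees -/
def p4_glue (i : I) {n : ℕ} (u : (B i).V → ZMod n) (l' : BLab n (rmv B i)) : BLab n B :=
  (Equiv.piSplitAt i (fun j => (B j).V → ZMod n)).symm (u, l')

lemma p4_glue_i (i : I) {n : ℕ} (u : (B i).V → ZMod n) (l' : BLab n (rmv B i)) :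
    p4_glue i u l' i = u := by
  simp [p4_glue]

lemma p4_glue_ne (i j : I) (hj : j ≠ i) {n : ℕ} (u : (B i).V → ZMod n)
    (l' : BLab n (rmv B i)) : p4_glue i u l' j = l' ⟨j, hj⟩ := by
  simp [p4_glue, hj]

lemma p4_bl_i (i : I) {n : ℕ} (u : (B i).V → ZMod n) (l' : BLab n (rmv B i)) (e : (B i).E) :
    bl B (p4_glue i u l') ⟨i, e⟩ = lv (B i) u e := by
  unfold bl
  rw [p4_glue_i]

lemma p4_bl_ne (i j : I) (hj : j ≠ i) {n : ℕ} (u : (B i).V → ZMod n)
    (l' : BLab n (rmv B i)) (e : (B j).E) :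
    bl B (p4_glue i u l') ⟨j, e⟩ = bl (rmv B i) l' ⟨⟨j, hj⟩, e⟩ := by
  unfold bl
  simp only
  rw [p4_glue_ne i j hj]

/-- the conditions on `u` -/
abbrev p4_Ix (B : I → Tree) (i : I) : Type :=
  ((B i).E × (B i).E × Bool) ⊕ (((B i).E × BE (rmv B i) × Bool) ⊕ ((B i).E × Bool))

/-- the homomorphisms -/
def p4_h (i : I) {n : ℕ} : p4_Ix B i → (((B i).V → ZMod n) →+ ZMod n)
  | Sum.inl (e, e', β) => if e = e' then lvH (B i) e else
      if β then lvH (B i) e - lvH (B i) e' else lvH (B i) e + lvH (B i) e'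
  | Sum.inr (Sum.inl (e, _, _)) => lvH (B i) e
  | Sum.inr (Sum.inr (e, β)) => if β then lvH (B i) e else lvH (B i) e + lvH (B i) e

/-- the constants -/
def p4_c (i : I) {n : ℕ} (l' : BLab n (rmv B i)) : p4_Ix B i → ZMod n
  | Sum.inl _ => 0
  | Sum.inr (Sum.inl (_, p, β)) => if β then bl (rmv B i) l' p else -bl (rmv B i) l' p
  | Sum.inr (Sum.inr _) => 0

lemma p4_coef (i : I) {n : ℕ} (k : p4_Ix B i) : ∃ (v : (B i).V) (a : ℤ), a ≠ 0 ∧ |(a : ℝ)| ≤ 2 ∧
    ∀ z : ZMod n, p4_h (B := B) i k (Pi.single v z) = (a : ZMod n) * z := by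
  have hpos : ∀ e : (B i).E, ∃ (v : (B i).V), ∀ z : ZMod n,
      lvH (B i) e (Pi.single v z) = ((1 : ℤ) : ZMod n) * z := by
    intro e
    obtain ⟨v, hv⟩ := (B i).form_pos e
    refine ⟨v, fun z => ?_⟩
    rw [lvH_apply, lv_single, hv]
  rcases k with ⟨e, e', β⟩ | ⟨e, p, β⟩ | ⟨e, β⟩
  · by_cases he : e = e'
    · subst he
      obtain ⟨v, hv⟩ := hpos e
      refine ⟨v, 1, one_ne_zero, by norm_num, fun z => ?_⟩
      simp only [p4_h, if_true]
      exact hv z
    · obtain ⟨v, hv⟩ : ∃ v, (B i).form e v ≠ (B i).form e' v := by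
        by_contra hcon
        push Not at hcon
        exact he ((B i).form_inj e e' hcon)
      cases β with
      | true =>
        refine ⟨v, (B i).form e v - (B i).form e' v, sub_ne_zero.mpr hv, ?_, fun z => ?_⟩
        · rcases (B i).form01 e v with h1 | h1 <;> rcases (B i).form01 e' v with h2 | h2 <;>
            rw [h1, h2] <;> norm_num
        · simp only [p4_h, if_neg he, if_true, AddMonoidHom.sub_apply, lvH_apply, lv_single]
          push_cast
          ring
      | false =>
        refine ⟨v, (B i).form e v + (B i).form e' v, ?_, ?_, fun z => ?_⟩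
        · rcases (B i).form01 e v with h1 | h1 <;> rcases (B i).form01 e' v with h2 | h2 <;>
            rw [h1, h2] at hv ⊢ <;> first | exact absurd rfl hv | norm_num
        · rcases (B i).form01 e v with h1 | h1 <;> rcases (B i).form01 e' v with h2 | h2 <;>
            rw [h1, h2] <;> norm_num
        · simp only [p4_h, if_neg he, Bool.false_eq_true, if_false, AddMonoidHom.add_apply,
            lvH_apply, lv_single]
          push_cast
          ring
  · obtain ⟨v, hv⟩ := hpos e
    exact ⟨v, 1, one_ne_zero, by norm_num, fun z => hv z⟩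
  · obtain ⟨v, hv⟩ := hpos e
    cases β with
    | true =>
      refine ⟨v, 1, one_ne_zero, by norm_num, fun z => ?_⟩
      simp only [p4_h, if_true]
      exact hv z
    | false =>
      refine ⟨v, 2, two_ne_zero, by norm_num, fun z => ?_⟩
      simp only [p4_h, Bool.false_eq_true, if_false, AddMonoidHom.add_apply]
      rw [hv z]
      push_cast
      ring

/-- good `u` -/
lemma p4_good (i : I) {n : ℕ} (u : (B i).V → ZMod n) (l' : BLab n (rmv B i))
    (hl' : Gen (rmv B i) l') (h : ∀ k : p4_Ix B i, p4_h i k u ≠ p4_c i l' k) :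
    Gen B (p4_glue i u l') ∧ ∀ e : (B i).E, lv (B i) u e ≠ -lv (B i) u e := by
  have h0 : ∀ e : (B i).E, lv (B i) u e ≠ 0 := by
    intro e
    have := h (Sum.inr (Sum.inr (e, true)))
    simpa [p4_h, p4_c] using this
  have h2 : ∀ e : (B i).E, lv (B i) u e ≠ -lv (B i) u e := by
    intro e he
    have := h (Sum.inr (Sum.inr (e, false)))
    simp only [p4_h, p4_c, Bool.false_eq_true, if_false, AddMonoidHom.add_apply, lvH_apply] at this
    apply this
    nth_rewrite 1 [he]
    ring
  have h3 : ∀ e e' : (B i).E, e ≠ e' → lv (B i) u e ≠ lv (B i) u e' ∧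
      lv (B i) u e ≠ -lv (B i) u e' := by
    intro e e' he
    have ha := h (Sum.inl (e, e', true))
    have hb := h (Sum.inl (e, e', false))
    simp only [p4_h, p4_c, if_neg he, if_true, Bool.false_eq_true, if_false,
      AddMonoidHom.add_apply, AddMonoidHom.sub_apply, lvH_apply] at ha hb
    exact ⟨fun hh => ha (by rw [hh]; ring), fun hh => hb (by rw [hh]; ring)⟩
  have h4 : ∀ (e : (B i).E) (p : BE (rmv B i)), lv (B i) u e ≠ bl (rmv B i) l' p ∧
      lv (B i) u e ≠ -bl (rmv B i) l' p := by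
    intro e p
    have ha := h (Sum.inr (Sum.inl (e, p, true)))
    have hb := h (Sum.inr (Sum.inl (e, p, false)))
    simp only [p4_h, p4_c, if_true, Bool.false_eq_true, if_false, lvH_apply] at ha hb
    exact ⟨ha, hb⟩
  refine ⟨⟨?_, ?_⟩, h2⟩
  · rintro ⟨j, e⟩
    by_cases hj : j = i
    · subst hj
      rw [p4_bl_i]
      exact h0 e
    · rw [p4_bl_ne i j hj]
      exact hl'.1 _
  · rintro ⟨j, e⟩ ⟨k, e'⟩ hpq
    by_cases hj : j = i
    · subst hj
      by_cases hk : k = j
      · subst hk
        rw [p4_bl_i, p4_bl_i]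
        exact h3 e e' (fun hh => hpq (by rw [hh]))
      · rw [p4_bl_i, p4_bl_ne j k hk]
        exact h4 e _
    · by_cases hk : k = i
      · subst hk
        rw [p4_bl_i, p4_bl_ne k j hj]
        have := h4 e' ⟨⟨j, hj⟩, e⟩
        refine ⟨fun hh => this.1 hh.symm, fun hh => this.2 ?_⟩
        rw [hh]
        ring
      · rw [p4_bl_ne i k hk, p4_bl_ne i j hj]
        apply hl'.2
        rintro heq
        apply hpq
        simp only [Sigma.mk.inj_iff, Subtype.mk.injEq] at heq
        obtain ⟨h1, h2⟩ := heq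
        subst h1
        simp only [heq_eq_eq] at h2
        rw [h2]

/-- the labelling of `t` determined by `u` -/
def p4_L (i : I) (φ : t.E ≃ (B i).E) (b : t.E → Bool) {n : ℕ} (u : (B i).V → ZMod n) :
    t.V → ZMod n := fun v => ((sb (b (t.leaf v)) : ℤ) : ZMod n) * lv (B i) u (φ (t.leaf v))

lemma p4_lab (i : I) (φ : t.E ≃ (B i).E) (b : t.E → Bool) (hiso : IsTIso t (B i) φ b) {n : ℕ}
    (u : (B i).V → ZMod n) (e : t.E) :
    lv t (p4_L i φ b u) e = ((sb (b e) : ℤ) : ZMod n) * lv (B i) u (φ e) := by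
  unfold lv p4_L lv
  simp_rw [Finset.mul_sum]
  rw [Finset.sum_comm]
  refine Finset.sum_congr rfl fun w _ => ?_
  have h2 := congrArg (fun z : ℤ => (z : ZMod n)) (hiso.2.2.2 e w)
  simp only [Int.cast_sum, Int.cast_mul] at h2
  calc _ = (∑ v, ((t.form e v : ℤ) : ZMod n) * (((sb (b (t.leaf v)) : ℤ) : ZMod n) *
        (((B i).form (φ (t.leaf v)) w : ℤ) : ZMod n))) * u w := by
        rw [Finset.sum_mul]
        refine Finset.sum_congr rfl fun v _ => by ring
    _ = _ := by
        rw [h2]
        ring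

variable {τ : Pat t B} {i : I} {φ : t.E ≃ (B i).E} {b : t.E → Bool}

lemma p4_cond (hp : Perfect τ i φ b) (hiso : IsTIso t (B i) φ b) {n : ℕ}
    (u : (B i).V → ZMod n) (l' : BLab n (rmv B i))
    (hl' : Gen (rmv B i) l') (h : ∀ k : p4_Ix B i, p4_h i k u ≠ p4_c i l' k) :
    p45_cond τ ((p4_L i φ b u, p4_glue i u l') : PL t B n) := by
  obtain ⟨hg, h2⟩ := p4_good i u l' hl' h
  have hsb : ∀ β : Bool, ((sb β : ℤ) : ZMod n) = 1 ∨ ((sb β : ℤ) : ZMod n) = -1 := by
    intro β
    cases β <;> simp [sb]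
  refine ⟨⟨?_, ?_⟩, hg, ?_, ?_, ?_⟩
  · intro e
    simp only
    rw [p4_lab i φ b hiso]
    have h3 := hg.1 ⟨i, φ e⟩
    rw [p4_bl_i] at h3
    rcases hsb (b e) with hs | hs <;> rw [hs]
    · rwa [one_mul]
    · rw [neg_one_mul]
      exact neg_ne_zero.mpr h3
  · intro e e' hne
    simp only
    rw [p4_lab i φ b hiso, p4_lab i φ b hiso]
    have h3 := hg.2 ⟨i, φ e⟩ ⟨i, φ e'⟩ (by
      intro hh
      simp only [Sigma.mk.inj_iff, heq_eq_eq, true_and] at hh
      exact hne (φ.injective hh))
    rw [p4_bl_i, p4_bl_i] at h3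
    have h3b : -lv (B i) u (φ e) ≠ lv (B i) u (φ e') := by
      intro hh
      apply h3.2
      rw [← hh]
      ring
    have h3c : -lv (B i) u (φ e) ≠ -lv (B i) u (φ e') := by
      intro hh
      exact h3.1 (neg_injective hh)
    rcases hsb (b e) with hs | hs <;> rcases hsb (b e') with hs' | hs' <;> rw [hs, hs'] <;>
      simp only [one_mul, neg_mul, neg_neg]
    · exact h3
    · exact ⟨h3.2, h3.1⟩
    · exact ⟨h3b, h3c⟩
    · exact ⟨h3c, h3b⟩
  · intro e he
    rw [hp.2.2 e] at he
    exact absurd he (by simp)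
  · intro e p he
    rw [hp.2.2 e] at he
    simp only [Option.some.injEq, Prod.mk.injEq] at he
    obtain ⟨he1, he2⟩ := he
    subst he1
    simp only
    rw [p4_lab i φ b hiso, he2, p4_bl_i]
    simp [sb]
  · intro e p he
    rw [hp.2.2 e] at he
    simp only [Option.some.injEq, Prod.mk.injEq] at he
    obtain ⟨he1, he2⟩ := he
    subst he1
    simp only
    rw [p4_lab i φ b hiso, he2, p4_bl_i]
    have h5 := h2 (φ e)
    constructor
    · simp [sb]
    · intro hh
      apply h5
      simp only [sb, Bool.false_eq_true, if_false] at hh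
      push_cast at hh
      rw [neg_one_mul] at hh
      exact hh.symm

lemma p4_N_le (hp : Perfect τ i φ b) (n : ℕ) [NeZero n] (l' : BLab n (rmv B i)) :
    p45_N τ i l' ≤ n ^ Fintype.card (B i).V := by
  classical
  unfold p45_N
  have h0 : n ^ Fintype.card (B i).V = Fintype.card ((B i).V → ZMod n) := by
    rw [Fintype.card_fun, ZMod.card]
  rw [h0, ← Fintype.card_coe]
  refine Fintype.card_le_of_injective (fun l => l.1.2 i) ?_
  intro l m h
  simp only at h
  have hl := (Finset.mem_filter.mp l.2).2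
  have hm := (Finset.mem_filter.mp m.2).2
  apply Subtype.ext
  apply Prod.ext
  · funext v
    have h1 := p45_rel hp l.1 hl.1.2.2 (t.leaf v)
    have h2 := p45_rel hp m.1 hm.1.2.2 (t.leaf v)
    rw [lv_leaf] at h1 h2
    rw [h1, h2, h]
  · funext j
    by_cases hj : j = i
    · subst hj
      exact h
    · have h3 := congrFun (hl.2.trans hm.2.symm) ⟨j, hj⟩
      exact h3

/-- The number of `u` satisfying a condition. -/
lemma p4_count (k1 : S_K1) (n : ℕ) [NeZero n] (l' : BLab n (rmv B i)) (k : p4_Ix B i) :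
    open Classical in
    ((Finset.univ.filter fun u : (B i).V → ZMod n => p4_h i k u = p4_c i l' k).card : ℝ) * n ≤
      2 * (n : ℝ) ^ Fintype.card (B i).V := by
  classical
  obtain ⟨v, a, ha, ha2, hz⟩ := p4_coef (B := B) i (n := n) k
  have h1 := k1 n ((B i).V → ZMod n) (p4_h i k) (fun z => Pi.single v z) a ha hz (p4_c i l' k)
  have h2 : (Nat.card ((B i).V → ZMod n) : ℝ) = (n : ℝ) ^ Fintype.card (B i).V := by
    rw [Nat.card_eq_fintype_card, Fintype.card_fun, ZMod.card]
    push_cast
    rfl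
  have h3 : (Finset.univ.filter fun u : (B i).V → ZMod n => p4_h i k u = p4_c i l' k).card =
      Nat.card {l : (B i).V → ZMod n // p4_h i k l = p4_c i l' k} := by
    rw [Nat.card_eq_fintype_card, Fintype.card_subtype]
  rw [h3]
  refine h1.trans ?_
  rw [h2]
  gcongr

lemma p4_N_ge (k1 : S_K1) (hp : Perfect τ i φ b) (hiso : IsTIso t (B i) φ b) (n : ℕ) [NeZero n]
    (l' : BLab n (rmv B i)) (hl' : Gen (rmv B i) l') :
    ((n : ℝ) ^ Fintype.card (B i).V - p45_N τ i l') * n ≤
      (Fintype.card (p4_Ix B i) * 2) * (n : ℝ) ^ Fintype.card (B i).V := by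
  classical
  set bad : Finset ((B i).V → ZMod n) := (Finset.univ : Finset (p4_Ix B i)).biUnion fun k =>
    Finset.univ.filter fun u => p4_h i k u = p4_c i l' k with hbad
  have h1 : badᶜ.card ≤ p45_N τ i l' := by
    unfold p45_N
    refine Finset.card_le_card_of_injOn (fun u => ((p4_L i φ b u, p4_glue i u l') : PL t B n)) ?_ ?_
    · intro u hu
      have hu' : u ∉ bad := by
        have := Finset.mem_coe.mp hu
        exact Finset.mem_compl.mp this
      have h2 : ∀ k : p4_Ix B i, p4_h i k u ≠ p4_c i l' k := by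
        intro k hk
        apply hu'
        rw [hbad, Finset.mem_biUnion]
        exact ⟨k, Finset.mem_univ _, Finset.mem_filter.mpr ⟨Finset.mem_univ _, hk⟩⟩
      simp only [Finset.coe_filter, Finset.mem_univ, true_and, Set.mem_ofPred_eq]
      refine ⟨p4_cond hp hiso u l' hl' h2, ?_⟩
      funext j
      exact p4_glue_ne i j.1 j.2 u l'
    · intro u _ w _ h
      simp only [Prod.mk.injEq] at h
      have := congrFun h.2 i
      rwa [p4_glue_i, p4_glue_i] at this
  have h2 : (bad.card : ℝ) * n ≤ (Fintype.card (p4_Ix B i) * 2) * (n : ℝ) ^ Fintype.card (B i).V := by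
    have h3 : (bad.card : ℝ) ≤ ∑ k : p4_Ix B i,
        ((Finset.univ.filter fun u : (B i).V → ZMod n => p4_h i k u = p4_c i l' k).card : ℝ) := by
      have := Finset.card_biUnion_le (s := (Finset.univ : Finset (p4_Ix B i)))
        (t := fun k => Finset.univ.filter fun u : (B i).V → ZMod n => p4_h i k u = p4_c i l' k)
      exact_mod_cast this
    calc (bad.card : ℝ) * n ≤ (∑ k : p4_Ix B i,
        ((Finset.univ.filter fun u : (B i).V → ZMod n => p4_h i k u = p4_c i l' k).card : ℝ)) * n := by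
          gcongr
      _ = ∑ k : p4_Ix B i, ((Finset.univ.filter fun u : (B i).V → ZMod n =>
            p4_h i k u = p4_c i l' k).card : ℝ) * n := Finset.sum_mul _ _ _
      _ ≤ ∑ k : p4_Ix B i, 2 * (n : ℝ) ^ Fintype.card (B i).V := by
          refine Finset.sum_le_sum fun k _ => ?_
          convert p4_count k1 n l' k
      _ = _ := by
          rw [Finset.sum_const, Finset.card_univ, nsmul_eq_mul]
          ring
  have h3 : (n : ℝ) ^ Fintype.card (B i).V = badᶜ.card + bad.card := by
    have h4 : badᶜ.card + bad.card = n ^ Fintype.card (B i).V := by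
      rw [Finset.card_compl, Fintype.card_fun, ZMod.card]
      have : bad.card ≤ n ^ Fintype.card (B i).V := by
        calc bad.card ≤ (Finset.univ : Finset ((B i).V → ZMod n)).card :=
              Finset.card_le_card (Finset.subset_univ _)
          _ = _ := by rw [Finset.card_univ, Fintype.card_fun, ZMod.card]
      omega
    exact_mod_cast h4.symm
  have h4 : ((n : ℝ) ^ Fintype.card (B i).V - p45_N τ i l') ≤ bad.card := by
    rw [h3]
    have : (badᶜ.card : ℝ) ≤ p45_N τ i l' := by exact_mod_cast h1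
    linarith
  calc ((n : ℝ) ^ Fintype.card (B i).V - p45_N τ i l') * n ≤ bad.card * n := by gcongr
    _ ≤ _ := h2

end

lemma p4_F (n : ℕ) [NeZero n] {I : Type} [Fintype I] [DecidableEq I] (B : I → Tree)
    (A : Finset ℕ) (x : ZMod n) :
    open Classical in
    F n B A x = (∑ l : BLab n B, if Gen B l then
      (((∏ p, sg A (bl B l p) : ℝ) : ℂ) * ch n (kb B l * x)) else 0) /
      (Real.sqrt n : ℂ) ^ nb B := by
  classical
  unfold F
  congr! 2
  ext y
  simp

theorem t_P4 (m3 : S_M3) (k1 : S_K1) : S_P4 := by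
  classical
  intro t I _ _ B τ i φ b hp hiso
  obtain ⟨K, hK⟩ : ∃ K, K = p45_K (rmv B i) := ⟨_, rfl⟩
  have hK0 : 0 ≤ K := by rw [hK]; exact p45_K_nonneg _
  set c : ℝ := Fintype.card (p4_Ix B i) * 2 with hc
  have hc0 : 0 ≤ c := by rw [hc]; positivity
  refine ⟨K * c ^ 2, ?_⟩
  intro n _
  have hn : (1 : ℝ) ≤ n := by exact_mod_cast Nat.pos_of_ne_zero (NeZero.ne n)
  have hm : Fintype.card t.V = Fintype.card (B i).V := hiso.2.2.1
  have hnm : (0 : ℝ) < (n : ℝ) ^ Fintype.card (B i).V := by positivity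
  have hbd : ∀ x : ZMod n, Ex n (fun A => ‖PT n τ A x - F n (fun j : {j : I // j ≠ i} => B j) A x‖ ^ 2) ≤
      K * c ^ 2 / n := by
    intro x
    have h1 := p45_m3 m3 n (rmv B i) (c / n)
      (fun l' => (p45_N τ i l' : ℝ) / (n : ℝ) ^ Fintype.card (B i).V - 1) (by
      intro l hl
      have ha := p4_N_ge k1 hp hiso n l hl
      have hb : (p45_N τ i l : ℝ) ≤ (n : ℝ) ^ Fintype.card (B i).V := by
        exact_mod_cast p4_N_le hp n l
      have h2 : (p45_N τ i l : ℝ) / (n : ℝ) ^ Fintype.card (B i).V - 1 =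
        -(((n : ℝ) ^ Fintype.card (B i).V - p45_N τ i l) / (n : ℝ) ^ Fintype.card (B i).V) := by
        field_simp
        ring
      rw [h2, abs_neg, abs_of_nonneg (by
        apply div_nonneg _ hnm.le
        linarith)]
      rw [div_le_div_iff₀ hnm (by linarith)]
      exact ha) x
    have h2 : ∀ A : Finset ℕ, ‖PT n τ A x - F n (fun j : {j : I // j ≠ i} => B j) A x‖ ^ 2 =
        ((n : ℝ) ^ nb (rmv B i))⁻¹ *
        ‖(∑ l : BLab n (rmv B i), if Gen (rmv B i) l then
      ((((p45_N τ i l : ℝ) / (n : ℝ) ^ Fintype.card (B i).V - 1 : ℝ)) : ℂ) *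
        (((∏ p, sg A (bl (rmv B i) l p) : ℝ) : ℂ) * ch n (kb (rmv B i) l * x)) else 0)‖ ^ 2 := by
      intro A
      have h3 : PT n τ A x - F n (fun j : {j : I // j ≠ i} => B j) A x =
          (∑ l : BLab n (rmv B i), if Gen (rmv B i) l then
      ((((p45_N τ i l : ℝ) / (n : ℝ) ^ Fintype.card (B i).V - 1 : ℝ)) : ℂ) *
        (((∏ p, sg A (bl (rmv B i) l p) : ℝ) : ℂ) * ch n (kb (rmv B i) l * x)) else 0) /
        (Real.sqrt n : ℂ) ^ nb (rmv B i) := by
        rw [p45_pt hp, p4_F n (fun j : {j : I // j ≠ i} => B j), p45_nb i, hm, ← add_assoc, pow_add]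
        have hs : (Real.sqrt n : ℂ) ^ (Fintype.card (B i).V + Fintype.card (B i).V) =
            (n : ℂ) ^ Fintype.card (B i).V := by
          rw [← two_mul, pow_mul]
          congr 1
          rw [← Complex.ofReal_pow, Real.sq_sqrt (Nat.cast_nonneg n)]
          simp
        rw [hs, ← div_div, ← sub_div]
        congr 1
        have hn0 : ((n : ℂ) ^ Fintype.card (B i).V) ≠ 0 := by
          apply pow_ne_zero
          exact_mod_cast (NeZero.ne n)
        rw [Finset.sum_div, ← Finset.sum_sub_distrib]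
        refine Finset.sum_congr rfl fun l _ => ?_
        by_cases hg : Gen (rmv B i) l
        · rw [if_pos hg, if_pos hg]
          have hg' : Gen (fun j : {j : I // j ≠ i} => B j) l := hg
          rw [if_pos hg']
          push_cast
          field_simp
        · rw [if_neg hg, if_neg hg]
          have hg' : ¬ Gen (fun j : {j : I // j ≠ i} => B j) l := hg
          rw [if_neg hg']
          simp
      rw [h3, norm_div, div_pow, p5_sqrt_pow, div_eq_inv_mul]
    simp only [h2]
    rw [Ex_mul]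
    rw [← hK] at h1
    have h4 := mul_le_mul_of_nonneg_left h1
      (show 0 ≤ ((n : ℝ) ^ nb (rmv B i))⁻¹ by positivity)
    refine h4.trans ?_
    calc ((n : ℝ) ^ nb (rmv B i))⁻¹ * (K * (c / n) ^ 2 * (n : ℝ) ^ nb (rmv B i))
        = K * c ^ 2 / n * (1 / n) := by field_simp
      _ ≤ K * c ^ 2 / n * 1 := by
          apply mul_le_mul_of_nonneg_left _ (by positivity)
          rw [div_le_one (by linarith)]
          exact hn
      _ = _ := mul_one _
  calc ∑ x : ZMod n, Ex n (fun A => ‖PT n τ A x - F n (fun j : {j : I // j ≠ i} => B j) A x‖ ^ 2)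
      ≤ ∑ x : ZMod n, K * c ^ 2 / n :=
        Finset.sum_le_sum fun x _ => hbd x
    _ = K * c ^ 2 := by
        rw [Finset.sum_const, Finset.card_univ, ZMod.card, nsmul_eq_mul]
        have : (n : ℝ) ≠ 0 := by linarith
        field_simp

end Pool.Agent.H276R2.Th
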