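import Pool.Agent.H276R2.Th.P45

set_option autoImplicit false
set_option linter.unusedSectionVars false

namespace Pool.Agent.H276R2.Th

open Finset

lemma p5_N_le {t : Tree} {I : Type} [Fintype I] [DecidableEq I] {B : I → Tree}
    {τ : Pat t B} {i : I} {φ : t.E ≃ (B i).E} {b : t.E → Bool} (hp : Perfect τ i φ b)
    (n : ℕ) [NeZero n] (l' : BLab n (rmv B i)) :
    p45_N τ i l' ≤ Nat.card {l : (t.V → ZMod n) × ((B i).V → ZMod n) //
      ∀ e, lv t l.1 e = ((sb (b e) : ℤ) : ZMod n) * lv (B i) l.2 (φ e)} := by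
  classical
  unfold p45_N
  rw [← Fintype.card_coe, ← Nat.card_eq_fintype_card]
  refine Nat.card_le_card_of_injective (fun l => ⟨(l.1.1, l.1.2 i), ?_⟩) ?_
  · intro e
    have := (Finset.mem_filter.mp l.2).2
    exact p45_rel hp l.1 this.1.2.2 e
  · intro l m h
    simp only [Subtype.mk.injEq, Prod.mk.injEq] at h
    apply Subtype.ext
    apply Prod.ext h.1
    funext j
    by_cases hj : j = i
    · subst hj
      exact h.2
    · have h1 := (Finset.mem_filter.mp l.2).2.2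
      have h2 := (Finset.mem_filter.mp m.2).2.2
      have h3 := congrFun (h1.trans h2.symm) ⟨j, hj⟩
      exact h3

lemma p5_sqrt_pow (n : ℕ) [NeZero n] (k : ℕ) : ‖(Real.sqrt n : ℂ) ^ k‖ ^ 2 = (n : ℝ) ^ k := by
  rw [norm_pow, Complex.norm_real, Real.norm_eq_abs, ← pow_mul, mul_comm k 2, pow_mul, sq_abs,
    Real.sq_sqrt (Nat.cast_nonneg n)]

theorem t_P5 (m3 : S_M3) (p5a : S_P5a) : S_P5 := by
  classical
  intro t I _ _ B τ i φ b hp hiso
  obtain ⟨C, hC⟩ := p5a t (B i) φ b hp.1 hp.2.1 hiso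
  obtain ⟨K, hK⟩ : ∃ K, K = p45_K (rmv B i) := ⟨_, rfl⟩
  refine ⟨K * C, ?_⟩
  intro n _
  have hn : (0 : ℝ) < n := by exact_mod_cast Nat.pos_of_ne_zero (NeZero.ne n)
  set X : ℝ := ((Nat.card {l : (t.V → ZMod n) × ((B i).V → ZMod n) //
      ∀ e, lv t l.1 e = ((sb (b e) : ℤ) : ZMod n) * lv (B i) l.2 (φ e)} : ℕ) : ℝ) with hX
  have hbd : ∀ x : ZMod n, Ex n (fun A => ‖PT n τ A x‖ ^ 2) ≤ K * C / n := by
    intro x
    have h1 := p45_m3 m3 n (rmv B i) X (fun l' => (p45_N τ i l' : ℝ)) (by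
      intro l _
      rw [abs_of_nonneg (Nat.cast_nonneg _), hX]
      exact Nat.cast_le.mpr (p5_N_le hp n l)) x
    have h2 : ∀ A : Finset ℕ, ‖PT n τ A x‖ ^ 2 = ((n : ℝ) ^ (Fintype.card t.V + nb B))⁻¹ *
        ‖(∑ l : BLab n (rmv B i), if Gen (rmv B i) l then
      (((p45_N τ i l : ℝ)) : ℂ) * (((∏ p, sg A (bl (rmv B i) l p) : ℝ) : ℂ) * ch n (kb (rmv B i) l * x)) else 0)‖ ^ 2 := by
      intro A
      rw [p45_pt hp, norm_div, div_pow, p5_sqrt_pow, div_eq_inv_mul]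
      norm_cast
    simp only [h2]
    rw [Ex_mul]
    have h3 := hC n
    rw [← hX] at h3
    rw [← hK] at h1
    have h4 := mul_le_mul_of_nonneg_left h1
      (show 0 ≤ ((n : ℝ) ^ (Fintype.card t.V + nb B))⁻¹ by positivity)
    refine h4.trans ?_
    have hK0 : 0 ≤ K := by rw [hK]; exact p45_K_nonneg _
    clear_value X
    calc ((n : ℝ) ^ (Fintype.card t.V + nb B))⁻¹ * (K * X ^ 2 * (n : ℝ) ^ nb (rmv B i)) = K * (X ^ 2 * n) / (n * (n : ℝ) ^ (Fintype.card t.V + Fintype.card (B i).V)) := by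
          rw [p45_nb i, ← add_assoc, pow_add _ (_ + _)]
          field_simp
      _ ≤ K * (C * n ^ (Fintype.card t.V + Fintype.card (B i).V)) /
          (n * (n : ℝ) ^ (Fintype.card t.V + Fintype.card (B i).V)) := by
          gcongr
      _ = K * C / n := by
          field_simp
  calc ∑ x : ZMod n, Ex n (fun A => ‖PT n τ A x‖ ^ 2) ≤ ∑ x : ZMod n, K * C / n :=
        Finset.sum_le_sum fun x _ => hbd x
    _ = K * C := by
        rw [Finset.sum_const, Finset.card_univ, ZMod.card, nsmul_eq_mul]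
        field_simp

end Pool.Agent.H276R2.Th
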