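import Pool.Agent.H276R2.Th.Spec

set_option autoImplicit false

namespace Pool.Agent.H276R2.Th

open Finset

/-- the pairs of labellings in the statement P5a -/
abbrev p5a_X (t t' : Tree) (φ : t.E ≃ t'.E) (b : t.E → Bool) (n : ℕ) : Type :=
  {l : (t.V → ZMod n) × (t'.V → ZMod n) //
    ∀ e, lv t l.1 e = ((sb (b e) : ℤ) : ZMod n) * lv t' l.2 (φ e)}

theorem p5a_sb_sq (x : Bool) (n : ℕ) : ((sb x : ℤ) : ZMod n) * ((sb x : ℤ) : ZMod n) = 1 := by
  cases x <;> simp [sb]

theorem p5a_leaf {n : ℕ} (t : Tree) (l : t.V → ZMod n) (v : t.V) : lv t l (t.leaf v) = l v := by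
  unfold lv
  rw [Finset.sum_eq_single v]
  · rw [t.form_leaf]; simp
  · intro w _ hw
    rw [t.form_leaf, if_neg hw]; simp
  · intro h; exact absurd (Finset.mem_univ _) h

section
variable (t t' : Tree) (φ : t.E ≃ t'.E) (b : t.E → Bool) (n : ℕ)

theorem p5a_inj2 : Function.Injective (fun l : p5a_X t t' φ b n => l.1.2) := by
  rintro ⟨⟨l1, l2⟩, hl⟩ ⟨⟨k1, k2⟩, hk⟩ h
  have h2 : l2 = k2 := h
  subst h2
  have h1 : l1 = k1 := by
    funext v
    rw [← p5a_leaf t l1 v, ← p5a_leaf t k1 v, hl (t.leaf v), hk (t.leaf v)]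
  subst h1
  rfl

theorem p5a_inj1 : Function.Injective (fun l : p5a_X t t' φ b n => l.1.1) := by
  rintro ⟨⟨l1, l2⟩, hl⟩ ⟨⟨k1, k2⟩, hk⟩ h
  have h2 : l1 = k1 := h
  subst h2
  have key : ∀ m2 : t'.V → ZMod n, (∀ e, lv t l1 e = ((sb (b e) : ℤ) : ZMod n) * lv t' m2 (φ e)) →
      ∀ w, m2 w = ((sb (b (φ.symm (t'.leaf w))) : ℤ) : ZMod n) * lv t l1 (φ.symm (t'.leaf w)) := by
    intro m2 hm w
    rw [hm, ← mul_assoc, p5a_sb_sq, one_mul, Equiv.apply_symm_apply, p5a_leaf]
  have h1 : l2 = k2 := by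
    funext w
    rw [key l2 hl w, key k2 hk w]
  subst h1
  rfl

theorem p5a_card2 [NeZero n] : Nat.card (p5a_X t t' φ b n) ≤ n ^ Fintype.card t'.V := by
  have h := Nat.card_le_card_of_injective _ (p5a_inj2 t t' φ b n)
  rwa [Nat.card_eq_fintype_card (α := t'.V → ZMod n), Fintype.card_fun, ZMod.card] at h

theorem p5a_card1 [NeZero n] : Nat.card (p5a_X t t' φ b n) ≤ n ^ Fintype.card t.V := by
  have h := Nat.card_le_card_of_injective _ (p5a_inj1 t t' φ b n)
  rwa [Nat.card_eq_fintype_card (α := t.V → ZMod n), Fintype.card_fun, ZMod.card] at h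

/-- the linear relation -/
theorem p5a_rel (l : p5a_X t t' φ b n) (e : t.E) :
    ∑ w, (((∑ v, t.form e v * (sb (b (t.leaf v)) * t'.form (φ (t.leaf v)) w)) -
      sb (b e) * t'.form (φ e) w : ℤ) : ZMod n) * l.1.2 w = 0 := by
  obtain ⟨⟨l1, l2⟩, hl⟩ := l
  simp only at hl ⊢
  have h1 : lv t l1 e = ∑ w, ((∑ v, t.form e v * (sb (b (t.leaf v)) * t'.form (φ (t.leaf v)) w) : ℤ)
      : ZMod n) * l2 w := by
    have h2 : lv t l1 e = ∑ v, ((t.form e v : ℤ) : ZMod n) * (((sb (b (t.leaf v)) : ℤ) : ZMod n) *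
        lv t' l2 (φ (t.leaf v))) := by
      unfold lv
      refine Finset.sum_congr rfl fun v _ => ?_
      rw [← p5a_leaf t l1 v, hl (t.leaf v)]
      rfl
    rw [h2]
    have h3 : ∀ v, ((t.form e v : ℤ) : ZMod n) * (((sb (b (t.leaf v)) : ℤ) : ZMod n) *
        lv t' l2 (φ (t.leaf v))) = ∑ w, ((t.form e v * (sb (b (t.leaf v)) *
          t'.form (φ (t.leaf v)) w) : ℤ) : ZMod n) * l2 w := by
      intro v
      unfold lv
      rw [Finset.mul_sum, Finset.mul_sum]
      refine Finset.sum_congr rfl fun w _ => ?_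
      push_cast
      ring
    rw [Finset.sum_congr rfl fun v _ => h3 v, Finset.sum_comm]
    refine Finset.sum_congr rfl fun w _ => ?_
    rw [← Finset.sum_mul]
    push_cast
    rfl
  have h4 : lv t l1 e = ∑ w, ((sb (b e) * t'.form (φ e) w : ℤ) : ZMod n) * l2 w := by
    rw [hl e]
    unfold lv
    rw [Finset.mul_sum]
    refine Finset.sum_congr rfl fun w _ => ?_
    push_cast
    ring
  have h5 : ∑ w, (((∑ v, t.form e v * (sb (b (t.leaf v)) * t'.form (φ (t.leaf v)) w)) -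
      sb (b e) * t'.form (φ e) w : ℤ) : ZMod n) * l2 w =
      (∑ w, ((∑ v, t.form e v * (sb (b (t.leaf v)) * t'.form (φ (t.leaf v)) w) : ℤ)
      : ZMod n) * l2 w) - ∑ w, ((sb (b e) * t'.form (φ e) w : ℤ) : ZMod n) * l2 w := by
    rw [← Finset.sum_sub_distrib]
    refine Finset.sum_congr rfl fun w _ => ?_
    rw [Int.cast_sub, sub_mul]
  rw [h5, ← h1, ← h4, sub_self]

end

theorem t_P5a (k1 : S_K1) : S_P5a := by
  classical
  intro t t' φ b hroot hb hiso
  by_cases hc : Fintype.card t.V = Fintype.card t'.V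
  · -- equal numbers of leaves
    have hne : ∃ e w, ∑ v, t.form e v * (sb (b (t.leaf v)) * t'.form (φ (t.leaf v)) w) ≠
        sb (b e) * t'.form (φ e) w := by
      by_contra hcon
      push Not at hcon
      exact hiso ⟨hroot, hb, hc, hcon⟩
    obtain ⟨e, w, hew⟩ := hne
    set f : t'.V → ℤ := fun w => (∑ v, t.form e v * (sb (b (t.leaf v)) *
      t'.form (φ (t.leaf v)) w)) - sb (b e) * t'.form (φ e) w with hf
    have hfw : f w ≠ 0 := sub_ne_zero.2 hew
    refine ⟨|(f w : ℝ)|, fun n _ => ?_⟩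
    set h : (t'.V → ZMod n) →+ ZMod n :=
      { toFun := fun l => ∑ w, ((f w : ℤ) : ZMod n) * l w
        map_zero' := by simp
        map_add' := fun x y => by
          rw [← Finset.sum_add_distrib]
          exact Finset.sum_congr rfl fun w _ => by rw [Pi.add_apply, mul_add] } with hh
    have hk := k1 n (t'.V → ZMod n) h (fun z => Pi.single w z) (f w) hfw (by
      intro z
      show ∑ w', ((f w' : ℤ) : ZMod n) * (Pi.single w z : t'.V → ZMod n) w' = _
      rw [Finset.sum_eq_single w]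
      · rw [Pi.single_eq_same]
      · intro w' _ hw'
        rw [Pi.single_eq_of_ne hw', mul_zero]
      · intro h; exact absurd (Finset.mem_univ _) h) 0
    have hcard : Nat.card (p5a_X t t' φ b n) ≤ Nat.card {l : t'.V → ZMod n // h l = 0} := by
      apply Nat.card_le_card_of_injective
        (fun l : p5a_X t t' φ b n => (⟨l.1.2, p5a_rel t t' φ b n l e⟩ : {l : t'.V → ZMod n // h l = 0}))
      intro x y hxy
      exact p5a_inj2 t t' φ b n (congrArg Subtype.val hxy)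
    have hc2 := p5a_card2 t t' φ b n
    rw [Nat.card_eq_fintype_card (α := t'.V → ZMod n), Fintype.card_fun, ZMod.card] at hk
    have hcard' : (Nat.card (p5a_X t t' φ b n) : ℝ) ≤
        (Nat.card {l : t'.V → ZMod n // h l = 0} : ℝ) := by exact_mod_cast hcard
    have hc2' : (Nat.card (p5a_X t t' φ b n) : ℝ) ≤ (n : ℝ) ^ Fintype.card t'.V := by
      exact_mod_cast hc2
    have hn0 : (0 : ℝ) ≤ n := Nat.cast_nonneg n
    have h6 : (Nat.card (p5a_X t t' φ b n) : ℝ) * n ≤ |(f w : ℝ)| * (n : ℝ) ^ Fintype.card t'.V := by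
      refine (mul_le_mul_of_nonneg_right hcard' hn0).trans ?_
      exact_mod_cast hk
    have h7 : (0 : ℝ) ≤ (Nat.card (p5a_X t t' φ b n) : ℝ) := Nat.cast_nonneg _
    show (Nat.card (p5a_X t t' φ b n) : ℝ) ^ 2 * n ≤ _
    calc (Nat.card (p5a_X t t' φ b n) : ℝ) ^ 2 * n
        = (Nat.card (p5a_X t t' φ b n) : ℝ) * ((Nat.card (p5a_X t t' φ b n) : ℝ) * n) := by ring
      _ ≤ (n : ℝ) ^ Fintype.card t'.V * (|(f w : ℝ)| * (n : ℝ) ^ Fintype.card t'.V) :=
          mul_le_mul hc2' h6 (by positivity) (by positivity)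
      _ = |(f w : ℝ)| * (n : ℝ) ^ (Fintype.card t.V + Fintype.card t'.V) := by
          rw [hc, pow_add]; ring
  · refine ⟨1, fun n _ => ?_⟩
    have hc1 := p5a_card1 t t' φ b n
    have hc2 := p5a_card2 t t' φ b n
    have hn1 : 1 ≤ n := Nat.one_le_iff_ne_zero.2 (NeZero.ne n)
    show (Nat.card (p5a_X t t' φ b n) : ℝ) ^ 2 * n ≤ _
    rw [one_mul]
    have h3 : Nat.card (p5a_X t t' φ b n) ^ 2 * n ≤ n ^ (Fintype.card t.V + Fintype.card t'.V) := by
      rcases lt_or_gt_of_ne hc with hlt | hgt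
      · calc Nat.card (p5a_X t t' φ b n) ^ 2 * n ≤ (n ^ Fintype.card t.V) ^ 2 * n :=
            Nat.mul_le_mul_right _ (Nat.pow_le_pow_left hc1 2)
          _ = n ^ (2 * Fintype.card t.V + 1) := by rw [← pow_mul, ← pow_succ]; congr 1; ring
          _ ≤ _ := Nat.pow_le_pow_right hn1 (by omega)
      · calc Nat.card (p5a_X t t' φ b n) ^ 2 * n ≤ (n ^ Fintype.card t'.V) ^ 2 * n :=
            Nat.mul_le_mul_right _ (Nat.pow_le_pow_left hc2 2)
          _ = n ^ (2 * Fintype.card t'.V + 1) := by rw [← pow_mul, ← pow_succ]; congr 1; ring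
          _ ≤ _ := Nat.pow_le_pow_right hn1 (by omega)
    exact_mod_cast h3

end Pool.Agent.H276R2.Th
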