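import Pool.Agent.H276R2.Th.Spec

set_option autoImplicit false

namespace Pool.Agent.H276R2.Th

open Finset

/-- The pattern given by an isomorphism. -/
def pr_pat (t : Tree) {I : Type} (B : I → Tree) (s : Σ i, TIso t (B i)) : Pat t B :=
  fun e => some (⟨s.1, s.2.1.1 e⟩, s.2.1.2 e)

theorem pr_pat_inj (t : Tree) {I : Type} (B : I → Tree) :
    Function.Injective (pr_pat t B) := by
  rintro ⟨i, ⟨φ, b⟩, h⟩ ⟨j, ⟨φ', b'⟩, h'⟩ hs
  have h0 := congrFun hs t.root
  simp only [pr_pat, Option.some.injEq, Prod.mk.injEq] at h0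
  have hij : i = j := (Sigma.mk.inj h0.1).1
  subst hij
  have h1 : φ = φ' := by
    ext e
    have h2 := congrFun hs e
    simp only [pr_pat, Option.some.injEq, Prod.mk.injEq] at h2
    exact eq_of_heq (Sigma.mk.inj h2.1).2
  have h3 : b = b' := by
    funext e
    have h2 := congrFun hs e
    simp only [pr_pat, Option.some.injEq, Prod.mk.injEq] at h2
    exact h2.2
  subst h1 h3
  rfl

theorem pr_pat_none (t : Tree) {I : Type} (B : I → Tree) (s : Σ i, TIso t (B i)) :
    (fun _ => none : Pat t B) ≠ pr_pat t B s := by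
  intro h
  have := congrFun h t.root
  simp [pr_pat] at this

theorem t_PR (p1 : S_P1) (p3 : S_P3) (p4 : S_P4) (p5 : S_P5) : S_PR := by
  classical
  intro t I _ _ B
  have hfin : ∀ i, Finite (TIso t (B i)) := fun i => by unfold TIso; infer_instance
  have hfin' : ∀ i, Fintype (TIso t (B i)) := fun i => Fintype.ofFinite _
  set g : Pat t B → Fam := fun τ n _ A x =>
    (if τ = fun _ => none then F n (optB t B) A x else 0) +
      ∑ s : Σ i, TIso t (B i), if τ = pr_pat t B s then
        F n (fun j : {j : I // j ≠ s.1} => B j) A x else 0 with hg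
  have key : ∀ τ : Pat t B, O1 (fun n _ A x => PT n τ A x - g τ n A x) := by
    intro τ
    by_cases hτ : τ = fun _ => none
    · subst hτ
      refine O1_congr (f := fun _ _ _ _ => 0) ?_ O1_zero
      intro n _ A x _
      rw [(p1 t I B n A x).2, hg]
      simp only
      rw [if_pos trivial, Finset.sum_eq_zero, add_zero, sub_self]
      intro s _
      rw [if_neg (pr_pat_none t B s)]
    · by_cases hs : ∃ s, τ = pr_pat t B s
      · obtain ⟨s, rfl⟩ := hs
        have hP : Perfect (pr_pat t B s) s.1 s.2.1.1 s.2.1.2 :=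
          ⟨s.2.2.1, s.2.2.2.1, fun e => rfl⟩
        refine O1_congr ?_ (p4 t I B (pr_pat t B s) s.1 s.2.1.1 s.2.1.2 hP s.2.2)
        intro n _ A x _
        rw [hg]
        simp only
        rw [if_neg hτ, zero_add, Finset.sum_eq_single s]
        · rw [if_pos rfl]
        · intro s' _ hs'
          rw [if_neg fun h => hs' (pr_pat_inj t B h).symm]
        · intro h
          exact absurd (Finset.mem_univ s) h
      · have hg0 : ∀ (n : ℕ) [NeZero n] (A : Finset ℕ) (x : ZMod n),
            A ⊆ Cl n → PT n τ A x = PT n τ A x - g τ n A x := by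
          intro n _ A x _
          rw [hg]
          simp only
          rw [if_neg hτ, zero_add, Finset.sum_eq_zero, sub_zero]
          intro s _
          rw [if_neg fun h => hs ⟨s, h⟩]
        have hne : ∃ e, τ e ≠ none := by
          by_contra h
          push Not at h
          exact hτ (funext h)
        by_cases hp : ∃ (i : I) (φ : t.E ≃ (B i).E) (b : t.E → Bool), Perfect τ i φ b
        · obtain ⟨i, φ, b, hp⟩ := hp
          have hni : ¬ IsTIso t (B i) φ b := by
            intro h
            apply hs
            refine ⟨⟨i, ⟨(φ, b), h⟩⟩, ?_⟩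
            funext e
            exact hp.2.2 e
          exact O1_congr hg0 (p5 t I B τ i φ b hp hni)
        · exact O1_congr hg0 (p3 t I B τ hne hp)
  refine O1_congr ?_ (O1_sum (Finset.univ : Finset (Pat t B)) (f := fun τ n _ A x =>
    PT n τ A x - g τ n A x) fun τ _ => key τ)
  intro n _ A x _
  have e1 : ∑ τ : Pat t B, g τ n A x = F n (optB t B) A x +
      ∑ i, (cc t (B i) : ℂ) * F n (fun j : {j : I // j ≠ i} => B j) A x := by
    rw [hg]
    simp only
    rw [Finset.sum_add_distrib, Finset.sum_ite_eq' , if_pos (Finset.mem_univ _),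
      Finset.sum_comm]
    congr 1
    rw [Finset.sum_congr rfl (fun s _ => by
      rw [Finset.sum_ite_eq', if_pos (Finset.mem_univ _)]), Fintype.sum_sigma]
    refine Finset.sum_congr rfl fun i _ => ?_
    change ∑ _y : TIso t (B i), F n (fun j : {j : I // j ≠ i} => B j) A x = _
    rw [Finset.sum_const, Finset.card_univ, nsmul_eq_mul, cc, Nat.card_eq_fintype_card]
    push_cast
    rfl
  rw [Finset.sum_sub_distrib, e1, (p1 t I B n A x).1]
  ring

end Pool.Agent.H276R2.Th
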