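import Pool.Agent.H276R2.Th.Spec

/-!
# Part R0: noise representation and facts on `proj`
-/

set_option autoImplicit false

namespace Pool.Agent.H276R2.Th

open Finset

/-- the real part of one mode -/
noncomputable def r0_u {n : ℕ} [NeZero n] (w : ZMod n → ℝ) (k x : ZMod n) : ℝ :=
  (fc (fun y => (w y : ℂ)) k * ch n (k * x)).re

/-- the part of a function with spectrum in one class -/
noncomputable def r0_a {n : ℕ} [NeZero n] (w : ZMod n → ℝ) (j : ℕ) (x : ZMod n) : ℝ :=
  ∑ k ∈ univ.filter (fun k : ZMod n => cls n k = j), r0_u w k x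

theorem r0_card (n : ℕ) [NeZero n] (j : ℕ) :
    (univ.filter (fun k : ZMod n => cls n k = j)).card ≤ 2 := by
  have h := card_cls_le n j
  convert h

theorem r0_cls_iff {n : ℕ} [NeZero n] (k : ZMod n) : k ≠ 0 ↔ cls n k ∈ Cl n := by
  constructor
  · exact cls_mem n k
  · rintro h rfl
    rw [cls_zero] at h
    simp [Cl] at h

theorem r0_abs_u {n : ℕ} [NeZero n] (w : ZMod n → ℝ) (k x : ZMod n) :
    |r0_u w k x| ≤ ‖fc (fun y => (w y : ℂ)) k‖ := by
  unfold r0_u
  refine (Complex.abs_re_le_norm _).trans ?_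
  rw [norm_mul, norm_ch, mul_one]

/-- regrouping by classes -/
theorem r0_group {n : ℕ} [NeZero n] (w : ZMod n → ℝ) (g : ℕ → ℝ) (x : ZMod n) :
    ∑ j ∈ Cl n, g j * r0_a w j x =
      ∑ k : ZMod n, if k ≠ 0 then g (cls n k) * r0_u w k x else 0 := by
  rw [← Finset.sum_filter]
  rw [← Finset.sum_fiberwise_of_maps_to (s := univ.filter (fun k : ZMod n => k ≠ 0)) (t := Cl n)
    (g := fun k => cls n k) (fun k hk => cls_mem n k (by simpa using hk))]
  apply Finset.sum_congr rfl
  intro j hj
  unfold r0_a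
  rw [Finset.mul_sum]
  have he : (univ.filter (fun k : ZMod n => k ≠ 0)).filter (fun k => cls n k = j) =
      univ.filter (fun k : ZMod n => cls n k = j) := by
    ext k
    simp only [Finset.mem_filter, Finset.mem_univ, true_and]
    constructor
    · exact fun h => h.2
    · intro h
      refine ⟨?_, h⟩
      rw [r0_cls_iff, h]
      exact hj
  rw [he]
  apply Finset.sum_congr rfl
  intro k hk
  rw [Finset.mem_filter] at hk
  rw [hk.2]

theorem r0_sum_u {n : ℕ} [NeZero n] (w : ZMod n → ℝ) (x : ZMod n) :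
    ∑ k : ZMod n, r0_u w k x = w x := by
  have h := fc_inv (fun y => (w y : ℂ)) x
  have h2 := congrArg Complex.re h
  rw [Complex.re_sum] at h2
  simpa [r0_u] using h2

theorem r0_u_zero {n : ℕ} [NeZero n] (w : ZMod n → ℝ) (x : ZMod n) :
    r0_u w 0 x = (∑ y, w y) / n := by
  unfold r0_u
  rw [fc_zero_real, zero_mul, ch_zero, mul_one, Complex.ofReal_re]

theorem r0_ne {n : ℕ} [NeZero n] (w : ZMod n → ℝ) (x : ZMod n) :
    (∑ k : ZMod n, if k ≠ 0 then r0_u w k x else 0) = w x - (∑ y, w y) / n := by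
  rw [← r0_sum_u w x, ← r0_u_zero w x, ← Finset.sum_filter,
    ← Finset.sum_filter_add_sum_filter_not univ (fun k : ZMod n => k ≠ 0) (fun k => r0_u w k x)]
  have h : univ.filter (fun k : ZMod n => ¬ k ≠ 0) = {0} := by
    ext k
    simp
  rw [h, Finset.sum_singleton]
  ring

theorem r0_proj {n : ℕ} [NeZero n] (A : Finset ℕ) (w : ZMod n → ℝ) (x : ZMod n) :
    proj A w x = ∑ k : ZMod n, if k ≠ 0 then (if cls n k ∈ A then 1 else 0) * r0_u w k x
      else 0 := by
  unfold proj
  rw [Complex.re_sum]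
  apply Finset.sum_congr rfl
  intro k _
  by_cases hk : k ≠ 0
  · by_cases hA : cls n k ∈ A
    · simp [hk, hA, r0_u]
    · simp [hk, hA]
  · simp [hk]

theorem t_R0 : S_R0 := by
  intro n _ w
  refine ⟨r0_a w, ?_, ?_, ?_⟩
  · intro A q x hq hA
    rw [r0_group w (fun j => (if j ∈ A then 1 / q else 0) - 1) x, r0_proj, ← r0_ne,
      Finset.sum_div, ← Finset.sum_sub_distrib]
    apply Finset.sum_congr rfl
    intro k _
    by_cases hk : k ≠ 0
    · by_cases hkA : cls n k ∈ A
      · simp only [hk, hkA, if_true, ne_eq, not_false_eq_true]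
        ring
      · simp only [hk, hkA, if_true, if_false, ne_eq, not_false_eq_true]
        ring
    · simp [hk]
  · intro x
    have h1 : ∀ j, r0_a w j x ^ 2 ≤
        2 * ∑ k ∈ univ.filter (fun k : ZMod n => cls n k = j),
          ‖fc (fun y => (w y : ℂ)) k‖ ^ 2 := by
      intro j
      have h2 := sq_sum_le_card_mul_sum_sq (s := univ.filter (fun k : ZMod n => cls n k = j))
        (f := fun k => r0_u w k x)
      have h3 : ((univ.filter (fun k : ZMod n => cls n k = j)).card : ℝ) ≤ 2 := by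
        exact_mod_cast r0_card n j
      have h4 : ∑ k ∈ univ.filter (fun k : ZMod n => cls n k = j), r0_u w k x ^ 2 ≤
          ∑ k ∈ univ.filter (fun k : ZMod n => cls n k = j),
            ‖fc (fun y => (w y : ℂ)) k‖ ^ 2 := by
        apply Finset.sum_le_sum
        intro k _
        rw [← sq_abs]
        exact pow_le_pow_left₀ (abs_nonneg _) (r0_abs_u w k x) 2
      have h5 : 0 ≤ ∑ k ∈ univ.filter (fun k : ZMod n => cls n k = j), r0_u w k x ^ 2 :=
        Finset.sum_nonneg (fun k _ => sq_nonneg _)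
      unfold r0_a
      calc (∑ k ∈ univ.filter (fun k : ZMod n => cls n k = j), r0_u w k x) ^ 2
          ≤ ((univ.filter (fun k : ZMod n => cls n k = j)).card : ℝ) *
            ∑ k ∈ univ.filter (fun k : ZMod n => cls n k = j), r0_u w k x ^ 2 := h2
        _ ≤ 2 * ∑ k ∈ univ.filter (fun k : ZMod n => cls n k = j), r0_u w k x ^ 2 :=
            mul_le_mul_of_nonneg_right h3 h5
        _ ≤ _ := by linarith
    have h6 : ∑ j ∈ Cl n, r0_a w j x ^ 2 ≤ 2 * ∑ k, ‖fc (fun y => (w y : ℂ)) k‖ ^ 2 := by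
      refine (Finset.sum_le_sum (fun j _ => h1 j)).trans ?_
      rw [← Finset.mul_sum]
      refine mul_le_mul_of_nonneg_left ?_ (by norm_num)
      have h7 : ∑ j ∈ Cl n, ∑ k ∈ univ.filter (fun k : ZMod n => cls n k = j),
          ‖fc (fun y => (w y : ℂ)) k‖ ^ 2 =
          ∑ j ∈ Cl n, ∑ k ∈ (univ.filter (fun k : ZMod n => cls n k ∈ Cl n)).filter
            (fun k : ZMod n => cls n k = j), ‖fc (fun y => (w y : ℂ)) k‖ ^ 2 := by
        apply Finset.sum_congr rfl
        intro j hj
        apply Finset.sum_congr _ (fun _ _ => rfl)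
        ext k
        simp only [Finset.mem_filter, Finset.mem_univ, true_and]
        constructor
        · intro h
          exact ⟨by rw [h]; exact hj, h⟩
        · exact fun h => h.2
      rw [h7, Finset.sum_fiberwise_of_maps_to (fun k hk => by simpa using hk)]
      exact Finset.sum_le_sum_of_subset_of_nonneg (Finset.filter_subset _ _)
        (fun k _ _ => sq_nonneg _)
    have h8 := parseval (fun y => (w y : ℂ))
    have h9 : ∑ y, ‖((w y : ℝ) : ℂ)‖ ^ 2 = ∑ y, w y ^ 2 := by
      apply Finset.sum_congr rfl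
      intro y _
      rw [Complex.norm_real, Real.norm_eq_abs, sq_abs]
    rw [h9] at h8
    have h10 : (0 : ℝ) ≤ n := Nat.cast_nonneg n
    calc (∑ j ∈ Cl n, r0_a w j x ^ 2) * n
        ≤ (2 * ∑ k, ‖fc (fun y => (w y : ℂ)) k‖ ^ 2) * n := mul_le_mul_of_nonneg_right h6 h10
      _ = 2 * (n * ∑ k, ‖fc (fun y => (w y : ℂ)) k‖ ^ 2) := by ring
      _ = 2 * ∑ y, w y ^ 2 := by rw [← h8]
  · intro δ hδ j hj x
    have hδ0 : 0 ≤ δ := by
      obtain ⟨k, hk, -⟩ := exists_cls n j hj
      exact (norm_nonneg _).trans (hδ k hk)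
    unfold r0_a
    refine (Finset.abs_sum_le_sum_abs _ _).trans ?_
    calc ∑ k ∈ univ.filter (fun k : ZMod n => cls n k = j), |r0_u w k x|
        ≤ ∑ k ∈ univ.filter (fun k : ZMod n => cls n k = j), δ := by
          apply Finset.sum_le_sum
          intro k hk
          rw [Finset.mem_filter] at hk
          refine (r0_abs_u w k x).trans (hδ k ?_)
          rw [r0_cls_iff, hk.2]
          exact hj
      _ = ((univ.filter (fun k : ZMod n => cls n k = j)).card : ℝ) * δ := by
          rw [Finset.sum_const, nsmul_eq_mul]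
      _ ≤ 2 * δ := by
          apply mul_le_mul_of_nonneg_right _ hδ0
          exact_mod_cast r0_card n j

/-- the coefficients of `proj` -/
noncomputable def r0_b {n : ℕ} [NeZero n] (A : Finset ℕ) (w : ZMod n → ℝ) (k : ZMod n) : ℂ :=
  if k ≠ 0 ∧ cls n k ∈ A then fc (fun y => (w y : ℂ)) k else 0

theorem r0_b_neg {n : ℕ} [NeZero n] (A : Finset ℕ) (w : ZMod n → ℝ) (hw : ∀ x, w (-x) = w x)
    (k : ZMod n) : r0_b A w (-k) = r0_b A w k := by
  unfold r0_b
  rw [cls_neg, fc_neg_even _ (fun x => by rw [hw])]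
  simp

theorem r0_b_conj {n : ℕ} [NeZero n] (A : Finset ℕ) (w : ZMod n → ℝ) (hw : ∀ x, w (-x) = w x)
    (k : ZMod n) : (starRingEnd ℂ) (r0_b A w k) = r0_b A w k := by
  unfold r0_b
  split_ifs with h
  · rw [← fc_neg_real, fc_neg_even _ (fun x => by rw [hw])]
  · simp

theorem r0_proj_eq {n : ℕ} [NeZero n] (A : Finset ℕ) (w : ZMod n → ℝ) (hw : ∀ x, w (-x) = w x)
    (x : ZMod n) : (proj A w x : ℂ) = ∑ k, r0_b A w k * ch n (k * x) := by
  have h1 : proj A w x = (∑ k, r0_b A w k * ch n (k * x)).re := by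
    unfold proj r0_b
    congr 1
    apply Finset.sum_congr rfl
    intro k _
    split_ifs <;> simp
  have h2 : (starRingEnd ℂ) (∑ k, r0_b A w k * ch n (k * x)) =
      ∑ k, r0_b A w k * ch n (k * x) := by
    rw [map_sum, ← Equiv.sum_comp (Equiv.neg (ZMod n))]
    apply Finset.sum_congr rfl
    intro k _
    rw [map_mul, r0_b_conj A w hw, Equiv.neg_apply, r0_b_neg A w hw, ← ch_neg, neg_mul, neg_neg]
  rw [h1]
  exact Complex.conj_eq_iff_re.1 h2

theorem t_R0' : S_R0' := by
  intro n _ A w hw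
  have hfc : ∀ k : ZMod n, fc (fun x => (proj A w x : ℂ)) k = r0_b A w k := by
    intro k
    have h : (fun x => (proj A w x : ℂ)) = fun x => ∑ k, r0_b A w k * ch n (k * x) := by
      funext x
      exact r0_proj_eq A w hw x
    rw [h, fc_sum_ch]
  refine ⟨?_, ?_, hfc, ?_⟩
  · intro x
    have h : (proj A w (-x) : ℂ) = (proj A w x : ℂ) := by
      rw [r0_proj_eq A w hw, r0_proj_eq A w hw, ← Equiv.sum_comp (Equiv.neg (ZMod n))]
      apply Finset.sum_congr rfl
      intro k _
      rw [Equiv.neg_apply, r0_b_neg A w hw, neg_mul_neg]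
    exact_mod_cast h
  · have h := hfc 0
    rw [fc_zero_real] at h
    have h0 : r0_b A w 0 = 0 := by simp [r0_b]
    rw [h0] at h
    have h1 : (∑ x, proj A w x) / (n : ℝ) = 0 := by exact_mod_cast h
    have hn : (n : ℝ) ≠ 0 := by exact_mod_cast NeZero.ne n
    rcases div_eq_zero_iff.1 h1 with h2 | h2
    · exact h2
    · exact absurd h2 hn
  · have h1 := parseval (fun x => (proj A w x : ℂ))
    have h2 := parseval (fun x => (w x : ℂ))
    have h3 : ∀ g : ZMod n → ℝ, ∑ y, ‖((g y : ℝ) : ℂ)‖ ^ 2 = ∑ y, g y ^ 2 := by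
      intro g
      apply Finset.sum_congr rfl
      intro y _
      rw [Complex.norm_real, Real.norm_eq_abs, sq_abs]
    rw [h3] at h1 h2
    rw [h1, h2]
    apply mul_le_mul_of_nonneg_left _ (Nat.cast_nonneg n)
    apply Finset.sum_le_sum
    intro k _
    rw [hfc]
    unfold r0_b
    split_ifs
    · exact le_refl _
    · rw [norm_zero, zero_pow two_ne_zero]
      exact sq_nonneg _

end Pool.Agent.H276R2.Th
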