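import Pool.Agent.H276R2.Th.Spec

/-!
# R1: expectations with density `q`
-/

set_option autoImplicit false

namespace Pool.Agent.H276R2.Th

open Finset

/-- Expectation over the subsets of `S`, each element being present with probability `q`. -/
noncomputable def r1_E (S : Finset ℕ) (q : ℝ) (f : Finset ℕ → ℝ) : ℝ :=
  ∑ A ∈ S.powerset, (∏ j ∈ S, if j ∈ A then q else 1 - q) * f A

theorem r1_insert {a : ℕ} {S : Finset ℕ} (ha : a ∉ S) (q : ℝ) (f : Finset ℕ → ℝ) :
    r1_E (insert a S) q f = q * r1_E S q (fun A => f (insert a A)) + (1 - q) * r1_E S q f := by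
  unfold r1_E
  rw [Finset.sum_powerset_insert ha, Finset.mul_sum, Finset.mul_sum, add_comm]
  congr 1
  · refine Finset.sum_congr rfl fun A hA => ?_
    rw [Finset.prod_insert ha, if_pos (Finset.mem_insert_self a A)]
    have : ∏ j ∈ S, (if j ∈ insert a A then q else 1 - q) = ∏ j ∈ S, if j ∈ A then q else 1 - q := by
      refine Finset.prod_congr rfl fun j hj => ?_
      have hne : j ≠ a := fun h => ha (h ▸ hj)
      simp [Finset.mem_insert, hne]
    rw [this]
    ring
  · refine Finset.sum_congr rfl fun A hA => ?_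
    have haA : a ∉ A := fun h => ha (Finset.mem_powerset.1 hA h)
    rw [Finset.prod_insert ha, if_neg haA]
    ring

theorem r1_empty (q : ℝ) (f : Finset ℕ → ℝ) : r1_E ∅ q f = f ∅ := by
  simp [r1_E]

theorem r1_congr {S : Finset ℕ} {q : ℝ} {f g : Finset ℕ → ℝ} (h : ∀ A, A ⊆ S → f A = g A) :
    r1_E S q f = r1_E S q g := by
  unfold r1_E
  exact Finset.sum_congr rfl fun A hA => by rw [h A (Finset.mem_powerset.1 hA)]

theorem r1_lin (S : Finset ℕ) (q a b : ℝ) (f g : Finset ℕ → ℝ) :
    r1_E S q (fun A => a * f A + b * g A) = a * r1_E S q f + b * r1_E S q g := by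
  unfold r1_E
  rw [Finset.mul_sum, Finset.mul_sum, ← Finset.sum_add_distrib]
  exact Finset.sum_congr rfl fun A _ => by ring

theorem r1_smul (S : Finset ℕ) (q a : ℝ) (f : Finset ℕ → ℝ) :
    r1_E S q (fun A => a * f A) = a * r1_E S q f := by
  unfold r1_E
  rw [Finset.mul_sum]
  exact Finset.sum_congr rfl fun A _ => by ring

theorem r1_const (S : Finset ℕ) (q c : ℝ) : r1_E S q (fun _ => c) = c := by
  induction S using Finset.induction_on with
  | empty => rw [r1_empty]
  | insert a S ha ih => rw [r1_insert ha, ih]; ring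

theorem r1_mono {S : Finset ℕ} {q : ℝ} (h0 : 0 ≤ q) (h1 : q ≤ 1) {f g : Finset ℕ → ℝ}
    (h : ∀ A, A ⊆ S → f A ≤ g A) : r1_E S q f ≤ r1_E S q g := by
  unfold r1_E
  refine Finset.sum_le_sum fun A hA => ?_
  refine mul_le_mul_of_nonneg_left (h A (Finset.mem_powerset.1 hA)) ?_
  refine Finset.prod_nonneg fun j _ => ?_
  split_ifs
  · exact h0
  · linarith

theorem r1_union (S : Finset ℕ) (p q : ℝ) (f : Finset ℕ → ℝ) :
    r1_E S p (fun A => r1_E S q (fun B => f (A ∪ B))) = r1_E S (p + q - p * q) f := by
  induction S using Finset.induction_on generalizing f with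
  | empty => simp [r1_empty]
  | insert a S ha ih =>
    rw [r1_insert ha, r1_insert ha]
    have e1 : r1_E S p (fun A => r1_E (insert a S) q (fun B => f (insert a A ∪ B))) =
        r1_E S (p + q - p * q) (fun A => f (insert a A)) := by
      rw [← ih (fun A => f (insert a A))]
      refine r1_congr fun A _ => ?_
      rw [r1_insert ha]
      have h1 : r1_E S q (fun B => f (insert a A ∪ insert a B)) =
          r1_E S q (fun B => f (insert a (A ∪ B))) := by
        refine r1_congr fun B _ => ?_
        congr 1
        ext x; simp only [Finset.mem_union, Finset.mem_insert]; tauto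
      have h2 : r1_E S q (fun B => f (insert a A ∪ B)) =
          r1_E S q (fun B => f (insert a (A ∪ B))) := by
        refine r1_congr fun B _ => ?_
        rw [Finset.insert_union]
      rw [h1, h2]
      ring
    have e2 : r1_E S p (fun A => r1_E (insert a S) q (fun B => f (A ∪ B))) =
        q * r1_E S (p + q - p * q) (fun A => f (insert a A)) +
          (1 - q) * r1_E S (p + q - p * q) f := by
      rw [← ih (fun A => f (insert a A)), ← ih f, ← r1_lin]
      refine r1_congr fun A _ => ?_
      rw [r1_insert ha]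
      congr 2
      refine r1_congr fun B _ => ?_
      rw [Finset.union_insert]
    rw [e1, e2]
    ring

theorem r1_inter (S : Finset ℕ) (p q : ℝ) (f : Finset ℕ → ℝ) :
    r1_E S p (fun A => r1_E S q (fun B => f (A ∩ B))) = r1_E S (p * q) f := by
  induction S using Finset.induction_on generalizing f with
  | empty => simp [r1_empty]
  | insert a S ha ih =>
    rw [r1_insert ha, r1_insert ha]
    have e1 : r1_E S p (fun A => r1_E (insert a S) q (fun B => f (insert a A ∩ B))) =
        q * r1_E S (p * q) (fun A => f (insert a A)) + (1 - q) * r1_E S (p * q) f := by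
      rw [← ih (fun A => f (insert a A)), ← ih f, ← r1_lin]
      refine r1_congr fun A _ => ?_
      rw [r1_insert ha]
      have h1 : r1_E S q (fun B => f (insert a A ∩ insert a B)) =
          r1_E S q (fun B => f (insert a (A ∩ B))) := by
        refine r1_congr fun B _ => ?_
        rw [Finset.insert_inter_distrib]
      have h2 : r1_E S q (fun B => f (insert a A ∩ B)) = r1_E S q (fun B => f (A ∩ B)) := by
        refine r1_congr fun B hB => ?_
        rw [Finset.insert_inter_of_notMem (fun h => ha (hB h))]
      rw [h1, h2]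
    have e2 : r1_E S p (fun A => r1_E (insert a S) q (fun B => f (A ∩ B))) =
        r1_E S (p * q) f := by
      rw [← ih f]
      refine r1_congr fun A hA => ?_
      rw [r1_insert ha]
      have h1 : r1_E S q (fun B => f (A ∩ insert a B)) = r1_E S q (fun B => f (A ∩ B)) := by
        refine r1_congr fun B _ => ?_
        rw [Finset.inter_insert_of_notMem (fun h => ha (hA h))]
      rw [h1]
      ring
    rw [e1, e2]
    ring

theorem r1_prod (S : Finset ℕ) (q : ℝ) (a b : ℕ → ℝ) :
    r1_E S q (fun A => ∏ j ∈ S, if j ∈ A then a j else b j) = ∏ j ∈ S, (q * a j + (1 - q) * b j) := by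
  induction S using Finset.induction_on with
  | empty => simp [r1_empty]
  | insert c S hc ih =>
    rw [r1_insert hc, Finset.prod_insert hc, ← ih]
    have h1 : r1_E S q (fun A => ∏ j ∈ insert c S, if j ∈ insert c A then a j else b j) =
        a c * r1_E S q (fun A => ∏ j ∈ S, if j ∈ A then a j else b j) := by
      rw [← r1_smul]
      refine r1_congr fun A _ => ?_
      rw [Finset.prod_insert hc, if_pos (Finset.mem_insert_self c A)]
      have h2 : ∏ j ∈ S, (if j ∈ insert c A then a j else b j) =
          ∏ j ∈ S, if j ∈ A then a j else b j := by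
        refine Finset.prod_congr rfl fun j hj => ?_
        have hne : j ≠ c := fun h => hc (h ▸ hj)
        simp [Finset.mem_insert, hne]
      rw [h2]
    have h3 : r1_E S q (fun A => ∏ j ∈ insert c S, if j ∈ A then a j else b j) =
        b c * r1_E S q (fun A => ∏ j ∈ S, if j ∈ A then a j else b j) := by
      rw [← r1_smul]
      refine r1_congr fun A hA => ?_
      have hcA : c ∉ A := fun h => hc (hA h)
      rw [Finset.prod_insert hc, if_neg hcA]
    rw [h1, h3]
    ring

theorem r1_card (n : ℕ) : (Cl n).card = n / 2 := by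
  unfold Cl
  rw [Nat.card_Icc]
  omega

theorem r1_Ed (n : ℕ) (q : ℝ) (f : Finset ℕ → ℝ) : Ed n q f = r1_E (Cl n) q f := by
  unfold Ed r1_E Wt
  refine Finset.sum_congr rfl fun A hA => ?_
  have hA' := Finset.mem_powerset.1 hA
  congr 1
  rw [Finset.prod_ite, Finset.prod_const, Finset.prod_const]
  have h1 : (Cl n).filter (fun j => j ∈ A) = A := by
    ext x
    rw [Finset.mem_filter]
    exact ⟨fun h => h.2, fun h => ⟨hA' h, h⟩⟩
  have h2 : ((Cl n).filter (fun j => j ∉ A)).card = n / 2 - A.card := by
    have h3 : (Cl n).filter (fun j => j ∉ A) = Cl n \ A := by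
      ext x
      rw [Finset.mem_filter, Finset.mem_sdiff]
    rw [h3, Finset.card_sdiff_of_subset hA', r1_card]
  rw [h1, h2]

theorem r1_half (n : ℕ) (f : Finset ℕ → ℝ) : Ed n (1 / 2) f = Ex n f := by
  unfold Ed Ex Wt
  rw [Finset.sum_div]
  refine Finset.sum_congr rfl fun A hA => ?_
  have hA' := Finset.card_le_card (Finset.mem_powerset.1 hA)
  rw [r1_card] at hA'
  have h1 : (1 / 2 : ℝ) ^ A.card * (1 - 1 / 2) ^ (n / 2 - A.card) = 1 / 2 ^ (n / 2) := by
    have : (1 - 1 / 2 : ℝ) = 1 / 2 := by norm_num
    rw [this, ← pow_add, Nat.add_sub_cancel' hA', div_pow, one_pow]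
  rw [h1]
  ring

theorem t_R1 : S_R1 := by
  refine ⟨?_, ?_, ?_, ?_, ?_, ?_, ?_, ?_⟩
  · intro n q
    rw [r1_Ed, r1_const]
  · intro n q f g h0 h1 h
    rw [r1_Ed, r1_Ed]
    exact r1_mono h0 h1 h
  · intro n p q f
    simp only [r1_Ed]
    exact r1_union _ _ _ _
  · intro n p q f
    simp only [r1_Ed]
    exact r1_inter _ _ _ _
  · exact r1_half
  · intro n p q f hp hpq hq h
    rw [r1_Ed, r1_Ed]
    rcases eq_or_lt_of_le (hpq.trans hq) with h1 | h1
    · have : q = p := by linarith
      rw [this]
    · have hp1 : 0 < 1 - p := by linarith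
      set r := (q - p) / (1 - p) with hr
      have hr0 : 0 ≤ r := div_nonneg (by linarith) hp1.le
      have hr1 : r ≤ 1 := by
        rw [hr, div_le_one hp1]
        linarith
      have hq' : q = p + r - p * r := by
        have : r * (1 - p) = q - p := by
          rw [hr]; field_simp
        linarith
      rw [hq', ← r1_union]
      refine r1_mono hp (hpq.trans hq) fun A hA => ?_
      calc f A = r1_E (Cl n) r (fun _ => f A) := (r1_const _ _ _).symm
        _ ≤ r1_E (Cl n) r (fun B => f (A ∪ B)) :=
          r1_mono hr0 hr1 fun B hB => h _ _ Finset.subset_union_left (Finset.union_subset hA hB)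
  · intro n q f c h0 h1 hc hf
    unfold Pq
    rw [r1_Ed, r1_Ed]
    have h2 := r1_lin (Cl n) q 1 (-(1 / c)) (fun _ => 1) f
    rw [r1_const] at h2
    have h3 : 1 - r1_E (Cl n) q f / c = r1_E (Cl n) q (fun A => 1 * 1 + -(1 / c) * f A) := by
      rw [h2]; ring
    rw [h3]
    refine r1_mono h0 h1 fun A hA => ?_
    have hfA := hf A hA
    split_ifs with h
    · have : 0 ≤ f A / c := div_nonneg hfA hc.le
      have e : 1 * 1 + -(1 / c) * f A = 1 - f A / c := by ring
      rw [e]; linarith
    · have : 1 ≤ f A / c := by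
        rw [one_le_div hc]
        linarith
      have e : 1 * 1 + -(1 / c) * f A = 1 - f A / c := by ring
      rw [e]; linarith
  · intro n q a b
    rw [r1_Ed]
    exact r1_prod _ _ _ _

end Pool.Agent.H276R2.Th
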