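import Pool.Agent.H276R2.Th.Spec

/-!
# R2: exponential moments
-/

set_option autoImplicit false

namespace Pool.Agent.H276R2.Th

open Finset Real

theorem r2_factor1 (q a : ℝ) (h0 : 0 < q) (h1 : q ≤ 1) :
    q * exp ((1 / q - 1) * a) + (1 - q) * exp (-a) ≤ exp (a ^ 2 / (2 * q ^ 2)) := by
  set s := a / q with hs
  have hX1 : (1 / q - 1) * a = (1 - q) * s := by rw [hs]; field_simp
  have hX2 : -a = -(q * s) := by rw [hs]; field_simp
  rw [hX1, hX2]
  have hsq : a ^ 2 / (2 * q ^ 2) = s ^ 2 / 2 := by rw [hs]; field_simp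
  rw [hsq]
  refine le_trans ?_ (Real.cosh_le_exp_half_sq s)
  set X := (1 - q) * s with hX
  set Y := -(q * s) with hY
  have hXY : X - Y = s := by rw [hX, hY]; ring
  have hmean : q * X + (1 - q) * Y = 0 := by rw [hX, hY]; ring
  have hp1 : 0 ≤ q * exp X + (1 - q) * exp Y := by
    have := exp_pos X
    have := exp_pos Y
    have h2 : 0 ≤ 1 - q := by linarith
    positivity
  have hp2 : 1 ≤ q * exp (-X) + (1 - q) * exp (-Y) := by
    have e1 := Real.add_one_le_exp (-X)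
    have e2 := Real.add_one_le_exp (-Y)
    have h2 : 0 ≤ 1 - q := by linarith
    have e3 := mul_le_mul_of_nonneg_left e1 h0.le
    have e4 := mul_le_mul_of_nonneg_left e2 h2
    linarith
  have hprod : (q * exp X + (1 - q) * exp Y) * (q * exp (-X) + (1 - q) * exp (-Y)) =
      1 + 2 * (q * (1 - q)) * (cosh s - 1) := by
    have a1 : exp X * exp (-X) = 1 := by rw [← exp_add]; simp
    have a2 : exp Y * exp (-Y) = 1 := by rw [← exp_add]; simp
    have a3 : exp X * exp (-Y) = exp s := by rw [← exp_add, ← sub_eq_add_neg, hXY]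
    have a4 : exp Y * exp (-X) = exp (-s) := by
      rw [← exp_add, ← hXY]; congr 1; ring
    rw [cosh_eq]
    calc (q * exp X + (1 - q) * exp Y) * (q * exp (-X) + (1 - q) * exp (-Y))
        = q ^ 2 * (exp X * exp (-X)) + (1 - q) ^ 2 * (exp Y * exp (-Y)) +
          q * (1 - q) * (exp X * exp (-Y)) + q * (1 - q) * (exp Y * exp (-X)) := by ring
      _ = _ := by rw [a1, a2, a3, a4]; ring
  have hle : q * exp X + (1 - q) * exp Y ≤
      (q * exp X + (1 - q) * exp Y) * (q * exp (-X) + (1 - q) * exp (-Y)) :=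
    le_mul_of_one_le_right hp1 hp2
  rw [hprod] at hle
  have hc : 1 ≤ cosh s := Real.one_le_cosh s
  nlinarith [mul_nonneg (sub_nonneg.2 hc) (sq_nonneg (1 - 2 * q)), sq_nonneg (1 - 2 * q)]

theorem r2_factor2 (q a : ℝ) (h0 : 1 / 2 ≤ q) (h1 : q ≤ 1) (ha : |a| ≤ 1) :
    q * exp ((1 / q - 1) * a) + (1 - q) * exp (-a) ≤ exp (2 * (1 - q) * a ^ 2) := by
  have hq : 0 < q := by linarith
  have hr : 0 ≤ 1 - q := by linarith
  have hinv : 1 / q ≤ 2 := by
    rw [div_le_iff₀ hq]; linarith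
  have hinv1 : 1 ≤ 1 / q := by
    rw [le_div_iff₀ hq]; linarith
  have hu : |(1 / q - 1) * a| ≤ 1 := by
    rw [abs_mul, abs_of_nonneg (by linarith : (0:ℝ) ≤ 1 / q - 1)]
    calc (1 / q - 1) * |a| ≤ 1 * 1 := mul_le_mul (by linarith) ha (abs_nonneg a) (by norm_num)
      _ = 1 := by norm_num
  have e1 := (abs_le.1 (Real.abs_exp_sub_one_sub_id_le hu)).2
  have e2 := (abs_le.1 (Real.abs_exp_sub_one_sub_id_le (x := -a) (by rwa [abs_neg]))).2
  have e3 : exp ((1 / q - 1) * a) ≤ 1 + (1 / q - 1) * a + ((1 / q - 1) * a) ^ 2 := by linarith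
  have e4 : exp (-a) ≤ 1 - a + a ^ 2 := by
    have : (-a) ^ 2 = a ^ 2 := by ring
    rw [this] at e2
    linarith
  have e5 : q * exp ((1 / q - 1) * a) + (1 - q) * exp (-a) ≤
      q * (1 + (1 / q - 1) * a + ((1 / q - 1) * a) ^ 2) + (1 - q) * (1 - a + a ^ 2) :=
    add_le_add (mul_le_mul_of_nonneg_left e3 hq.le) (mul_le_mul_of_nonneg_left e4 hr)
  have e6 : q * (1 + (1 / q - 1) * a + ((1 / q - 1) * a) ^ 2) + (1 - q) * (1 - a + a ^ 2) =
      1 + (1 - q) * a ^ 2 * (1 / q) := by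
    field_simp
    ring
  rw [e6] at e5
  have e7 : (1 - q) * a ^ 2 * (1 / q) ≤ (1 - q) * a ^ 2 * 2 :=
    mul_le_mul_of_nonneg_left hinv (by positivity)
  have e8 := Real.add_one_le_exp (2 * (1 - q) * a ^ 2)
  linarith

theorem r2_prod (h : S_R1) (n : ℕ) (q : ℝ) (a : ℕ → ℝ) :
    Ed n q (fun A => exp (∑ j ∈ Cl n, ((if j ∈ A then 1 / q else 0) - 1) * a j)) =
      ∏ j ∈ Cl n, (q * exp ((1 / q - 1) * a j) + (1 - q) * exp (-(a j))) := by
  rw [← h.2.2.2.2.2.2.2 n q (fun j => exp ((1 / q - 1) * a j)) (fun j => exp (-(a j)))]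
  congr 1
  funext A
  rw [Real.exp_sum]
  refine Finset.prod_congr rfl fun j _ => ?_
  split_ifs
  · rfl
  · congr 1; ring

theorem t_R2 (h1 : S_R1) : S_R2 := by
  refine ⟨fun n q h0 h2 a => ?_, fun n q h0 h2 a ha => ?_⟩
  · rw [r2_prod h1, Finset.sum_div, Real.exp_sum]
    refine Finset.prod_le_prod (fun j _ => ?_) fun j _ => r2_factor1 q (a j) h0 h2
    have := exp_pos ((1 / q - 1) * a j)
    have := exp_pos (-(a j))
    have h3 : 0 ≤ 1 - q := by linarith
    positivity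
  · rw [r2_prod h1, Finset.mul_sum, Real.exp_sum]
    refine Finset.prod_le_prod (fun j _ => ?_) fun j hj => r2_factor2 q (a j) h0 h2 (ha j hj)
    have := exp_pos ((1 / q - 1) * a j)
    have := exp_pos (-(a j))
    have h3 : 0 ≤ 1 - q := by linarith
    have h4 : 0 ≤ q := by linarith
    positivity

end Pool.Agent.H276R2.Th
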