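import Pool.Agent.H276R2.Th.Spec

/-!
# R3: noise bounds
-/

set_option autoImplicit false

namespace Pool.Agent.H276R2.Th

open Finset Real

theorem r3_Ed_sum (n : ℕ) (q : ℝ) {ι : Type} (s : Finset ι) (f : ι → Finset ℕ → ℝ) :
    Ed n q (fun A => ∑ i ∈ s, f i A) = ∑ i ∈ s, Ed n q (f i) := by
  unfold Ed
  rw [Finset.sum_comm]
  exact Finset.sum_congr rfl fun A _ => by rw [Finset.mul_sum]

theorem r3_Ed_lin (n : ℕ) (q c : ℝ) (f g : Finset ℕ → ℝ) :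
    Ed n q (fun A => c * (f A + g A)) = c * (Ed n q f + Ed n q g) := by
  unfold Ed
  rw [← Finset.sum_add_distrib, Finset.mul_sum]
  exact Finset.sum_congr rfl fun A _ => by ring

theorem r3_point {s κ X : ℝ} (hs : 0 < s) :
    (max (|X| - κ) 0) ^ 2 ≤ 2 / s ^ 2 * exp (-(s * κ)) * (exp (s * X) + exp (-(s * X))) := by
  have h1 : 0 ≤ max (|X| - κ) 0 := le_max_right _ _
  rcases le_or_gt (|X| - κ) 0 with h | h
  · rw [max_eq_right h]
    have : (0:ℝ) ^ 2 = 0 := by norm_num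
    rw [this]
    positivity
  · rw [max_eq_left h.le]
    have h2 := Real.quadratic_le_exp_of_nonneg (mul_nonneg hs.le h.le)
    have h3 : (s * (|X| - κ)) ^ 2 / 2 ≤ exp (s * (|X| - κ)) := by
      have := mul_nonneg hs.le h.le
      linarith
    have h4 : exp (s * (|X| - κ)) = exp (-(s * κ)) * exp (s * |X|) := by
      rw [← Real.exp_add]
      congr 1
      ring
    have h5 : exp (s * |X|) ≤ exp (s * X) + exp (-(s * X)) := by
      rcases abs_choice X with h6 | h6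
      · rw [h6]
        linarith [Real.exp_pos (-(s * X))]
      · rw [h6, mul_neg]
        linarith [Real.exp_pos (s * X)]
    have h6 : (|X| - κ) ^ 2 = 2 / s ^ 2 * ((s * (|X| - κ)) ^ 2 / 2) := by
      field_simp
    rw [h6, mul_assoc]
    refine mul_le_mul_of_nonneg_left ?_ (by positivity)
    refine h3.trans ?_
    rw [h4]
    exact mul_le_mul_of_nonneg_left h5 (Real.exp_pos _).le

theorem r3_core (h1 : S_R1) (n : ℕ) [NeZero n] (w : ZMod n → ℝ) (q κ S2 : ℝ) (hq : 0 < q)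
    (hq1 : q ≤ 1) (hκ : 0 < κ) (hS : 0 < S2) (a : ℕ → ZMod n → ℝ)
    (ha : ∀ (A : Finset ℕ) (q : ℝ) (x : ZMod n), q ≠ 0 → A ⊆ Cl n →
      proj A w x / q - (w x - (∑ y, w y) / n) =
        ∑ j ∈ Cl n, ((if j ∈ A then 1 / q else 0) - 1) * a j x)
    (hE : ∀ (x : ZMod n) (ε : ℝ), (ε = 1 ∨ ε = -1) →
      Ed n q (fun A => exp (∑ j ∈ Cl n, ((if j ∈ A then 1 / q else 0) - 1) *
        (ε * (κ / S2) * a j x))) ≤ exp ((κ / S2) ^ 2 * S2 / 2)) :
    Ed n q (fun A => ∑ x, (max (|proj A w x / q - (w x - (∑ y, w y) / n)| - κ) 0) ^ 2) ≤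
      n * (4 * S2 ^ 2 / κ ^ 2) * exp (-κ ^ 2 / (2 * S2)) := by
  obtain ⟨-, mono, -⟩ := h1
  have hs : 0 < κ / S2 := div_pos hκ hS
  have step : Ed n q (fun A => ∑ x, (max (|proj A w x / q - (w x - (∑ y, w y) / n)| - κ) 0) ^ 2) ≤
      Ed n q (fun A => ∑ x, 2 / (κ / S2) ^ 2 * exp (-(κ / S2 * κ)) *
        (exp (∑ j ∈ Cl n, ((if j ∈ A then 1 / q else 0) - 1) * (1 * (κ / S2) * a j x)) +
          exp (∑ j ∈ Cl n, ((if j ∈ A then 1 / q else 0) - 1) * (-1 * (κ / S2) * a j x)))) := by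
    refine mono _ _ _ _ hq.le hq1 fun A hA => Finset.sum_le_sum fun x _ => ?_
    refine (r3_point hs).trans (le_of_eq ?_)
    rw [ha A q x hq.ne' hA]
    congr 2
    · congr 1
      rw [Finset.mul_sum]
      exact Finset.sum_congr rfl fun j _ => by ring
    · congr 1
      rw [Finset.mul_sum, ← Finset.sum_neg_distrib]
      exact Finset.sum_congr rfl fun j _ => by ring
  refine step.trans ?_
  rw [r3_Ed_sum]
  have hx : ∀ x : ZMod n, Ed n q (fun A => 2 / (κ / S2) ^ 2 * exp (-(κ / S2 * κ)) *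
        (exp (∑ j ∈ Cl n, ((if j ∈ A then 1 / q else 0) - 1) * (1 * (κ / S2) * a j x)) +
          exp (∑ j ∈ Cl n, ((if j ∈ A then 1 / q else 0) - 1) * (-1 * (κ / S2) * a j x)))) ≤
      4 * S2 ^ 2 / κ ^ 2 * exp (-κ ^ 2 / (2 * S2)) := by
    intro x
    rw [r3_Ed_lin]
    have e1 := hE x 1 (Or.inl rfl)
    have e2 := hE x (-1) (Or.inr rfl)
    have e3 : 4 * S2 ^ 2 / κ ^ 2 * exp (-κ ^ 2 / (2 * S2)) =
        2 / (κ / S2) ^ 2 * exp (-(κ / S2 * κ)) *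
          (exp ((κ / S2) ^ 2 * S2 / 2) + exp ((κ / S2) ^ 2 * S2 / 2)) := by
      have e4 : exp (-κ ^ 2 / (2 * S2)) = exp (-(κ / S2 * κ)) * exp ((κ / S2) ^ 2 * S2 / 2) := by
        rw [← Real.exp_add]
        congr 1
        field_simp
        ring
      rw [e4]
      field_simp
      ring
    rw [e3]
    exact mul_le_mul_of_nonneg_left (add_le_add e1 e2) (by positivity)
  calc ∑ x : ZMod n, _ ≤ ∑ x : ZMod n, 4 * S2 ^ 2 / κ ^ 2 * exp (-κ ^ 2 / (2 * S2)) :=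
        Finset.sum_le_sum fun x _ => hx x
    _ = n * (4 * S2 ^ 2 / κ ^ 2) * exp (-κ ^ 2 / (2 * S2)) := by
        rw [Finset.sum_const, Finset.card_univ, ZMod.card, nsmul_eq_mul]
        ring

theorem r3_sq {n : ℕ} [NeZero n] {ω s : ℝ} {a : ℕ → ZMod n → ℝ} {W : ℝ} (x : ZMod n) {ε : ℝ}
    (hε : ε = 1 ∨ ε = -1) (h : (∑ j ∈ Cl n, a j x ^ 2) * n ≤ 2 * W) (hW : W ≤ ω * n) :
    ∑ j ∈ Cl n, (ε * s * a j x) ^ 2 ≤ s ^ 2 * (2 * ω) := by
  have hn : (0:ℝ) < n := by exact_mod_cast Nat.pos_of_ne_zero (NeZero.ne n)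
  have h1 : ∑ j ∈ Cl n, a j x ^ 2 ≤ 2 * ω := by
    refine le_of_mul_le_mul_right ?_ hn
    linarith
  have h2 : ∑ j ∈ Cl n, (ε * s * a j x) ^ 2 = s ^ 2 * ∑ j ∈ Cl n, a j x ^ 2 := by
    rw [Finset.mul_sum]
    refine Finset.sum_congr rfl fun j _ => ?_
    have : ε ^ 2 = 1 := by rcases hε with rfl | rfl <;> norm_num
    calc (ε * s * a j x) ^ 2 = ε ^ 2 * (s ^ 2 * a j x ^ 2) := by ring
      _ = s ^ 2 * a j x ^ 2 := by rw [this, one_mul]
  rw [h2]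
  exact mul_le_mul_of_nonneg_left h1 (sq_nonneg s)

theorem t_R3 (h0 : S_R0) (h1 : S_R1) (h2 : S_R2) : S_R3 := by
  intro n _ w q κ ω hq hq1 hκ hω hw
  obtain ⟨a, ha, ha2, -⟩ := h0 n w
  refine r3_core h1 n w q κ (2 * ω / q ^ 2) hq hq1 hκ (by positivity) a ha ?_
  intro x ε hε
  refine (h2.1 n q hq hq1 _).trans ?_
  rw [Real.exp_le_exp]
  have h3 := r3_sq (s := κ / (2 * ω / q ^ 2)) x hε (ha2 x) hw
  calc (∑ j ∈ Cl n, (ε * (κ / (2 * ω / q ^ 2)) * a j x) ^ 2) / (2 * q ^ 2)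
      ≤ ((κ / (2 * ω / q ^ 2)) ^ 2 * (2 * ω)) / (2 * q ^ 2) := by gcongr
    _ = (κ / (2 * ω / q ^ 2)) ^ 2 * (2 * ω / q ^ 2) / 2 := by
        field_simp

theorem t_R5 (h0 : S_R0) (h1 : S_R1) (h2 : S_R2) : S_R5 := by
  intro n _ g q κ C δ hq hq1 hκ hC hδ hg hf hd
  obtain ⟨a, ha, ha2, ha3⟩ := h0 n g
  have hS : 0 < 8 * (1 - q) * C := by
    have : 0 < 1 - q := by linarith
    positivity
  refine r3_core h1 n g q κ (8 * (1 - q) * C) (by linarith) hq1.le hκ hS a ha ?_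
  intro x ε hε
  refine (h2.2 n q hq hq1.le _ ?_).trans ?_
  · intro j hj
    have h3 := ha3 δ hf j hj x
    have h4 : |ε| = 1 := by rcases hε with rfl | rfl <;> norm_num
    rw [abs_mul, abs_mul, h4, one_mul, abs_of_pos (div_pos hκ hS)]
    calc κ / (8 * (1 - q) * C) * |a j x| ≤ κ / (8 * (1 - q) * C) * (2 * δ) :=
          mul_le_mul_of_nonneg_left h3 (div_pos hκ hS).le
      _ = (2 * δ * κ) / (8 * (1 - q) * C) := by ring
      _ ≤ 1 := (div_le_one hS).2 hd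
  · rw [Real.exp_le_exp]
    have h3 := r3_sq (s := κ / (8 * (1 - q) * C)) x hε (ha2 x) hg
    calc 2 * (1 - q) * ∑ j ∈ Cl n, (ε * (κ / (8 * (1 - q) * C)) * a j x) ^ 2
        ≤ 2 * (1 - q) * ((κ / (8 * (1 - q) * C)) ^ 2 * (2 * C)) :=
          mul_le_mul_of_nonneg_left h3 (by linarith)
      _ = (κ / (8 * (1 - q) * C)) ^ 2 * (8 * (1 - q) * C) / 2 := by ring

end Pool.Agent.H276R2.Th
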