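import Pool.Agent.H276R2.Th.Spec

/-!
# Task R4: sprinkling, domination of a small function (helper267)
-/

set_option autoImplicit false

namespace Pool.Agent.H276R2.Th

open Finset Real

/-- The event of `S_R4`. -/
def r4_Gd (n : ℕ) [NeZero n] (κ : ℝ) (w : ZMod n → ℝ) (A : Finset ℕ) : Prop :=
  ∃ v : ZMod n → ℝ, (∀ x, v (-x) = v x) ∧ ∑ x, v x = 0 ∧
    (∀ k : ZMod n, k ≠ 0 → cls n k ∉ A → fc (fun x => (v x : ℂ)) k = 0) ∧
    (∀ x, w x ≤ v x + κ) ∧ ∑ x, v x ^ 2 ≤ κ ^ 2 * n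

/-- The smallness parameter. -/
noncomputable def r4_om (κ η p : ℝ) : ℝ := (κ * η * p) ^ 8 / 10 ^ 6

theorem r4_om_pos {κ η p : ℝ} (hκ : 0 < κ) (hη : 0 < η) (hp : 0 < p) : 0 < r4_om κ η p := by
  unfold r4_om
  positivity

theorem r4_om_half (κ η p : ℝ) : r4_om (κ / 2) (η / 2) (p / 2) = r4_om κ η p / 2 ^ 24 := by
  unfold r4_om
  ring

theorem r4_om_le {κ η p : ℝ} (hκ : 0 < κ) (hκ1 : κ ≤ 1) (hη : 0 < η) (hη1 : η ≤ 1) (hp : 0 < p)
    (hp1 : p ≤ 1) : r4_om κ η p ≤ κ ^ 2 * η ^ 2 / 16 := by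
  unfold r4_om
  have h1 : (κ * η * p) ^ 8 ≤ (κ * η) ^ 2 := by
    have h2 : κ * η * p ≤ κ * η := by
      calc κ * η * p ≤ κ * η * 1 := by gcongr
        _ = κ * η := mul_one _
    have h3 : κ * η ≤ 1 := by
      calc κ * η ≤ 1 * 1 := by gcongr
        _ = 1 := one_mul 1
    calc (κ * η * p) ^ 8 ≤ (κ * η) ^ 8 := by gcongr
      _ ≤ (κ * η) ^ 2 := pow_le_pow_of_le_one (by positivity) h3 (by norm_num)
  have h4 : 0 ≤ (κ * η) ^ 2 := by positivity
  have h5 : (κ * η) ^ 2 = κ ^ 2 * η ^ 2 := by ring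
  rw [h5] at h1 h4
  rw [div_le_div_iff₀ (by norm_num) (by norm_num)]
  nlinarith

theorem r4_Ed_mul (n : ℕ) (q c : ℝ) (f : Finset ℕ → ℝ) :
    Ed n q (fun A => c * f A) = c * Ed n q f := by
  unfold Ed
  rw [Finset.mul_sum]
  apply Finset.sum_congr rfl
  intro A _
  ring

/-- `exp (-u) ≤ 2 / u ^ 2`. -/
theorem r4_exp {u : ℝ} (hu : 0 < u) : exp (-u) ≤ 2 / u ^ 2 := by
  have h1 := Real.quadratic_le_exp_of_nonneg hu.le
  have h2 : u ^ 2 / 2 ≤ exp u := by linarith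
  rw [Real.exp_neg, inv_eq_one_div, div_le_div_iff₀ (Real.exp_pos u) (by positivity)]
  linarith

/-- The numerical estimate of the first stage. -/
theorem r4_num {κ η p n : ℝ} (hκ : 0 < κ) (hκ1 : κ ≤ 1) (hη : 0 < η) (hη1 : η ≤ 1) (hp : 0 < p)
    (hp1 : p ≤ 1) (hn : 0 < n) :
    (n * (4 * (2 * r4_om κ η p / (η / 2) ^ 2) ^ 2 / (κ / 4) ^ 2) *
      exp (-(κ / 4) ^ 2 / (2 * (2 * r4_om κ η p / (η / 2) ^ 2)))) /
      (r4_om (κ / 2) (η / 2) (p / 2) * n) ≤ p / 2 := by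
  rw [r4_om_half]
  have ho := r4_om_pos hκ hη hp
  set o := r4_om κ η p with ho'
  have h1 := r4_exp (u := κ ^ 2 * η ^ 2 / (256 * o)) (by positivity)
  have h2 : -(κ / 4) ^ 2 / (2 * (2 * o / (η / 2) ^ 2)) = -(κ ^ 2 * η ^ 2 / (256 * o)) := by
    field_simp
    ring
  rw [h2]
  have h3 : (n * (4 * (2 * o / (η / 2) ^ 2) ^ 2 / (κ / 4) ^ 2) *
      exp (-(κ ^ 2 * η ^ 2 / (256 * o)))) / (o / 2 ^ 24 * n) ≤
      (n * (4 * (2 * o / (η / 2) ^ 2) ^ 2 / (κ / 4) ^ 2) *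
      (2 / (κ ^ 2 * η ^ 2 / (256 * o)) ^ 2)) / (o / 2 ^ 24 * n) := by
    gcongr
  refine h3.trans ?_
  have h4 : (n * (4 * (2 * o / (η / 2) ^ 2) ^ 2 / (κ / 4) ^ 2) *
      (2 / (κ ^ 2 * η ^ 2 / (256 * o)) ^ 2)) / (o / 2 ^ 24 * n) =
      2 ^ 53 * o ^ 3 / (κ ^ 6 * η ^ 8) := by
    field_simp
    norm_num
  rw [h4, ho']
  unfold r4_om
  have h5 : 2 ^ 53 * ((κ * η * p) ^ 8 / 10 ^ 6) ^ 3 / (κ ^ 6 * η ^ 8) =
      2 ^ 53 / 10 ^ 18 * (κ ^ 18 * η ^ 16 * p ^ 23) * p := by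
    field_simp
  rw [h5]
  have h6 : κ ^ 18 * η ^ 16 * p ^ 23 ≤ 1 * 1 * 1 := by
    have a1 : κ ^ 18 ≤ 1 := pow_le_one₀ hκ.le hκ1
    have a2 : η ^ 16 ≤ 1 := pow_le_one₀ hη.le hη1
    have a3 : p ^ 23 ≤ 1 := pow_le_one₀ hp.le hp1
    gcongr
  have h7 : (2:ℝ) ^ 53 / 10 ^ 18 ≤ 1 / 2 := by norm_num
  calc (2:ℝ) ^ 53 / 10 ^ 18 * (κ ^ 18 * η ^ 16 * p ^ 23) * p ≤ 1 / 2 * (1 * 1 * 1) * p := by
        gcongr
    _ = p / 2 := by ring

theorem r4_fc_real {n : ℕ} [NeZero n] (u v : ZMod n → ℝ) (c : ℝ) (k : ZMod n) :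
    fc (fun x => ((u x / c + v x : ℝ) : ℂ)) k =
      fc (fun x => (u x : ℂ)) k / c + fc (fun x => (v x : ℂ)) k := by
  unfold fc
  have h : ∀ x, (((u x / c + v x : ℝ) : ℂ)) * ch n (-(k * x)) =
      ((u x : ℂ) * ch n (-(k * x))) / c + (v x : ℂ) * ch n (-(k * x)) := by
    intro x
    push_cast
    ring
  rw [Finset.sum_congr rfl (fun x _ => h x), Finset.sum_add_distrib, ← Finset.sum_div]
  ring

theorem r4_mean {n : ℕ} [NeZero n] (w : ZMod n → ℝ) (o : ℝ) (h : ∑ x, w x ^ 2 ≤ o * n) :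
    ((∑ x, w x) / n) ^ 2 ≤ o := by
  have hn : (0:ℝ) < n := by exact_mod_cast Nat.pos_of_ne_zero (NeZero.ne n)
  have h1 := sq_sum_le_card_mul_sum_sq (s := (Finset.univ : Finset (ZMod n))) (f := w)
  rw [Finset.card_univ, ZMod.card] at h1
  rw [div_pow, div_le_iff₀ (by positivity)]
  calc (∑ x, w x) ^ 2 ≤ n * ∑ x, w x ^ 2 := h1
    _ ≤ n * (o * n) := by gcongr
    _ = o * n ^ 2 := by ring

/-- The combination of the two stages. -/
theorem r4_comb (h0' : S_R0') {n : ℕ} [NeZero n] {κ η p : ℝ} (hκ : 0 < κ) (hκ1 : κ ≤ 1) (hη : 0 < η)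
    (hη1 : η ≤ 1) (hp : 0 < p) (hp1 : p ≤ 1) {w : ZMod n → ℝ} (hw : ∀ x, w (-x) = w x)
    (hw2 : ∑ x, w x ^ 2 ≤ r4_om κ η p * n) {A B : Finset ℕ}
    (hB : r4_Gd n (κ / 2) (fun x => max (|proj A w x / (η / 2) - (w x - (∑ y, w y) / n)| - κ / 4) 0)
      B) : r4_Gd n κ w (A ∪ B) := by
  obtain ⟨v1, e1, s1, f1, d1, n1⟩ := hB
  obtain ⟨e0, s0, f0, n0⟩ := h0' n A w hw
  have hn : (0:ℝ) < n := by exact_mod_cast Nat.pos_of_ne_zero (NeZero.ne n)
  have hom := r4_om_le hκ hκ1 hη hη1 hp hp1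
  refine ⟨fun x => proj A w x / (η / 2) + v1 x, ?_, ?_, ?_, ?_, ?_⟩
  · intro x
    simp only
    rw [e0, e1]
  · rw [Finset.sum_add_distrib, ← Finset.sum_div, s0, s1]
    simp
  · intro k hk hkA
    rw [Finset.mem_union, not_or] at hkA
    rw [r4_fc_real, f0, f1 k hk hkA.2, if_neg (fun h => hkA.1 h.2)]
    simp
  · intro x
    have h1 := d1 x
    simp only at h1
    have h2 : |proj A w x / (η / 2) - (w x - (∑ y, w y) / n)| - κ / 4 ≤
        max (|proj A w x / (η / 2) - (w x - (∑ y, w y) / n)| - κ / 4) 0 := le_max_left _ _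
    have h3 := neg_abs_le (proj A w x / (η / 2) - (w x - (∑ y, w y) / n))
    have h4 : (∑ y, w y) / n ≤ κ / 4 := by
      have h5 := r4_mean w _ hw2
      apply le_of_sq_le_sq _ (by positivity)
      refine h5.trans (hom.trans ?_)
      have h6 : η ^ 2 ≤ 1 := pow_le_one₀ hη.le hη1
      nlinarith [sq_nonneg κ]
    simp only
    linarith
  · have h1 : ∀ x, (proj A w x / (η / 2) + v1 x) ^ 2 ≤
        8 / η ^ 2 * proj A w x ^ 2 + 2 * v1 x ^ 2 := by
      intro x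
      have h2 : (proj A w x / (η / 2) + v1 x) ^ 2 ≤ 2 * (proj A w x / (η / 2)) ^ 2 + 2 * v1 x ^ 2 := by
        nlinarith [sq_nonneg (proj A w x / (η / 2) - v1 x)]
      have h3 : 2 * (proj A w x / (η / 2)) ^ 2 = 8 / η ^ 2 * proj A w x ^ 2 := by
        field_simp
        ring
      linarith
    calc ∑ x, (proj A w x / (η / 2) + v1 x) ^ 2
        ≤ ∑ x, (8 / η ^ 2 * proj A w x ^ 2 + 2 * v1 x ^ 2) := Finset.sum_le_sum (fun x _ => h1 x)
      _ = 8 / η ^ 2 * ∑ x, proj A w x ^ 2 + 2 * ∑ x, v1 x ^ 2 := by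
          rw [Finset.sum_add_distrib, Finset.mul_sum, Finset.mul_sum]
      _ ≤ 8 / η ^ 2 * (κ ^ 2 * η ^ 2 / 16 * n) + 2 * ((κ / 2) ^ 2 * n) := by
          have h5 : ∑ x, proj A w x ^ 2 ≤ κ ^ 2 * η ^ 2 / 16 * n :=
            n0.trans (hw2.trans (mul_le_mul_of_nonneg_right hom hn.le))
          gcongr
      _ = κ ^ 2 * n := by
          field_simp
          ring

theorem r4_ind (h0' : S_R0') (h1 : S_R1) (h3 : S_R3) (n : ℕ) [NeZero n] (L : ℕ) :
    ∀ (κ η p : ℝ), 0 < κ → κ ≤ 1 → 0 < η → η ≤ 1 → 0 < p → p ≤ 1 →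
    ∀ w : ZMod n → ℝ, (∀ x, w (-x) = w x) → (∀ x, 0 ≤ w x) →
    ∑ x, w x ^ 2 ≤ r4_om κ η p * n → r4_om κ η p * n ≤ (4194304:ℝ) ^ L * κ ^ 2 →
    1 - p ≤ Pq n η (r4_Gd n κ w) := by
  classical
  have hn : (0:ℝ) < n := by exact_mod_cast Nat.pos_of_ne_zero (NeZero.ne n)
  obtain ⟨r1, r2, r3, -, -, r6, r7, -⟩ := h1
  induction L with
  | zero =>
    intro κ η p hκ hκ1 hη hη1 hp hp1 w hw hw0 hw2 hL
    have hall : ∀ A, r4_Gd n κ w A := by
      intro A
      refine ⟨fun _ => 0, fun _ => rfl, by simp, ?_, ?_, ?_⟩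
      · intro k _ _
        unfold fc
        simp
      · intro x
        rw [zero_add]
        apply le_of_sq_le_sq _ hκ.le
        rw [pow_zero, one_mul] at hL
        refine le_trans ?_ (hw2.trans hL)
        exact Finset.single_le_sum (f := fun x => w x ^ 2) (fun y _ => sq_nonneg _)
          (Finset.mem_univ x)
      · simp
        positivity
    have h4 : Ed n η (fun _ => 1) ≤ Pq n η (r4_Gd n κ w) := by
      unfold Pq
      apply r2 n η _ _ hη.le hη1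
      intro A _
      rw [if_pos (hall A)]
    rw [r1] at h4
    linarith
  | succ L ih =>
    intro κ η p hκ hκ1 hη hη1 hp hp1 w hw hw0 hw2 hL
    have hom := r4_om_pos hκ hη hp
    set N : Finset ℕ → ZMod n → ℝ := fun A x =>
      max (|proj A w x / (η / 2) - (w x - (∑ y, w y) / n)| - κ / 4) 0 with hN
    set c : ℝ := r4_om (κ / 2) (η / 2) (p / 2) * n with hc
    have hcpos : 0 < c := by
      rw [hc, r4_om_half]
      positivity
    -- first stage
    have hst := h3 n w (η / 2) (κ / 4) (r4_om κ η p) (by positivity) (by linarith) (by positivity)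
      hom hw2
    have hmark := r7 n (η / 2) (fun A => ∑ x, N A x ^ 2) c (by positivity) (by linarith) hcpos
      (fun A _ => Finset.sum_nonneg fun x _ => sq_nonneg _)
    have hP : 1 - p / 2 ≤ Pq n (η / 2) (fun A => ∑ x, N A x ^ 2 ≤ c) := by
      refine le_trans ?_ hmark
      have h5 : Ed n (η / 2) (fun A => ∑ x, N A x ^ 2) / c ≤ p / 2 := by
        refine le_trans ?_ (r4_num hκ hκ1 hη hη1 hp hp1 hn)
        rw [hc]
        exact div_le_div_of_nonneg_right hst hcpos.le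
      linarith
    -- second stage
    have hin : ∀ A, A ⊆ Cl n → (1 - p / 2) * (if ∑ x, N A x ^ 2 ≤ c then 1 else 0) ≤
        Ed n (η / 2) (fun B => if r4_Gd n κ w (A ∪ B) then 1 else 0) := by
      intro A _
      have hnn : 0 ≤ Ed n (η / 2) (fun B => if r4_Gd n κ w (A ∪ B) then (1:ℝ) else 0) := by
        have := r2 n (η / 2) (fun _ => 0) (fun B => if r4_Gd n κ w (A ∪ B) then (1:ℝ) else 0)
          (by positivity) (by linarith) (fun B _ => by split_ifs <;> norm_num)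
        have h6 : Ed n (η / 2) (fun _ => 0) = 0 := by
          unfold Ed
          simp
        linarith
      split_ifs with hA
      · rw [mul_one]
        have h6 := ih (κ / 2) (η / 2) (p / 2) (by positivity) (by linarith) (by positivity)
          (by linarith) (by positivity) (by linarith) (N A) (by
            intro x
            simp only [hN]
            rw [(h0' n A w hw).1, hw]) (fun x => le_max_right _ _) hA (by
            rw [r4_om_half]
            rw [pow_succ] at hL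
            have : r4_om κ η p / 2 ^ 24 * n = (r4_om κ η p * n) / 2 ^ 24 := by ring
            rw [this, div_le_iff₀ (by positivity)]
            refine hL.trans (le_of_eq ?_)
            ring)
        refine h6.trans ?_
        unfold Pq
        apply r2 n (η / 2) _ _ (by positivity) (by linarith)
        intro B _
        by_cases hB : r4_Gd n (κ / 2) (N A) B
        · rw [if_pos hB, if_pos (r4_comb h0' hκ hκ1 hη hη1 hp hp1 hw hw2 hB)]
        · rw [if_neg hB]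
          split_ifs <;> norm_num
      · rw [mul_zero]
        exact hnn
    have h7 : (1 - p / 2) * Pq n (η / 2) (fun A => ∑ x, N A x ^ 2 ≤ c) ≤
        Ed n (η / 2) (fun A => Ed n (η / 2) (fun B => if r4_Gd n κ w (A ∪ B) then 1 else 0)) := by
      unfold Pq
      rw [← r4_Ed_mul]
      apply r2 n (η / 2) _ _ (by positivity) (by linarith)
      intro A hA
      have h8 := hin A hA
      convert h8
    rw [r3 n (η / 2) (η / 2) (fun A => if r4_Gd n κ w A then 1 else 0)] at h7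
    have h9 : Ed n (η / 2 + η / 2 - η / 2 * (η / 2)) (fun A => if r4_Gd n κ w A then 1 else 0) ≤
        Pq n η (r4_Gd n κ w) := by
      unfold Pq
      have h10 := r6 n (η / 2 + η / 2 - η / 2 * (η / 2)) η
        (fun A => if r4_Gd n κ w A then 1 else 0) (by nlinarith) (by nlinarith) hη1 (by
          intro A B hAB _
          by_cases hA : r4_Gd n κ w A
          · have hB : r4_Gd n κ w B := by
              obtain ⟨v, a1, a2, a3, a4, a5⟩ := hA
              exact ⟨v, a1, a2, fun k hk hkB => a3 k hk (fun h => hkB (hAB h)), a4, a5⟩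
            rw [if_pos hA, if_pos hB]
          · rw [if_neg hA]
            split_ifs <;> norm_num)
      convert h10
    have h11 : (1 - p / 2) * (1 - p / 2) ≤
        (1 - p / 2) * Pq n (η / 2) (fun A => ∑ x, N A x ^ 2 ≤ c) :=
      mul_le_mul_of_nonneg_left hP (by linarith)
    nlinarith [sq_nonneg p]

theorem t_R4 (h0' : S_R0') (h1 : S_R1) (h3 : S_R3) : S_R4 := by
  intro n _ κ η p hκ hκ1 hη hη1 hp hp1 w hw hw0 hw2
  obtain ⟨L, hL⟩ := pow_unbounded_of_one_lt (r4_om κ η p * n / κ ^ 2)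
    (show (1:ℝ) < 4194304 by norm_num)
  have h4 : r4_om κ η p * n ≤ (4194304:ℝ) ^ L * κ ^ 2 := by
    rw [div_lt_iff₀ (by positivity)] at hL
    exact hL.le
  exact r4_ind h0' h1 h3 n L κ η p hκ hκ1 hη hη1 hp hp1 w hw hw0 hw2 h4

end Pool.Agent.H276R2.Th
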