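import Pool.Agent.H276R2.Th.Spec

/-!
# Task R6: deterministic assembly of the repair
-/

set_option autoImplicit false

namespace Pool.Agent.H276R2.Th

open Finset

theorem r6_mink {ι : Type} (s : Finset ι) (f g : ι → ℝ) {a b : ℝ} (ha : 0 ≤ a) (hb : 0 ≤ b)
    (hf : ∑ i ∈ s, f i ^ 2 ≤ a ^ 2) (hg : ∑ i ∈ s, g i ^ 2 ≤ b ^ 2) :
    ∑ i ∈ s, (f i + g i) ^ 2 ≤ (a + b) ^ 2 := by
  have h1 := Finset.sum_mul_sq_le_sq_mul_sq s f g
  have hf0 : 0 ≤ ∑ i ∈ s, f i ^ 2 := Finset.sum_nonneg fun i _ => sq_nonneg _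
  have hg0 : 0 ≤ ∑ i ∈ s, g i ^ 2 := Finset.sum_nonneg fun i _ => sq_nonneg _
  have h2 : (∑ i ∈ s, f i * g i) ^ 2 ≤ (a * b) ^ 2 := by
    calc (∑ i ∈ s, f i * g i) ^ 2 ≤ (∑ i ∈ s, f i ^ 2) * ∑ i ∈ s, g i ^ 2 := h1
      _ ≤ a ^ 2 * b ^ 2 := mul_le_mul hf hg hg0 (sq_nonneg _)
      _ = (a * b) ^ 2 := by ring
  have h3 : ∑ i ∈ s, f i * g i ≤ a * b :=
    le_trans (le_abs_self _) (abs_le_of_sq_le_sq h2 (mul_nonneg ha hb))
  have h4 : ∑ i ∈ s, (f i + g i) ^ 2 =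
      ∑ i ∈ s, f i ^ 2 + 2 * ∑ i ∈ s, f i * g i + ∑ i ∈ s, g i ^ 2 := by
    rw [Finset.mul_sum, ← Finset.sum_add_distrib, ← Finset.sum_add_distrib]
    exact Finset.sum_congr rfl fun i _ => by ring
  rw [h4]
  nlinarith

theorem t_R6 (h0' : S_R0') : S_R6 := by
  intro n hn A R B g v C η κ hC hη0 hη hκ0 hκ1 hg hgC hve hv0 hvB hvκ hw
  obtain ⟨pe, p0, pf, pn⟩ := h0' n R g hg.even
  have hη' : 0 < 1 - η := by linarith
  have hD : 0 < 1 + 2 * κ := by linarith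
  have hD1 : 1 / (1 + 2 * κ) ≤ 1 := by
    rw [div_le_one hD]; linarith
  have hD0 : 0 ≤ 1 / (1 + 2 * κ) := by positivity
  have hc2 : 1 / (1 - η) ≤ 2 := by
    rw [div_le_iff₀ hη']; linarith
  have hc0 : 0 ≤ 1 / (1 - η) := by positivity
  have hn0 : (0 : ℝ) ≤ n := Nat.cast_nonneg _
  refine ⟨fun x => (1 + proj R g x / (1 - η) + v x + 2 * κ) / (1 + 2 * κ), ⟨?_, ?_, ?_⟩, ?_, ?_,
    ?_⟩
  · intro x
    rw [pe, hve]
  · have h1 : ∑ x : ZMod n, (1 + proj R g x / (1 - η) + v x + 2 * κ) / (1 + 2 * κ) =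
        ((∑ x : ZMod n, (1 + 2 * κ)) + (∑ x, proj R g x) / (1 - η) + ∑ x, v x) /
          (1 + 2 * κ) := by
      rw [Finset.sum_div, ← Finset.sum_add_distrib, ← Finset.sum_add_distrib, Finset.sum_div]
      exact Finset.sum_congr rfl fun x _ => by ring
    rw [h1, p0, hv0, Finset.sum_const, Finset.card_univ, ZMod.card, nsmul_eq_mul]
    field_simp
    ring
  · intro k hk hcls
    rw [Finset.mem_union, Finset.mem_inter, not_or, not_and] at hcls
    have h1 : (fun x : ZMod n => (((1 + proj R g x / (1 - η) + v x + 2 * κ) / (1 + 2 * κ) : ℝ) : ℂ))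
        = fun x => ((1 / (1 + 2 * κ) : ℝ) : ℂ) * ((((1 + 2 * κ : ℝ) : ℂ) +
          ((1 / (1 - η) : ℝ) : ℂ) * ((proj R g x : ℝ) : ℂ)) + ((v x : ℝ) : ℂ)) := by
      funext x
      rw [← Complex.ofReal_mul, ← Complex.ofReal_add, ← Complex.ofReal_add, ← Complex.ofReal_mul]
      congr 1
      ring
    rw [h1, fc_mul, fc_add, fc_add, fc_mul, fc_const, if_neg hk, pf, hvB k hk hcls.2]
    by_cases hR : cls n k ∈ R
    · rw [if_pos ⟨hk, hR⟩, hg.spec k hk (fun hA => hcls.1 hA hR)]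
      ring
    · rw [if_neg (fun h => hR h.2)]
      ring
  · intro x
    apply div_nonneg _ hD.le
    have h1 := hw x
    have e : proj R g x / (1 - η) = (proj R g x / (1 - η) - (g x - 1)) + (g x - 1) := by ring
    rw [e]
    generalize proj R g x / (1 - η) - (g x - 1) = N at *
    have h2 := le_max_left (-(g x)) 0
    have h3 := le_max_left (|N| - κ) 0
    have h4 := neg_abs_le N
    linarith
  · -- energy
    have hs : 0 ≤ √C := Real.sqrt_nonneg _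
    have hsn : 0 ≤ √(n : ℝ) := Real.sqrt_nonneg _
    have hsq : √(n : ℝ) ^ 2 = n := Real.sq_sqrt hn0
    have hsC : √C ^ 2 = C := Real.sq_sqrt hC
    have b1 : ∑ x : ZMod n, (1 : ℝ) ^ 2 ≤ (√(n : ℝ)) ^ 2 := by
      rw [hsq, one_pow, Finset.sum_const, Finset.card_univ, ZMod.card, nsmul_eq_mul, mul_one]
    have b2 : ∑ x, (1 / (1 + 2 * κ) * (1 / (1 - η)) * proj R g x) ^ 2 ≤ (2 * √C * √(n : ℝ)) ^ 2 := by
      have h1 : ∀ x ∈ (Finset.univ : Finset (ZMod n)),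
          (1 / (1 + 2 * κ) * (1 / (1 - η)) * proj R g x) ^ 2 ≤ 4 * proj R g x ^ 2 := by
        intro x _
        rw [mul_pow]
        apply mul_le_mul_of_nonneg_right _ (sq_nonneg _)
        have h2 : 1 / (1 + 2 * κ) * (1 / (1 - η)) ≤ 1 * 2 := mul_le_mul hD1 hc2 hc0 (by norm_num)
        have h3 : 0 ≤ 1 / (1 + 2 * κ) * (1 / (1 - η)) := mul_nonneg hD0 hc0
        nlinarith
      calc _ ≤ ∑ x, 4 * proj R g x ^ 2 := Finset.sum_le_sum h1
        _ = 4 * ∑ x, proj R g x ^ 2 := by rw [Finset.mul_sum]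
        _ ≤ 4 * (C * n) := by linarith
        _ = (2 * √C * √(n : ℝ)) ^ 2 := by rw [mul_pow, mul_pow, hsq, hsC]; ring
    have b3 : ∑ x, (1 / (1 + 2 * κ) * v x) ^ 2 ≤ (κ * √(n : ℝ)) ^ 2 := by
      have h1 : ∀ x ∈ (Finset.univ : Finset (ZMod n)),
          (1 / (1 + 2 * κ) * v x) ^ 2 ≤ v x ^ 2 := by
        intro x _
        rw [mul_pow]
        have h2 : (1 / (1 + 2 * κ)) ^ 2 ≤ 1 := pow_le_one₀ hD0 hD1
        nlinarith [sq_nonneg (v x)]
      calc _ ≤ ∑ x, v x ^ 2 := Finset.sum_le_sum h1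
        _ ≤ κ ^ 2 * n := hvκ
        _ = (κ * √(n : ℝ)) ^ 2 := by rw [mul_pow, hsq]
    have h12 := r6_mink Finset.univ _ _ hsn (by positivity) b1 b2
    have h123 := r6_mink Finset.univ _ _ (by positivity) (by positivity) h12 b3
    have e : ∀ x ∈ (Finset.univ : Finset (ZMod n)),
        ((1 + proj R g x / (1 - η) + v x + 2 * κ) / (1 + 2 * κ)) ^ 2 =
        (1 + 1 / (1 + 2 * κ) * (1 / (1 - η)) * proj R g x + 1 / (1 + 2 * κ) * v x) ^ 2 := by
      intro x _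
      congr 1
      field_simp
      ring
    rw [Finset.sum_congr rfl e]
    refine h123.trans ?_
    calc (√(n : ℝ) + 2 * √C * √(n : ℝ) + κ * √(n : ℝ)) ^ 2
        = (1 + 2 * √C + κ) ^ 2 * √(n : ℝ) ^ 2 := by ring
      _ = (1 + 2 * √C + κ) ^ 2 * n := by rw [hsq]
      _ ≤ (4 + 2 * √C) ^ 2 * n := by
          apply mul_le_mul_of_nonneg_right _ hn0
          apply pow_le_pow_left₀ (by positivity)
          linarith
  · apply div_le_div_of_nonneg_right _ hD.le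
    have h1 := hw 0
    have e : proj R g 0 / (1 - η) = (proj R g 0 / (1 - η) - (g 0 - 1)) + (g 0 - 1) := by ring
    have e2 : 1 + proj R g 0 / (1 - η) + v 0 + 2 * κ =
      g 0 + (proj R g 0 / (1 - η) - (g 0 - 1)) + v 0 + 2 * κ := by ring
    rw [e2]
    generalize proj R g 0 / (1 - η) - (g 0 - 1) = N at *
    have h2 := le_max_right (-(g 0)) 0
    have h3 := le_max_right (|N| - κ) 0
    have h4 := neg_abs_le N
    linarith

end Pool.Agent.H276R2.Th
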