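import Pool.Agent.H276R2.Th.Spec

/-!
# R7: conclusion of part R
-/

set_option autoImplicit false

namespace Pool.Agent.H276R2.Th

open Finset Real

lemma r7_eta (κ p C : ℝ) (hκ : 0 < κ) (hp : 0 < p) (hC : 1 ≤ C) :
    ∃ η : ℝ, 0 < η ∧ η ≤ 1 / 2 ∧
      4 * (8 * η * C) ^ 2 / κ ^ 2 * exp (-κ ^ 2 / (2 * (8 * η * C))) ≤
        p * ((κ * (η / 2) * p) ^ 8 / 10 ^ 6 / 4) := by
  have hC0 : 0 < C := by linarith
  set a : ℝ := κ ^ 2 / (16 * C) with ha
  have ha0 : 0 < a := by positivity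
  set c' : ℝ := p * κ ^ 8 * p ^ 8 / (2 ^ 8 * 10 ^ 6 * 4) with hc'
  have hc'0 : 0 < c' := by positivity
  set K : ℝ := c' * a ^ 6 / (256 * C ^ 2 / κ ^ 2) with hK
  have hK0 : 0 < K := by positivity
  have h1 := (tendsto_pow_mul_exp_neg_atTop_nhds_zero 6).eventually (gt_mem_nhds hK0)
  obtain ⟨x, hx1, hx2⟩ := (h1.and (Filter.eventually_ge_atTop (max 1 (2 * a)))).exists
  have hx0 : 0 < x := lt_of_lt_of_le one_pos ((le_max_left _ _).trans hx2)
  have hxa : 2 * a ≤ x := (le_max_right _ _).trans hx2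
  refine ⟨a / x, by positivity, ?_, ?_⟩
  · rw [div_le_iff₀ hx0]; linarith
  · have e1 : -κ ^ 2 / (2 * (8 * (a / x) * C)) = -x := by
      rw [ha]
      field_simp
      ring
    rw [e1]
    have e2 : 4 * (8 * (a / x) * C) ^ 2 / κ ^ 2 * exp (-x) =
        (a / x) ^ 2 / x ^ 6 * ((256 * C ^ 2 / κ ^ 2) * (x ^ 6 * exp (-x))) := by
      field_simp
      try ring
    have e3 : p * ((κ * (a / x / 2) * p) ^ 8 / 10 ^ 6 / 4) =
        (a / x) ^ 2 / x ^ 6 * ((256 * C ^ 2 / κ ^ 2) * K) := by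
      rw [hK, hc']
      field_simp
      try ring
    rw [e2, e3]
    refine mul_le_mul_of_nonneg_left (mul_le_mul_of_nonneg_left hx1.le (by positivity))
      (by positivity)

lemma r7_Ed_mul (n : ℕ) (q c : ℝ) (f : Finset ℕ → ℝ) :
    Ed n q (fun A => c * f A) = c * Ed n q f := by
  unfold Ed
  rw [Finset.mul_sum]
  exact Finset.sum_congr rfl fun A _ => by ring

lemma r7_Nice_mono {n : ℕ} [NeZero n] {A B : Finset ℕ} {g : ZMod n → ℝ} (h : Nice A g)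
    (hAB : A ⊆ B) : Nice B g :=
  ⟨h.even, h.mean, fun k hk hkB => h.spec k hk fun hkA => hkB (hAB hkA)⟩

lemma r7_a1 (κ : ℝ) (h : 0 < κ) (_h1 : κ ≤ 1 / 16) :
    (1 - 8 * κ) * (1 + 2 * κ) ≤ 1 - 3 * κ := by nlinarith

lemma r7_a2 (κ : ℝ) (h : 0 < κ) (h1 : κ ≤ 1 / 16) :
    1 - 8 * κ ≤ ((1 - κ) * (1 - κ)) * (1 - κ) := by
  nlinarith [mul_nonneg (sq_nonneg κ) (by linarith : (0 : ℝ) ≤ 3 - κ)]

lemma r7_a3 (a b : ℝ) : (a + b) ^ 2 ≤ 2 * a ^ 2 + 2 * b ^ 2 := by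
  nlinarith [sq_nonneg (a - b)]

lemma r7_a4 (κ η : ℝ) (h : 0 < κ) (h1 : κ ≤ 1 / 16) (h2 : 0 < η) (h3 : η ≤ 1 / 2) :
    (κ * (η / 2) * κ) ^ 8 / 10 ^ 6 ≤ κ ^ 2 := by
  have e1 : κ * (η / 2) * κ ≤ κ := by
    have : (η / 2) * κ ≤ 1 := by nlinarith
    nlinarith
  have e2 : (κ * (η / 2) * κ) ^ 8 ≤ κ ^ 8 := pow_le_pow_left₀ (by positivity) e1 8
  have e3 : κ ^ 8 ≤ κ ^ 2 := pow_le_pow_of_le_one h.le (by linarith) (by norm_num)
  have e4 : (κ * (η / 2) * κ) ^ 8 / 10 ^ 6 ≤ (κ * (η / 2) * κ) ^ 8 :=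
    div_le_self (by positivity) (by norm_num)
  linarith

lemma r7_a5 (κ η δ C : ℝ) (h : 0 < κ) (h1 : κ ≤ 1 / 16) (h2 : 0 < η) (h3 : δ ≤ η) (hC : 1 ≤ C) :
    2 * δ * κ ≤ 8 * (1 - (1 - η)) * C := by
  have e1 : 2 * δ * κ ≤ 2 * η * κ := by nlinarith
  have e2 : 2 * η * κ ≤ 2 * η := by nlinarith
  have e3 : 8 * η ≤ 8 * η * C := by nlinarith
  have e4 : 8 * (1 - (1 - η)) * C = 8 * η * C := by ring
  linarith

lemma r7_a6 (η : ℝ) (h2 : 0 < η) (h3 : η ≤ 1 / 2) :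
    0 ≤ 1 / 2 * (1 - η) + η / 2 - 1 / 2 * (1 - η) * (η / 2) ∧
      1 / 2 * (1 - η) + η / 2 - 1 / 2 * (1 - η) * (η / 2) ≤ 1 / 2 := by
  constructor <;> nlinarith

lemma r7_a7 (κ ε₀ sq g0 N0 : ℝ) (h : 0 < κ) (h1 : κ ≤ 1 / 16) (hε : 8 * κ ≤ ε₀)
    (hsq : 1 ≤ sq) (hg : (1 - κ) * sq ≤ g0) (hN : N0 ≤ κ + κ * sq) :
    (1 - ε₀) * sq * (1 + 2 * κ) ≤ g0 - N0 := by
  have e2 : (1 - ε₀) * sq * (1 + 2 * κ) ≤ (1 - 8 * κ) * sq * (1 + 2 * κ) := by
    refine mul_le_mul_of_nonneg_right ?_ (by positivity)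
    exact mul_le_mul_of_nonneg_right (by linarith) (by linarith)
  have e5 : (1 - 8 * κ) * sq * (1 + 2 * κ) = ((1 - 8 * κ) * (1 + 2 * κ)) * sq := by ring
  have e6 : ((1 - 8 * κ) * (1 + 2 * κ)) * sq ≤ (1 - 3 * κ) * sq :=
    mul_le_mul_of_nonneg_right (r7_a1 κ h h1) (by linarith)
  have e7 : κ * 1 ≤ κ * sq := mul_le_mul_of_nonneg_left hsq h.le
  linarith

open Classical in
theorem t_R7 (h0' : S_R0') (h1 : S_R1) (h4 : S_R4) (h5 : S_R5) (h6 : S_R6) : S_R7 := by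
  obtain ⟨r1, r2, r3, r4, r5, r6, r7, -⟩ := h1
  rintro ⟨C₀, hM⟩
  set C : ℝ := max C₀ 1 with hC
  have hC1 : 1 ≤ C := le_max_right _ _
  have hC₀ : C₀ ≤ C := le_max_left _ _
  refine ⟨(4 + 2 * √C) ^ 2, fun ε₀ hε₀ => ?_⟩
  set ε : ℝ := min ε₀ (1 / 2) with hε
  have hε0 : 0 < ε := lt_min hε₀ (by norm_num)
  have hε1 : ε ≤ 1 / 2 := min_le_right _ _
  have hεε : ε ≤ ε₀ := min_le_left _ _
  set κ : ℝ := ε / 8 with hκ
  have hκ0 : 0 < κ := by positivity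
  have hκ1 : κ ≤ 1 / 16 := by rw [hκ]; linarith
  obtain ⟨η, hη0, hη1, hη⟩ := r7_eta κ κ C hκ0 hκ0 hC1
  set ω : ℝ := (κ * (η / 2) * κ) ^ 8 / 10 ^ 6 with hω
  have hω0 : 0 < ω := by positivity
  have hωκ : ω ≤ κ ^ 2 := r7_a4 κ η hκ0 hκ1 hη0 hη1
  set δ : ℝ := min κ (min (ω / 4) η) with hδ
  have hδ0 : 0 < δ := lt_min hκ0 (lt_min (by positivity) hη0)
  have hδκ : δ ≤ κ := min_le_left _ _
  have hδω : δ ≤ ω / 4 := (min_le_right _ _).trans (min_le_left _ _)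
  have hδη : δ ≤ η := (min_le_right _ _).trans (min_le_right _ _)
  obtain ⟨n₀, hn₀⟩ := hM δ hδ0
  refine ⟨max n₀ 1, fun n _ hn => ?_⟩
  have hn1 : 1 ≤ n := (le_max_right _ _).trans hn
  have hnpos : (0 : ℝ) < n := by exact_mod_cast hn1
  have hsq1 : 1 ≤ √(n : ℝ) := by
    rw [show (1 : ℝ) = √1 by simp]
    exact Real.sqrt_le_sqrt (by exact_mod_cast hn1)
  have hPrM := hn₀ n ((le_max_left _ _).trans hn)
  -- indicator of the final event
  set f : Finset ℕ → ℝ := fun A => if Good ((4 + 2 * √C) ^ 2) ε₀ n A then 1 else 0 with hf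
  have hf0 : ∀ A, 0 ≤ f A := by
    intro A; simp only [hf]; split_ifs <;> norm_num
  have hfmono : ∀ A B, A ⊆ B → B ⊆ Cl n → f A ≤ f B := by
    intro A B hAB _
    simp only [hf]
    by_cases h : Good ((4 + 2 * √C) ^ 2) ε₀ n A
    · obtain ⟨g, g1, g2, g3, g4⟩ := h
      have hB : Good ((4 + 2 * √C) ^ 2) ε₀ n B := ⟨g, r7_Nice_mono g1 hAB, g2, g3, g4⟩
      rw [if_pos hB]
      split_ifs <;> norm_num
    · rw [if_neg h]
      split_ifs <;> norm_num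
  -- the main deterministic + probabilistic step
  have hstep3 : ∀ A, A ⊆ Cl n → ApproxGood C₀ δ n A →
      (1 - κ) * (1 - κ) ≤ Ed n (1 - η) (fun R => Ed n (η / 2) (fun B => f ((A ∩ R) ∪ B))) := by
    intro A hA hAG
    obtain ⟨g, g1, g2, g3, g4, g5⟩ := hAG
    have g4' : ∑ x, g x ^ 2 ≤ C * n :=
      g4.trans (mul_le_mul_of_nonneg_right hC₀ hnpos.le)
    have hmean : (∑ y, g y) / n = 1 := by rw [g1.mean]; exact div_self hnpos.ne'
    set Nf : Finset ℕ → ZMod n → ℝ := fun R x => proj R g x / (1 - η) - (g x - 1) with hNf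
    have h5' := h5 n g (1 - η) κ C δ (by linarith) (by linarith) hκ0 (by linarith) hδ0.le g4' g5
      (r7_a5 κ η δ C hκ0 hκ1 hη0 hδη hC1)
    rw [hmean] at h5'
    have e0 : (1 : ℝ) - (1 - η) = η := by ring
    rw [e0] at h5'
    have hbnd : Ed n (1 - η) (fun R => ∑ x, (max (|Nf R x| - κ) 0) ^ 2) ≤ κ * (ω / 4) * n := by
      refine h5'.trans ?_
      have e1 : (n : ℝ) * (4 * (8 * η * C) ^ 2 / κ ^ 2) * exp (-κ ^ 2 / (2 * (8 * η * C))) =
        (4 * (8 * η * C) ^ 2 / κ ^ 2 * exp (-κ ^ 2 / (2 * (8 * η * C)))) * n := by ring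
      rw [e1]
      refine mul_le_mul_of_nonneg_right ?_ hnpos.le
      exact hη
    have hmark := r7 n (1 - η) (fun R => ∑ x, (max (|Nf R x| - κ) 0) ^ 2) (ω / 4 * n)
      (by linarith) (by linarith) (by positivity)
      (fun R _ => sum_nonneg fun x _ => sq_nonneg _)
    have hPqR : 1 - κ ≤ Pq n (1 - η) (fun R => ∑ x, (max (|Nf R x| - κ) 0) ^ 2 ≤ ω / 4 * n) := by
      refine le_trans ?_ hmark
      have : Ed n (1 - η) (fun R => ∑ x, (max (|Nf R x| - κ) 0) ^ 2) / (ω / 4 * n) ≤ κ := by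
        rw [div_le_iff₀ (by positivity)]
        calc _ ≤ κ * (ω / 4) * n := hbnd
          _ = κ * (ω / 4 * n) := by ring
      linarith
    -- for a good `R`
    have hgoodR : ∀ R, R ⊆ Cl n → ∑ x, (max (|Nf R x| - κ) 0) ^ 2 ≤ ω / 4 * n →
        1 - κ ≤ Ed n (η / 2) (fun B => f ((A ∩ R) ∪ B)) := by
      intro R hR hRg
      obtain ⟨p1, p2, p3, p4⟩ := h0' n R g g1.even
      set w : ZMod n → ℝ := fun x => max (-(g x)) 0 + max (|Nf R x| - κ) 0 with hw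
      have hw_even : ∀ x, w (-x) = w x := by
        intro x
        simp only [hw, hNf, g1.even x, p1 x]
      have hw0 : ∀ x, 0 ≤ w x := fun x => add_nonneg (le_max_right _ _) (le_max_right _ _)
      have hw2 : ∑ x, w x ^ 2 ≤ (κ * (η / 2) * κ) ^ 8 / 10 ^ 6 * n := by
        calc ∑ x, w x ^ 2 ≤ ∑ x, (2 * (max (-(g x)) 0) ^ 2 + 2 * (max (|Nf R x| - κ) 0) ^ 2) := by
              refine sum_le_sum fun x _ => ?_
              exact r7_a3 _ _
          _ = 2 * ∑ x, (max (-(g x)) 0) ^ 2 + 2 * ∑ x, (max (|Nf R x| - κ) 0) ^ 2 := by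
              rw [sum_add_distrib, mul_sum, mul_sum]
          _ ≤ 2 * (ω / 4 * n) + 2 * (ω / 4 * n) := by
              have : δ * n ≤ ω / 4 * n := mul_le_mul_of_nonneg_right hδω hnpos.le
              linarith
          _ = (κ * (η / 2) * κ) ^ 8 / 10 ^ 6 * n := by rw [← hω]; ring
      have h4' := h4 n κ (η / 2) κ hκ0 (by linarith) (by positivity) (by linarith) hκ0
        (by linarith) w hw_even hw0 hw2
      refine h4'.trans ?_
      refine r2 n (η / 2) _ _ (by positivity) (by linarith) fun B hB => ?_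
      by_cases hv : ∃ v : ZMod n → ℝ, (∀ x, v (-x) = v x) ∧ ∑ x, v x = 0 ∧
        (∀ k : ZMod n, k ≠ 0 → cls n k ∉ B → fc (fun x => (v x : ℂ)) k = 0) ∧
        (∀ x, w x ≤ v x + κ) ∧ ∑ x, v x ^ 2 ≤ κ ^ 2 * n
      · rw [if_pos hv]
        obtain ⟨v, v1, v2, v3, v4, v5⟩ := hv
        obtain ⟨G, G1, G2, G3, G4⟩ := h6 n A R B g v C η κ (by linarith) hη0.le hη1 hκ0.le
          (by linarith) g1 g4' v1 v2 v3 v5 v4
        have hN0 : |Nf R 0| ≤ κ + κ * √n := by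
          have e1 : (max (|Nf R 0| - κ) 0) ^ 2 ≤ ω / 4 * n :=
            (single_le_sum (f := fun x => (max (|Nf R x| - κ) 0) ^ 2) (fun x _ => sq_nonneg _)
              (mem_univ 0)).trans hRg
          have e2 : (max (|Nf R 0| - κ) 0) ^ 2 ≤ (κ * √n) ^ 2 := by
            refine e1.trans ?_
            rw [mul_pow, Real.sq_sqrt hnpos.le]
            refine mul_le_mul_of_nonneg_right ?_ hnpos.le
            linarith
          have e3 : max (|Nf R 0| - κ) 0 ≤ κ * √n := by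
            have := abs_le_of_sq_le_sq e2 (by positivity)
            exact (le_abs_self _).trans this
          have e4 := le_max_left (|Nf R 0| - κ) 0
          linarith
        have hG0 : (1 - ε₀) * √n ≤ G 0 := by
          refine le_trans ?_ G4
          rw [le_div_iff₀ (by positivity)]
          have e1 : (1 - κ) * √n ≤ g 0 := by
            refine le_trans ?_ g2
            exact mul_le_mul_of_nonneg_right (by linarith) (by linarith)
          exact r7_a7 κ ε₀ (√n) (g 0) _ hκ0 hκ1 (by rw [hκ]; linarith) hsq1 e1 hN0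
        have hgood : Good ((4 + 2 * √C) ^ 2) ε₀ n ((A ∩ R) ∪ B) := ⟨G, G1, G2, hG0, G3⟩
        simp only [hf]
        rw [if_pos hgood]
      · rw [if_neg hv]
        exact hf0 _
    -- integrate over `R`
    have hR2 : Ed n (1 - η) (fun R => (1 - κ) *
        (if ∑ x, (max (|Nf R x| - κ) 0) ^ 2 ≤ ω / 4 * n then (1 : ℝ) else 0)) ≤
        Ed n (1 - η) (fun R => Ed n (η / 2) (fun B => f ((A ∩ R) ∪ B))) := by
      refine r2 n (1 - η) _ _ (by linarith) (by linarith) fun R hR => ?_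
      by_cases h : ∑ x, (max (|Nf R x| - κ) 0) ^ 2 ≤ ω / 4 * n
      · rw [if_pos h, mul_one]
        exact hgoodR R hR h
      · rw [if_neg h, mul_zero]
        have := r2 n (η / 2) (fun _ => 0) (fun B => f ((A ∩ R) ∪ B)) (by positivity)
          (by linarith) (fun B _ => hf0 _)
        refine le_trans (le_of_eq ?_) this
        simp [Ed]
    refine le_trans ?_ hR2
    rw [r7_Ed_mul]
    exact mul_le_mul_of_nonneg_left hPqR (by linarith)
  -- integrate over `A`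
  have hA2 : Ed n (1 / 2) (fun A => ((1 - κ) * (1 - κ)) *
      (if ApproxGood C₀ δ n A then (1 : ℝ) else 0)) ≤
      Ed n (1 / 2) (fun A => Ed n (1 - η) (fun R => Ed n (η / 2) (fun B => f ((A ∩ R) ∪ B)))) := by
    refine r2 n (1 / 2) _ _ (by norm_num) (by norm_num) fun A hA => ?_
    by_cases h : ApproxGood C₀ δ n A
    · rw [if_pos h, mul_one]
      exact hstep3 A hA h
    · rw [if_neg h, mul_zero]
      have e1 : ∀ R : Finset ℕ, 0 ≤ Ed n (η / 2) (fun B => f ((A ∩ R) ∪ B)) := by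
        intro R
        have := r2 n (η / 2) (fun _ => 0) (fun B => f ((A ∩ R) ∪ B)) (by positivity)
          (by linarith) (fun B _ => hf0 _)
        refine le_trans (le_of_eq ?_) this
        simp [Ed]
      have := r2 n (1 - η) (fun _ => 0) (fun R => Ed n (η / 2) (fun B => f ((A ∩ R) ∪ B)))
        (by linarith) (by linarith) (fun R _ => e1 R)
      refine le_trans (le_of_eq ?_) this
      simp [Ed]
  rw [r7_Ed_mul, r5] at hA2
  have hlow : ((1 - κ) * (1 - κ)) * (1 - κ) ≤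
      Ed n (1 / 2) (fun A => Ed n (1 - η) (fun R => Ed n (η / 2) (fun B => f ((A ∩ R) ∪ B)))) := by
    refine le_trans ?_ hA2
    refine mul_le_mul_of_nonneg_left ?_ (mul_self_nonneg _)
    have e1 : Ex n (fun A => if ApproxGood C₀ δ n A then (1 : ℝ) else 0) =
        Pr n (ApproxGood C₀ δ n) := by
      unfold Pr
      rfl
    rw [e1]
    linarith
  rw [r4 n (1 / 2) (1 - η) (fun A => Ed n (η / 2) (fun B => f (A ∪ B))),
    r3 n (1 / 2 * (1 - η)) (η / 2) f] at hlow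
  have hmono := r6 n (1 / 2 * (1 - η) + η / 2 - 1 / 2 * (1 - η) * (η / 2)) (1 / 2) f
    (r7_a6 η hη0 hη1).1 (r7_a6 η hη0 hη1).2 (by norm_num) hfmono
  rw [r5] at hmono
  have e2 : Pr n (Good ((4 + 2 * √C) ^ 2) ε₀ n) = Ex n f := by
    unfold Pr
    rfl
  rw [e2]
  have e3 : 1 - ε₀ ≤ ((1 - κ) * (1 - κ)) * (1 - κ) := by
    have e4 : ε = 8 * κ := by rw [hκ]; ring
    have e5 := r7_a2 κ hκ0 hκ1
    linarith
  linarith

end Pool.Agent.H276R2.Th
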