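import Pool.Agent.H276R2.Th.Spec

/-! # Convergence of the correlations (task S) -/

set_option autoImplicit false

namespace Pool.Agent.H276R2.Th

open Finset Real

theorem s_pow_le (u : ℝ) (h0 : 0 ≤ u) (h1 : u ≤ 1) (d : ℕ) :
    1 - (1 - u) ^ (d + 2) ≤ ((d + 2 : ℕ) : ℝ) * u - u ^ 2 := by
  induction d with
  | zero => push_cast; nlinarith
  | succ d ih =>
    have h2 : (1 - u) ^ (d + 2) ≤ 1 := pow_le_one₀ (by linarith) (by linarith)
    have h3 : (1 - u) ^ (d + 1 + 2) = (1 - u) ^ (d + 2) * (1 - u) := by ring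
    rw [h3]
    push_cast at ih ⊢
    nlinarith

theorem t_S : S_S := by
  intro ε hε
  refine ⟨min (1 / 20) (3 / 20 * ε), by positivity, ?_⟩
  intro D c hc0 hc1 h1 h2
  set δ := min (1 / 20) (3 / 20 * ε) with hδ
  have hδ0 : 0 < δ := by positivity
  have hδ1 : δ ≤ 1 / 20 := min_le_left _ _
  have hδ2 : δ ≤ 3 / 20 * ε := min_le_right _ _
  set W := ∑ d ∈ range (D + 1), c d ^ 2 * d.factorial with hW
  have hw : ∀ d, 0 ≤ c d ^ 2 * (d.factorial : ℝ) := fun d => by positivity
  have hW0 : 0 ≤ W := Finset.sum_nonneg fun d _ => hw d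
  have hW1 : 2.2 ≤ W := by
    have := (abs_le.1 h2).1
    have := Real.pi_gt_d2
    norm_num at *
    linarith
  have hs : sP D c ^ 2 = 4 + W := by
    rw [sP, Real.sq_sqrt (by linarith)]
  have hs2 : 2 ≤ sP D c := by
    rw [sP]
    apply Real.le_sqrt_of_sq_le
    norm_num
    exact hW0
  have hr : ∀ m, 0 ≤ rho D c m ∧ rho D c m ≤ 1 := by
    intro m
    induction m with
    | zero =>
      constructor
      · rw [rho]; positivity
      · rw [rho, div_le_one (by linarith)]; exact hs2
    | succ m ih =>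
      have h3 : ∑ d ∈ range (D + 1), c d ^ 2 * d.factorial * rho D c m ^ d ≤ W :=
        Finset.sum_le_sum fun d _ => by
          have := pow_le_one₀ (n := d) ih.1 ih.2
          have := hw d
          nlinarith
      have h4 : 0 ≤ ∑ d ∈ range (D + 1), c d ^ 2 * d.factorial * rho D c m ^ d :=
        Finset.sum_nonneg fun d _ => mul_nonneg (hw d) (pow_nonneg ih.1 _)
      constructor
      · rw [rho]; positivity
      · rw [rho, hs, div_le_one (by linarith)]; linarith
  have hstep : ∀ m, 1 - rho D c (m + 1) ≤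
      (1 + δ) * (1 - rho D c m) - 3 / 10 * (1 - rho D c m) ^ 2 := by
    intro m
    set u := 1 - rho D c m with hu
    have hu0 : 0 ≤ u := by have := (hr m).2; linarith
    have hu1 : u ≤ 1 := by have := (hr m).1; linarith
    have hru : rho D c m = 1 - u := by rw [hu]; ring
    have h3 : ∀ d, c d ^ 2 * d.factorial * (1 - rho D c m ^ d) ≤
        c d ^ 2 * d.factorial * ((d : ℝ) * u - u ^ 2) := by
      intro d
      rcases d with _ | _ | d
      · simp [hc0]
      · simp [hc1]
      · rw [hru]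
        exact mul_le_mul_of_nonneg_left (s_pow_le u hu0 hu1 d) (hw _)
    have h4 : ∑ d ∈ range (D + 1), c d ^ 2 * d.factorial * (1 - rho D c m ^ d) ≤
        ∑ d ∈ range (D + 1), c d ^ 2 * d.factorial * ((d : ℝ) * u - u ^ 2) :=
      Finset.sum_le_sum fun d _ => h3 d
    have h5 : ∑ d ∈ range (D + 1), c d ^ 2 * d.factorial * ((d : ℝ) * u - u ^ 2) =
        u * (∑ d ∈ range (D + 1), ((d : ℝ) - 1) * (c d ^ 2 * d.factorial) + W) - u ^ 2 * W := by
      rw [hW, mul_add, Finset.mul_sum, Finset.mul_sum, Finset.mul_sum, ← Finset.sum_add_distrib,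
        ← Finset.sum_sub_distrib]
      exact Finset.sum_congr rfl fun d _ => by ring
    have h6 : ∑ d ∈ range (D + 1), c d ^ 2 * d.factorial * (1 - rho D c m ^ d) =
        W - ∑ d ∈ range (D + 1), c d ^ 2 * d.factorial * rho D c m ^ d := by
      rw [hW, ← Finset.sum_sub_distrib]
      exact Finset.sum_congr rfl fun d _ => by ring
    have h7 : 1 - rho D c (m + 1) =
        (∑ d ∈ range (D + 1), c d ^ 2 * d.factorial * (1 - rho D c m ^ d)) / (4 + W) := by
      rw [h6, rho, hs]
      field_simp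
      ring
    rw [h7, div_le_iff₀ (by linarith)]
    have h8 : u * (∑ d ∈ range (D + 1), ((d : ℝ) - 1) * (c d ^ 2 * d.factorial) + W) ≤
        u * (4 + δ + W) := mul_le_mul_of_nonneg_left (by linarith) hu0
    have h9 : 0 ≤ u * δ := mul_nonneg hu0 hδ0.le
    have h10 : 0 ≤ u ^ 2 := sq_nonneg u
    rw [h5] at h4
    have h11 : u * δ ≤ u * δ * (4 + W) := by nlinarith
    have h12 : 3 / 10 * u ^ 2 * (4 + W) ≤ u ^ 2 * W := by nlinarith
    nlinarith
  by_contra hcon
  push Not at hcon
  have hε1 : ε < 1 := by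
    have := hcon 0
    have := (hr 0).1
    linarith
  have hq0 : 0 ≤ 1 - 3 / 20 * ε := by linarith
  have hq1 : 1 - 3 / 20 * ε < 1 := by linarith
  have hdec : ∀ m, 1 - rho D c m ≤ (1 - 3 / 20 * ε) ^ m := by
    intro m
    induction m with
    | zero => have := (hr 0).1; rw [pow_zero]; linarith
    | succ m ih =>
      have h3 := hstep m
      have h4 := hcon m
      have h5 : 1 - rho D c (m + 1) ≤ (1 - 3 / 20 * ε) * (1 - rho D c m) := by
        nlinarith
      calc 1 - rho D c (m + 1) ≤ (1 - 3 / 20 * ε) * (1 - rho D c m) := h5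
        _ ≤ (1 - 3 / 20 * ε) * (1 - 3 / 20 * ε) ^ m := mul_le_mul_of_nonneg_left ih hq0
        _ = _ := by ring
  obtain ⟨m, hm⟩ := exists_pow_lt_of_lt_one hε hq1
  have := hcon m
  have := hdec m
  linarith

end Pool.Agent.H276R2.Th
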