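import Pool.Agent.H276R2.Th.Spec

/-!
# The iterates satisfy `Step` (task ST)
-/

set_option autoImplicit false

namespace Pool.Agent.H276R2.Th

open Finset

theorem st_aeval (P : Polynomial ℝ) (z : ℂ) (h : z = (z.re : ℂ)) :
    Polynomial.aeval z P = ((P.eval z.re : ℝ) : ℂ) := by
  conv_lhs => rw [h]
  rw [show ((z.re : ℝ) : ℂ) = algebraMap ℝ ℂ z.re from rfl, Polynomial.aeval_algebraMap_apply]
  rfl

theorem t_ST (w0 : S_W0) (w3 : S_W3) (gl : S_GL) : S_ST := by
  intro D c m J _ tr α β hst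
  have hre : ∀ γ : J → ℝ, ∀ (n : ℕ) [NeZero n] (A : Finset ℕ) (x : ZMod n),
      Gf tr γ n A x = ((Gf tr γ n A x).re : ℂ) := fun γ n _ A x =>
    ((w0 J tr 0 (fun _ => γ)).2.2.1 γ n A x).1
  refine ⟨gl J tr α hst.nα, gl J tr β hst.nβ, ?_, ?_⟩
  · obtain ⟨K, hK⟩ := w3 J tr α 1 1 (fun _ => β)
    refine ⟨K, fun n _ => ?_⟩
    have hk := hK n
    have hW : ∀ (γ : J → ℝ) (A : Finset ℕ) (x : ZMod n),
        Wf tr (fun _ : Fin 1 => γ) n A x = (((Gf tr γ n A x).re : ℝ) : ℂ) := fun γ A x => by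
      rw [(w0 J tr 0 (fun _ => γ)).2.2.2.2.2.2 γ n A x]
      exact hre γ n A x
    have h1 : (fun A : Finset ℕ => (∑ x, Wf tr (fun _ : Fin 1 => α) n A x *
        Wf tr (fun _ : Fin 1 => β) n A x) / (n : ℂ)) =
        fun A => (((∑ x, (Gf tr α n A x).re * (Gf tr β n A x).re) / n : ℝ) : ℂ) := by
      funext A
      simp_rw [hW]
      push_cast
      rfl
    rw [h1, ExC_ofReal, if_pos rfl, ← Complex.ofReal_sub, Complex.norm_real, Real.norm_eq_abs] at hk
    simpa [hst.cov] using hk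
  · obtain ⟨K, hK⟩ := hst.rel
    refine ⟨K, fun n _ => ?_⟩
    refine le_trans (le_of_eq ?_) (hK n)
    apply Finset.sum_congr rfl
    intro x _
    congr 1
    funext A
    congr 2
    have h1 : (fun y : ZMod n => (((if y = 0 then 2 * Real.sqrt n else 0) +
        (PP D c).eval (Gf tr α n A y).re : ℝ) : ℂ)) =
        (fun y => (if y = 0 then ((2 * Real.sqrt n : ℝ) : ℂ) else 0) +
          Polynomial.aeval (Gf tr α n A y) (PP D c)) := by
      funext y
      rw [st_aeval _ _ (hre α n A y)]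
      split_ifs <;> push_cast <;> ring
    rw [h1]
    congr 1
    rw [hre β n A x]
    push_cast
    simp

end Pool.Agent.H276R2.Th
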