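import Pool.Agent.H276R2.Th.Spec

/-!
# U0: the supremum `lam` is attained
-/

set_option autoImplicit false

namespace Pool.Agent.H276R2.Th

open Finset Real

/-- The set of admissible functions in `lam`. -/
def u0_K (n : ℕ) [NeZero n] (A : Finset ℕ) : Set (ZMod n → ℝ) :=
  {g | Nice A g ∧ (∀ x, 0 ≤ g x) ∧ ∑ x, (g x) ^ 2 ≤ 5 / 4 * n}

theorem u0_closed (n : ℕ) [NeZero n] (A : Finset ℕ) : IsClosed (u0_K n A) := by
  have h : u0_K n A = (⋂ x : ZMod n, {g : ZMod n → ℝ | g (-x) = g x}) ∩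
      {g : ZMod n → ℝ | ∑ x, g x = n} ∩
      (⋂ k : ZMod n, {g : ZMod n → ℝ | k ≠ 0 → cls n k ∉ A → fc (fun x => (g x : ℂ)) k = 0}) ∩
      (⋂ x : ZMod n, {g : ZMod n → ℝ | 0 ≤ g x}) ∩
      {g : ZMod n → ℝ | ∑ x, (g x) ^ 2 ≤ 5 / 4 * n} := by
    ext g
    simp only [u0_K, Set.mem_ofPred_eq, Set.mem_inter_iff, Set.mem_iInter]
    constructor
    · rintro ⟨⟨h1, h2, h3⟩, h4, h5⟩
      exact ⟨⟨⟨⟨h1, h2⟩, h3⟩, h4⟩, h5⟩
    · rintro ⟨⟨⟨⟨h1, h2⟩, h3⟩, h4⟩, h5⟩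
      exact ⟨⟨h1, h2, h3⟩, h4, h5⟩
  rw [h]
  refine IsClosed.inter (IsClosed.inter (IsClosed.inter (IsClosed.inter ?_ ?_) ?_) ?_) ?_
  · exact isClosed_iInter fun x => isClosed_eq (by fun_prop) (by fun_prop)
  · exact isClosed_eq (by fun_prop) (by fun_prop)
  · refine isClosed_iInter fun k => ?_
    by_cases hk : k ≠ 0 ∧ cls n k ∉ A
    · have : {g : ZMod n → ℝ | k ≠ 0 → cls n k ∉ A → fc (fun x => (g x : ℂ)) k = 0} =
          {g : ZMod n → ℝ | fc (fun x => (g x : ℂ)) k = 0} := by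
        ext g
        simp only [Set.mem_ofPred_eq]
        exact ⟨fun h => h hk.1 hk.2, fun h _ _ => h⟩
      rw [this]
      refine isClosed_eq ?_ (by fun_prop)
      unfold fc
      fun_prop
    · have : {g : ZMod n → ℝ | k ≠ 0 → cls n k ∉ A → fc (fun x => (g x : ℂ)) k = 0} =
          Set.univ := by
        ext g
        simp only [Set.mem_ofPred_eq, Set.mem_univ, iff_true]
        intro h1 h2
        exact absurd ⟨h1, h2⟩ hk
      rw [this]
      exact isClosed_univ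
  · exact isClosed_iInter fun x => isClosed_le (by fun_prop) (by fun_prop)
  · exact isClosed_le (by fun_prop) (by fun_prop)

theorem u0_compact (n : ℕ) [NeZero n] (A : Finset ℕ) : IsCompact (u0_K n A) := by
  have h1 : IsCompact (Set.pi Set.univ (fun _ : ZMod n => Set.Icc (0 : ℝ) (5 / 4 * n + 1))) :=
    isCompact_univ_pi fun _ => isCompact_Icc
  refine h1.of_isClosed_subset (u0_closed n A) ?_
  intro g hg
  rw [Set.mem_univ_pi]
  intro x
  refine ⟨hg.2.1 x, ?_⟩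
  have h2 : (g x) ^ 2 ≤ ∑ x, (g x) ^ 2 :=
    Finset.single_le_sum (f := fun x => (g x) ^ 2) (fun y _ => sq_nonneg (g y)) (Finset.mem_univ x)
  have h3 := hg.2.2
  have hn : (0 : ℝ) ≤ n := by positivity
  by_contra hc
  push Not at hc
  nlinarith

theorem u0_one (n : ℕ) [NeZero n] (A : Finset ℕ) : (fun _ => (1 : ℝ)) ∈ u0_K n A := by
  refine ⟨⟨fun _ => rfl, ?_, ?_⟩, fun _ => zero_le_one, ?_⟩
  · simp
  · intro k hk _
    have := fc_const (n := n) ((1 : ℝ) : ℂ) k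
    rw [if_neg hk] at this
    exact this
  · have hn : (0 : ℝ) ≤ n := by positivity
    simp
    linarith

/-- the supremum in `lam` is attained. -/
theorem t_U0 : S_U0 := by
  intro n _ A
  have hcont : ContinuousOn (fun g : ZMod n → ℝ => g 0) (u0_K n A) :=
    Continuous.continuousOn (by fun_prop)
  obtain ⟨g, hg, hmax⟩ := (u0_compact n A).exists_isMaxOn ⟨_, u0_one n A⟩ hcont
  have hgreat : IsGreatest {r : ℝ | ∃ g : ZMod n → ℝ, Nice A g ∧ (∀ x, 0 ≤ g x) ∧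
      ∑ x, (g x) ^ 2 ≤ 5 / 4 * n ∧ r = g 0} (g 0) := by
    constructor
    · exact ⟨g, hg.1, hg.2.1, hg.2.2, rfl⟩
    · rintro r ⟨f, h1, h2, h3, rfl⟩
      exact hmax (show f ∈ u0_K n A from ⟨h1, h2, h3⟩)
  have hlam : lam n A = g 0 := hgreat.csSup_eq
  refine ⟨⟨g, hg.1, hg.2.1, hg.2.2, hlam.symm⟩, ?_, ?_⟩
  · intro f h1 h2 h3
    rw [hlam]
    exact hmax (show f ∈ u0_K n A from ⟨h1, h2, h3⟩)
  · rw [hlam]
    exact hmax (u0_one n A)

end Pool.Agent.H276R2.Th
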