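import Pool.Agent.H276R2.Th.Spec

set_option autoImplicit false

/-!
# U1: the Poincare inequality on the cube
-/

namespace Pool.Agent.H276R2.Th

open Finset

/-- average over the subsets of `S` -/
noncomputable def u1_av (S : Finset ℕ) (f : Finset ℕ → ℝ) : ℝ := (∑ A ∈ S.powerset, f A) / 2 ^ S.card

theorem u1_av_insert (S : Finset ℕ) (a : ℕ) (ha : a ∉ S) (f : Finset ℕ → ℝ) :
    u1_av (insert a S) f = (u1_av S f + u1_av S (fun A => f (insert a A))) / 2 := by
  unfold u1_av
  rw [sum_powerset_insert ha, card_insert_of_notMem ha, pow_succ]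
  field_simp

theorem u1_sq_le (S : Finset ℕ) (f : Finset ℕ → ℝ) :
    (u1_av S f) ^ 2 ≤ u1_av S (fun A => f A ^ 2) := by
  unfold u1_av
  rw [div_pow, div_le_div_iff₀ (by positivity) (by positivity)]
  have h := sq_sum_le_card_mul_sum_sq (s := S.powerset) (f := f)
  rw [card_powerset] at h
  push_cast at h
  have hp : (0 : ℝ) < 2 ^ S.card := by positivity
  calc (∑ A ∈ S.powerset, f A) ^ 2 * 2 ^ S.card
      ≤ (2 ^ S.card * ∑ A ∈ S.powerset, f A ^ 2) * 2 ^ S.card :=
        mul_le_mul_of_nonneg_right h hp.le
    _ = _ := by ring

theorem u1_av_sub (S : Finset ℕ) (f g : Finset ℕ → ℝ) :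
    u1_av S (fun A => f A - g A) = u1_av S f - u1_av S g := by
  unfold u1_av
  rw [sum_sub_distrib, sub_div]

theorem u1_main (S : Finset ℕ) : ∀ f : Finset ℕ → ℝ,
    u1_av S (fun A => f A ^ 2) - (u1_av S f) ^ 2 ≤
      1 / 4 * ∑ j ∈ S, u1_av S (fun A => (f A - f (symmDiff A {j})) ^ 2) := by
  induction S using Finset.induction_on with
  | empty =>
    intro f
    simp [u1_av]
  | insert a S ha ih =>
    intro f
    have i1 := ih f
    have i2 := ih (fun A => f (insert a A))
    have hA : ∀ A ∈ S.powerset, a ∉ A := fun A hA h => ha ((mem_powerset.1 hA) h)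
    have e1 : u1_av (insert a S) (fun A => (f A - f (symmDiff A {a})) ^ 2) =
        u1_av S (fun A => (f A - f (insert a A)) ^ 2) := by
      rw [u1_av_insert S a ha]
      have c1 : u1_av S (fun A => (f A - f (symmDiff A {a})) ^ 2) =
          u1_av S (fun A => (f A - f (insert a A)) ^ 2) := by
        unfold u1_av
        congr 1
        refine sum_congr rfl fun A hA' => ?_
        dsimp only
        have := hA A hA'
        have e : symmDiff A {a} = insert a A := by
          ext x
          simp only [mem_symmDiff, mem_singleton, mem_insert]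
          constructor
          · rintro (⟨h, _⟩ | ⟨h, _⟩)
            · exact Or.inr h
            · exact Or.inl h
          · rintro (h | h)
            · exact Or.inr ⟨h, by rw [h]; exact this⟩
            · exact Or.inl ⟨h, fun h' => this (h' ▸ h)⟩
        rw [e]
      have c2 : u1_av S (fun A => (f (insert a A) - f (symmDiff (insert a A) {a})) ^ 2) =
          u1_av S (fun A => (f A - f (insert a A)) ^ 2) := by
        unfold u1_av
        congr 1
        refine sum_congr rfl fun A hA' => ?_
        dsimp only
        have := hA A hA'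
        have e : symmDiff (insert a A) {a} = A := by
          ext x
          simp only [mem_symmDiff, mem_singleton, mem_insert]
          constructor
          · rintro (⟨h | h, h'⟩ | ⟨h, h'⟩)
            · exact absurd h h'
            · exact h
            · exact absurd (Or.inl h) h'
          · intro h
            exact Or.inl ⟨Or.inr h, fun h' => this (h' ▸ h)⟩
        rw [e]
        ring
      rw [c1, c2]
      ring
    have e2 : ∀ j ∈ S, u1_av (insert a S) (fun A => (f A - f (symmDiff A {j})) ^ 2) =
        (u1_av S (fun A => (f A - f (symmDiff A {j})) ^ 2) +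
          u1_av S (fun A => (f (insert a A) - f (insert a (symmDiff A {j}))) ^ 2)) / 2 := by
      intro j hj
      rw [u1_av_insert S a ha]
      congr 2
      unfold u1_av
      congr 1
      refine sum_congr rfl fun A hA' => ?_
      dsimp only
      have hja : a ≠ j := fun h => ha (h ▸ hj)
      have e : symmDiff (insert a A) {j} = insert a (symmDiff A {j}) := by
        ext x
        simp only [mem_symmDiff, mem_singleton, mem_insert]
        constructor
        · rintro (⟨h | h, h'⟩ | ⟨h, h'⟩)
          · exact Or.inl h
          · exact Or.inr (Or.inl ⟨h, h'⟩)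
          · exact Or.inr (Or.inr ⟨h, fun h'' => h' (Or.inr h'')⟩)
        · rintro (h | ⟨h, h'⟩ | ⟨h, h'⟩)
          · exact Or.inl ⟨Or.inl h, by rw [h]; exact hja⟩
          · exact Or.inl ⟨Or.inr h, h'⟩
          · refine Or.inr ⟨h, ?_⟩
            rintro (h'' | h'')
            · exact hja (h''.symm.trans h)
            · exact h' h''
      rw [e]
    rw [sum_insert ha, e1, sum_congr rfl e2, ← sum_div, sum_add_distrib,
      u1_av_insert S a ha, u1_av_insert S a ha]
    have h3 := u1_sq_le S (fun A => f A - f (insert a A))
    rw [u1_av_sub] at h3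
    nlinarith [i1, i2, h3]

theorem t_U1 : S_U1 := by
  intro n f
  have h := u1_main (Cl n) f
  have hc : (Cl n).card = n / 2 := by
    unfold Cl
    rw [Nat.card_Icc]
    omega
  have he : ∀ g : Finset ℕ → ℝ, u1_av (Cl n) g = Ex n g := by
    intro g
    unfold u1_av Ex
    rw [hc]
  simp only [he] at h
  exact h

end Pool.Agent.H276R2.Th
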