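import Pool.Agent.H276R2.Th.Spec

set_option autoImplicit false

/-!
# U2: reverse Hoelder inequality for `√n / lam`
-/

namespace Pool.Agent.H276R2.Th

open Finset

section one

variable {n : ℕ} [NeZero n]

open Classical in
/-- the residues of class `j` -/
noncomputable def u2_S (n : ℕ) [NeZero n] (j : ℕ) : Finset (ZMod n) := univ.filter fun k => cls n k = j

/-- the part of `g` with frequencies in the class `j` -/
noncomputable def u2_a (g : ZMod n → ℝ) (j : ℕ) (x : ZMod n) : ℝ :=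
  (∑ k ∈ u2_S n j, fc (fun y => (g y : ℂ)) k * ch n (k * x)).re

/-- the size of the part of class `j` -/
noncomputable def u2_w (g : ZMod n → ℝ) (j : ℕ) : ℝ :=
  ∑ k ∈ u2_S n j, ‖fc (fun y => (g y : ℂ)) k‖

theorem u2_mem (j : ℕ) (k : ZMod n) : k ∈ u2_S n j ↔ cls n k = j := by
  simp [u2_S]

theorem u2_conj (g : ZMod n → ℝ) (j : ℕ) (x : ZMod n) :
    (starRingEnd ℂ) (∑ k ∈ u2_S n j, fc (fun y => (g y : ℂ)) k * ch n (k * x)) =
      ∑ k ∈ u2_S n j, fc (fun y => (g y : ℂ)) k * ch n (k * x) := by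
  rw [map_sum]
  refine Finset.sum_equiv (Equiv.neg (ZMod n)) ?_ ?_
  · intro k
    rw [u2_mem, u2_mem]
    simp [cls_neg]
  · intro k _
    rw [map_mul, Equiv.neg_apply, fc_neg_real, neg_mul, ch_neg]

theorem u2_a_eq (g : ZMod n → ℝ) (j : ℕ) (x : ZMod n) :
    (u2_a g j x : ℂ) = ∑ k ∈ u2_S n j, fc (fun y => (g y : ℂ)) k * ch n (k * x) :=
  Complex.conj_eq_iff_re.1 (u2_conj g j x)

theorem u2_fca (g : ZMod n → ℝ) (j : ℕ) (k : ZMod n) :
    fc (fun x => (u2_a g j x : ℂ)) k = if cls n k = j then fc (fun y => (g y : ℂ)) k else 0 := by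
  classical
  simp only [u2_a_eq]
  have h := fc_sum_ch' (u2_S n j) (fun k => fc (fun y => (g y : ℂ)) k) (fun k => k) k
  rw [h, Finset.sum_ite_eq' (u2_S n j) k]
  simp only [u2_mem]

theorem u2_abs (g : ZMod n → ℝ) (j : ℕ) (x : ZMod n) : |u2_a g j x| ≤ u2_w g j := by
  unfold u2_a u2_w
  refine (Complex.abs_re_le_norm _).trans ((norm_sum_le _ _).trans (le_of_eq ?_))
  refine sum_congr rfl fun k _ => ?_
  rw [norm_mul, norm_ch, mul_one]

theorem u2_w_nonneg (g : ZMod n → ℝ) (j : ℕ) : 0 ≤ u2_w g j :=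
  sum_nonneg fun _ _ => norm_nonneg _

theorem u2_a_even (g : ZMod n → ℝ) (hg : ∀ x, g (-x) = g x) (j : ℕ) (x : ZMod n) :
    u2_a g j (-x) = u2_a g j x := by
  have h : ∑ k ∈ u2_S n j, fc (fun y => (g y : ℂ)) k * ch n (k * -x) =
      (starRingEnd ℂ) (∑ k ∈ u2_S n j, fc (fun y => (g y : ℂ)) k * ch n (k * x)) := by
    rw [map_sum]
    refine sum_congr rfl fun k _ => ?_
    rw [map_mul, mul_neg, ch_neg]
    congr 1
    symm
    rw [Complex.conj_eq_iff_im]
    exact fc_im_real_even g hg k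
  unfold u2_a
  rw [h, Complex.conj_re]

/-- the modified function -/
noncomputable def u2_g (g : ZMod n → ℝ) (j : ℕ) (x : ZMod n) : ℝ :=
  (g x - u2_a g j x + u2_w g j) / (1 + u2_w g j)

theorem u2_fcg (g : ZMod n → ℝ) (j : ℕ) (k : ZMod n) :
    fc (fun x => (u2_g g j x : ℂ)) k = ((1 + u2_w g j : ℝ) : ℂ)⁻¹ *
      (fc (fun y => (g y : ℂ)) k - (if cls n k = j then fc (fun y => (g y : ℂ)) k else 0) +
        if k = 0 then (u2_w g j : ℂ) else 0) := by
  have e : (fun x => (u2_g g j x : ℂ)) = fun x => ((1 + u2_w g j : ℝ) : ℂ)⁻¹ *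
      ((fun x => (fun x => ((fun y => (g y : ℂ)) x - (fun x => (u2_a g j x : ℂ)) x)) x +
        (fun _ => (u2_w g j : ℂ)) x) x) := by
    funext x
    unfold u2_g
    push_cast
    rw [div_eq_mul_inv, mul_comm]
  rw [e, fc_mul, fc_add, fc_sub, fc_const, u2_fca]

theorem u2_fc0 {A : Finset ℕ} {g : ZMod n → ℝ} (hg : Nice A g) :
    fc (fun y => (g y : ℂ)) 0 = 1 := by
  rw [fc_zero_real, hg.mean, div_self]
  · norm_num
  · exact_mod_cast NeZero.ne n

theorem u2_fcg0 {A : Finset ℕ} {g : ZMod n → ℝ} (hg : Nice A g) (j : ℕ) (hj : j ≠ 0) :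
    fc (fun x => (u2_g g j x : ℂ)) 0 = 1 := by
  have hw := u2_w_nonneg g j
  rw [u2_fcg, u2_fc0 hg, cls_zero, if_neg (Ne.symm hj), if_pos rfl, sub_zero]
  push_cast
  apply inv_mul_cancel₀
  have : (1 + u2_w g j : ℝ) ≠ 0 := by positivity
  exact_mod_cast this

theorem u2_nice {A : Finset ℕ} {g : ZMod n → ℝ} (hg : Nice A g) (j : ℕ) (hj : j ≠ 0) :
    Nice (A.erase j) (u2_g g j) where
  even := by
    intro x
    unfold u2_g
    rw [hg.even, u2_a_even g hg.even]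
  mean := by
    have h := u2_fcg0 hg j hj
    rw [fc_zero_real] at h
    have h' : (∑ x, u2_g g j x) / (n : ℝ) = 1 := by exact_mod_cast h
    rwa [div_eq_one_iff_eq (by exact_mod_cast NeZero.ne n)] at h'
  spec := by
    intro k hk hkA
    rw [u2_fcg, if_neg hk, add_zero]
    by_cases hc : cls n k = j
    · rw [if_pos hc, sub_self, mul_zero]
    · rw [if_neg hc, hg.spec k hk (fun h => hkA (mem_erase.2 ⟨hc, h⟩))]
      simp

theorem u2_energy {A : Finset ℕ} {g : ZMod n → ℝ} (hg : Nice A g) (j : ℕ) (hj : j ≠ 0) :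
    ∑ x, (u2_g g j x) ^ 2 ≤ ∑ x, (g x) ^ 2 := by
  have hw := u2_w_nonneg g j
  have e : ∀ f : ZMod n → ℝ, ∑ x, (f x) ^ 2 = n * ∑ k, ‖fc (fun x => (f x : ℂ)) k‖ ^ 2 := by
    intro f
    rw [← parseval]
    refine sum_congr rfl fun x _ => ?_
    rw [Complex.norm_real, Real.norm_eq_abs, sq_abs]
  rw [e (u2_g g j), e g]
  have h5 : ∑ k, ‖fc (fun x => (u2_g g j x : ℂ)) k‖ ^ 2 ≤ ∑ k, ‖fc (fun x => (g x : ℂ)) k‖ ^ 2 := by
    refine sum_le_sum fun k _ => ?_
    refine pow_le_pow_left₀ (norm_nonneg _) ?_ 2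
    by_cases hk : k = 0
    · rw [hk, u2_fcg0 hg j hj, u2_fc0 hg]
    · rw [u2_fcg, if_neg hk, add_zero, norm_mul, norm_inv, Complex.norm_real, Real.norm_eq_abs,
        abs_of_pos (by positivity : 0 < 1 + u2_w g j)]
      have h1 : ‖fc (fun y => (g y : ℂ)) k - (if cls n k = j then fc (fun y => (g y : ℂ)) k else 0)‖ ≤
          ‖fc (fun y => (g y : ℂ)) k‖ := by
        split_ifs
        · rw [sub_self, norm_zero]; exact norm_nonneg _
        · rw [sub_zero]
      have h2 : (1 + u2_w g j)⁻¹ ≤ 1 := inv_le_one_of_one_le₀ (by linarith)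
      calc _ ≤ 1 * ‖fc (fun y => (g y : ℂ)) k‖ := mul_le_mul h2 h1 (norm_nonneg _) (by norm_num)
        _ = _ := one_mul _
  exact mul_le_mul_of_nonneg_left h5 (Nat.cast_nonneg n)

theorem u2_sum_w {A : Finset ℕ} {g : ZMod n → ℝ} (hg : Nice A g) (hA : A ⊆ Cl n)
    (hE : ∑ x, (g x) ^ 2 ≤ 5 / 4 * n) : ∑ j ∈ A, (u2_w g j) ^ 2 ≤ 1 / 2 := by
  classical
  have hn : (0 : ℝ) < n := by exact_mod_cast Nat.pos_of_ne_zero (NeZero.ne n)
  have e : ∑ x, (g x) ^ 2 = n * ∑ k, ‖fc (fun x => (g x : ℂ)) k‖ ^ 2 := by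
    rw [← parseval]
    refine sum_congr rfl fun x _ => ?_
    rw [Complex.norm_real, Real.norm_eq_abs, sq_abs]
  have h1 : ∑ k, ‖fc (fun x => (g x : ℂ)) k‖ ^ 2 ≤ 5 / 4 := by
    rw [e] at hE
    nlinarith
  have h2 : ∑ k ∈ univ.erase (0 : ZMod n), ‖fc (fun x => (g x : ℂ)) k‖ ^ 2 ≤ 1 / 4 := by
    have h1' := Finset.add_sum_erase univ (fun k : ZMod n => ‖fc (fun x => (g x : ℂ)) k‖ ^ 2)
      (mem_univ (0 : ZMod n))
    rw [u2_fc0 hg, norm_one] at h1'
    linarith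
  have h3 : ∀ j ∈ A, (u2_w g j) ^ 2 ≤ 2 * ∑ k ∈ u2_S n j, ‖fc (fun x => (g x : ℂ)) k‖ ^ 2 := by
    intro j _
    unfold u2_w
    refine (sq_sum_le_card_mul_sum_sq).trans ?_
    refine mul_le_mul_of_nonneg_right ?_ (sum_nonneg fun _ _ => by positivity)
    have := card_cls_le n j
    have h' : (u2_S n j).card ≤ 2 := by
      unfold u2_S
      convert this
    exact_mod_cast h'
  have h4 : ∑ j ∈ A, ∑ k ∈ u2_S n j, ‖fc (fun x => (g x : ℂ)) k‖ ^ 2 ≤
      ∑ k ∈ univ.erase (0 : ZMod n), ‖fc (fun x => (g x : ℂ)) k‖ ^ 2 := by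
    rw [← Finset.sum_biUnion]
    · refine sum_le_sum_of_subset_of_nonneg ?_ fun _ _ _ => by positivity
      intro k hk
      obtain ⟨j, hj, hk⟩ := mem_biUnion.1 hk
      rw [u2_mem] at hk
      refine mem_erase.2 ⟨?_, mem_univ _⟩
      intro h0
      rw [h0, cls_zero] at hk
      have := hA hj
      rw [← hk] at this
      unfold Cl at this
      simp at this
    · intro i _ j _ hij
      change Disjoint (u2_S n i) (u2_S n j)
      rw [disjoint_left]
      intro k hk hk'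
      rw [u2_mem] at hk hk'
      exact hij (hk.symm.trans hk')
  calc ∑ j ∈ A, (u2_w g j) ^ 2 ≤ ∑ j ∈ A, 2 * ∑ k ∈ u2_S n j, ‖fc (fun x => (g x : ℂ)) k‖ ^ 2 :=
        sum_le_sum h3
    _ = 2 * ∑ j ∈ A, ∑ k ∈ u2_S n j, ‖fc (fun x => (g x : ℂ)) k‖ ^ 2 := by rw [mul_sum]
    _ ≤ 1 / 2 := by linarith

theorem u2_step (h0 : S_U0) (A : Finset ℕ) (hA : A ⊆ Cl n) :
    ∑ j ∈ A, (√n / lam n (A.erase j) - √n / lam n A) ^ 2 ≤ 1 / 2 * (√n / lam n A) ^ 2 := by
  obtain ⟨⟨g, hg, hg0, hgE, hgl⟩, -, hl1⟩ := h0 n A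
  have key : ∀ j ∈ A, (√n / lam n (A.erase j) - √n / lam n A) ^ 2 ≤
      (u2_w g j) ^ 2 * (√n / lam n A) ^ 2 := by
    intro j hj
    have hj0 : j ≠ 0 := by
      intro h
      have := hA hj
      rw [h] at this
      unfold Cl at this
      simp at this
    have hw := u2_w_nonneg g j
    obtain ⟨⟨g', hg', hg'0, hg'E, hg'l⟩, hle, hl2⟩ := h0 n (A.erase j)
    have hmono : lam n (A.erase j) ≤ lam n A := by
      rw [← hg'l]
      refine (h0 n A).2.1 g' ?_ hg'0 hg'E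
      exact ⟨hg'.even, hg'.mean, fun k hk hkA => hg'.spec k hk (fun h => hkA (mem_of_mem_erase h))⟩
    have hlow : lam n A / (1 + u2_w g j) ≤ lam n (A.erase j) := by
      refine le_trans ?_ (hle (u2_g g j) (u2_nice hg j hj0) ?_ ((u2_energy hg j hj0).trans hgE))
      · unfold u2_g
        rw [← hgl]
        have := (abs_le.1 (u2_abs g j 0)).2
        exact div_le_div_of_nonneg_right (by linarith) (by linarith)
      · intro x
        unfold u2_g
        have h1 := (abs_le.1 (u2_abs g j x)).2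
        have h2 := hg0 x
        exact div_nonneg (by linarith) (by linarith)
    have hs : 0 ≤ √(n : ℝ) := Real.sqrt_nonneg _
    have hd0 : 0 ≤ √n / lam n (A.erase j) - √n / lam n A := by
      rw [sub_nonneg]
      exact div_le_div_of_nonneg_left hs (by linarith) hmono
    have hd1 : √n / lam n (A.erase j) - √n / lam n A ≤ u2_w g j * (√n / lam n A) := by
      have h1 : √n / lam n (A.erase j) ≤ √n / (lam n A / (1 + u2_w g j)) :=
        div_le_div_of_nonneg_left hs (by positivity) hlow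
      have h2 : √n / (lam n A / (1 + u2_w g j)) = (1 + u2_w g j) * (√n / lam n A) := by
        field_simp
      rw [h2] at h1
      linarith
    calc _ ≤ (u2_w g j * (√n / lam n A)) ^ 2 := pow_le_pow_left₀ hd0 hd1 2
      _ = _ := by ring
  calc _ ≤ ∑ j ∈ A, (u2_w g j) ^ 2 * (√n / lam n A) ^ 2 := sum_le_sum key
    _ = (∑ j ∈ A, (u2_w g j) ^ 2) * (√n / lam n A) ^ 2 := by rw [sum_mul]
    _ ≤ 1 / 2 * (√n / lam n A) ^ 2 :=
      mul_le_mul_of_nonneg_right (u2_sum_w hg hA hgE) (by positivity)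

end one

open Classical in
theorem u2_flip (n : ℕ) (j : ℕ) (hj : j ∈ Cl n) (Y : Finset ℕ → ℝ) :
    Ex n (fun A => (Y A - Y (symmDiff A {j})) ^ 2) =
      2 * Ex n (fun A => if j ∈ A then (Y (A.erase j) - Y A) ^ 2 else 0) := by
  have hsd : ∀ A : Finset ℕ, symmDiff (symmDiff A {j}) {j} = A := by
    intro A
    rw [symmDiff_assoc, symmDiff_self]
    simp
  have hmem : ∀ A : Finset ℕ, j ∈ symmDiff A {j} ↔ j ∉ A := by
    intro A
    simp [mem_symmDiff]
  have h1 : Ex n (fun A => (Y A - Y (symmDiff A {j})) ^ 2) =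
      Ex n (fun A => if j ∈ A then (Y A - Y (symmDiff A {j})) ^ 2 else 0) +
      Ex n (fun A => if j ∈ A then 0 else (Y A - Y (symmDiff A {j})) ^ 2) := by
    rw [← Ex_add]
    congr 1
    funext A
    split_ifs <;> simp
  have h2 : Ex n (fun A => if j ∈ A then 0 else (Y A - Y (symmDiff A {j})) ^ 2) =
      Ex n (fun A => if j ∈ A then (Y A - Y (symmDiff A {j})) ^ 2 else 0) := by
    rw [← Ex_flip n j hj]
    congr 1
    funext A
    by_cases hA : j ∈ A
    · rw [if_neg (by rw [hmem]; exact fun h => h hA), if_pos hA, hsd]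
      ring
    · rw [if_pos ((hmem A).2 hA), if_neg hA]
  rw [h1, h2, ← two_mul]
  congr 2
  funext A
  by_cases hA : j ∈ A
  · rw [if_pos hA, if_pos hA]
    have : symmDiff A {j} = A.erase j := by
      ext x
      simp only [mem_symmDiff, mem_singleton, mem_erase]
      constructor
      · rintro (⟨h, h'⟩ | ⟨h, h'⟩)
        · exact ⟨h', h⟩
        · exact absurd (h ▸ hA) h'
      · rintro ⟨h, h'⟩
        exact Or.inl ⟨h', h⟩
    rw [this]
    ring
  · rw [if_neg hA, if_neg hA]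

theorem t_U2 (h0 : S_U0) (h1 : S_U1) : S_U2 := by
  classical
  intro n _
  set Y : Finset ℕ → ℝ := fun A => √n / lam n A with hY
  have hP := h1 n Y
  have h2 : ∑ j ∈ Cl n, Ex n (fun A => (Y A - Y (symmDiff A {j})) ^ 2) ≤
      Ex n (fun A => Y A ^ 2) := by
    calc _ = ∑ j ∈ Cl n, 2 * Ex n (fun A => if j ∈ A then (Y (A.erase j) - Y A) ^ 2 else 0) :=
          sum_congr rfl fun j hj => u2_flip n j hj Y
      _ = 2 * Ex n (fun A => ∑ j ∈ Cl n, if j ∈ A then (Y (A.erase j) - Y A) ^ 2 else 0) := by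
          rw [← mul_sum, Ex_sum]
      _ ≤ 2 * Ex n (fun A => 1 / 2 * Y A ^ 2) := by
          refine mul_le_mul_of_nonneg_left (Ex_mono n _ _ fun A hA => ?_) (by norm_num)
          rw [← Finset.sum_filter, Finset.filter_mem_eq_inter, inter_eq_right.2 hA]
          exact u2_step h0 A hA
      _ = Ex n (fun A => Y A ^ 2) := by
          rw [Ex_mul]; ring
  have h3 : Ex n (fun A => Y A ^ 2) - (Ex n Y) ^ 2 ≤ 1 / 4 * Ex n (fun A => Y A ^ 2) :=
    hP.trans (mul_le_mul_of_nonneg_left h2 (by norm_num))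
  linarith

end Pool.Agent.H276R2.Th
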