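import Pool.Agent.H276R2.Th.Spec

/-!
Task U3 (helper231): the second moment of `√n / lam` is bounded.
-/

set_option autoImplicit false

namespace Pool.Agent.H276R2.Th

open Finset Real

/-- the mixture of `g` with the constant function -/
theorem u3_mix {n : ℕ} [NeZero n] {A : Finset ℕ} {g : ZMod n → ℝ} (hg : Nice A g) (τ : ℝ) :
    Nice A (fun x => (1 - τ) + τ * g x) where
  even x := by rw [hg.even]
  mean := by
    rw [Finset.sum_add_distrib, Finset.sum_const, Finset.card_univ, ZMod.card, ← Finset.mul_sum,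
      hg.mean, nsmul_eq_mul]
    ring
  spec k hk hA := by
    have h1 : (fun x => (((1 - τ) + τ * g x : ℝ) : ℂ)) =
        fun x => (((1 - τ : ℝ) : ℂ)) + (τ : ℂ) * (g x : ℂ) := by
      funext x
      push_cast
      ring
    rw [h1, fc_add (fun _ => (((1 - τ : ℝ) : ℂ))) (fun x => (τ : ℂ) * (g x : ℂ)) k,
      fc_const, if_neg hk, fc_mul, hg.spec k hk hA, mul_zero, add_zero]

theorem u3_energy {n : ℕ} [NeZero n] {A : Finset ℕ} {g : ZMod n → ℝ} (hg : Nice A g) (τ : ℝ) :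
    ∑ x, ((1 - τ) + τ * g x) ^ 2 = n * (1 - τ ^ 2) + τ ^ 2 * ∑ x, g x ^ 2 := by
  have h1 : ∀ x, ((1 - τ) + τ * g x) ^ 2 = (1 - τ) ^ 2 + 2 * (1 - τ) * τ * g x + τ ^ 2 * g x ^ 2 := by
    intro x; ring
  simp only [h1]
  rw [Finset.sum_add_distrib, Finset.sum_add_distrib, Finset.sum_const, Finset.card_univ,
    ZMod.card, ← Finset.mul_sum, ← Finset.mul_sum, hg.mean, nsmul_eq_mul]
  ring

/-- on the good event `lam` is large -/
theorem u3_lam (h0 : S_U0) {C : ℝ} {n : ℕ} [NeZero n] {A : Finset ℕ} (h : Good C (1 / 4) n A) :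
    √n / lam n A ≤ 8 * √(max C 1) / 3 := by
  obtain ⟨g, hg, hg0, hgn, hgC⟩ := h
  obtain ⟨-, hU, hU1⟩ := h0 n A
  have hn : (0 : ℝ) < n := by
    have := NeZero.pos n
    exact_mod_cast this
  set S := √(max C 1) with hS
  have hS1 : 1 ≤ S := by
    rw [hS]
    exact Real.one_le_sqrt.mpr (le_max_right _ _)
  have hSS : S ^ 2 = max C 1 := Real.sq_sqrt (by positivity)
  have hS0 : 0 < S := by linarith
  set τ := 1 / (2 * S) with hτ
  have hτ0 : 0 < τ := by positivity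
  have hτ1 : τ ≤ 1 / 2 := by
    rw [hτ]
    apply one_div_le_one_div_of_le (by norm_num)
    linarith
  have hτS : τ ^ 2 * S ^ 2 = 1 / 4 := by
    rw [hτ]; field_simp; norm_num
  have hsq : 0 ≤ √(n : ℝ) := Real.sqrt_nonneg _
  have h1 := hU (fun x => (1 - τ) + τ * g x) (u3_mix hg τ) (by
    intro x
    have := hg0 x
    have : 0 ≤ τ * g x := by positivity
    linarith) (by
    rw [u3_energy hg τ]
    have h2 : ∑ x, g x ^ 2 ≤ S ^ 2 * n := by
      rw [hSS]
      exact hgC.trans (mul_le_mul_of_nonneg_right (le_max_left _ _) hn.le)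
    have h3 : τ ^ 2 * ∑ x, g x ^ 2 ≤ 1 / 4 * n := by
      calc τ ^ 2 * ∑ x, g x ^ 2 ≤ τ ^ 2 * (S ^ 2 * n) := mul_le_mul_of_nonneg_left h2 (by positivity)
        _ = (τ ^ 2 * S ^ 2) * n := by ring
        _ = 1 / 4 * n := by rw [hτS]
    nlinarith [sq_nonneg τ])
  have h4 : τ * (3 / 4 * √n) ≤ lam n A := by
    have h5 : τ * (3 / 4 * √n) ≤ τ * g 0 := by
      apply mul_le_mul_of_nonneg_left _ hτ0.le
      linarith
    linarith
  have hlam : 0 < lam n A := by linarith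
  rw [div_le_iff₀ hlam]
  calc √(n : ℝ) = 8 * S / 3 * (τ * (3 / 4 * √n)) := by rw [hτ]; field_simp; norm_num
    _ ≤ _ := mul_le_mul_of_nonneg_left h4 (by positivity)

theorem t_U3 (h0 : S_U0) (h2 : S_U2) : S_U3 := by
  classical
  rintro ⟨C, hC⟩
  obtain ⟨n₀, hn₀⟩ := hC (1 / 4) (by norm_num)
  obtain ⟨K1, hK1⟩ : ∃ K1, K1 = 8 * √(max C 1) / 3 := ⟨_, rfl⟩
  have hK10 : 0 ≤ K1 := by rw [hK1]; positivity
  refine ⟨12 * K1 ^ 2, n₀, ?_⟩
  intro n _ hn
  have hgood := hn₀ n hn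
  have hY0 : ∀ A, 0 ≤ √n / lam n A := by
    intro A
    have := (h0 n A).2.2
    positivity
  have hYg : ∀ A, Good C (1 / 4) n A → √n / lam n A ≤ K1 := fun A hA => by
    rw [hK1]; exact u3_lam h0 hA
  have hbad : Ex n (fun A => (if ¬ Good C (1 / 4) n A then (1 : ℝ) else 0) ^ 2) ≤ 1 / 4 := by
    have h3 : Ex n (fun A => (if ¬ Good C (1 / 4) n A then (1 : ℝ) else 0) ^ 2) =
        Pr n (fun A => ¬ Good C (1 / 4) n A) := by
      unfold Pr
      apply Ex_congr
      intro A _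
      by_cases h : Good C (1 / 4) n A <;> simp [h]
    rw [h3, Pr_not]
    linarith
  have hm : Ex n (fun A => √n / lam n A) ≤ K1 +
      Ex n (fun A => (√n / lam n A) * (if ¬ Good C (1 / 4) n A then (1 : ℝ) else 0)) := by
    rw [← Ex_const n K1, ← Ex_add]
    apply Ex_mono
    intro A _
    by_cases h : Good C (1 / 4) n A
    · simp only [h, not_true_eq_false, if_false, mul_zero, add_zero, Ex_const]
      exact hYg A h
    · simp only [h, not_false_eq_true, if_true, mul_one, Ex_const]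
      linarith
  have hcs := Ex_cs n (fun A => √n / lam n A) (fun A => if ¬ Good C (1 / 4) n A then (1 : ℝ) else 0)
  have hs := h2 n
  set m := Ex n (fun A => √n / lam n A) with hmdef
  set s := Ex n (fun A => (√n / lam n A) ^ 2) with hsdef
  set b := Ex n (fun A => (√n / lam n A) * (if ¬ Good C (1 / 4) n A then (1 : ℝ) else 0)) with hbdef
  have hm0 : 0 ≤ m := Ex_nonneg n _ (fun A _ => hY0 A)
  have hs0 : 0 ≤ s := Ex_nonneg n _ (fun A _ => sq_nonneg _)
  have hb2 : b ^ 2 ≤ m ^ 2 / 3 := by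
    calc b ^ 2 ≤ s * Ex n (fun A => (if ¬ Good C (1 / 4) n A then (1 : ℝ) else 0) ^ 2) := hcs
      _ ≤ s * (1 / 4) := mul_le_mul_of_nonneg_left hbad hs0
      _ ≤ m ^ 2 / 3 := by linarith
  have hmK : m ≤ 3 * K1 := by
    by_contra hcon
    push Not at hcon
    have hb : 2 / 3 * m < b := by linarith
    have hmpos : 0 < m := by linarith
    nlinarith
  calc s ≤ 4 / 3 * m ^ 2 := hs
    _ ≤ 4 / 3 * (3 * K1) ^ 2 := by
        apply mul_le_mul_of_nonneg_left _ (by norm_num)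
        exact pow_le_pow_left₀ hm0 hmK 2
    _ = 12 * K1 ^ 2 := by ring

end Pool.Agent.H276R2.Th
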