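import Pool.Agent.H276R2.Th.Spec

/-!
# U4: the limit of the normalised mean of the theta function, from `StatementR`
-/

set_option autoImplicit false

namespace Pool.Agent.H276R2.Th

open Finset Real

/-- The constant function `1` is nice. -/
theorem u4_nice_one (n : ℕ) [NeZero n] (A : Finset ℕ) : Nice A (fun _ : ZMod n => (1 : ℝ)) where
  even _ := rfl
  mean := by simp [ZMod.card]
  spec k hk _ := by
    have := fc_const (n := n) ((1 : ℝ) : ℂ) k
    rw [if_neg hk] at this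
    exact this

theorem u4_theta_ge_one (a1 : S_A1) (n : ℕ) [NeZero n] (S : Finset ℕ) (hS : S ⊆ Cl n) :
    1 ≤ theta n S :=
  a1 n S (fun _ => 1) hS (u4_nice_one n _) (fun _ => zero_le_one)

/-- Pointwise upper bound by `√n / lam`. -/
theorem u4_up1 (a2 : S_A2) (h0 : S_U0) (n : ℕ) [NeZero n] (S : Finset ℕ) (hS : S ⊆ Cl n) :
    theta n S / √n ≤ √n / lam n S := by
  obtain ⟨⟨g, hg, hpos, -, hg0⟩, -, hl⟩ := h0 n S
  have hlam : 0 < lam n S := lt_of_lt_of_le one_pos hl
  have h1 : theta n S ≤ n / g 0 := a2 n S g hS hg hpos (by rw [hg0]; exact hlam)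
  rw [hg0] at h1
  have hn : (0 : ℝ) < n := Nat.cast_pos.mpr (NeZero.pos n)
  have hs : 0 < √(n : ℝ) := Real.sqrt_pos.mpr hn
  rw [div_le_iff₀ hs]
  calc theta n S ≤ n / lam n S := h1
    _ = √n / lam n S * √n := by
      rw [div_mul_eq_mul_div, Real.mul_self_sqrt hn.le]

/-- Pointwise upper bound on the good event. -/
theorem u4_up2 (a2 : S_A2) (n : ℕ) [NeZero n] (S : Finset ℕ) (hS : S ⊆ Cl n) (C d : ℝ)
    (hd : d < 1) (hG : Good C d n S) : theta n S / √n ≤ 1 / (1 - d) := by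
  obtain ⟨g, hg, hpos, hg0, -⟩ := hG
  have hn : (0 : ℝ) < n := Nat.cast_pos.mpr (NeZero.pos n)
  have hs : 0 < √(n : ℝ) := Real.sqrt_pos.mpr hn
  have hd' : 0 < 1 - d := by linarith
  have hp : 0 < (1 - d) * √n := mul_pos hd' hs
  have h0 : 0 < g 0 := lt_of_lt_of_le hp hg0
  have h1 : theta n S ≤ n / g 0 := a2 n S g hS hg hpos h0
  have h2 : (n : ℝ) / g 0 ≤ n / ((1 - d) * √n) := div_le_div_of_nonneg_left hn.le hp hg0
  rw [div_le_iff₀ hs]
  calc theta n S ≤ n / ((1 - d) * √n) := h1.trans h2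
    _ = 1 / (1 - d) * √n := by
      rw [div_eq_iff hp.ne']
      field_simp
      rw [Real.sq_sqrt hn.le]

/-- Pointwise lower bound on the good event. -/
theorem u4_lo (a1 : S_A1) (n : ℕ) [NeZero n] (S : Finset ℕ) (hS : S ⊆ Cl n) (C d : ℝ)
    (hG : Good C d n (Cl n \ S)) : 1 - d ≤ theta n S / √n := by
  obtain ⟨g, hg, hpos, hg0, -⟩ := hG
  have hn : (0 : ℝ) < n := Nat.cast_pos.mpr (NeZero.pos n)
  have hs : 0 < √(n : ℝ) := Real.sqrt_pos.mpr hn
  rw [le_div_iff₀ hs]
  exact hg0.trans (a1 n S g hS hg hpos)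

theorem u4_Ex_div (n : ℕ) : Ex n (theta n) / √n = Ex n (fun A => theta n A / √n) := by
  have := Ex_mul n (1 / √n) (theta n)
  rw [show (fun A => theta n A / √n) = fun A => 1 / √n * theta n A from by
    funext A; ring]
  rw [this]
  ring

open Classical in
theorem u4_upper (a2 : S_A2) (h0 : S_U0) (n : ℕ) [NeZero n] (C d K : ℝ) (hd0 : 0 < d)
    (hd : d < 1) (hP : 1 - d ≤ Pr n (Good C d n))
    (hK : Ex n (fun A => (√n / lam n A) ^ 2) ≤ K) :
    Ex n (theta n) / √n ≤ 1 / (1 - d) + √(K * d) := by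
  rw [u4_Ex_div]
  have hlam : ∀ A, 0 < lam n A := fun A => lt_of_lt_of_le one_pos (h0 n A).2.2
  have h1 : Ex n (fun A => theta n A / √n) ≤
      Ex n (fun A => 1 / (1 - d) + √n / lam n A * (if ¬ Good C d n A then 1 else 0)) := by
    refine Ex_mono n _ _ fun A hA => ?_
    by_cases hG : Good C d n A
    · simp only [hG, not_true_eq_false, if_false, mul_zero, add_zero]
      exact u4_up2 a2 n A hA C d hd hG
    · simp only [hG, not_false_eq_true, if_true, mul_one]
      have h2 := u4_up1 a2 h0 n A hA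
      have h3 : 0 < 1 / (1 - d) := by
        have : 0 < 1 - d := by linarith
        positivity
      linarith
  rw [Ex_add, Ex_const] at h1
  have h2 := Ex_cs n (fun A => √n / lam n A) (fun A => if ¬ Good C d n A then 1 else 0)
  have h3 : Ex n (fun A => (if ¬ Good C d n A then (1 : ℝ) else 0) ^ 2) ≤ d := by
    have h4 : Ex n (fun A => (if ¬ Good C d n A then (1 : ℝ) else 0) ^ 2) =
        Pr n (fun A => ¬ Good C d n A) := by
      unfold Pr
      congr 1
      funext A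
      by_cases h : Good C d n A <;> simp [h]
    rw [h4, Pr_not]
    linarith
  have h5 : 0 ≤ Ex n (fun A => (√n / lam n A) ^ 2) := Ex_nonneg n _ fun A _ => sq_nonneg _
  have hK0 : 0 ≤ K := h5.trans hK
  have h6 : (Ex n (fun A => √n / lam n A * (if ¬ Good C d n A then 1 else 0))) ^ 2 ≤ K * d := by
    refine h2.trans ?_
    calc _ ≤ Ex n (fun A => (√n / lam n A) ^ 2) * d :=
          mul_le_mul_of_nonneg_left h3 h5
      _ ≤ K * d := mul_le_mul_of_nonneg_right hK hd0.le
  have h7 := Real.le_sqrt_of_sq_le h6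
  linarith

open Classical in
theorem u4_lower (a1 : S_A1) (n : ℕ) [NeZero n] (C d : ℝ)
    (hd : d < 1) (hP : 1 - d ≤ Pr n (Good C d n)) :
    (1 - d) ^ 2 ≤ Ex n (theta n) / √n := by
  rw [u4_Ex_div]
  have h1 : Ex n (fun A => (1 - d) * (if Good C d n (Cl n \ A) then 1 else 0)) ≤
      Ex n (fun A => theta n A / √n) := by
    refine Ex_mono n _ _ fun A hA => ?_
    by_cases hG : Good C d n (Cl n \ A)
    · simp only [hG, if_true, mul_one]
      exact u4_lo a1 n A hA C d hG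
    · simp only [hG, if_false, mul_zero]
      exact div_nonneg (zero_le_one.trans (u4_theta_ge_one a1 n A hA)) (Real.sqrt_nonneg _)
  rw [Ex_mul] at h1
  have h2 : Ex n (fun A => if Good C d n (Cl n \ A) then (1 : ℝ) else 0) = Pr n (Good C d n) :=
    Pr_compl n (Good C d n)
  rw [h2] at h1
  refine le_trans ?_ h1
  rw [sq]
  exact mul_le_mul_of_nonneg_left hP (by linarith)

theorem t_U4 (a1 : S_A1) (a2 : S_A2) (h0 : S_U0) (h3 : S_U3) : S_U4 := by
  intro hR
  obtain ⟨K, n₁, hK⟩ := h3 hR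
  obtain ⟨C, hC⟩ := hR
  rw [Metric.tendsto_atTop]
  intro ε hε
  have hf : ContinuousAt (fun d : ℝ => 1 / (1 - d) + √(K * d)) 0 := by
    refine ContinuousAt.add ?_ ?_
    · refine ContinuousAt.div continuousAt_const (by fun_prop) ?_
      norm_num
    · exact (Real.continuous_sqrt.comp (by fun_prop)).continuousAt
  have hg : ContinuousAt (fun d : ℝ => (1 - d) ^ 2) 0 := by fun_prop
  have e1 : ∀ᶠ d : ℝ in nhds 0, 1 / (1 - d) + √(K * d) < 1 + ε := by
    have := hf.eventually_lt (continuousAt_const (y := 1 + ε)) (by simp [hε])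
    exact this
  have e2 : ∀ᶠ d : ℝ in nhds 0, 1 - ε < (1 - d) ^ 2 := by
    have := (continuousAt_const (y := 1 - ε)).eventually_lt hg (by simp [hε])
    exact this
  have e3 : ∀ᶠ d : ℝ in nhds 0, d < 1 := Iio_mem_nhds one_pos
  have e4 := ((e1.and (e2.and e3)).filter_mono (nhdsWithin_le_nhds (s := Set.Ioi 0))).and
    (self_mem_nhdsWithin (a := (0 : ℝ)) (s := Set.Ioi 0))
  obtain ⟨d, ⟨hd1, hd2, hd3⟩, hd0⟩ := e4.exists
  have hd0 : 0 < d := hd0
  obtain ⟨n₂, hn₂⟩ := hC d hd0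
  refine ⟨max 1 (max n₁ n₂), fun n hn => ?_⟩
  have hn1 : 1 ≤ n := (le_max_left _ _).trans hn
  have hn2 : n₁ ≤ n := (le_max_left _ _).trans ((le_max_right _ _).trans hn)
  have hn3 : n₂ ≤ n := (le_max_right _ _).trans ((le_max_right _ _).trans hn)
  have : NeZero n := ⟨by omega⟩
  have hu := u4_upper a2 h0 n C d K hd0 hd3 (hn₂ n hn3) (hK n hn2)
  have hl := u4_lower a1 n C d hd3 (hn₂ n hn3)
  rw [Real.dist_eq, abs_lt]
  constructor <;> linarith

end Pool.Agent.H276R2.Th
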