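import Pool.Agent.H276R2.Th.Spec

/-!
# Task W0: facts on linear combinations of chaoses (helper503)
-/

set_option autoImplicit false

namespace Pool.Agent.H276R2.Th

open Finset

theorem w0_fc_sum {n : ℕ} [NeZero n] {ι : Type} (s : Finset ι) (c : ι → ℂ)
    (f : ι → ZMod n → ℂ) (k : ZMod n) :
    fc (fun x => ∑ j ∈ s, c j * f j x) k = ∑ j ∈ s, c j * fc (f j) k := by
  unfold fc
  simp only [mul_div_assoc']
  rw [← Finset.sum_div]
  congr 1
  simp only [Finset.sum_mul, Finset.mul_sum]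
  rw [Finset.sum_comm]
  refine Finset.sum_congr rfl fun j _ => Finset.sum_congr rfl fun x _ => ?_
  ring

theorem w0_norm_sum {ι : Type} (s : Finset ι) (c z : ι → ℂ) :
    ‖∑ j ∈ s, c j * z j‖ ^ 2 ≤ (∑ j ∈ s, ‖c j‖ ^ 2) * ∑ j ∈ s, ‖z j‖ ^ 2 := by
  calc ‖∑ j ∈ s, c j * z j‖ ^ 2 ≤ (∑ j ∈ s, ‖c j‖ * ‖z j‖) ^ 2 := by
        refine pow_le_pow_left₀ (norm_nonneg _) ?_ 2
        refine (norm_sum_le _ _).trans (le_of_eq ?_)
        exact Finset.sum_congr rfl fun j _ => norm_mul _ _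
    _ ≤ _ := Finset.sum_mul_sq_le_sq_mul_sq _ _ _

theorem w0_real {ι : Type} (s : Finset ι) (a : ι → ℝ) (z : ι → ℂ)
    (hz : ∀ j, (starRingEnd ℂ) (z j) = z j) :
    ∑ j ∈ s, (a j : ℂ) * z j = ((∑ j ∈ s, (a j : ℂ) * z j).re : ℂ) := by
  symm
  rw [← Complex.conj_eq_iff_re, map_sum]
  refine Finset.sum_congr rfl fun j _ => ?_
  rw [map_mul, Complex.conj_ofReal, hz]

/-- W0: facts on linear combinations. -/
theorem t_W0 (fb : S_FB) : S_W0 := by
  intro J _ tr r γ
  refine ⟨?_, ?_, ?_, ?_, ?_, ?_, ?_⟩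
  · exact Bd_sum (Finset.univ : Finset (Fin r → J))
      (f := fun j => fun n _ A x => ((∏ i, γ i (j i) : ℝ) : ℂ) * F n (fun i => tr (j i)) A x)
      (fun j _ => Bd_smul _ (fb (Fin r) (fun i => tr (j i))).1)
  · intro α
    exact Bd_sum (Finset.univ : Finset J)
      (f := fun j => fun n _ A x => (α j : ℂ) * F n (fun _ : Unit => tr j) A x)
      (fun j _ => Bd_smul _ (fb Unit (fun _ => tr j)).1)
  · intro α n _ A x
    refine ⟨?_, ?_⟩
    · exact w0_real (Finset.univ : Finset J) α (fun j => F n (fun _ : Unit => tr j) A x)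
        (fun j => F_conj n _ A x)
    · unfold Gf
      refine Finset.sum_congr rfl fun j _ => ?_
      rw [F_even]
  · intro n _ A x
    exact w0_real (Finset.univ : Finset (Fin r → J)) (fun j => ∏ i, γ i (j i))
      (fun j => F n (fun i => tr (j i)) A x) (fun j => F_conj n _ A x)
  · intro hr
    have hne : Nonempty (Fin r) := ⟨⟨0, hr⟩⟩
    refine ⟨?_, ?_⟩
    · intro n _ x
      have h := ExC_sum n (Finset.univ : Finset (Fin r → J))
        (fun j A => ((∏ i, γ i (j i) : ℝ) : ℂ) * F n (fun i => tr (j i)) A x)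
      refine h.trans (Finset.sum_eq_zero fun j _ => ?_)
      rw [ExC_mul, ExC_F, mul_zero]
    · have hC : ∀ j : Fin r → J, ∃ C : ℝ, ∀ (n : ℕ) [NeZero n] (k : ZMod n),
          Ex n (fun A => ‖fc (F n (fun i => tr (j i)) A) k‖ ^ 2) ≤ C / n :=
        fun j => (fb (Fin r) (fun i => tr (j i))).2 hne
      choose C hC using hC
      refine ⟨(∑ j : Fin r → J, ‖((∏ i, γ i (j i) : ℝ) : ℂ)‖ ^ 2) * ∑ j, C j, ?_⟩
      intro n _ k
      set K : ℝ := ∑ j : Fin r → J, ‖((∏ i, γ i (j i) : ℝ) : ℂ)‖ ^ 2 with hK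
      have hK0 : 0 ≤ K := Finset.sum_nonneg fun j _ => by positivity
      calc Ex n (fun A => ‖fc (Wf tr γ n A) k‖ ^ 2)
          ≤ Ex n (fun A => K * ∑ j : Fin r → J, ‖fc (F n (fun i => tr (j i)) A) k‖ ^ 2) := by
            refine Ex_mono n _ _ fun A _ => ?_
            have h := w0_fc_sum (Finset.univ : Finset (Fin r → J))
              (fun j => ((∏ i, γ i (j i) : ℝ) : ℂ)) (fun j => F n (fun i => tr (j i)) A) k
            have h2 : fc (Wf tr γ n A) k = ∑ j : Fin r → J,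
                ((∏ i, γ i (j i) : ℝ) : ℂ) * fc (F n (fun i => tr (j i)) A) k := h
            rw [h2]
            exact w0_norm_sum _ _ _
        _ = K * ∑ j : Fin r → J, Ex n (fun A => ‖fc (F n (fun i => tr (j i)) A) k‖ ^ 2) := by
            rw [Ex_mul, Ex_sum]
        _ ≤ K * ∑ j : Fin r → J, C j / n :=
            mul_le_mul_of_nonneg_left (Finset.sum_le_sum fun j _ => hC j n k) hK0
        _ = _ := by rw [← Finset.sum_div, mul_div_assoc]
  · intro hr n _ A x
    subst hr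
    unfold Wf
    rw [Fintype.sum_unique, F_empty]
    simp
  · intro α n _ A x
    unfold Wf Gf
    refine Fintype.sum_equiv (Equiv.funUnique (Fin 1) J) _ _ fun j => ?_
    have h1 : (fun i : Fin 1 => tr (j i)) = fun _ : Fin 1 => tr (j 0) := by
      funext i
      rw [Subsingleton.elim i 0]
    have h2 := F_reindex n (Equiv.ofUnique (Fin 1) Unit) (fun _ : Unit => tr (j 0)) A x
    rw [h1]
    simp only [Equiv.funUnique_apply, Fin.default_eq_zero, Finset.univ_unique,
      Finset.prod_singleton]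
    rw [← h2]

end Pool.Agent.H276R2.Th
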