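import Pool.Agent.H276R2.Th.Spec

/-! Task W1: the Wick product rule (helper777). -/

set_option autoImplicit false

namespace Pool.Agent.H276R2.Th

open Finset

theorem w1_opt (n : ℕ) [NeZero n] {J : Type} (tr : J → Tree) (r : ℕ) (j0 : J) (j : Fin r → J)
    (A : Finset ℕ) (x : ZMod n) :
    F n (optB (tr j0) (fun i => tr (j i))) A x =
      F n (fun i : Fin (r + 1) => tr ((Fin.cons j0 j : Fin (r + 1) → J) i)) A x := by
  have h := F_reindex n (finSuccEquiv r) (optB (tr j0) (fun i => tr (j i))) A x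
  have e : (fun i : Fin (r + 1) => optB (tr j0) (fun i => tr (j i)) (finSuccEquiv r i)) =
      fun i : Fin (r + 1) => tr ((Fin.cons j0 j : Fin (r + 1) → J) i) := by
    funext i
    refine Fin.cases ?_ (fun k => ?_) i
    · rw [finSuccEquiv_zero, Fin.cons_zero]
      rfl
    · rw [finSuccEquiv_succ, Fin.cons_succ]
      rfl
  rw [e] at h
  exact h.symm

theorem w1_sub (n : ℕ) [NeZero n] {J : Type} (tr : J → Tree) (r : ℕ) (i : Fin (r + 1)) (b : J)
    (j : Fin r → J) (A : Finset ℕ) (x : ZMod n) :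
    F n (fun k : {k : Fin (r + 1) // k ≠ i} => tr ((i.insertNth b j : Fin (r + 1) → J) k)) A x =
      F n (fun k : Fin r => tr (j k)) A x := by
  have h := F_reindex n (finSuccAboveEquiv i)
    (fun k : {k : Fin (r + 1) // k ≠ i} => tr ((i.insertNth b j : Fin (r + 1) → J) k)) A x
  have e : (fun k : Fin r => (fun k : {k : Fin (r + 1) // k ≠ i} =>
      tr ((i.insertNth b j : Fin (r + 1) → J) k)) ((finSuccAboveEquiv i) k)) =
      fun k : Fin r => tr (j k) := by
    funext k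
    show tr ((i.insertNth b j : Fin (r + 1) → J) (i.succAbove k)) = tr (j k)
    rw [Fin.insertNth_apply_succAbove]
  rw [e] at h
  exact h.symm

theorem w1_cons (n : ℕ) [NeZero n] {J : Type} [Fintype J] (tr : J → Tree) (r : ℕ) (α : J → ℝ)
    (γ : Fin (r + 1) → J → ℝ) (A : Finset ℕ) (x : ZMod n) :
    Wf tr (Fin.cons α γ : Fin (r + 2) → J → ℝ) n A x =
      ∑ p : J × (Fin (r + 1) → J), ((α p.1 * ∏ i, γ i (p.2 i) : ℝ) : ℂ) *
        F n (optB (tr p.1) (fun i => tr (p.2 i))) A x := by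
  unfold Wf
  rw [← (Fin.consEquiv (fun _ : Fin (r + 2) => J)).sum_comp]
  refine Finset.sum_congr rfl fun p _ => ?_
  rw [w1_opt]
  have e : (Fin.consEquiv (fun _ : Fin (r + 2) => J)) p = (Fin.cons p.1 p.2 : Fin (r + 2) → J) := rfl
  rw [e]
  congr 2
  rw [Fin.prod_univ_succ]
  rfl

theorem w1_succ (n : ℕ) [NeZero n] {J : Type} [Fintype J] (tr : J → Tree) (r : ℕ) (α : J → ℝ)
    (γ : Fin (r + 1) → J → ℝ) (i : Fin (r + 1)) (A : Finset ℕ) (x : ZMod n) :
    (CC tr α (γ i) : ℂ) * Wf tr (fun j => γ (i.succAbove j)) n A x =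
      ∑ p : J × (Fin (r + 1) → J), ((α p.1 * ∏ i, γ i (p.2 i) : ℝ) : ℂ) *
        ((cc (tr p.1) (tr (p.2 i)) : ℂ) *
          F n (fun k : {k : Fin (r + 1) // k ≠ i} => tr (p.2 k)) A x) := by
  rw [Fintype.sum_prod_type]
  have h1 : ∀ j0 : J, ∑ j : Fin (r + 1) → J, ((α j0 * ∏ i, γ i (j i) : ℝ) : ℂ) *
        ((cc (tr j0) (tr (j i)) : ℂ) *
          F n (fun k : {k : Fin (r + 1) // k ≠ i} => tr (j k)) A x) =
      (∑ b : J, ((α j0 * γ i b * cc (tr j0) (tr b) : ℝ) : ℂ)) *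
        Wf tr (fun j => γ (i.succAbove j)) n A x := by
    intro j0
    rw [← (Fin.insertNthEquiv (fun _ : Fin (r + 1) => J) i).sum_comp, Fintype.sum_prod_type,
      Finset.sum_mul]
    refine Finset.sum_congr rfl fun b _ => ?_
    unfold Wf
    rw [Finset.mul_sum]
    refine Finset.sum_congr rfl fun j _ => ?_
    have e : (Fin.insertNthEquiv (fun _ : Fin (r + 1) => J) i) (b, j) =
        (i.insertNth b j : Fin (r + 1) → J) := rfl
    rw [e, w1_sub, Fin.prod_univ_succAbove _ i]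
    have e1 : ∀ k : Fin r, γ (i.succAbove k) ((i.insertNth b j : Fin (r + 1) → J) (i.succAbove k)) =
        γ (i.succAbove k) (j k) := by
      intro k
      rw [Fin.insertNth_apply_succAbove]
    rw [Finset.prod_congr rfl (fun k _ => e1 k)]
    have e2 : (i.insertNth b j : Fin (r + 1) → J) i = b := Fin.insertNth_apply_same _ _ _
    rw [e2]
    push_cast
    ring
  rw [Finset.sum_congr rfl (fun j0 _ => h1 j0), ← Finset.sum_mul]
  congr 1
  unfold CC
  push_cast
  rfl

/-- The error term for the pair `p`. -/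
noncomputable def w1_err {J : Type} (tr : J → Tree) (r : ℕ) (α : J → ℝ)
    (γ : Fin (r + 1) → J → ℝ) (p : J × (Fin (r + 1) → J)) : Fam := fun n _ A x =>
  ((α p.1 * ∏ i, γ i (p.2 i) : ℝ) : ℂ) *
        (F n (fun _ : Unit => tr p.1) A x * F n (fun i => tr (p.2 i)) A x -
          F n (optB (tr p.1) (fun i => tr (p.2 i))) A x -
          ∑ i, (cc (tr p.1) (tr (p.2 i)) : ℂ) *
            F n (fun k : {k : Fin (r + 1) // k ≠ i} => tr (p.2 k)) A x)

theorem w1_err_O1 (pr : S_PR) {J : Type} (tr : J → Tree) (r : ℕ) (α : J → ℝ)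
    (γ : Fin (r + 1) → J → ℝ) (p : J × (Fin (r + 1) → J)) : O1 (w1_err tr r α γ p) := by
  have hp := pr (tr p.1) (Fin (r + 1)) (fun i => tr (p.2 i))
  exact O1_smul ((α p.1 * ∏ i, γ i (p.2 i) : ℝ) : ℂ) hp

theorem t_W1 (pr : S_PR) : S_W1 := by
  intro J _ tr r α γ
  have h := O1_sum (Finset.univ : Finset (J × (Fin (r + 1) → J))) (f := w1_err tr r α γ)
    (fun p _ => w1_err_O1 pr tr r α γ p)
  refine O1_congr ?_ h
  intro n _ A x _
  show ∑ p : J × (Fin (r + 1) → J), ((α p.1 * ∏ i, γ i (p.2 i) : ℝ) : ℂ) *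
        (F n (fun _ : Unit => tr p.1) A x * F n (fun i => tr (p.2 i)) A x -
          F n (optB (tr p.1) (fun i => tr (p.2 i))) A x -
          ∑ i, (cc (tr p.1) (tr (p.2 i)) : ℂ) *
            F n (fun k : {k : Fin (r + 1) // k ≠ i} => tr (p.2 k)) A x) = _
  rw [w1_cons]
  simp only [w1_succ]
  rw [Finset.sum_comm]
  have hprod : Gf tr α n A x * Wf tr γ n A x = ∑ p : J × (Fin (r + 1) → J),
      ((α p.1 * ∏ i, γ i (p.2 i) : ℝ) : ℂ) *
        (F n (fun _ : Unit => tr p.1) A x * F n (fun i => tr (p.2 i)) A x) := by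
    unfold Gf Wf
    rw [Finset.sum_mul_sum, Fintype.sum_prod_type]
    refine Finset.sum_congr rfl fun j0 _ => Finset.sum_congr rfl fun j _ => ?_
    push_cast
    ring
  rw [hprod, ← Finset.sum_sub_distrib, ← Finset.sum_sub_distrib]
  refine Finset.sum_congr rfl fun p _ => ?_
  rw [mul_sub, mul_sub, Finset.mul_sum]

end Pool.Agent.H276R2.Th
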