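import Pool.Agent.H276R2.Th.Spec

/-!
# Part W2: Hermite polynomials of a normalised linear combination
-/

set_option autoImplicit false

namespace Pool.Agent.H276R2.Th

open Finset

theorem w2_cons {J : Type} (α : J → ℝ) (d : ℕ) :
    (Fin.cons α (fun _ : Fin (d + 1) => α) : Fin (d + 2) → J → ℝ) = fun _ => α := by
  funext i
  refine Fin.cases ?_ (fun i => ?_) i
  · rfl
  · rfl

theorem t_W2 (w0 : S_W0) (w1 : S_W1) : S_W2 := by
  intro J _ tr α hα
  have hBG : Bd (fun n _ A x => Gf tr α n A x) := (w0 J tr 0 (fun _ => α)).2.1 α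
  have hBW : ∀ d : ℕ, Bd (fun n _ A x => Wf tr (fun _ : Fin d => α) n A x) := fun d =>
    (w0 J tr d (fun _ => α)).1
  have hW0 : ∀ (n : ℕ) [NeZero n] (A : Finset ℕ) (x : ZMod n),
      Wf tr (fun _ : Fin 0 => α) n A x = 1 := by
    have h := (w0 J tr 0 (fun _ => α)).2.2.2.2.2.1 rfl
    exact h
  have hW1 : ∀ (n : ℕ) [NeZero n] (A : Finset ℕ) (x : ZMod n),
      Wf tr (fun _ : Fin 1 => α) n A x = Gf tr α n A x := by
    have h := (w0 J tr 0 (fun _ => α)).2.2.2.2.2.2 α
    exact h
  have key : ∀ d : ℕ, O1 (fun n _ A x => Polynomial.aeval (Gf tr α n A x) (He d) -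
      Wf tr (fun _ : Fin d => α) n A x) ∧
      O1 (fun n _ A x => Polynomial.aeval (Gf tr α n A x) (He (d + 1)) -
      Wf tr (fun _ : Fin (d + 1) => α) n A x) := by
    intro d
    induction d with
    | zero =>
      refine ⟨O1_congr (fun n _ A x _ => ?_) O1_zero, O1_congr (fun n _ A x _ => ?_) O1_zero⟩
      · rw [hW0, He, map_one, sub_self]
      · rw [hW1, He, Polynomial.aeval_X, sub_self]
    | succ d ih =>
      obtain ⟨h1, h2⟩ := ih
      refine ⟨h2, ?_⟩
      have h3 := w1 J tr d α (fun _ => α)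
      have hDB : DB (fun n _ A x => Polynomial.aeval (Gf tr α n A x) (He (d + 1)) -
          Wf tr (fun _ : Fin (d + 1) => α) n A x) :=
        DB_sub (DB_aeval (Bd_DB hBG) _) (Bd_DB (hBW (d + 1)))
      have h4 := O1_mul hDB h2 hBG
      have h5 := O1_smul ((d : ℂ) + 1) h1
      refine O1_congr (fun n _ A x _ => ?_) (O1_add (O1_sub h4 h5) h3)
      rw [w2_cons, hα]
      have h6 : Polynomial.aeval (Gf tr α n A x) (He (d + 1 + 1)) =
          Gf tr α n A x * Polynomial.aeval (Gf tr α n A x) (He (d + 1)) -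
            ((d : ℂ) + 1) * Polynomial.aeval (Gf tr α n A x) (He d) := by
        rw [He]
        simp only [map_sub, map_mul, map_add, map_one, map_natCast, Polynomial.aeval_X]
      rw [h6]
      simp only [Complex.ofReal_one, one_mul, Finset.sum_const, Finset.card_univ,
        Fintype.card_fin, nsmul_eq_mul, Nat.cast_add, Nat.cast_one]
      ring
  exact fun d => (key d).1

end Pool.Agent.H276R2.Th
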