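import Pool.Agent.H276R2.Th.Spec

/-!
# W3: covariances of Wick powers
-/

set_option autoImplicit false

namespace Pool.Agent.H276R2.Th

open Finset Real

/-- Convergence at rate `1 / √n`. -/
def W3cv (a : (n : ℕ) → [NeZero n] → ℂ) (l : ℂ) : Prop :=
  ∃ K : ℝ, ∀ (n : ℕ) [NeZero n], ‖a n - l‖ ≤ K / √n

theorem w3_cv_congr {a b : (n : ℕ) → [NeZero n] → ℂ} {l : ℂ} (h : ∀ (n : ℕ) [NeZero n], a n = b n)
    (ha : W3cv a l) : W3cv b l := by
  obtain ⟨K, hK⟩ := ha
  exact ⟨K, fun n _ => by rw [← h]; exact hK n⟩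

theorem w3_cv_add {a b : (n : ℕ) → [NeZero n] → ℂ} {l m : ℂ} (ha : W3cv a l) (hb : W3cv b m) :
    W3cv (fun n _ => a n + b n) (l + m) := by
  obtain ⟨K, hK⟩ := ha
  obtain ⟨K', hK'⟩ := hb
  refine ⟨K + K', fun n _ => ?_⟩
  have e : a n + b n - (l + m) = (a n - l) + (b n - m) := by ring
  rw [e, add_div]
  exact (norm_add_le _ _).trans (add_le_add (hK n) (hK' n))

theorem w3_cv_sub {a b : (n : ℕ) → [NeZero n] → ℂ} {l m : ℂ} (ha : W3cv a l) (hb : W3cv b m) :
    W3cv (fun n _ => a n - b n) (l - m) := by
  obtain ⟨K, hK⟩ := ha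
  obtain ⟨K', hK'⟩ := hb
  refine ⟨K + K', fun n _ => ?_⟩
  have e : a n - b n - (l - m) = (a n - l) - (b n - m) := by ring
  rw [e, add_div]
  exact (norm_sub_le _ _).trans (add_le_add (hK n) (hK' n))

theorem w3_cv_smul {a : (n : ℕ) → [NeZero n] → ℂ} {l : ℂ} (c : ℂ) (ha : W3cv a l) :
    W3cv (fun n _ => c * a n) (c * l) := by
  obtain ⟨K, hK⟩ := ha
  refine ⟨‖c‖ * K, fun n _ => ?_⟩
  rw [← mul_sub, norm_mul, mul_div_assoc]
  exact mul_le_mul_of_nonneg_left (hK n) (norm_nonneg c)

theorem w3_cv_sum {ι : Type} (s : Finset ι) {a : ι → (n : ℕ) → [NeZero n] → ℂ} {l : ι → ℂ}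
    (ha : ∀ i ∈ s, W3cv (a i) (l i)) : W3cv (fun n _ => ∑ i ∈ s, a i n) (∑ i ∈ s, l i) := by
  classical
  induction s using Finset.induction_on with
  | empty => exact ⟨0, fun n _ => by simp⟩
  | insert i s hi ih =>
    have h1 := w3_cv_add (ha i (Finset.mem_insert_self i s))
      (ih fun j hj => ha j (Finset.mem_insert_of_mem hj))
    rw [Finset.sum_insert hi]
    refine w3_cv_congr ?_ h1
    intro n _
    rw [Finset.sum_insert hi]

/-- The covariance of two families. -/
noncomputable def w3E (f g : Fam) : (n : ℕ) → [NeZero n] → ℂ :=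
  fun n _ => ExC n (fun A => (∑ x, f n A x * g n A x) / n)

theorem w3_E_comm (f g : Fam) (n : ℕ) [NeZero n] : w3E f g n = w3E g f n := by
  unfold w3E
  congr 1
  funext A
  congr 1
  exact Finset.sum_congr rfl fun x _ => mul_comm _ _

theorem w3_E_add (f f' g : Fam) (n : ℕ) [NeZero n] :
    w3E (fun n _ A x => f n A x + f' n A x) g n = w3E f g n + w3E f' g n := by
  unfold w3E
  rw [← ExC_add]
  congr 1
  funext A
  rw [← add_div, ← Finset.sum_add_distrib]
  congr 1
  exact Finset.sum_congr rfl fun x _ => by ring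

theorem w3_E_sub (f f' g : Fam) (n : ℕ) [NeZero n] :
    w3E (fun n _ A x => f n A x - f' n A x) g n = w3E f g n - w3E f' g n := by
  unfold w3E
  rw [← ExC_sub]
  congr 1
  funext A
  rw [← sub_div, ← Finset.sum_sub_distrib]
  congr 1
  exact Finset.sum_congr rfl fun x _ => by ring

theorem w3_E_smul (c : ℂ) (f g : Fam) (n : ℕ) [NeZero n] :
    w3E (fun n _ A x => c * f n A x) g n = c * w3E f g n := by
  unfold w3E
  rw [← ExC_mul]
  congr 1
  funext A
  rw [← mul_div_assoc, Finset.mul_sum]
  congr 1
  exact Finset.sum_congr rfl fun x _ => by ring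

theorem w3_E_zero (g : Fam) (n : ℕ) [NeZero n] : w3E (fun _ _ _ _ => 0) g n = 0 := by
  unfold w3E
  simp [ExC_const]

theorem w3_E_sum {ι : Type} (s : Finset ι) (f : ι → Fam) (g : Fam) (n : ℕ) [NeZero n] :
    w3E (fun n _ A x => ∑ i ∈ s, f i n A x) g n = ∑ i ∈ s, w3E (f i) g n := by
  classical
  induction s using Finset.induction_on with
  | empty =>
    simp only [Finset.sum_empty]
    exact w3_E_zero g n
  | insert i s hi ih =>
    rw [Finset.sum_insert hi, ← ih, ← w3_E_add]
    unfold w3E
    congr 1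
    funext A
    congr 1
    exact Finset.sum_congr rfl fun x _ => by simp only [Finset.sum_insert hi]

theorem w3_cv_O1 {f g : Fam} (hf : O1 f) (hg : Bd g) : W3cv (w3E f g) 0 := by
  obtain ⟨C, hC⟩ := O1_avg_mul hf hg
  refine ⟨C, fun n _ => ?_⟩
  rw [sub_zero]
  exact hC n

section Low

variable {J : Type} [Fintype J] (tr : J → Tree)

/-- The lower order terms of the product `Gf α * Wf γ`. -/
noncomputable def w3low (α : J → ℝ) : (r : ℕ) → (γ : Fin r → J → ℝ) → Fam
  | 0, _ => fun _ _ _ _ => 0
  | _ + 1, γ => fun n _ A x => ∑ i, (CC tr α (γ i) : ℂ) * Wf tr (fun j => γ (i.succAbove j)) n A x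

/-- The limit of the covariance. -/
noncomputable def w3L (α : J → ℝ) (d r : ℕ) (γ : Fin r → J → ℝ) : ℂ :=
  if d = r then ((d.factorial * ∏ i, CC tr α (γ i) : ℝ) : ℂ) else 0

/-- The limit of the covariance with the lower order terms. -/
noncomputable def w3LL (α : J → ℝ) (d : ℕ) : (r : ℕ) → (γ : Fin r → J → ℝ) → ℂ
  | 0, _ => 0
  | r + 1, γ => ∑ i, (CC tr α (γ i) : ℂ) * w3L tr α d r (fun j => γ (i.succAbove j))

theorem w3_prod (w0 : S_W0) (w1 : S_W1) (α : J → ℝ) (r : ℕ) (γ : Fin r → J → ℝ) :
    O1 (fun n _ A x => Gf tr α n A x * Wf tr γ n A x -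
      Wf tr (Fin.cons α γ : Fin (r + 1) → J → ℝ) n A x - w3low tr α r γ n A x) := by
  match r, γ with
  | 0, γ =>
    refine O1_congr ?_ O1_zero
    intro n _ A x _
    have h1 : Wf tr γ n A x = 1 := (w0 J tr 0 γ).2.2.2.2.2.1 rfl n A x
    have h2 : (Fin.cons α γ : Fin (0 + 1) → J → ℝ) = fun _ => α := by
      funext i
      have : i = 0 := Fin.ext (by have := i.2; simp only [Fin.val_zero]; omega)
      subst this
      rfl
    have h3 : Wf tr (fun _ : Fin 1 => α) n A x = Gf tr α n A x :=
      (w0 J tr 0 γ).2.2.2.2.2.2 α n A x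
    rw [h1, h2]
    change (0 : ℂ) = Gf tr α n A x * 1 - Wf tr (fun _ : Fin 1 => α) n A x - 0
    rw [h3]
    ring
  | r + 1, γ =>
    exact w1 J tr r α γ

theorem w3_low_bd (w0 : S_W0) (α : J → ℝ) (r : ℕ) (γ : Fin r → J → ℝ) :
    Bd (fun n _ A x => w3low tr α r γ n A x) := by
  match r, γ with
  | 0, γ => exact Bd_const 0
  | r + 1, γ =>
    exact Bd_sum univ fun i _ => Bd_smul _ (w0 J tr r (fun j => γ (i.succAbove j))).1

/-- The induction hypothesis gives the covariance with the lower order terms. -/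
theorem w3_low_cv (α : J → ℝ) (d : ℕ) (f : Fam)
    (ih : ∀ (r : ℕ) (γ : Fin r → J → ℝ), W3cv (w3E f (fun n _ A x => Wf tr γ n A x))
      (w3L tr α d r γ)) (r : ℕ) (γ : Fin r → J → ℝ) :
    W3cv (w3E f (fun n _ A x => w3low tr α r γ n A x)) (w3LL tr α d r γ) := by
  match r, γ with
  | 0, γ =>
    refine ⟨0, fun n _ => ?_⟩
    rw [w3_E_comm]
    have : w3E (fun n _ A x => w3low tr α 0 γ n A x) f n = 0 := w3_E_zero f n
    rw [this]
    simp [w3LL]
  | r + 1, γ =>
    have h1 := w3_cv_sum univ fun (i : Fin (r + 1)) _ =>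
      w3_cv_smul (CC tr α (γ i) : ℂ) (ih r (fun j => γ (i.succAbove j)))
    refine w3_cv_congr ?_ h1
    intro n _
    rw [w3_E_comm f]
    have h2 := w3_E_sum univ (fun (i : Fin (r + 1)) =>
      ((fun n _ A x => (CC tr α (γ i) : ℂ) * Wf tr (fun j => γ (i.succAbove j)) n A x) : Fam)) f n
    refine Eq.trans ?_ h2.symm
    refine Finset.sum_congr rfl fun i _ => ?_
    rw [w3_E_smul, w3_E_comm]

theorem w3_alg1 (α : J → ℝ) (d r : ℕ) (γ : Fin r → J → ℝ) :
    w3L tr α (d + 1) r γ = w3LL tr α d r γ := by
  match r, γ with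
  | 0, γ => simp [w3L, w3LL]
  | r + 1, γ =>
    unfold w3LL w3L
    by_cases h : d = r
    · subst h
      simp only [if_true]
      have h1 : ∀ i : Fin (d + 1), (CC tr α (γ i) : ℂ) *
          ((d.factorial * ∏ j, CC tr α (γ (i.succAbove j)) : ℝ) : ℂ) =
          ((d.factorial * ∏ i, CC tr α (γ i) : ℝ) : ℂ) := by
        intro i
        rw [Fin.prod_univ_succAbove (fun i => CC tr α (γ i)) i]
        push_cast
        ring
      rw [Finset.sum_congr rfl fun i _ => h1 i, Finset.sum_const, Finset.card_univ,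
        Fintype.card_fin, Nat.factorial_succ]
      push_cast
      simp
      ring
    · have h' : ¬ (d + 1 = r + 1) := by omega
      simp [h, h']

end Low

/-- covariances of Wick powers. -/
theorem t_W3 (w0 : S_W0) (w1 : S_W1) : S_W3 := by
  intro J _ tr α
  have key : ∀ (d r : ℕ) (γ : Fin r → J → ℝ),
      W3cv (w3E (fun n _ A x => Wf tr (fun _ : Fin d => α) n A x)
        (fun n _ A x => Wf tr γ n A x)) (w3L tr α d r γ) := by
    intro d
    induction d using Nat.strong_induction_on with
    | _ d ih =>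
      intro r γ
      match d, ih with
      | 0, ih =>
        have hW : ∀ (n : ℕ) [NeZero n] (A : Finset ℕ) (x : ZMod n),
            Wf tr (fun _ : Fin 0 => α) n A x = 1 :=
          fun n _ A x => (w0 J tr 0 (fun _ => α)).2.2.2.2.2.1 rfl n A x
        have hn0 : ∀ (n : ℕ) [NeZero n], (n : ℂ) ≠ 0 :=
          fun n _ => by exact_mod_cast (NeZero.ne n)
        rcases Nat.eq_zero_or_pos r with hr | hr
        · subst hr
          have hW' : ∀ (n : ℕ) [NeZero n] (A : Finset ℕ) (x : ZMod n), Wf tr γ n A x = 1 :=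
            fun n _ A x => (w0 J tr 0 γ).2.2.2.2.2.1 rfl n A x
          refine ⟨0, fun n _ => ?_⟩
          unfold w3E w3L
          simp only [hW, hW']
          simp [ExC_const, hn0 n]
        · have hz : ∀ (n : ℕ) [NeZero n] (x : ZMod n), ExC n (fun A => Wf tr γ n A x) = 0 :=
            ((w0 J tr r γ).2.2.2.2.1 hr).1
          refine ⟨0, fun n _ => ?_⟩
          unfold w3E w3L
          simp only [hW, one_mul]
          have h1 : ExC n (fun A => (∑ x, Wf tr γ n A x) / n) =
              (1 / (n : ℂ)) * ∑ x : ZMod n, ExC n (fun A => Wf tr γ n A x) := by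
            rw [← ExC_sum, ← ExC_mul]
            congr 1
            funext A
            ring
          rw [h1, Finset.sum_eq_zero fun x _ => hz n x, if_neg (by omega)]
          simp
      | d + 1, ih =>
        -- notation
        have hBdW : ∀ (s : ℕ) (δ : Fin s → J → ℝ), Bd (fun n _ A x => Wf tr δ n A x) :=
          fun s δ => (w0 J tr s δ).1
        have hcons : (Fin.cons α (fun _ : Fin d => α) : Fin (d + 1) → J → ℝ) = fun _ => α := by
          funext i
          refine Fin.cases ?_ (fun j => ?_) i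
          · rfl
          · rfl
        have hP := w3_prod tr w0 w1 α d (fun _ : Fin d => α)
        rw [hcons] at hP
        have hQ := w3_prod tr w0 w1 α r γ
        have e1 := w3_cv_O1 hP (hBdW r γ)
        have e2 := w3_cv_O1 hQ (hBdW d (fun _ : Fin d => α))
        -- the terms
        have hd := ih d (Nat.lt_succ_self d)
        have t1 := hd (r + 1) (Fin.cons α γ)
        have t2 := w3_low_cv tr α d _ hd r γ
        -- E (low α α^d, Wf γ)
        have t3 : W3cv (w3E (fun n _ A x => w3low tr α d (fun _ : Fin d => α) n A x)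
            (fun n _ A x => Wf tr γ n A x)) (w3L tr α d (r + 1) (Fin.cons α γ)) := by
          match d, ih with
          | 0, ih =>
            refine ⟨0, fun n _ => ?_⟩
            have : w3E (fun n _ A x => w3low tr α 0 (fun _ : Fin 0 => α) n A x)
              (fun n _ A x => Wf tr γ n A x) n = 0 := w3_E_zero _ n
            rw [this]
            simp [w3L]
          | d + 1, ih =>
            have h0 := ih d (by omega) r γ
            have h1 := w3_cv_sum univ fun (i : Fin (d + 1)) _ => w3_cv_smul (CC tr α α : ℂ) h0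
            have h2 : ∑ i : Fin (d + 1), (CC tr α α : ℂ) * w3L tr α d r γ =
                w3L tr α (d + 1) (r + 1) (Fin.cons α γ) := by
              rw [Finset.sum_const, Finset.card_univ, Fintype.card_fin]
              unfold w3L
              by_cases h : d = r
              · subst h
                rw [if_pos rfl, if_pos rfl, Fin.prod_univ_succ, Nat.factorial_succ]
                simp only [Fin.cons_zero, Fin.cons_succ]
                push_cast
                simp
                ring
              · have h' : ¬ (d + 1 = r + 1) := by omega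
                rw [if_neg h, if_neg h']
                simp
            rw [← h2]
            refine w3_cv_congr ?_ h1
            intro n _
            have h3 := w3_E_sum univ (fun (i : Fin (d + 1)) =>
              ((fun n _ A x => (CC tr α α : ℂ) * Wf tr (fun _ : Fin d => α) n A x) : Fam))
              (fun n _ A x => Wf tr γ n A x) n
            refine Eq.trans ?_ h3.symm
            refine Finset.sum_congr rfl fun i _ => ?_
            rw [w3_E_smul]
        have hsum := w3_cv_sub (w3_cv_sub (w3_cv_add (w3_cv_add e2 t1) t2) t3) e1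
        have hlim : (0 + w3L tr α d (r + 1) (Fin.cons α γ) + w3LL tr α d r γ -
            w3L tr α d (r + 1) (Fin.cons α γ) - 0 : ℂ) = w3L tr α (d + 1) r γ := by
          rw [w3_alg1]
          ring
        rw [hlim] at hsum
        refine w3_cv_congr ?_ hsum
        intro n _
        rw [w3_E_sub, w3_E_sub, w3_E_sub, w3_E_sub]
        have hc1 := w3_E_comm (fun n _ A x => Wf tr (Fin.cons α γ : Fin (r + 1) → J → ℝ) n A x)
          (fun n _ A x => Wf tr (fun _ : Fin d => α) n A x) n
        have hc2 := w3_E_comm (fun n _ A x => w3low tr α r γ n A x)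
          (fun n _ A x => Wf tr (fun _ : Fin d => α) n A x) n
        have hc3 : w3E (fun n _ A x => Gf tr α n A x * Wf tr γ n A x)
            (fun n _ A x => Wf tr (fun _ : Fin d => α) n A x) n =
            w3E (fun n _ A x => Gf tr α n A x * Wf tr (fun _ : Fin d => α) n A x)
            (fun n _ A x => Wf tr γ n A x) n := by
          unfold w3E
          congr 1
          funext A
          congr 1
          exact Finset.sum_congr rfl fun x _ => by ring
        rw [hc1, hc2, hc3]
        ring
  intro d r γ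
  exact key d r γ

end Pool.Agent.H276R2.Th
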