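import Pool.Agent.H276R2.Th.Spec

/-!
# Task W4: covariances after one step of the iteration (helper267)
-/

set_option autoImplicit false

namespace Pool.Agent.H276R2.Th

open Finset Real

/-- Expectation of the average of a product. -/
noncomputable def w4_E (f g : Fam) (n : ℕ) [NeZero n] : ℂ :=
  ExC n (fun A => (∑ x, f n A x * g n A x) / n)

/-- The average of the product converges to `L` with rate `1 / √n`. -/
def w4_lim (f g : Fam) (L : ℂ) : Prop :=
  ∃ K : ℝ, ∀ (n : ℕ) [NeZero n], ‖w4_E f g n - L‖ ≤ K / √n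

theorem w4_npos (n : ℕ) [NeZero n] : (0:ℝ) < n := by
  exact_mod_cast Nat.pos_of_ne_zero (NeZero.ne n)

theorem w4_E_congr {f f' g g' : Fam} (hf : ∀ (n : ℕ) [NeZero n] (A : Finset ℕ) (x : ZMod n),
    f n A x = f' n A x) (hg : ∀ (n : ℕ) [NeZero n] (A : Finset ℕ) (x : ZMod n),
    g n A x = g' n A x) (n : ℕ) [NeZero n] : w4_E f g n = w4_E f' g' n := by
  unfold w4_E
  apply ExC_congr
  intro A _
  congr 1
  apply Finset.sum_congr rfl
  intro x _
  rw [hf, hg]

theorem w4_E_comm (f g : Fam) (n : ℕ) [NeZero n] : w4_E f g n = w4_E g f n := by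
  unfold w4_E
  apply ExC_congr
  intro A _
  congr 1
  apply Finset.sum_congr rfl
  intro x _
  rw [mul_comm]

theorem w4_E_add (f f' g : Fam) (n : ℕ) [NeZero n] :
    w4_E (fun n _ A x => f n A x + f' n A x) g n = w4_E f g n + w4_E f' g n := by
  unfold w4_E
  rw [← ExC_add]
  apply ExC_congr
  intro A _
  simp only
  rw [← add_div, ← Finset.sum_add_distrib]
  congr 1
  apply Finset.sum_congr rfl
  intro x _
  ring

theorem w4_E_smul (c : ℂ) (f g : Fam) (n : ℕ) [NeZero n] :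
    w4_E (fun n _ A x => c * f n A x) g n = c * w4_E f g n := by
  unfold w4_E
  rw [← ExC_mul]
  apply ExC_congr
  intro A _
  simp only
  rw [← mul_div_assoc, Finset.mul_sum]
  congr 1
  apply Finset.sum_congr rfl
  intro x _
  ring

theorem w4_lim_congr {f f' g g' : Fam} {L : ℂ}
    (hf : ∀ (n : ℕ) [NeZero n] (A : Finset ℕ) (x : ZMod n), f n A x = f' n A x)
    (hg : ∀ (n : ℕ) [NeZero n] (A : Finset ℕ) (x : ZMod n), g n A x = g' n A x)
    (h : w4_lim f g L) : w4_lim f' g' L := by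
  obtain ⟨K, hK⟩ := h
  refine ⟨K, fun n _ => ?_⟩
  rw [← w4_E_congr hf hg n]
  exact hK n

theorem w4_lim_comm {f g : Fam} {L : ℂ} (h : w4_lim f g L) : w4_lim g f L := by
  obtain ⟨K, hK⟩ := h
  refine ⟨K, fun n _ => ?_⟩
  rw [w4_E_comm]
  exact hK n

theorem w4_lim_add {f f' g : Fam} {L L' : ℂ} (h : w4_lim f g L) (h' : w4_lim f' g L') :
    w4_lim (fun n _ A x => f n A x + f' n A x) g (L + L') := by
  obtain ⟨K, hK⟩ := h
  obtain ⟨K', hK'⟩ := h'
  refine ⟨K + K', fun n _ => ?_⟩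
  rw [w4_E_add, add_div]
  calc ‖w4_E f g n + w4_E f' g n - (L + L')‖
      = ‖(w4_E f g n - L) + (w4_E f' g n - L')‖ := by congr 1; ring
    _ ≤ ‖w4_E f g n - L‖ + ‖w4_E f' g n - L'‖ := norm_add_le _ _
    _ ≤ _ := add_le_add (hK n) (hK' n)

theorem w4_lim_smul {f g : Fam} {L : ℂ} (c : ℂ) (h : w4_lim f g L) :
    w4_lim (fun n _ A x => c * f n A x) g (c * L) := by
  obtain ⟨K, hK⟩ := h
  refine ⟨‖c‖ * K, fun n _ => ?_⟩
  rw [w4_E_smul, ← mul_sub, norm_mul, mul_div_assoc]
  exact mul_le_mul_of_nonneg_left (hK n) (norm_nonneg _)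

theorem w4_lim_zero (g : Fam) : w4_lim (fun _ _ _ _ => 0) g 0 := by
  refine ⟨0, fun n _ => ?_⟩
  have h : w4_E (fun _ _ _ _ => 0) g n = 0 := by
    unfold w4_E
    simp only [zero_mul, Finset.sum_const_zero, zero_div]
    exact ExC_const n 0
  rw [h]
  simp

theorem w4_lim_sum {ι : Type} (s : Finset ι) {f : ι → Fam} {g : Fam} {L : ι → ℂ}
    (h : ∀ i ∈ s, w4_lim (f i) g (L i)) :
    w4_lim (fun n _ A x => ∑ i ∈ s, f i n A x) g (∑ i ∈ s, L i) := by
  classical
  induction s using Finset.induction_on with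
  | empty =>
    refine w4_lim_congr (fun n _ A x => ?_) (fun n _ A x => rfl) (w4_lim_zero g)
    simp
  | insert i s hi ih =>
    rw [Finset.sum_insert hi]
    refine w4_lim_congr (fun n _ A x => ?_) (fun n _ A x => rfl)
      (w4_lim_add (h i (mem_insert_self i s)) (ih (fun j hj => h j (mem_insert_of_mem hj))))
    rw [Finset.sum_insert hi]

theorem w4_lim_O1 {f g : Fam} (hf : O1 f) (hg : Bd g) : w4_lim f g 0 := by
  obtain ⟨C, hC⟩ := O1_avg_mul hf hg
  refine ⟨C, fun n _ => ?_⟩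
  rw [sub_zero]
  exact hC n

/-- Replace the first function by a close one. -/
theorem w4_lim_near {f f' g : Fam} {L : ℂ} (h : O1 (fun n _ A x => f n A x - f' n A x)) (hg : Bd g)
    (h' : w4_lim f' g L) : w4_lim f g L := by
  have h1 := w4_lim_add (w4_lim_O1 h hg) h'
  rw [zero_add] at h1
  refine w4_lim_congr (fun n _ A x => ?_) (fun n _ A x => rfl) h1
  ring

/-- Multiple of the delta function. -/
noncomputable def w4_d (a : ℝ) : Fam := fun n _ _ x => if x = 0 then ((a * √n : ℝ) : ℂ) else 0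

theorem w4_sum_d (a : ℝ) (n : ℕ) [NeZero n] (A : Finset ℕ) (g : ZMod n → ℂ) :
    ∑ x, w4_d a n A x * g x = ((a * √n : ℝ) : ℂ) * g 0 := by
  unfold w4_d
  rw [Finset.sum_eq_single (0 : ZMod n)]
  · simp
  · intro x _ hx
    simp [hx]
  · intro h
    exact absurd (Finset.mem_univ _) h

theorem w4_lim_d {g : Fam} (a : ℝ) (hg : Bd g) : w4_lim (w4_d a) g 0 := by
  obtain ⟨-, C, hC⟩ := hg
  refine ⟨|a| * √C, fun n _ => ?_⟩
  have hn := w4_npos n
  have hs : (0:ℝ) < √n := Real.sqrt_pos.mpr hn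
  rw [sub_zero]
  unfold w4_E
  refine (norm_ExC_le n _).trans ?_
  have h1 : ∀ A, ‖(∑ x, w4_d a n A x * g n A x) / n‖ = |a| / √n * ‖g n A 0‖ := by
    intro A
    rw [w4_sum_d, norm_div, norm_mul, Complex.norm_real, Complex.norm_natCast, Real.norm_eq_abs,
      abs_mul, abs_of_pos hs]
    have h2 : (n:ℝ) = √n * √n := (Real.mul_self_sqrt hn.le).symm
    rw [div_mul_eq_mul_div]
    nth_rewrite 2 [h2]
    rw [div_eq_div_iff (by positivity) (by positivity)]
    ring
  rw [Ex_congr n _ (fun A => |a| / √n * ‖g n A 0‖) (fun A _ => h1 A), Ex_mul]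
  have h3 : Ex n (fun A => ‖g n A 0‖) ≤ √C := by
    apply Real.le_sqrt_of_sq_le
    exact (sq_Ex_le n _).trans (hC n 0)
  calc |a| / √n * Ex n (fun A => ‖g n A 0‖) ≤ |a| / √n * √C := by gcongr
    _ = |a| * √C / √n := by ring

theorem w4_lim_dd (a b : ℝ) : w4_lim (w4_d a) (w4_d b) ((a * b : ℝ) : ℂ) := by
  refine ⟨0, fun n _ => ?_⟩
  have hn := w4_npos n
  have h : w4_E (w4_d a) (w4_d b) n = ((a * b : ℝ) : ℂ) := by
    unfold w4_E
    rw [ExC_congr n _ (fun _ => ((a * b : ℝ) : ℂ)), ExC_const]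
    intro A _
    rw [w4_sum_d, w4_d, if_pos rfl, ← Complex.ofReal_mul, ← Complex.ofReal_natCast,
      ← Complex.ofReal_div]
    congr 1
    have h2 : √n * √n = (n:ℝ) := Real.mul_self_sqrt hn.le
    rw [div_eq_iff hn.ne']
    calc a * √n * (b * √n) = a * b * (√n * √n) := by ring
      _ = a * b * n := by rw [h2]
  rw [h]
  simp

theorem w4_unique {f g : Fam} {L L' : ℂ} (h : w4_lim f g L) (h' : w4_lim f g L') : L = L' := by
  obtain ⟨K, hK⟩ := h
  obtain ⟨K', hK'⟩ := h'
  by_contra hne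
  have he : 0 < ‖L - L'‖ := norm_pos_iff.mpr (sub_ne_zero.mpr hne)
  obtain ⟨m, hm⟩ := exists_nat_gt (((K + K') / ‖L - L'‖) ^ 2)
  have h1 := hK (m + 1)
  have h2 := hK' (m + 1)
  have hs : 0 < √((m + 1 : ℕ) : ℝ) := Real.sqrt_pos.mpr (by exact_mod_cast Nat.succ_pos m)
  have h3 : ‖L - L'‖ ≤ (K + K') / √((m + 1 : ℕ) : ℝ) := by
    rw [add_div]
    calc ‖L - L'‖ = ‖(w4_E f g (m + 1) - L') - (w4_E f g (m + 1) - L)‖ := by congr 1; ring
      _ ≤ ‖w4_E f g (m + 1) - L'‖ + ‖w4_E f g (m + 1) - L‖ := norm_sub_le _ _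
      _ ≤ K' / √((m + 1 : ℕ) : ℝ) + K / √((m + 1 : ℕ) : ℝ) := add_le_add h2 h1
      _ = _ := add_comm _ _
  rw [le_div_iff₀ hs] at h3
  have h4 : √((m + 1 : ℕ) : ℝ) ≤ (K + K') / ‖L - L'‖ := by
    rw [le_div_iff₀ he]
    linarith
  have h5 : ((m + 1 : ℕ) : ℝ) ≤ ((K + K') / ‖L - L'‖) ^ 2 := by
    calc ((m + 1 : ℕ) : ℝ) = (√((m + 1 : ℕ) : ℝ)) ^ 2 := (Real.sq_sqrt (by positivity)).symm
      _ ≤ _ := pow_le_pow_left₀ hs.le h4 2
  push_cast at h5
  linarith

/-- `T` preserves averages of products. -/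
theorem w4_E_T (f g : Fam) (n : ℕ) [NeZero n] :
    w4_E (fun n _ A x => T A (f n A) x) (fun n _ A x => T A (g n A) x) n = w4_E f g n := by
  unfold w4_E
  apply ExC_congr
  intro A _
  congr 1
  have h1 := T_inner A (f n A) (fun y => (starRingEnd ℂ) (g n A y))
  have h2 : ∀ x, (starRingEnd ℂ) (T A (fun y => (starRingEnd ℂ) (g n A y)) x) = T A (g n A) x := by
    intro x
    rw [T_conj, Complex.conj_conj]
  simp only [h2, Complex.conj_conj] at h1
  exact h1

theorem w4_lim_T {f g : Fam} {L : ℂ} (h : w4_lim f g L) :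
    w4_lim (fun n _ A x => T A (f n A) x) (fun n _ A x => T A (g n A) x) L := by
  obtain ⟨K, hK⟩ := h
  refine ⟨K, fun n _ => ?_⟩
  rw [w4_E_T]
  exact hK n

/-- The Wick expansion of a polynomial. -/
theorem w4_exp (w2 : S_W2) (J : Type) [Fintype J] (tr : J → Tree) (α : J → ℝ)
    (hα : CC tr α α = 1) (D : ℕ) (c : ℕ → ℝ) :
    O1 (fun n _ A x => Polynomial.aeval (Gf tr α n A x) (PP D c) -
      ∑ d ∈ range (D + 1), (c d : ℂ) * Wf tr (fun _ : Fin d => α) n A x) := by
  have h1 : O1 (fun n _ A x => ∑ d ∈ range (D + 1), (c d : ℂ) *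
      (Polynomial.aeval (Gf tr α n A x) (He d) - Wf tr (fun _ : Fin d => α) n A x)) :=
    O1_sum _ (fun d _ => O1_smul _ (w2 J tr α hα d))
  refine O1_congr (fun n _ A x _ => ?_) h1
  unfold PP
  rw [map_sum, ← Finset.sum_sub_distrib]
  apply Finset.sum_congr rfl
  intro d _
  rw [map_mul, Polynomial.aeval_C, mul_sub]
  rfl

theorem t_W4 (w0 : S_W0) (w2 : S_W2) (w3 : S_W3) : S_W4 := by
  intro J J' _ _ tr tr' α β α' β' D c₁ c₂ a b s₁ s₂ hα hβ h1 h2
  -- bounded families
  have bα : Bd (fun n _ A x => Gf tr α n A x) := (w0 J tr 0 (fun _ => α)).2.1 α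
  have bβ : Bd (fun n _ A x => Gf tr β n A x) := (w0 J tr 0 (fun _ => α)).2.1 β
  have bα' : Bd (fun n _ A x => Gf tr' α' n A x) := (w0 J' tr' 0 (fun _ => α')).2.1 α'
  have bβ' : Bd (fun n _ A x => Gf tr' β' n A x) := (w0 J' tr' 0 (fun _ => α')).2.1 β'
  have bP1 : Bd (fun n _ A x => Polynomial.aeval (Gf tr α n A x) (PP D c₁)) := Bd_aeval bα _
  have bP2 : Bd (fun n _ A x => Polynomial.aeval (Gf tr β n A x) (PP D c₂)) := Bd_aeval bβ _
  -- right side
  have hR : w4_lim (fun n _ A y => w4_d a n A y + Polynomial.aeval (Gf tr α n A y) (PP D c₁))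
      (fun n _ A y => w4_d b n A y + Polynomial.aeval (Gf tr β n A y) (PP D c₂))
      (((a * b : ℝ) : ℂ) + ∑ d ∈ range (D + 1),
        ((c₁ d * c₂ d * d.factorial * CC tr α β ^ d : ℝ) : ℂ)) := by
    -- the polynomial part
    have hPP : w4_lim (fun n _ A x => Polynomial.aeval (Gf tr α n A x) (PP D c₁))
        (fun n _ A x => Polynomial.aeval (Gf tr β n A x) (PP D c₂))
        (∑ d ∈ range (D + 1), ((c₁ d * c₂ d * d.factorial * CC tr α β ^ d : ℝ) : ℂ)) := by
      refine w4_lim_near (w4_exp w2 J tr α hα D c₁) bP2 ?_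
      have bS : ∀ d : ℕ, Bd (fun n _ A x => (c₁ d : ℂ) * Wf tr (fun _ : Fin d => α) n A x) :=
        fun d => Bd_smul _ (w0 J tr d (fun _ => α)).1
      apply w4_lim_comm
      refine w4_lim_near (w4_exp w2 J tr β hβ D c₂) (Bd_sum _ (fun d _ => bS d)) ?_
      apply w4_lim_comm
      apply w4_lim_sum
      intro d hd
      have h3 : w4_lim (fun n _ A x => ∑ e ∈ range (D + 1), (c₂ e : ℂ) *
          Wf tr (fun _ : Fin e => β) n A x) (fun n _ A x => (c₁ d : ℂ) *
          Wf tr (fun _ : Fin d => α) n A x) (∑ e ∈ range (D + 1), (c₂ e : ℂ) * ((c₁ d : ℂ) *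
            (if d = e then ((d.factorial * CC tr α β ^ d : ℝ) : ℂ) else 0))) := by
        apply w4_lim_sum
        intro e _
        apply w4_lim_smul
        apply w4_lim_comm
        apply w4_lim_smul
        obtain ⟨K, hK⟩ := w3 J tr α d e (fun _ => β)
        refine ⟨K, fun n _ => ?_⟩
        have h4 := hK n
        have h5 : (if d = e then ((d.factorial * ∏ _i : Fin e, CC tr α β : ℝ) : ℂ) else 0) =
            (if d = e then ((d.factorial * CC tr α β ^ d : ℝ) : ℂ) else 0) := by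
          split_ifs with hde
          · subst hde
            rw [Finset.prod_const, Finset.card_univ, Fintype.card_fin]
          · rfl
        rw [h5] at h4
        exact h4
      have h6 := w4_lim_comm h3
      have h7 : (∑ e ∈ range (D + 1), (c₂ e : ℂ) * ((c₁ d : ℂ) *
            (if d = e then ((d.factorial * CC tr α β ^ d : ℝ) : ℂ) else 0))) =
          ((c₁ d * c₂ d * d.factorial * CC tr α β ^ d : ℝ) : ℂ) := by
        rw [Finset.sum_eq_single d]
        · rw [if_pos rfl]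
          push_cast
          ring
        · intro e _ hed
          rw [if_neg (Ne.symm hed), mul_zero, mul_zero]
        · intro h
          exact absurd hd h
      rw [h7] at h6
      exact h6
    have hA : w4_lim (w4_d a)
        (fun n _ A y => w4_d b n A y + Polynomial.aeval (Gf tr β n A y) (PP D c₂))
        ((a * b : ℝ) : ℂ) := by
      have h3 := w4_lim_add (w4_lim_comm (w4_lim_dd a b)) (w4_lim_comm (w4_lim_d a bP2))
      rw [add_zero] at h3
      exact w4_lim_comm h3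
    have hB : w4_lim (fun n _ A x => Polynomial.aeval (Gf tr α n A x) (PP D c₁))
        (fun n _ A y => w4_d b n A y + Polynomial.aeval (Gf tr β n A y) (PP D c₂))
        (∑ d ∈ range (D + 1), ((c₁ d * c₂ d * d.factorial * CC tr α β ^ d : ℝ) : ℂ)) := by
      have h3 := w4_lim_add (w4_lim_d b bP1) (w4_lim_comm hPP)
      rw [zero_add] at h3
      exact w4_lim_comm h3
    exact w4_lim_add hA hB
  have hR' := w4_lim_T hR
  -- left side
  have hG : w4_lim (fun n _ A x => Gf tr' α' n A x) (fun n _ A x => Gf tr' β' n A x)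
      ((CC tr' α' β' : ℝ) : ℂ) := by
    obtain ⟨K, hK⟩ := w3 J' tr' α' 1 1 (fun _ => β')
    have h3 : w4_lim (fun n _ A x => Wf tr' (fun _ : Fin 1 => α') n A x)
        (fun n _ A x => Wf tr' (fun _ : Fin 1 => β') n A x) ((CC tr' α' β' : ℝ) : ℂ) := by
      refine ⟨K, fun n _ => ?_⟩
      have h4 := hK n
      rw [if_pos rfl] at h4
      simp only [Nat.factorial_one, Nat.cast_one, one_mul, Finset.univ_unique,
        Finset.prod_const, Finset.card_singleton, pow_one] at h4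
      exact h4
    refine w4_lim_congr (fun n _ A x => ?_) (fun n _ A x => ?_) h3
    · exact (w0 J' tr' 0 (fun _ => α')).2.2.2.2.2.2 α' n A x
    · exact (w0 J' tr' 0 (fun _ => α')).2.2.2.2.2.2 β' n A x
  have bT2 : Bd (fun n _ A x => T A (fun y => w4_d b n A y +
      Polynomial.aeval (Gf tr β n A y) (PP D c₂)) x) := by
    have d2 : DB (fun n _ A x => T A (fun y => w4_d b n A y +
        Polynomial.aeval (Gf tr β n A y) (PP D c₂)) x - (s₂ : ℂ) * Gf tr' β' n A x) := by
      apply DB_sub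
      · apply DB_T (f := fun n _ A y => w4_d b n A y +
          Polynomial.aeval (Gf tr β n A y) (PP D c₂))
        apply DB_add
        · exact DB_det (fun n _ x => if x = 0 then ((b * √n : ℝ) : ℂ) else 0)
        · exact bP2.1
      · exact DB_smul _ bβ'.1
    have e2 := Bd_add (Bd_of_O1 d2 h2) (Bd_smul (s₂ : ℂ) bβ')
    have h3 : (fun (n : ℕ) [NeZero n] (A : Finset ℕ) (x : ZMod n) => T A (fun y => w4_d b n A y +
        Polynomial.aeval (Gf tr β n A y) (PP D c₂)) x) =
        (fun (n : ℕ) [NeZero n] (A : Finset ℕ) (x : ZMod n) => (T A (fun y => w4_d b n A y +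
        Polynomial.aeval (Gf tr β n A y) (PP D c₂)) x - (s₂ : ℂ) * Gf tr' β' n A x) +
          (s₂ : ℂ) * Gf tr' β' n A x) := by
      funext n _ A x
      ring
    rw [h3]
    exact e2
  have hL : w4_lim (fun n _ A x => T A (fun y => w4_d a n A y +
      Polynomial.aeval (Gf tr α n A y) (PP D c₁)) x)
      (fun n _ A x => T A (fun y => w4_d b n A y +
      Polynomial.aeval (Gf tr β n A y) (PP D c₂)) x)
      ((s₁ : ℂ) * ((s₂ : ℂ) * ((CC tr' α' β' : ℝ) : ℂ))) := by
    refine w4_lim_near h1 bT2 ?_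
    apply w4_lim_smul
    apply w4_lim_comm
    refine w4_lim_near h2 bα' ?_
    apply w4_lim_smul
    exact w4_lim_comm hG
  have hfin := w4_unique hL hR'
  have hfin' : ((s₁ * s₂ * CC tr' α' β' : ℝ) : ℂ) =
      ((a * b + ∑ d ∈ range (D + 1), c₁ d * c₂ d * d.factorial * CC tr α β ^ d : ℝ) : ℂ) := by
    push_cast
    push_cast at hfin
    rw [← hfin]
    ring
  exact Complex.ofReal_injective hfin'

end Pool.Agent.H276R2.Th
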