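import Pool.Agent.H276R2.Th.Spec
import Pool.Agent.H276R2.Th.A1
import Pool.Agent.H276R2.Th.A2
import Pool.Agent.H276R2.Th.U0
import Pool.Agent.H276R2.Th.U1
import Pool.Agent.H276R2.Th.U2
import Pool.Agent.H276R2.Th.U3
import Pool.Agent.H276R2.Th.U4
import Pool.Agent.H276R2.Th.R0
import Pool.Agent.H276R2.Th.R1
import Pool.Agent.H276R2.Th.R2
import Pool.Agent.H276R2.Th.R3
import Pool.Agent.H276R2.Th.R4
import Pool.Agent.H276R2.Th.R6
import Pool.Agent.H276R2.Th.R7
import Pool.Agent.H276R2.Th.D1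
import Pool.Agent.H276R2.Th.D2a
import Pool.Agent.H276R2.Th.D2
import Pool.Agent.H276R2.Th.D
import Pool.Agent.H276R2.Th.S
import Pool.Agent.H276R2.Th.N1
import Pool.Agent.H276R2.Th.N2
import Pool.Agent.H276R2.Th.N3
import Pool.Agent.H276R2.Th.M1
import Pool.Agent.H276R2.Th.M2
import Pool.Agent.H276R2.Th.K1
import Pool.Agent.H276R2.Th.FB
import Pool.Agent.H276R2.Th.CR
import Pool.Agent.H276R2.Th.CAP
import Pool.Agent.H276R2.Th.P1
import Pool.Agent.H276R2.Th.P2
import Pool.Agent.H276R2.Th.P3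
import Pool.Agent.H276R2.Th.P4
import Pool.Agent.H276R2.Th.P5a
import Pool.Agent.H276R2.Th.P5
import Pool.Agent.H276R2.Th.PR
import Pool.Agent.H276R2.Th.W0
import Pool.Agent.H276R2.Th.W1
import Pool.Agent.H276R2.Th.W2
import Pool.Agent.H276R2.Th.W3
import Pool.Agent.H276R2.Th.W4
import Pool.Agent.H276R2.Th.NX
import Pool.Agent.H276R2.Th.IT0
import Pool.Agent.H276R2.Th.IT1
import Pool.Agent.H276R2.Th.GL
import Pool.Agent.H276R2.Th.ST

/-!
# Assembly: the Lovasz number of a random dense circulant graph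
-/

set_option autoImplicit false

namespace Pool.Agent.H276R2.Th

theorem final : Filter.Tendsto (fun n : ℕ => Ex n (theta n) / Real.sqrt n) Filter.atTop (nhds 1) := by
  have m1 := t_M1
  have m2 := t_M2 m1
  have m3 := t_M3 m1
  have k1 := t_K1
  have fb := t_FB m3 k1
  have cr := t_CR
  have cap := t_CAP m2 m3 k1
  have p1 := t_P1
  have p2 := t_P2 k1
  have p3 := t_P3 m2 p2
  have p4 := t_P4 m3 k1
  have p5a := t_P5a k1
  have p5 := t_P5 m3 p5a
  have pr := t_PR p1 p3 p4 p5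
  have w0 := t_W0 fb
  have w1 := t_W1 pr
  have w2 := t_W2 w0 w1
  have w3 := t_W3 w0 w1
  have w4 := t_W4 w0 w2 w3
  have nx := t_NX cr cap w0 w2
  have it0 := t_IT0 nx w4
  have it1 := t_IT1 w0 nx w4
  have d1 := t_D1
  have gl := t_GL d1 w0 w2
  have st := t_ST w0 w3 gl
  have n1 := t_N1
  have n2 := t_N2 d1 n1
  have d2a := t_D2a
  have d2 := t_D2 d1 d2a
  have dd := t_D d1 d2
  have s := t_S
  have n3 := t_N3 dd s n2
  have r0 := t_R0
  have r0' := t_R0'
  have r1 := t_R1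
  have r2 := t_R2 r1
  have r3 := t_R3 r0 r1 r2
  have r5 := t_R5 r0 r1 r2
  have r4 := t_R4 r0' r1 r3
  have r6 := t_R6 r0'
  have r7 := t_R7 r0' r1 r4 r5 r6
  have u0 := t_U0
  have u1 := t_U1
  have u2 := t_U2 u0 u1
  have u3 := t_U3 u0 u2
  have u4 := t_U4 t_A1 t_A2 u0 u3
  exact main_of it0 it1 st n3 r7 u4

end Pool.Agent.H276R2.Th
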