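import Pool.Agent.H276R2.Th.Defs

/-!
# Library 1: characters, Fourier coefficients, the multiplier `T`
-/

set_option autoImplicit false

namespace Pool.Agent.H276R2.Th

open Finset

theorem ch_zero (n : ℕ) [NeZero n] : ch n 0 = 1 := by
  unfold ch
  exact AddChar.map_zero_eq_one _

theorem ch_add (n : ℕ) [NeZero n] (a b : ZMod n) : ch n (a + b) = ch n a * ch n b := by
  unfold ch
  exact AddChar.map_add_eq_mul _ _ _

theorem norm_ch (n : ℕ) [NeZero n] (a : ZMod n) : ‖ch n a‖ = 1 := by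
  unfold ch
  exact AddChar.norm_apply _ _

theorem ch_neg (n : ℕ) [NeZero n] (a : ZMod n) : ch n (-a) = (starRingEnd ℂ) (ch n a) := by
  unfold ch
  exact AddChar.map_neg_eq_conj _ _

theorem ch_mul_ch_neg (n : ℕ) [NeZero n] (a : ZMod n) : ch n a * ch n (-a) = 1 := by
  rw [← ch_add, add_neg_cancel, ch_zero]

theorem sum_ch (n : ℕ) [NeZero n] (k : ZMod n) :
    ∑ x, ch n (k * x) = if k = 0 then (n : ℂ) else 0 := by
  have h := AddChar.sum_mulShift (R := ZMod n) (R' := ℂ) k (ZMod.isPrimitive_stdAddChar n)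
  unfold ch
  have h2 : ∀ x : ZMod n, k * x = x * k := fun x => mul_comm _ _
  simp_rw [h2]
  rw [h]
  split_ifs with hk
  · simp [ZMod.card]
  · simp

theorem fc_inv {n : ℕ} [NeZero n] (f : ZMod n → ℂ) (x : ZMod n) :
    ∑ k, fc f k * ch n (k * x) = f x := by
  unfold fc
  have hn : (n : ℂ) ≠ 0 := by exact_mod_cast NeZero.ne n
  have h1 : ∀ k : ZMod n, (∑ y, f y * ch n (-(k * y))) / n * ch n (k * x) =
      ∑ y, (f y / n) * ch n ((x - y) * k) := by
    intro k
    rw [div_mul_eq_mul_div, Finset.sum_mul, Finset.sum_div]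
    refine Finset.sum_congr rfl fun y _ => ?_
    have : ch n ((x - y) * k) = ch n (-(k * y)) * ch n (k * x) := by
      rw [← ch_add]; congr 1; ring
    rw [this]; ring
  simp_rw [h1]
  rw [Finset.sum_comm]
  have h2 : ∀ y : ZMod n, ∑ k, (f y / n) * ch n ((x - y) * k) =
      if x = y then f y else 0 := by
    intro y
    rw [← Finset.mul_sum, sum_ch]
    by_cases h : x = y
    · subst h
      simp only [sub_self, if_true]
      field_simp
    · have : x - y ≠ 0 := sub_ne_zero.mpr h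
      simp [h, this]
  simp_rw [h2]
  simp

theorem fc_sum_ch' {n : ℕ} [NeZero n] {ι : Type} (s : Finset ι) (a : ι → ℂ) (κ : ι → ZMod n)
    (k : ZMod n) : fc (fun x => ∑ i ∈ s, a i * ch n (κ i * x)) k =
      ∑ i ∈ s, if κ i = k then a i else 0 := by
  unfold fc
  have hn : (n : ℂ) ≠ 0 := by exact_mod_cast NeZero.ne n
  have h1 : ∀ x : ZMod n, (∑ i ∈ s, a i * ch n (κ i * x)) * ch n (-(k * x)) =
      ∑ i ∈ s, a i * ch n ((κ i - k) * x) := by
    intro x
    rw [Finset.sum_mul]
    refine Finset.sum_congr rfl fun i _ => ?_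
    have : ch n ((κ i - k) * x) = ch n (κ i * x) * ch n (-(k * x)) := by
      rw [← ch_add]; congr 1; ring
    rw [this]; ring
  simp_rw [h1]
  rw [Finset.sum_comm, Finset.sum_div]
  refine Finset.sum_congr rfl fun i _ => ?_
  rw [← Finset.mul_sum, sum_ch]
  by_cases h : κ i = k
  · simp [h]
  · have : κ i - k ≠ 0 := sub_ne_zero.mpr h
    simp [h, this]

theorem fc_sum_ch {n : ℕ} [NeZero n] (a : ZMod n → ℂ) (k : ZMod n) :
    fc (fun x => ∑ l, a l * ch n (l * x)) k = a k := by
  rw [fc_sum_ch' Finset.univ a (fun l => l) k]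
  simp

theorem fc_add {n : ℕ} [NeZero n] (f g : ZMod n → ℂ) (k : ZMod n) :
    fc (fun x => f x + g x) k = fc f k + fc g k := by
  unfold fc
  rw [← add_div, ← Finset.sum_add_distrib]
  simp_rw [add_mul]

theorem fc_sub {n : ℕ} [NeZero n] (f g : ZMod n → ℂ) (k : ZMod n) :
    fc (fun x => f x - g x) k = fc f k - fc g k := by
  unfold fc
  rw [← sub_div, ← Finset.sum_sub_distrib]
  simp_rw [sub_mul]

theorem fc_mul {n : ℕ} [NeZero n] (c : ℂ) (f : ZMod n → ℂ) (k : ZMod n) :
    fc (fun x => c * f x) k = c * fc f k := by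
  unfold fc
  rw [← mul_div_assoc, Finset.mul_sum]
  simp_rw [mul_assoc]

theorem fc_const {n : ℕ} [NeZero n] (c : ℂ) (k : ZMod n) :
    fc (fun _ => c) k = if k = 0 then c else 0 := by
  have h := fc_sum_ch' (n := n) (Finset.univ : Finset Unit) (fun _ => c) (fun _ => 0) k
  simp only [zero_mul, ch_zero, mul_one, Finset.univ_unique, Finset.sum_singleton] at h
  rw [h]
  simp [eq_comm]

theorem plancherel {n : ℕ} [NeZero n] (f g : ZMod n → ℂ) :
    ∑ x, f x * (starRingEnd ℂ) (g x) = n * ∑ k, fc f k * (starRingEnd ℂ) (fc g k) := by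
  have hn : (n : ℂ) ≠ 0 := by exact_mod_cast NeZero.ne n
  have h1 : ∀ x : ZMod n, f x * (starRingEnd ℂ) (g x) =
      ∑ k, (starRingEnd ℂ) (fc g k) * (f x * ch n (-(k * x))) := by
    intro x
    conv_lhs => rw [← fc_inv g x]
    rw [map_sum, Finset.mul_sum]
    refine Finset.sum_congr rfl fun k _ => ?_
    rw [map_mul, ch_neg]; ring
  simp_rw [h1]
  rw [Finset.sum_comm, Finset.mul_sum]
  refine Finset.sum_congr rfl fun k _ => ?_
  rw [← Finset.mul_sum]
  have : (∑ x, f x * ch n (-(k * x))) = n * fc f k := by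
    unfold fc; field_simp
  rw [this]; ring

theorem parseval {n : ℕ} [NeZero n] (f : ZMod n → ℂ) :
    ∑ x, ‖f x‖ ^ 2 = n * ∑ k, ‖fc f k‖ ^ 2 := by
  have h := plancherel f f
  have h1 : ∀ z : ℂ, z * (starRingEnd ℂ) z = ((‖z‖ ^ 2 : ℝ) : ℂ) := by
    intro z; rw [Complex.mul_conj, Complex.normSq_eq_norm_sq]
  simp_rw [h1] at h
  exact_mod_cast h

theorem fc_sq_le {n : ℕ} [NeZero n] (f : ZMod n → ℂ) (k : ZMod n) :
    n * ‖fc f k‖ ^ 2 ≤ ∑ x, ‖f x‖ ^ 2 := by
  rw [parseval]
  refine mul_le_mul_of_nonneg_left ?_ (Nat.cast_nonneg _)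
  exact Finset.single_le_sum (f := fun k => ‖fc f k‖ ^ 2) (fun _ _ => by positivity) (Finset.mem_univ k)

/-- Fourier coefficients of even functions are even. -/
theorem fc_neg_even {n : ℕ} [NeZero n] (f : ZMod n → ℂ) (hf : ∀ x, f (-x) = f x) (k : ZMod n) :
    fc f (-k) = fc f k := by
  unfold fc
  congr 1
  rw [← Equiv.sum_comp (Equiv.neg (ZMod n))]
  refine Finset.sum_congr rfl fun x _ => ?_
  simp [hf]

theorem fc_neg_real {n : ℕ} [NeZero n] (g : ZMod n → ℝ) (k : ZMod n) :
    fc (fun x => (g x : ℂ)) (-k) = (starRingEnd ℂ) (fc (fun x => (g x : ℂ)) k) := by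
  unfold fc
  rw [map_div₀, map_sum]
  simp only [map_mul, Complex.conj_ofReal, map_natCast, ← ch_neg]
  simp

theorem fc_im_real_even {n : ℕ} [NeZero n] (g : ZMod n → ℝ) (hg : ∀ x, g (-x) = g x)
    (k : ZMod n) : (fc (fun x => (g x : ℂ)) k).im = 0 := by
  have h1 := fc_neg_real g k
  rw [fc_neg_even (fun x => (g x : ℂ)) (fun x => by simp [hg])] at h1
  exact Complex.conj_eq_iff_im.mp h1.symm

theorem fc_zero_real {n : ℕ} [NeZero n] (g : ZMod n → ℝ) :
    fc (fun x => (g x : ℂ)) 0 = (((∑ x, g x) / n : ℝ) : ℂ) := by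
  unfold fc
  simp [ch_zero]

theorem cls_neg (n : ℕ) (k : ZMod n) : cls n (-k) = cls n k := by
  unfold cls
  rw [neg_neg, min_comm]

theorem cls_zero (n : ℕ) [NeZero n] : cls n 0 = 0 := by
  unfold cls
  simp

theorem lib1_neg_val (n : ℕ) [NeZero n] (k : ZMod n) (hk : k ≠ 0) : (-k).val = n - k.val := by
  rw [ZMod.neg_val]
  simp [hk]

theorem cls_mem (n : ℕ) [NeZero n] (k : ZMod n) (hk : k ≠ 0) : cls n k ∈ Cl n := by
  unfold cls Cl
  rw [lib1_neg_val n k hk, Finset.mem_Icc]
  have h1 : k.val < n := ZMod.val_lt k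
  have h2 : k.val ≠ 0 := by
    intro h; exact hk ((ZMod.val_eq_zero k).mp h)
  omega

theorem cls_eq_iff (n : ℕ) [NeZero n] (k l : ZMod n) : cls n k = cls n l ↔ k = l ∨ k = -l := by
  constructor
  · intro h
    by_cases hk : k = 0
    · subst hk
      by_cases hl : l = 0
      · left; exact hl.symm
      · have := cls_mem n l hl
        rw [← h, cls_zero] at this
        simp [Cl] at this
    · by_cases hl : l = 0
      · subst hl
        have := cls_mem n k hk
        rw [h, cls_zero] at this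
        simp [Cl] at this
      · unfold cls at h
        rw [lib1_neg_val n k hk, lib1_neg_val n l hl] at h
        have h1 : k.val < n := ZMod.val_lt k
        have h2 : l.val < n := ZMod.val_lt l
        have h3 : k.val ≠ 0 := by
          intro h; exact hk ((ZMod.val_eq_zero k).mp h)
        have h4 : l.val ≠ 0 := by
          intro h; exact hl ((ZMod.val_eq_zero l).mp h)
        have h5 : k.val = l.val ∨ k.val = n - l.val := by omega
        rcases h5 with h5 | h5
        · left; exact ZMod.val_injective n h5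
        · right
          apply ZMod.val_injective n
          rw [h5, lib1_neg_val n l hl]
  · rintro (rfl | rfl)
    · rfl
    · exact cls_neg n l

open Classical in
theorem card_cls_le (n : ℕ) [NeZero n] (j : ℕ) :
    #{k : ZMod n | cls n k = j} ≤ 2 := by
  by_cases h : ∃ k : ZMod n, cls n k = j
  · obtain ⟨l, rfl⟩ := h
    have : ({k : ZMod n | cls n k = cls n l} : Finset (ZMod n)) ⊆ {l, -l} := by
      intro k hk
      simp only [Finset.mem_filter, Finset.mem_univ, true_and] at hk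
      rcases (cls_eq_iff n k l).mp hk with h | h
      · simp [h]
      · simp [h]
    exact (Finset.card_le_card this).trans Finset.card_le_two
  · push Not at h
    have : ({k : ZMod n | cls n k = j} : Finset (ZMod n)) = ∅ := by
      ext k; simp [h k]
    rw [this]; simp

/-- Every class is the class of a nonzero residue. -/
theorem exists_cls (n : ℕ) [NeZero n] (j : ℕ) (hj : j ∈ Cl n) :
    ∃ k : ZMod n, k ≠ 0 ∧ cls n k = j := by
  unfold Cl at hj
  rw [Finset.mem_Icc] at hj
  have hjn : j < n := by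
    have := NeZero.pos n
    omega
  have hv : ((j : ZMod n)).val = j := ZMod.val_natCast_of_lt hjn
  have h0 : (j : ZMod n) ≠ 0 := by
    intro h
    rw [h] at hv
    simp at hv
    omega
  refine ⟨(j : ZMod n), h0, ?_⟩
  unfold cls
  rw [lib1_neg_val n _ h0, hv]
  omega

theorem sg_zero {n : ℕ} (A : Finset ℕ) : sg A (0 : ZMod n) = 1 := by
  unfold sg; simp

theorem sg_neg {n : ℕ} (A : Finset ℕ) (k : ZMod n) : sg A (-k) = sg A k := by
  unfold sg; simp [cls_neg]

theorem sg_mul_self {n : ℕ} (A : Finset ℕ) (k : ZMod n) : sg A k * sg A k = 1 := by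
  unfold sg; split_ifs <;> norm_num

theorem abs_sg {n : ℕ} (A : Finset ℕ) (k : ZMod n) : |sg A k| = 1 := by
  unfold sg; split_ifs <;> norm_num

theorem sg_eq_wal {n : ℕ} [NeZero n] (A : Finset ℕ) (k : ZMod n) (hk : k ≠ 0) :
    (sg A k : ℂ) = wal {cls n k} A := by
  unfold sg wal
  simp only [hk, false_or, Finset.prod_singleton]
  split_ifs <;> simp

theorem fc_T {n : ℕ} [NeZero n] (A : Finset ℕ) (f : ZMod n → ℂ) (k : ZMod n) :
    fc (T A f) k = sg A k * fc f k := by
  have : T A f = fun x => ∑ l, ((sg A l : ℂ) * fc f l) * ch n (l * x) := by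
    funext x; rfl
  rw [this, fc_sum_ch]

theorem T_T {n : ℕ} [NeZero n] (A : Finset ℕ) (f : ZMod n → ℂ) (x : ZMod n) :
    T A (T A f) x = f x := by
  conv_lhs => unfold T
  conv_rhs => rw [← fc_inv f x]
  refine Finset.sum_congr rfl fun k _ => ?_
  have : fc (fun x => ∑ l, ((sg A l : ℂ) * fc f l) * ch n (l * x)) k = sg A k * fc f k := fc_T A f k
  rw [this, ← mul_assoc, ← Complex.ofReal_mul, sg_mul_self]
  simp

theorem T_add {n : ℕ} [NeZero n] (A : Finset ℕ) (f g : ZMod n → ℂ) (x : ZMod n) :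
    T A (fun y => f y + g y) x = T A f x + T A g x := by
  unfold T
  rw [← Finset.sum_add_distrib]
  refine Finset.sum_congr rfl fun k _ => ?_
  rw [fc_add]; ring

theorem T_sub {n : ℕ} [NeZero n] (A : Finset ℕ) (f g : ZMod n → ℂ) (x : ZMod n) :
    T A (fun y => f y - g y) x = T A f x - T A g x := by
  unfold T
  rw [← Finset.sum_sub_distrib]
  refine Finset.sum_congr rfl fun k _ => ?_
  rw [fc_sub]; ring

theorem T_mul {n : ℕ} [NeZero n] (A : Finset ℕ) (c : ℂ) (f : ZMod n → ℂ) (x : ZMod n) :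
    T A (fun y => c * f y) x = c * T A f x := by
  unfold T
  rw [Finset.mul_sum]
  refine Finset.sum_congr rfl fun k _ => ?_
  rw [fc_mul]; ring

theorem lib1_fc_sum {n : ℕ} [NeZero n] {ι : Type} (s : Finset ι)
    (f : ι → ZMod n → ℂ) (k : ZMod n) :
    fc (fun y => ∑ i ∈ s, f i y) k = ∑ i ∈ s, fc (f i) k := by
  unfold fc
  rw [← Finset.sum_div]
  congr 1
  rw [Finset.sum_comm]
  refine Finset.sum_congr rfl fun x _ => ?_
  rw [Finset.sum_mul]

theorem T_sum {n : ℕ} [NeZero n] (A : Finset ℕ) {ι : Type} (s : Finset ι)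
    (f : ι → ZMod n → ℂ) (x : ZMod n) :
    T A (fun y => ∑ i ∈ s, f i y) x = ∑ i ∈ s, T A (f i) x := by
  unfold T
  rw [Finset.sum_comm]
  refine Finset.sum_congr rfl fun k _ => ?_
  rw [lib1_fc_sum, Finset.mul_sum, Finset.sum_mul]

theorem T_const {n : ℕ} [NeZero n] (A : Finset ℕ) (c : ℂ) (x : ZMod n) :
    T A (fun _ => c) x = c := by
  unfold T
  rw [Finset.sum_eq_single 0]
  · rw [fc_const]; simp [sg_zero, ch_zero]
  · intro k _ hk
    rw [fc_const]; simp [hk]
  · simp

/-- `T` applied to a sum of characters with arbitrary frequencies. -/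
theorem T_sum_ch {n : ℕ} [NeZero n] (A : Finset ℕ) {ι : Type} (s : Finset ι) (a : ι → ℂ)
    (κ : ι → ZMod n) (x : ZMod n) :
    T A (fun y => ∑ i ∈ s, a i * ch n (κ i * y)) x =
      ∑ i ∈ s, (sg A (κ i) : ℂ) * a i * ch n (κ i * x) := by
  unfold T
  simp_rw [fc_sum_ch', Finset.mul_sum, Finset.sum_mul]
  rw [Finset.sum_comm]
  refine Finset.sum_congr rfl fun i _ => ?_
  rw [Finset.sum_eq_single (κ i)]
  · simp
  · intro k _ hk
    simp [hk.symm]
  · simp

theorem T_delta {n : ℕ} [NeZero n] (A : Finset ℕ) (c : ℂ) (x : ZMod n) :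
    T A (fun y => if y = 0 then c else 0) x = c / n * ∑ k, (sg A k : ℂ) * ch n (k * x) := by
  unfold T
  rw [Finset.mul_sum]
  refine Finset.sum_congr rfl fun k _ => ?_
  have : fc (fun y : ZMod n => if y = 0 then c else 0) k = c / n := by
    unfold fc
    simp [ch_zero]
  rw [this]; ring

theorem T_inner {n : ℕ} [NeZero n] (A : Finset ℕ) (f g : ZMod n → ℂ) :
    ∑ x, T A f x * (starRingEnd ℂ) (T A g x) = ∑ x, f x * (starRingEnd ℂ) (g x) := by
  rw [plancherel (T A f) (T A g), plancherel f g]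
  refine congrArg (fun z : ℂ => (n : ℂ) * z) (Finset.sum_congr rfl fun k _ => ?_)
  rw [fc_T, fc_T, map_mul, Complex.conj_ofReal]
  have h3 : (sg A k : ℂ) * (sg A k : ℂ) = 1 := by
    rw [← Complex.ofReal_mul, sg_mul_self]; simp
  calc (sg A k : ℂ) * fc f k * ((sg A k : ℂ) * (starRingEnd ℂ) (fc g k))
      = ((sg A k : ℂ) * (sg A k : ℂ)) * (fc f k * (starRingEnd ℂ) (fc g k)) := by ring
    _ = fc f k * (starRingEnd ℂ) (fc g k) := by rw [h3, one_mul]

theorem sum_norm_T {n : ℕ} [NeZero n] (A : Finset ℕ) (f : ZMod n → ℂ) :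
    ∑ x, ‖T A f x‖ ^ 2 = ∑ x, ‖f x‖ ^ 2 := by
  rw [parseval (T A f), parseval f]
  refine congrArg (fun z : ℝ => (n : ℝ) * z) (Finset.sum_congr rfl fun k _ => ?_)
  rw [fc_T, norm_mul, Complex.norm_real, Real.norm_eq_abs, abs_sg, one_mul]

theorem T_neg_even {n : ℕ} [NeZero n] (A : Finset ℕ) (f : ZMod n → ℂ) (hf : ∀ x, f (-x) = f x)
    (x : ZMod n) : T A f (-x) = T A f x := by
  unfold T
  refine Fintype.sum_equiv (Equiv.neg (ZMod n)) _ _ fun k => ?_
  simp only [Equiv.neg_apply, sg_neg, fc_neg_even f hf, neg_mul, mul_neg]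

/-- `T` commutes with conjugation (on all functions with conjugate symmetric `T`, e.g. `sg` even). -/
theorem T_conj {n : ℕ} [NeZero n] (A : Finset ℕ) (f : ZMod n → ℂ) (x : ZMod n) :
    T A (fun y => (starRingEnd ℂ) (f y)) x = (starRingEnd ℂ) (T A f x) := by
  have h1 : ∀ k : ZMod n, fc (fun y => (starRingEnd ℂ) (f y)) (-k) = (starRingEnd ℂ) (fc f k) := by
    intro k
    unfold fc
    rw [map_div₀, map_sum]
    simp only [map_mul, map_natCast, ← ch_neg]
    simp
  unfold T
  rw [map_sum]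
  symm
  refine Fintype.sum_equiv (Equiv.neg (ZMod n)) _ _ fun k => ?_
  simp only [Equiv.neg_apply, sg_neg, h1, map_mul, Complex.conj_ofReal]
  rw [← ch_neg, neg_mul]

/-- `T` maps real even functions to real functions. -/
theorem T_im_real_even {n : ℕ} [NeZero n] (A : Finset ℕ) (g : ZMod n → ℝ)
    (hg : ∀ x, g (-x) = g x) (x : ZMod n) : (T A (fun y => (g y : ℂ)) x).im = 0 := by
  have h := T_conj A (fun y => (g y : ℂ)) x
  simp only [Complex.conj_ofReal] at h
  exact Complex.conj_eq_iff_im.mp h.symm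

end Pool.Agent.H276R2.Th
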