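import Pool.Agent.H276R2.Th.Lib1

/-!
# Library 2: the averages `Ex`, `ExC`, the probability `Pr`
-/

set_option autoImplicit false

namespace Pool.Agent.H276R2.Th

open Finset

theorem card_Cl (n : ℕ) : (Cl n).card = n / 2 := by
  unfold Cl
  simp

theorem lib2_card_pow (n : ℕ) : (Cl n).powerset.card = 2 ^ (n / 2) := by
  rw [Finset.card_powerset, card_Cl]

theorem Ex_congr (n : ℕ) (f g : Finset ℕ → ℝ) (h : ∀ A, A ⊆ Cl n → f A = g A) :
    Ex n f = Ex n g := by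
  unfold Ex
  rw [Finset.sum_congr rfl fun A hA => h A (Finset.mem_powerset.mp hA)]

theorem Ex_const (n : ℕ) (c : ℝ) : Ex n (fun _ => c) = c := by
  unfold Ex
  rw [Finset.sum_const, lib2_card_pow, nsmul_eq_mul]
  push_cast
  field_simp

theorem Ex_add (n : ℕ) (f g : Finset ℕ → ℝ) : Ex n (fun A => f A + g A) = Ex n f + Ex n g := by
  unfold Ex
  rw [Finset.sum_add_distrib, add_div]

theorem Ex_sub (n : ℕ) (f g : Finset ℕ → ℝ) : Ex n (fun A => f A - g A) = Ex n f - Ex n g := by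
  unfold Ex
  rw [Finset.sum_sub_distrib, sub_div]

theorem Ex_mul (n : ℕ) (c : ℝ) (f : Finset ℕ → ℝ) : Ex n (fun A => c * f A) = c * Ex n f := by
  unfold Ex
  rw [← Finset.mul_sum, mul_div_assoc]

theorem Ex_sum (n : ℕ) {ι : Type} (s : Finset ι) (f : ι → Finset ℕ → ℝ) :
    Ex n (fun A => ∑ i ∈ s, f i A) = ∑ i ∈ s, Ex n (f i) := by
  unfold Ex
  rw [Finset.sum_comm, Finset.sum_div]

theorem Ex_mono (n : ℕ) (f g : Finset ℕ → ℝ) (h : ∀ A, A ⊆ Cl n → f A ≤ g A) :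
    Ex n f ≤ Ex n g := by
  unfold Ex
  exact div_le_div_of_nonneg_right
    (Finset.sum_le_sum fun A hA => h A (Finset.mem_powerset.mp hA)) (by positivity)

theorem Ex_nonneg (n : ℕ) (f : Finset ℕ → ℝ) (h : ∀ A, A ⊆ Cl n → 0 ≤ f A) : 0 ≤ Ex n f := by
  unfold Ex
  exact div_nonneg (Finset.sum_nonneg fun A hA => h A (Finset.mem_powerset.mp hA)) (by positivity)

/-- Cauchy-Schwarz. -/
theorem Ex_cs (n : ℕ) (f g : Finset ℕ → ℝ) :
    (Ex n (fun A => f A * g A)) ^ 2 ≤ Ex n (fun A => f A ^ 2) * Ex n (fun A => g A ^ 2) := by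
  unfold Ex
  rw [div_pow, div_mul_div_comm, ← sq]
  exact div_le_div_of_nonneg_right (Finset.sum_mul_sq_le_sq_mul_sq _ _ _) (by positivity)

theorem sq_Ex_le (n : ℕ) (f : Finset ℕ → ℝ) : (Ex n f) ^ 2 ≤ Ex n (fun A => f A ^ 2) := by
  have h := Ex_cs n f (fun _ => 1)
  simp only [mul_one, one_pow, Ex_const] at h
  exact h

theorem abs_Ex_le (n : ℕ) (f : Finset ℕ → ℝ) : |Ex n f| ≤ Ex n (fun A => |f A|) := by
  unfold Ex
  rw [abs_div, abs_of_pos (by positivity : (0 : ℝ) < 2 ^ (n / 2))]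
  exact div_le_div_of_nonneg_right (Finset.abs_sum_le_sum_abs _ _) (by positivity)

/-- Invariance under complements. -/
theorem Ex_compl (n : ℕ) (f : Finset ℕ → ℝ) : Ex n (fun A => f (Cl n \ A)) = Ex n f := by
  unfold Ex
  congr 1
  refine Finset.sum_nbij' (fun A => Cl n \ A) (fun A => Cl n \ A) ?_ ?_ ?_ ?_ ?_
  · intro A _
    exact Finset.mem_powerset.mpr Finset.sdiff_subset
  · intro A _
    exact Finset.mem_powerset.mpr Finset.sdiff_subset
  · intro A hA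
    exact Finset.sdiff_sdiff_eq_self (Finset.mem_powerset.mp hA)
  · intro A hA
    exact Finset.sdiff_sdiff_eq_self (Finset.mem_powerset.mp hA)
  · intro A _
    rfl

theorem lib2_flip_sub (n : ℕ) (j : ℕ) (hj : j ∈ Cl n) (A : Finset ℕ) (hA : A ∈ (Cl n).powerset) :
    symmDiff A {j} ∈ (Cl n).powerset := by
  rw [Finset.mem_powerset] at hA ⊢
  intro x hx
  rw [Finset.mem_symmDiff] at hx
  rcases hx with hx | hx
  · exact hA hx.1
  · rw [Finset.mem_singleton] at hx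
    rw [hx.1]; exact hj

/-- Invariance under flipping one class. -/
theorem Ex_flip (n : ℕ) (j : ℕ) (hj : j ∈ Cl n) (f : Finset ℕ → ℝ) :
    Ex n (fun A => f (symmDiff A {j})) = Ex n f := by
  unfold Ex
  congr 1
  refine Finset.sum_nbij' (fun A => symmDiff A {j}) (fun A => symmDiff A {j}) ?_ ?_ ?_ ?_ ?_
  · exact lib2_flip_sub n j hj
  · exact lib2_flip_sub n j hj
  · intro A _
    exact symmDiff_symmDiff_cancel_right _ _
  · intro A _
    exact symmDiff_symmDiff_cancel_right _ _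
  · intro A _
    rfl

theorem ExC_congr (n : ℕ) (f g : Finset ℕ → ℂ) (h : ∀ A, A ⊆ Cl n → f A = g A) :
    ExC n f = ExC n g := by
  unfold ExC
  rw [Finset.sum_congr rfl fun A hA => h A (Finset.mem_powerset.mp hA)]

theorem ExC_const (n : ℕ) (c : ℂ) : ExC n (fun _ => c) = c := by
  unfold ExC
  rw [Finset.sum_const, lib2_card_pow, nsmul_eq_mul]
  push_cast
  field_simp

theorem ExC_add (n : ℕ) (f g : Finset ℕ → ℂ) : ExC n (fun A => f A + g A) = ExC n f + ExC n g := by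
  unfold ExC
  rw [Finset.sum_add_distrib, add_div]

theorem ExC_sub (n : ℕ) (f g : Finset ℕ → ℂ) : ExC n (fun A => f A - g A) = ExC n f - ExC n g := by
  unfold ExC
  rw [Finset.sum_sub_distrib, sub_div]

theorem ExC_mul (n : ℕ) (c : ℂ) (f : Finset ℕ → ℂ) : ExC n (fun A => c * f A) = c * ExC n f := by
  unfold ExC
  rw [← Finset.mul_sum, mul_div_assoc]

theorem ExC_sum (n : ℕ) {ι : Type} (s : Finset ι) (f : ι → Finset ℕ → ℂ) :
    ExC n (fun A => ∑ i ∈ s, f i A) = ∑ i ∈ s, ExC n (f i) := by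
  unfold ExC
  rw [Finset.sum_comm, Finset.sum_div]

theorem ExC_ofReal (n : ℕ) (f : Finset ℕ → ℝ) : ExC n (fun A => (f A : ℂ)) = (Ex n f : ℂ) := by
  unfold ExC Ex
  push_cast
  rfl

theorem lib2_ExC_eq (n : ℕ) (f : Finset ℕ → ℂ) :
    ExC n f = (((2 : ℝ) ^ (n / 2))⁻¹ : ℝ) * ∑ A ∈ (Cl n).powerset, f A := by
  unfold ExC
  push_cast
  rw [div_eq_inv_mul]

theorem re_ExC (n : ℕ) (f : Finset ℕ → ℂ) : (ExC n f).re = Ex n (fun A => (f A).re) := by
  rw [lib2_ExC_eq, Complex.re_ofReal_mul, Complex.re_sum]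
  unfold Ex
  rw [div_eq_inv_mul]

theorem norm_ExC_le (n : ℕ) (f : Finset ℕ → ℂ) : ‖ExC n f‖ ≤ Ex n (fun A => ‖f A‖) := by
  rw [lib2_ExC_eq, norm_mul, Complex.norm_real, Real.norm_eq_abs,
    abs_of_pos (by positivity : (0 : ℝ) < ((2 : ℝ) ^ (n / 2))⁻¹)]
  unfold Ex
  rw [div_eq_inv_mul]
  exact mul_le_mul_of_nonneg_left (norm_sum_le _ _) (by positivity)

theorem norm_ExC_mul_le (n : ℕ) (f g : Finset ℕ → ℂ) :
    ‖ExC n (fun A => f A * g A)‖ ^ 2 ≤ Ex n (fun A => ‖f A‖ ^ 2) * Ex n (fun A => ‖g A‖ ^ 2) := by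
  have h1 := norm_ExC_le n (fun A => f A * g A)
  have h2 := Ex_cs n (fun A => ‖f A‖) (fun A => ‖g A‖)
  simp only [norm_mul] at h1
  exact (pow_le_pow_left₀ (norm_nonneg _) h1 2).trans h2

theorem lib2_wal_flip (a A : Finset ℕ) (j : ℕ) (hj : j ∈ a) :
    wal a (symmDiff A {j}) = - wal a A := by
  unfold wal
  rw [← Finset.mul_prod_erase a _ hj, ← Finset.mul_prod_erase a (fun i => if i ∈ A then (1 : ℂ) else -1) hj]
  have h1 : ∏ i ∈ a.erase j, (if i ∈ symmDiff A {j} then (1 : ℂ) else -1) =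
      ∏ i ∈ a.erase j, (if i ∈ A then (1 : ℂ) else -1) := by
    refine Finset.prod_congr rfl fun i hi => ?_
    have hne : i ≠ j := Finset.ne_of_mem_erase hi
    simp [Finset.mem_symmDiff, hne]
  rw [h1]
  by_cases h : j ∈ A
  · simp [Finset.mem_symmDiff, h]
  · simp [Finset.mem_symmDiff, h]

theorem ExC_wal (n : ℕ) (a : Finset ℕ) (ha : a ⊆ Cl n) :
    ExC n (wal a) = if a = ∅ then 1 else 0 := by
  split_ifs with h
  · subst h
    have : wal ∅ = fun _ => (1 : ℂ) := by funext A; simp [wal]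
    rw [this, ExC_const]
  · obtain ⟨j, hj⟩ := Finset.nonempty_iff_ne_empty.mpr h
    have h1 : ∑ A ∈ (Cl n).powerset, wal a (symmDiff A {j}) = ∑ A ∈ (Cl n).powerset, wal a A := by
      refine Finset.sum_nbij' (fun A => symmDiff A {j}) (fun A => symmDiff A {j}) ?_ ?_ ?_ ?_ ?_
      · exact lib2_flip_sub n j (ha hj)
      · exact lib2_flip_sub n j (ha hj)
      · intro A _
        exact symmDiff_symmDiff_cancel_right _ _
      · intro A _
        exact symmDiff_symmDiff_cancel_right _ _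
      · intro A _
        rfl
    simp_rw [lib2_wal_flip a _ j hj] at h1
    rw [Finset.sum_neg_distrib] at h1
    have h2 : ∑ A ∈ (Cl n).powerset, wal a A = 0 := by
      linear_combination (-1 / 2 : ℂ) * h1
    unfold ExC
    rw [h2, zero_div]

/-- Square of an average over the group. -/
theorem sq_avg_le {n : ℕ} [NeZero n] (f : ZMod n → ℂ) :
    ‖(∑ x, f x) / n‖ ^ 2 ≤ (∑ x, ‖f x‖ ^ 2) / n := by
  have hn : (0 : ℝ) < n := by exact_mod_cast NeZero.pos n
  have h1 : ‖∑ x, f x‖ ^ 2 ≤ n * ∑ x, ‖f x‖ ^ 2 := by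
    have h2 : (∑ x : ZMod n, ‖f x‖) ^ 2 ≤ (Finset.univ : Finset (ZMod n)).card * ∑ x, ‖f x‖ ^ 2 :=
      sq_sum_le_card_mul_sum_sq
    rw [Finset.card_univ, ZMod.card] at h2
    exact (pow_le_pow_left₀ (norm_nonneg _) (norm_sum_le _ _) 2).trans h2
  rw [norm_div, div_pow, Complex.norm_natCast, div_le_div_iff₀ (by positivity) hn]
  nlinarith [h1]

theorem Pr_nonneg (n : ℕ) (p : Finset ℕ → Prop) : 0 ≤ Pr n p := by
  unfold Pr
  refine Ex_nonneg n _ fun A _ => ?_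
  split_ifs <;> norm_num

theorem Pr_le_one (n : ℕ) (p : Finset ℕ → Prop) : Pr n p ≤ 1 := by
  unfold Pr
  refine (Ex_mono n _ (fun _ => (1 : ℝ)) fun A _ => ?_).trans (Ex_const n 1).le
  split_ifs <;> norm_num

theorem Pr_mono (n : ℕ) (p q : Finset ℕ → Prop) (h : ∀ A, A ⊆ Cl n → p A → q A) :
    Pr n p ≤ Pr n q := by
  unfold Pr
  refine Ex_mono n _ _ fun A hA => ?_
  by_cases hp : p A
  · simp [hp, h A hA hp]
  · simp only [hp, if_false]
    split_ifs <;> norm_num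

theorem Pr_not (n : ℕ) (p : Finset ℕ → Prop) : Pr n (fun A => ¬ p A) = 1 - Pr n p := by
  unfold Pr
  rw [← Ex_const n 1, ← Ex_sub]
  refine Ex_congr n _ _ fun A _ => ?_
  by_cases hp : p A
  · simp [hp, Ex_const]
  · simp [hp, Ex_const]

theorem Pr_or_le (n : ℕ) (p q : Finset ℕ → Prop) :
    Pr n (fun A => p A ∨ q A) ≤ Pr n p + Pr n q := by
  unfold Pr
  rw [← Ex_add]
  refine Ex_mono n _ _ fun A _ => ?_
  by_cases hp : p A <;> by_cases hq : q A <;> simp [hp, hq]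

theorem Pr_and_ge (n : ℕ) (p q : Finset ℕ → Prop) :
    Pr n p + Pr n q - 1 ≤ Pr n (fun A => p A ∧ q A) := by
  unfold Pr
  rw [← Ex_const n 1, ← Ex_add, ← Ex_sub]
  refine Ex_mono n _ _ fun A _ => ?_
  by_cases hp : p A <;> by_cases hq : q A <;> simp [hp, hq, Ex_const]

/-- Markov's inequality. -/
theorem Pr_markov (n : ℕ) (f : Finset ℕ → ℝ) (hf : ∀ A, A ⊆ Cl n → 0 ≤ f A) (c : ℝ) (hc : 0 < c) :
    Pr n (fun A => c < f A) ≤ Ex n f / c := by
  unfold Pr
  rw [div_eq_inv_mul, ← Ex_mul]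
  refine Ex_mono n _ _ fun A hA => ?_
  by_cases hp : c < f A
  · simp only [hp, if_true]
    rw [← div_eq_inv_mul, le_div_iff₀ hc]
    linarith
  · simp only [hp, if_false]
    exact mul_nonneg (by positivity) (hf A hA)

theorem Pr_compl (n : ℕ) (p : Finset ℕ → Prop) : Pr n (fun A => p (Cl n \ A)) = Pr n p := by
  classical
  unfold Pr
  have h := Ex_compl n (fun A => if p A then (1 : ℝ) else 0)
  convert h using 1

end Pool.Agent.H276R2.Th
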