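import Pool.Agent.H276R2.Th.Lib3B

/-!
# Library 3C: calculus of families (task LIB3C: replace the sorries)
-/

set_option autoImplicit false

namespace Pool.Agent.H276R2.Th

open Finset

private theorem l3_sq_add (a b : ℂ) : ‖a + b‖ ^ 2 ≤ 2 * ‖a‖ ^ 2 + 2 * ‖b‖ ^ 2 := by
  have h1 : ‖a + b‖ ≤ ‖a‖ + ‖b‖ := norm_add_le a b
  have h2 : ‖a + b‖ ^ 2 ≤ (‖a‖ + ‖b‖) ^ 2 := pow_le_pow_left₀ (norm_nonneg _) h1 2
  nlinarith [sq_nonneg (‖a‖ - ‖b‖)]

private theorem l3_Ex_sq_nonneg (n : ℕ) (f : Finset ℕ → ℂ) : 0 ≤ Ex n (fun A => ‖f A‖ ^ 2) :=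
  Ex_nonneg n _ fun _ _ => by positivity

private theorem l3_Ex_sq_add (n : ℕ) (f g : Finset ℕ → ℂ) :
    Ex n (fun A => ‖f A + g A‖ ^ 2) ≤
      2 * Ex n (fun A => ‖f A‖ ^ 2) + 2 * Ex n (fun A => ‖g A‖ ^ 2) := by
  rw [← Ex_mul, ← Ex_mul, ← Ex_add]
  exact Ex_mono n _ _ fun A _ => l3_sq_add _ _

private theorem l3_Ex_sq_smul (n : ℕ) (c : ℂ) (f : Finset ℕ → ℂ) :
    Ex n (fun A => ‖c * f A‖ ^ 2) = ‖c‖ ^ 2 * Ex n (fun A => ‖f A‖ ^ 2) := by
  rw [← Ex_mul]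
  exact Ex_congr n _ _ fun A _ => by rw [norm_mul, mul_pow]

private theorem l3_Ex_sq_mul {n D D' : ℕ} {f g : Finset ℕ → ℂ} (hf : Deg n D f)
    (hg : Deg n D' g) : Ex n (fun A => ‖f A * g A‖ ^ 2) ≤
      3 ^ D * 3 ^ D' * Ex n (fun A => ‖f A‖ ^ 2) * Ex n (fun A => ‖g A‖ ^ 2) := by
  have hfn := l3_Ex_sq_nonneg n f
  have hgn := l3_Ex_sq_nonneg n g
  have h1 := Ex_cs n (fun A => ‖f A‖ ^ 2) (fun A => ‖g A‖ ^ 2)
  have h2 : Ex n (fun A => ‖f A * g A‖ ^ 2) = Ex n (fun A => ‖f A‖ ^ 2 * ‖g A‖ ^ 2) :=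
    Ex_congr n _ _ fun A _ => by rw [norm_mul, mul_pow]
  have h3 : Ex n (fun A => (‖f A‖ ^ 2) ^ 2) ≤ 9 ^ D * (Ex n (fun A => ‖f A‖ ^ 2)) ^ 2 := by
    have h := bonami hf
    have h' : Ex n (fun A => (‖f A‖ ^ 2) ^ 2) = Ex n (fun A => ‖f A‖ ^ 4) :=
      Ex_congr n _ _ fun A _ => by ring
    rw [h']
    exact h
  have h4 : Ex n (fun A => (‖g A‖ ^ 2) ^ 2) ≤ 9 ^ D' * (Ex n (fun A => ‖g A‖ ^ 2)) ^ 2 := by
    have h := bonami hg
    have h' : Ex n (fun A => (‖g A‖ ^ 2) ^ 2) = Ex n (fun A => ‖g A‖ ^ 4) :=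
      Ex_congr n _ _ fun A _ => by ring
    rw [h']
    exact h
  rw [h2]
  apply le_of_sq_le_sq _ (by positivity)
  calc (Ex n (fun A => ‖f A‖ ^ 2 * ‖g A‖ ^ 2)) ^ 2
      ≤ Ex n (fun A => (‖f A‖ ^ 2) ^ 2) * Ex n (fun A => (‖g A‖ ^ 2) ^ 2) := h1
    _ ≤ (9 ^ D * (Ex n (fun A => ‖f A‖ ^ 2)) ^ 2) * (9 ^ D' * (Ex n (fun A => ‖g A‖ ^ 2)) ^ 2) :=
        mul_le_mul h3 h4 (Ex_nonneg n _ fun _ _ => by positivity) (by positivity)
    _ = (3 ^ D * 3 ^ D' * Ex n (fun A => ‖f A‖ ^ 2) * Ex n (fun A => ‖g A‖ ^ 2)) ^ 2 := by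
        have e1 : (9 : ℝ) ^ D = (3 ^ D) ^ 2 := by rw [← pow_mul, mul_comm, pow_mul]; norm_num
        have e2 : (9 : ℝ) ^ D' = (3 ^ D') ^ 2 := by rw [← pow_mul, mul_comm, pow_mul]; norm_num
        rw [e1, e2]
        ring

/-! ### LIB3C: families -/

theorem DB_const (c : ℂ) : DB (fun _ _ _ _ => c) := ⟨0, fun n _ _ => Deg_const n 0 c⟩

/-- Families not depending on the set `A`. -/
theorem DB_det (g : (n : ℕ) → [NeZero n] → ZMod n → ℂ) : DB (fun n _ _ x => g n x) :=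
  ⟨0, fun n _ _ => Deg_const n 0 _⟩

theorem DB_add {f g : Fam} (hf : DB f) (hg : DB g) : DB (fun n _ A x => f n A x + g n A x) := by
  obtain ⟨D, hD⟩ := hf
  obtain ⟨D', hD'⟩ := hg
  exact ⟨max D D', fun n _ x => Deg_add (Deg_mono (le_max_left _ _) (hD n x))
    (Deg_mono (le_max_right _ _) (hD' n x))⟩

theorem DB_sub {f g : Fam} (hf : DB f) (hg : DB g) : DB (fun n _ A x => f n A x - g n A x) := by
  obtain ⟨D, hD⟩ := hf
  obtain ⟨D', hD'⟩ := hg
  exact ⟨max D D', fun n _ x => Deg_sub (Deg_mono (le_max_left _ _) (hD n x))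
    (Deg_mono (le_max_right _ _) (hD' n x))⟩

theorem DB_smul {f : Fam} (c : ℂ) (hf : DB f) : DB (fun n _ A x => c * f n A x) := by
  obtain ⟨D, hD⟩ := hf
  exact ⟨D, fun n _ x => Deg_smul c (hD n x)⟩

theorem DB_mul {f g : Fam} (hf : DB f) (hg : DB g) : DB (fun n _ A x => f n A x * g n A x) := by
  obtain ⟨D, hD⟩ := hf
  obtain ⟨D', hD'⟩ := hg
  exact ⟨D + D', fun n _ x => Deg_mul (hD n x) (hD' n x)⟩

theorem DB_sum {ι : Type} (s : Finset ι) {f : ι → Fam} (hf : ∀ i ∈ s, DB (f i)) :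
    DB (fun n _ A x => ∑ i ∈ s, f i n A x) := by
  classical
  induction s using Finset.induction_on with
  | empty => simpa using DB_const 0
  | insert a s ha ih =>
    simp only [Finset.sum_insert ha]
    exact DB_add (hf a (mem_insert_self a s)) (ih fun i hi => hf i (mem_insert_of_mem hi))

theorem DB_T {f : Fam} (hf : DB f) : DB (fun n _ A x => T A (f n A) x) := by
  obtain ⟨D, hD⟩ := hf
  refine ⟨1 + D, fun n _ x => ?_⟩
  unfold T
  apply Deg_sum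
  intro k _
  have h1 : Deg n D (fun A => fc (f n A) k) := by
    have h2 : Deg n D (fun A => (1 / (n : ℂ)) * ∑ y, ch n (-(k * y)) * f n A y) :=
      Deg_smul _ (Deg_sum _ fun y _ => Deg_smul _ (hD n y))
    refine Deg_congr (fun A _ => ?_) h2
    unfold fc
    rw [one_div, div_eq_inv_mul]
    congr 1
    exact Finset.sum_congr rfl fun y _ => mul_comm _ _
  have h3 := Deg_smul (ch n (k * x)) (Deg_mul (Deg_sg n k) h1)
  refine Deg_congr (fun A _ => ?_) h3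
  ring

theorem DB_aeval {f : Fam} (hf : DB f) (P : Polynomial ℝ) :
    DB (fun n _ A x => Polynomial.aeval (f n A x) P) := by
  induction P using Polynomial.induction_on with
  | C a =>
    simp only [Polynomial.aeval_C]
    exact DB_const _
  | add p q hp hq =>
    simp only [map_add]
    exact DB_add hp hq
  | monomial k a ih =>
    simp only [pow_succ, ← mul_assoc]
    simp only [map_mul (Polynomial.aeval _) _ Polynomial.X, Polynomial.aeval_X]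
    exact DB_mul ih hf

theorem O1_congr {f g : Fam} (h : ∀ (n : ℕ) [NeZero n] (A : Finset ℕ) (x : ZMod n),
    A ⊆ Cl n → f n A x = g n A x) (hf : O1 f) : O1 g := by
  obtain ⟨C, hC⟩ := hf
  refine ⟨C, fun n _ => ?_⟩
  refine le_trans (le_of_eq ?_) (hC n)
  exact Finset.sum_congr rfl fun x _ => Ex_congr n _ _ fun A hA => by rw [h n A x hA]

theorem O1_zero : O1 (fun _ _ _ _ => 0) := by
  refine ⟨0, fun n _ => ?_⟩
  simp [Ex_const]

theorem O1_add {f g : Fam} (hf : O1 f) (hg : O1 g) : O1 (fun n _ A x => f n A x + g n A x) := by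
  obtain ⟨C, hC⟩ := hf
  obtain ⟨C', hC'⟩ := hg
  refine ⟨2 * C + 2 * C', fun n _ => ?_⟩
  calc ∑ x, Ex n (fun A => ‖f n A x + g n A x‖ ^ 2)
      ≤ ∑ x, (2 * Ex n (fun A => ‖f n A x‖ ^ 2) + 2 * Ex n (fun A => ‖g n A x‖ ^ 2)) :=
        Finset.sum_le_sum fun x _ => l3_Ex_sq_add n _ _
    _ = 2 * ∑ x, Ex n (fun A => ‖f n A x‖ ^ 2) + 2 * ∑ x, Ex n (fun A => ‖g n A x‖ ^ 2) := by
        rw [Finset.sum_add_distrib, Finset.mul_sum, Finset.mul_sum]
    _ ≤ 2 * C + 2 * C' := by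
        have h1 := hC n
        have h2 := hC' n
        linarith

theorem O1_smul {f : Fam} (c : ℂ) (hf : O1 f) : O1 (fun n _ A x => c * f n A x) := by
  obtain ⟨C, hC⟩ := hf
  refine ⟨‖c‖ ^ 2 * C, fun n _ => ?_⟩
  simp only [l3_Ex_sq_smul]
  rw [← Finset.mul_sum]
  exact mul_le_mul_of_nonneg_left (hC n) (by positivity)

theorem O1_sub {f g : Fam} (hf : O1 f) (hg : O1 g) : O1 (fun n _ A x => f n A x - g n A x) := by
  refine O1_congr ?_ (O1_add hf (O1_smul (-1) hg))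
  intro n _ A x _
  ring

theorem O1_sum {ι : Type} (s : Finset ι) {f : ι → Fam} (hf : ∀ i ∈ s, O1 (f i)) :
    O1 (fun n _ A x => ∑ i ∈ s, f i n A x) := by
  classical
  induction s using Finset.induction_on with
  | empty => simpa using O1_zero
  | insert a s ha ih =>
    simp only [Finset.sum_insert ha]
    exact O1_add (hf a (mem_insert_self a s)) (ih fun i hi => hf i (mem_insert_of_mem hi))

/-- `T` is an isometry for the norm of `O1` (`sum_norm_T`). -/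
theorem O1_T {f : Fam} (hf : O1 f) : O1 (fun n _ A x => T A (f n A) x) := by
  obtain ⟨C, hC⟩ := hf
  refine ⟨C, fun n _ => ?_⟩
  refine le_trans (le_of_eq ?_) (hC n)
  rw [← Ex_sum, ← Ex_sum]
  exact Ex_congr n _ _ fun A _ => sum_norm_T A (f n A)

theorem Bd_DB {f : Fam} (hf : Bd f) : DB f := hf.1

theorem Bd_const (c : ℂ) : Bd (fun _ _ _ _ => c) :=
  ⟨DB_const c, ‖c‖ ^ 2, fun n _ _ => (Ex_const n _).le⟩

theorem Bd_add {f g : Fam} (hf : Bd f) (hg : Bd g) : Bd (fun n _ A x => f n A x + g n A x) := by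
  refine ⟨DB_add hf.1 hg.1, ?_⟩
  obtain ⟨_, C, hC⟩ := hf
  obtain ⟨_, C', hC'⟩ := hg
  refine ⟨2 * C + 2 * C', fun n _ x => ?_⟩
  have h1 := hC n x
  have h2 := hC' n x
  have h3 := l3_Ex_sq_add n (fun A => f n A x) (fun A => g n A x)
  linarith

theorem Bd_smul {f : Fam} (c : ℂ) (hf : Bd f) : Bd (fun n _ A x => c * f n A x) := by
  refine ⟨DB_smul c hf.1, ?_⟩
  obtain ⟨_, C, hC⟩ := hf
  refine ⟨‖c‖ ^ 2 * C, fun n _ x => ?_⟩
  rw [l3_Ex_sq_smul n c (fun A => f n A x)]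
  exact mul_le_mul_of_nonneg_left (hC n x) (by positivity)

theorem Bd_sub {f g : Fam} (hf : Bd f) (hg : Bd g) : Bd (fun n _ A x => f n A x - g n A x) := by
  have h := Bd_add hf (Bd_smul (-1) hg)
  have e : (fun (n : ℕ) [NeZero n] (A : Finset ℕ) (x : ZMod n) => f n A x - g n A x) =
      (fun (n : ℕ) [NeZero n] (A : Finset ℕ) (x : ZMod n) => f n A x + (-1) * g n A x) := by
    funext n _ A x
    ring
  rw [e]
  exact h

theorem Bd_sum {ι : Type} (s : Finset ι) {f : ι → Fam} (hf : ∀ i ∈ s, Bd (f i)) :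
    Bd (fun n _ A x => ∑ i ∈ s, f i n A x) := by
  classical
  induction s using Finset.induction_on with
  | empty => simpa using Bd_const 0
  | insert a s ha ih =>
    simp only [Finset.sum_insert ha]
    exact Bd_add (hf a (mem_insert_self a s)) (ih fun i hi => hf i (mem_insert_of_mem hi))

/-- `E|fg|² ≤ √(E|f|⁴ E|g|⁴) ≤ 3^D 3^D' E|f|² E|g|²` by `bonami`. -/
theorem Bd_mul {f g : Fam} (hf : Bd f) (hg : Bd g) : Bd (fun n _ A x => f n A x * g n A x) := by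
  refine ⟨DB_mul hf.1 hg.1, ?_⟩
  obtain ⟨⟨D, hD⟩, C, hC⟩ := hf
  obtain ⟨⟨D', hD'⟩, C', hC'⟩ := hg
  refine ⟨3 ^ D * 3 ^ D' * C * C', fun n _ x => ?_⟩
  have h0 := l3_Ex_sq_nonneg n (fun A => f n A x)
  have h1 := l3_Ex_sq_nonneg n (fun A => g n A x)
  refine (l3_Ex_sq_mul (hD n x) (hD' n x)).trans ?_
  have h2 : 0 ≤ C := h0.trans (hC n x)
  apply mul_le_mul _ (hC' n x) h1 (by positivity)
  exact mul_le_mul_of_nonneg_left (hC n x) (by positivity)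

theorem Bd_aeval {f : Fam} (hf : Bd f) (P : Polynomial ℝ) :
    Bd (fun n _ A x => Polynomial.aeval (f n A x) P) := by
  induction P using Polynomial.induction_on with
  | C a =>
    simp only [Polynomial.aeval_C]
    exact Bd_const _
  | add p q hp hq =>
    simp only [map_add]
    exact Bd_add hp hq
  | monomial k a ih =>
    simp only [pow_succ, ← mul_assoc]
    simp only [map_mul (Polynomial.aeval _) _ Polynomial.X, Polynomial.aeval_X]
    exact Bd_mul ih hf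

/-- Every term of the sum over `x` is bounded. -/
theorem Bd_of_O1 {f : Fam} (hd : DB f) (hf : O1 f) : Bd f := by
  refine ⟨hd, ?_⟩
  obtain ⟨C, hC⟩ := hf
  refine ⟨C, fun n _ x => le_trans ?_ (hC n)⟩
  exact Finset.single_le_sum (f := fun x => Ex n (fun A => ‖f n A x‖ ^ 2))
    (fun y _ => l3_Ex_sq_nonneg n (fun A => f n A y)) (mem_univ x)

/-- `∑_x E|fg|² ≤ ∑_x √(E|f|⁴ E|g|⁴) ≤ 3^D 3^D' (∑_x E|f|²) sup_x E|g|²` by `bonami`. -/
theorem O1_mul {f g : Fam} (hd : DB f) (hf : O1 f) (hg : Bd g) :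
    O1 (fun n _ A x => f n A x * g n A x) := by
  obtain ⟨D, hD⟩ := hd
  obtain ⟨C, hC⟩ := hf
  obtain ⟨⟨D', hD'⟩, C', hC'⟩ := hg
  have hC'0 : 0 ≤ C' := (l3_Ex_sq_nonneg 1 (fun A => g 1 A 0)).trans (hC' 1 0)
  refine ⟨3 ^ D * 3 ^ D' * C' * C, fun n _ => ?_⟩
  calc ∑ x, Ex n (fun A => ‖f n A x * g n A x‖ ^ 2)
      ≤ ∑ x, 3 ^ D * 3 ^ D' * C' * Ex n (fun A => ‖f n A x‖ ^ 2) := by
        refine Finset.sum_le_sum fun x _ => (l3_Ex_sq_mul (hD n x) (hD' n x)).trans ?_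
        have h0 := l3_Ex_sq_nonneg n (fun A => f n A x)
        calc 3 ^ D * 3 ^ D' * Ex n (fun A => ‖f n A x‖ ^ 2) * Ex n (fun A => ‖g n A x‖ ^ 2)
            ≤ 3 ^ D * 3 ^ D' * Ex n (fun A => ‖f n A x‖ ^ 2) * C' :=
              mul_le_mul_of_nonneg_left (hC' n x) (by positivity)
          _ = 3 ^ D * 3 ^ D' * C' * Ex n (fun A => ‖f n A x‖ ^ 2) := by ring
    _ = 3 ^ D * 3 ^ D' * C' * ∑ x, Ex n (fun A => ‖f n A x‖ ^ 2) := by rw [Finset.mul_sum]
    _ ≤ 3 ^ D * 3 ^ D' * C' * C := mul_le_mul_of_nonneg_left (hC n) (by positivity)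

/-- `P(f) - P(g) = (f - g) R(f, g)`. -/
theorem O1_aeval_sub {f g : Fam} (hf : Bd f) (hg : Bd g)
    (h : O1 (fun n _ A x => f n A x - g n A x)) (P : Polynomial ℝ) :
    O1 (fun n _ A x => Polynomial.aeval (f n A x) P - Polynomial.aeval (g n A x) P) := by
  induction P using Polynomial.induction_on with
  | C a =>
    simp only [Polynomial.aeval_C, sub_self]
    exact O1_zero
  | add p q hp hq =>
    refine O1_congr ?_ (O1_add hp hq)
    intro n _ A x _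
    simp only [map_add]
    ring
  | monomial k a ih =>
    have h1 := O1_mul (DB_sub (DB_aeval hf.1 (Polynomial.C a * Polynomial.X ^ k))
      (DB_aeval hg.1 (Polynomial.C a * Polynomial.X ^ k))) ih hf
    have h2 := O1_mul (DB_sub hf.1 hg.1) h (Bd_aeval hg (Polynomial.C a * Polynomial.X ^ k))
    refine O1_congr ?_ (O1_add h1 h2)
    intro n _ A x _
    simp only [map_mul, map_pow, Polynomial.aeval_X, Polynomial.aeval_C]
    ring

/-- Averages over the group of small families are small. -/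
theorem O1_avg {f : Fam} (hf : O1 f) : ∃ C : ℝ, ∀ (n : ℕ) [NeZero n],
    Ex n (fun A => ‖(∑ x, f n A x) / n‖ ^ 2) ≤ C / n := by
  obtain ⟨C, hC⟩ := hf
  refine ⟨C, fun n _ => ?_⟩
  calc Ex n (fun A => ‖(∑ x, f n A x) / n‖ ^ 2)
      ≤ Ex n (fun A => (1 / n : ℝ) * ∑ x, ‖f n A x‖ ^ 2) := by
        refine Ex_mono n _ _ fun A _ => (sq_avg_le (f n A)).trans (le_of_eq ?_)
        ring
    _ = (1 / n : ℝ) * ∑ x, Ex n (fun A => ‖f n A x‖ ^ 2) := by rw [Ex_mul, Ex_sum]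
    _ ≤ (1 / n : ℝ) * C := mul_le_mul_of_nonneg_left (hC n) (by positivity)
    _ = C / n := by ring

/-- `|E avg (f g)| ≤ (E avg |f|²)^(1/2) (E avg |g|²)^(1/2) ≤ √(C/n) √C'`. -/
theorem O1_avg_mul {f g : Fam} (hf : O1 f) (hg : Bd g) : ∃ C : ℝ, ∀ (n : ℕ) [NeZero n],
    ‖ExC n (fun A => (∑ x, f n A x * g n A x) / n)‖ ≤ C / Real.sqrt n := by
  obtain ⟨C, hC⟩ := hf
  obtain ⟨_, C', hC'⟩ := hg
  refine ⟨(C + C') / 2, fun n hn => ?_⟩
  have hn0 : (0 : ℝ) < n := by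
    have := Nat.pos_of_ne_zero hn.out
    exact_mod_cast this
  have hs : 0 < Real.sqrt n := Real.sqrt_pos.2 hn0
  have hss : Real.sqrt n * Real.sqrt n = n := Real.mul_self_sqrt hn0.le
  have hpt : ∀ A : Finset ℕ, ‖(∑ x, f n A x * g n A x) / n‖ ≤
      (1 / n : ℝ) * ∑ x, (Real.sqrt n / 2 * ‖f n A x‖ ^ 2 +
        1 / (2 * Real.sqrt n) * ‖g n A x‖ ^ 2) := by
    intro A
    rw [norm_div, Complex.norm_natCast, div_eq_inv_mul, one_div]
    refine mul_le_mul_of_nonneg_left ?_ (by positivity)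
    refine (norm_sum_le _ _).trans (Finset.sum_le_sum fun x _ => ?_)
    rw [norm_mul]
    have h1 : Real.sqrt n / 2 * ‖f n A x‖ ^ 2 + 1 / (2 * Real.sqrt n) * ‖g n A x‖ ^ 2 -
        ‖f n A x‖ * ‖g n A x‖ =
        1 / (2 * Real.sqrt n) * (Real.sqrt n * ‖f n A x‖ - ‖g n A x‖) ^ 2 := by
      field_simp
      ring
    have h2 : 0 ≤ 1 / (2 * Real.sqrt n) * (Real.sqrt n * ‖f n A x‖ - ‖g n A x‖) ^ 2 := by
      positivity
    linarith
  have hG : ∑ x : ZMod n, Ex n (fun A => ‖g n A x‖ ^ 2) ≤ n * C' := by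
    calc ∑ x : ZMod n, Ex n (fun A => ‖g n A x‖ ^ 2) ≤ ∑ _x : ZMod n, C' :=
          Finset.sum_le_sum fun x _ => hC' n x
      _ = n * C' := by
          rw [Finset.sum_const, Finset.card_univ, ZMod.card, nsmul_eq_mul]
  calc ‖ExC n (fun A => (∑ x, f n A x * g n A x) / n)‖
      ≤ Ex n (fun A => ‖(∑ x, f n A x * g n A x) / n‖) := norm_ExC_le n _
    _ ≤ Ex n (fun A => (1 / n : ℝ) * ∑ x, (Real.sqrt n / 2 * ‖f n A x‖ ^ 2 +
        1 / (2 * Real.sqrt n) * ‖g n A x‖ ^ 2)) := Ex_mono n _ _ fun A _ => hpt A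
    _ = (1 / n : ℝ) * (Real.sqrt n / 2 * ∑ x, Ex n (fun A => ‖f n A x‖ ^ 2) +
        1 / (2 * Real.sqrt n) * ∑ x, Ex n (fun A => ‖g n A x‖ ^ 2)) := by
        rw [Ex_mul, Ex_sum]
        congr 1
        rw [Finset.mul_sum, Finset.mul_sum, ← Finset.sum_add_distrib]
        refine Finset.sum_congr rfl fun x _ => ?_
        rw [Ex_add, Ex_mul, Ex_mul]
    _ ≤ (1 / n : ℝ) * (Real.sqrt n / 2 * C + 1 / (2 * Real.sqrt n) * (n * C')) := by
        refine mul_le_mul_of_nonneg_left ?_ (by positivity)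
        exact add_le_add (mul_le_mul_of_nonneg_left (hC n) (by positivity))
          (mul_le_mul_of_nonneg_left hG (by positivity))
    _ = (C + C') / 2 / Real.sqrt n := by
        generalize Real.sqrt n = r at hs hss
        rw [← hss]
        field_simp

end Pool.Agent.H276R2.Th
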