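import Pool.Agent.H276R2.Th.Lib2

/-!
# Library 3A: polynomials of bounded degree in the signs (task LIB3A)
-/

set_option autoImplicit false

namespace Pool.Agent.H276R2.Th

open Finset

/-! ### Helper lemmas -/

theorem lib3a_mem {n D : ℕ} {a : Finset ℕ} :
    a ∈ (Cl n).powerset.filter (fun a => a.card ≤ D) ↔ a ⊆ Cl n ∧ a.card ≤ D := by
  rw [mem_filter, mem_powerset]

theorem lib3a_wal_empty (A : Finset ℕ) : wal ∅ A = 1 := by
  simp [wal]

theorem lib3a_wal_mul_wal (a b A : Finset ℕ) : wal a A * wal b A = wal (symmDiff a b) A := by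
  unfold wal
  have h1 := Finset.prod_inter_mul_prod_sdiff a b (fun j => if j ∈ A then (1:ℂ) else -1)
  have h2 := Finset.prod_inter_mul_prod_sdiff b a (fun j => if j ∈ A then (1:ℂ) else -1)
  have h3 : (∏ j ∈ a ∩ b, if j ∈ A then (1:ℂ) else -1) *
      (∏ j ∈ b ∩ a, if j ∈ A then (1:ℂ) else -1) = 1 := by
    rw [Finset.inter_comm b a, ← Finset.prod_mul_distrib]
    apply Finset.prod_eq_one
    intro j _
    split_ifs <;> norm_num
  have h4 : (∏ j ∈ symmDiff a b, if j ∈ A then (1:ℂ) else -1) =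
      (∏ j ∈ a \ b, if j ∈ A then (1:ℂ) else -1) * ∏ j ∈ b \ a, if j ∈ A then (1:ℂ) else -1 := by
    rw [symmDiff_def, Finset.sup_eq_union, Finset.prod_union disjoint_sdiff_sdiff]
  rw [h4, ← h1, ← h2]
  linear_combination ((∏ j ∈ a \ b, if j ∈ A then (1:ℂ) else -1) *
    ∏ j ∈ b \ a, if j ∈ A then (1:ℂ) else -1) * h3

theorem lib3a_conj_wal (a A : Finset ℕ) : (starRingEnd ℂ) (wal a A) = wal a A := by
  unfold wal
  rw [map_prod]
  apply Finset.prod_congr rfl
  intro j _
  split_ifs <;> simp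

/-! ### LIB3A: polynomials of bounded degree in the signs -/

theorem Deg_congr {n D : ℕ} {f g : Finset ℕ → ℂ} (h : ∀ A, A ⊆ Cl n → f A = g A)
    (hf : Deg n D f) : Deg n D g := by
  obtain ⟨c, hc⟩ := hf
  exact ⟨c, fun A hA => (h A (mem_powerset.1 hA)).symm.trans (hc A hA)⟩

theorem Deg_mono {n D D' : ℕ} {f : Finset ℕ → ℂ} (h : D ≤ D') (hf : Deg n D f) : Deg n D' f := by
  obtain ⟨c, hc⟩ := hf
  refine ⟨fun a => if a.card ≤ D then c a else 0, fun A hA => ?_⟩
  rw [hc A hA, Finset.sum_filter, Finset.sum_filter]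
  apply Finset.sum_congr rfl
  intro a _
  by_cases h1 : a.card ≤ D
  · simp only [if_pos h1, if_pos (h1.trans h)]
  · rw [if_neg h1]
    simp only [if_neg h1, zero_mul, ite_self]

theorem Deg_wal (n : ℕ) (a : Finset ℕ) (ha : a ⊆ Cl n) : Deg n a.card (wal a) := by
  refine ⟨fun b => if b = a then 1 else 0, fun A _ => ?_⟩
  rw [Finset.sum_eq_single a]
  · simp
  · intro b _ hb
    simp [hb]
  · intro hcon
    exact absurd (lib3a_mem.mpr ⟨ha, le_rfl⟩) hcon

theorem Deg_add {n D : ℕ} {f g : Finset ℕ → ℂ} (hf : Deg n D f) (hg : Deg n D g) :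
    Deg n D (fun A => f A + g A) := by
  obtain ⟨c, hc⟩ := hf
  obtain ⟨d, hd⟩ := hg
  refine ⟨fun a => c a + d a, fun A hA => ?_⟩
  simp only
  rw [hc A hA, hd A hA, ← Finset.sum_add_distrib]
  apply Finset.sum_congr rfl
  intro a _
  ring

theorem Deg_smul {n D : ℕ} {f : Finset ℕ → ℂ} (c : ℂ) (hf : Deg n D f) :
    Deg n D (fun A => c * f A) := by
  obtain ⟨d, hd⟩ := hf
  refine ⟨fun a => c * d a, fun A hA => ?_⟩
  simp only
  rw [hd A hA, Finset.mul_sum]
  apply Finset.sum_congr rfl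
  intro a _
  ring

theorem Deg_const (n D : ℕ) (c : ℂ) : Deg n D (fun _ => c) := by
  have h1 := Deg_smul c (Deg_mono (Nat.zero_le D) (Deg_wal n ∅ (empty_subset _)))
  refine Deg_congr (fun A _ => ?_) h1
  rw [lib3a_wal_empty, mul_one]

theorem Deg_sg (n : ℕ) [NeZero n] (k : ZMod n) : Deg n 1 (fun A => (sg A k : ℂ)) := by
  by_cases hk : k = 0
  · subst hk
    refine Deg_congr (fun A _ => ?_) (Deg_const n 1 1)
    rw [sg_zero, Complex.ofReal_one]
  · have h1 := Deg_wal n {cls n k} (by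
      rw [Finset.singleton_subset_iff]
      exact cls_mem n k hk)
    rw [Finset.card_singleton] at h1
    exact Deg_congr (fun A _ => (sg_eq_wal A k hk).symm) h1

theorem Deg_sub {n D : ℕ} {f g : Finset ℕ → ℂ} (hf : Deg n D f) (hg : Deg n D g) :
    Deg n D (fun A => f A - g A) := by
  refine Deg_congr (fun A _ => ?_) (Deg_add hf (Deg_smul (-1) hg))
  ring

theorem Deg_sum {n D : ℕ} {ι : Type} (s : Finset ι) {f : ι → Finset ℕ → ℂ}
    (hf : ∀ i ∈ s, Deg n D (f i)) : Deg n D (fun A => ∑ i ∈ s, f i A) := by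
  classical
  induction s using Finset.induction_on with
  | empty =>
    refine Deg_congr (fun A _ => ?_) (Deg_const n D 0)
    simp
  | insert i s hi ih =>
    refine Deg_congr (fun A _ => ?_) (Deg_add (hf i (mem_insert_self i s))
      (ih (fun j hj => hf j (mem_insert_of_mem hj))))
    rw [Finset.sum_insert hi]

theorem Deg_mul {n D D' : ℕ} {f g : Finset ℕ → ℂ} (hf : Deg n D f) (hg : Deg n D' g) :
    Deg n (D + D') (fun A => f A * g A) := by
  obtain ⟨c, hc⟩ := hf
  obtain ⟨d, hd⟩ := hg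
  have h1 : Deg n (D + D') (fun A => ∑ a ∈ (Cl n).powerset.filter (fun a => a.card ≤ D),
      ∑ b ∈ (Cl n).powerset.filter (fun b => b.card ≤ D'), (c a * d b) * wal (symmDiff a b) A) := by
    refine Deg_sum _ (fun a ha => Deg_sum _ (fun b hb => Deg_smul _ ?_))
    rw [lib3a_mem] at ha hb
    have h2 : symmDiff a b ⊆ a ∪ b := by
      rw [symmDiff_def, Finset.sup_eq_union]
      exact union_subset_union sdiff_subset sdiff_subset
    have h3 : (symmDiff a b).card ≤ D + D' :=
      (card_le_card h2).trans ((card_union_le _ _).trans (add_le_add ha.2 hb.2))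
    exact Deg_mono h3 (Deg_wal n _ (h2.trans (union_subset ha.1 hb.1)))
  refine Deg_congr (fun A hA => ?_) h1
  rw [hc A (mem_powerset.2 hA), hd A (mem_powerset.2 hA), Finset.sum_mul_sum]
  apply Finset.sum_congr rfl
  intro a _
  apply Finset.sum_congr rfl
  intro b _
  rw [← lib3a_wal_mul_wal]
  ring

theorem Deg_prod {n : ℕ} {ι : Type} (s : Finset ι) {f : ι → Finset ℕ → ℂ}
    (hf : ∀ i ∈ s, Deg n 1 (f i)) : Deg n s.card (fun A => ∏ i ∈ s, f i A) := by
  classical
  induction s using Finset.induction_on with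
  | empty =>
    refine Deg_congr (fun A _ => ?_) (Deg_const n 0 1)
    simp
  | insert i s hi ih =>
    rw [card_insert_of_notMem hi, add_comm]
    refine Deg_congr (fun A _ => ?_) (Deg_mul (hf i (mem_insert_self i s))
      (ih (fun j hj => hf j (mem_insert_of_mem hj))))
    rw [Finset.prod_insert hi]

theorem Deg_conj {n D : ℕ} {f : Finset ℕ → ℂ} (hf : Deg n D f) :
    Deg n D (fun A => (starRingEnd ℂ) (f A)) := by
  obtain ⟨c, hc⟩ := hf
  refine ⟨fun a => (starRingEnd ℂ) (c a), fun A hA => ?_⟩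
  simp only
  rw [hc A hA, map_sum]
  apply Finset.sum_congr rfl
  intro a _
  rw [map_mul, lib3a_conj_wal]

end Pool.Agent.H276R2.Th
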