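import Pool.Agent.H276R2.Th.Lib3A

/-!
# Library 3B: hypercontractivity (task LIB3B, helper690)
-/

set_option autoImplicit false

namespace Pool.Agent.H276R2.Th

open Finset

/-! ### LIB3B: hypercontractivity -/

namespace BonamiAux

/-- polynomial on the coordinates of `s` -/
noncomputable def P (s : Finset ℕ) (D : ℕ) (c : Finset ℕ → ℂ) (A : Finset ℕ) : ℂ :=
  ∑ a ∈ s.powerset, if a.card ≤ D then c a * wal a A else 0

lemma wal_insert_left {a A : Finset ℕ} {x : ℕ} (hx : x ∉ a) :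
    wal (insert x a) A = (if x ∈ A then 1 else -1) * wal a A := by
  unfold wal
  rw [Finset.prod_insert hx]

lemma wal_insert_right {a A : Finset ℕ} {x : ℕ} (hx : x ∉ a) :
    wal a (insert x A) = wal a A := by
  unfold wal
  refine Finset.prod_congr rfl fun j hj => ?_
  have hjx : j ≠ x := fun h => hx (h ▸ hj)
  simp [Finset.mem_insert, hjx]

/-- the derivative part -/
noncomputable def Hp (s : Finset ℕ) (x D : ℕ) (c : Finset ℕ → ℂ) (A : Finset ℕ) : ℂ :=
  ∑ a ∈ s.powerset, if a.card + 1 ≤ D then c (insert x a) * wal a A else 0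

lemma P_insert {s : Finset ℕ} {x : ℕ} (hx : x ∉ s) (D : ℕ) (c : Finset ℕ → ℂ) (A : Finset ℕ) :
    P (insert x s) D c A = P s D c A + (if x ∈ A then 1 else -1) * Hp s x D c A := by
  unfold P Hp
  rw [Finset.sum_powerset_insert hx, Finset.mul_sum]
  congr 1
  refine Finset.sum_congr rfl fun a ha => ?_
  have hxa : x ∉ a := fun h => hx (Finset.mem_powerset.mp ha h)
  rw [Finset.card_insert_of_notMem hxa, wal_insert_left hxa]
  by_cases h : a.card + 1 ≤ D
  · rw [if_pos h, if_pos h]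
    ring
  · rw [if_neg h, if_neg h, mul_zero]

lemma P_ins {s : Finset ℕ} {x : ℕ} (hx : x ∉ s) (D : ℕ) (c : Finset ℕ → ℂ) (A : Finset ℕ) :
    P s D c (insert x A) = P s D c A := by
  unfold P
  refine Finset.sum_congr rfl fun a ha => ?_
  have hxa : x ∉ a := fun h => hx (Finset.mem_powerset.mp ha h)
  rw [wal_insert_right hxa]

lemma Hp_ins {s : Finset ℕ} {x : ℕ} (hx : x ∉ s) (D : ℕ) (c : Finset ℕ → ℂ) (A : Finset ℕ) :
    Hp s x D c (insert x A) = Hp s x D c A := by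
  unfold Hp
  refine Finset.sum_congr rfl fun a ha => ?_
  have hxa : x ∉ a := fun h => hx (Finset.mem_powerset.mp ha h)
  rw [wal_insert_right hxa]

lemma fourth (g h : ℂ) : ‖g + h‖ ^ 4 + ‖g + -1 * h‖ ^ 4 ≤
    2 * (‖g‖ ^ 4 + 6 * (‖g‖ ^ 2 * ‖h‖ ^ 2) + ‖h‖ ^ 4) := by
  have e1 : ‖g + h‖ ^ 2 = ‖g‖ ^ 2 + ‖h‖ ^ 2 + 2 * (g.re * h.re + g.im * h.im) := by
    rw [← Complex.normSq_eq_norm_sq, ← Complex.normSq_eq_norm_sq, ← Complex.normSq_eq_norm_sq,
      Complex.normSq_apply, Complex.normSq_apply, Complex.normSq_apply, Complex.add_re,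
      Complex.add_im]
    ring
  have e2 : ‖g + -1 * h‖ ^ 2 = ‖g‖ ^ 2 + ‖h‖ ^ 2 - 2 * (g.re * h.re + g.im * h.im) := by
    rw [← Complex.normSq_eq_norm_sq, ← Complex.normSq_eq_norm_sq, ← Complex.normSq_eq_norm_sq,
      Complex.normSq_apply, Complex.normSq_apply, Complex.normSq_apply]
    simp only [Complex.add_re, Complex.add_im, neg_mul, one_mul, Complex.neg_re, Complex.neg_im]
    ring
  have e3 : (g.re * h.re + g.im * h.im) ^ 2 ≤ ‖g‖ ^ 2 * ‖h‖ ^ 2 := by
    rw [← Complex.normSq_eq_norm_sq, ← Complex.normSq_eq_norm_sq, Complex.normSq_apply,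
      Complex.normSq_apply]
    nlinarith [sq_nonneg (g.re * h.im - g.im * h.re)]
  have e4 : ‖g + h‖ ^ 4 = (‖g + h‖ ^ 2) ^ 2 := by ring
  have e5 : ‖g + -1 * h‖ ^ 4 = (‖g + -1 * h‖ ^ 2) ^ 2 := by ring
  rw [e4, e5, e1, e2]
  nlinarith

lemma second (g h : ℂ) : ‖g + h‖ ^ 2 + ‖g + -1 * h‖ ^ 2 = 2 * (‖g‖ ^ 2 + ‖h‖ ^ 2) := by
  rw [← Complex.normSq_eq_norm_sq, ← Complex.normSq_eq_norm_sq, ← Complex.normSq_eq_norm_sq,
    ← Complex.normSq_eq_norm_sq, Complex.normSq_apply, Complex.normSq_apply, Complex.normSq_apply,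
    Complex.normSq_apply]
  simp only [Complex.add_re, Complex.add_im, neg_mul, one_mul, Complex.neg_re, Complex.neg_im]
  ring

lemma main (s : Finset ℕ) : ∀ (D : ℕ) (c : Finset ℕ → ℂ),
    (∑ A ∈ s.powerset, ‖P s D c A‖ ^ 4) * 2 ^ s.card ≤
      9 ^ D * (∑ A ∈ s.powerset, ‖P s D c A‖ ^ 2) ^ 2 := by
  induction s using Finset.induction_on with
  | empty =>
    intro D c
    simp only [Finset.powerset_empty, Finset.sum_singleton, Finset.card_empty, pow_zero, mul_one]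
    have h1 : (1:ℝ) ≤ 9 ^ D := one_le_pow₀ (by norm_num)
    have h2 : 0 ≤ ‖P ∅ D c ∅‖ ^ 4 := by positivity
    calc ‖P ∅ D c ∅‖ ^ 4 = 1 * ‖P ∅ D c ∅‖ ^ 4 := by ring
      _ ≤ 9 ^ D * ‖P ∅ D c ∅‖ ^ 4 := mul_le_mul_of_nonneg_right h1 h2
      _ = 9 ^ D * (‖P ∅ D c ∅‖ ^ 2) ^ 2 := by ring
  | insert x s hx ih =>
    intro D c
    set g : Finset ℕ → ℂ := fun A => P s D c A with hg
    set h : Finset ℕ → ℂ := fun A => Hp s x D c A with hh
    have hval0 : ∀ A ∈ s.powerset, P (insert x s) D c A = g A + -1 * h A := by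
      intro A hA
      have hxA : x ∉ A := fun hm => hx (Finset.mem_powerset.mp hA hm)
      rw [P_insert hx, if_neg hxA]
    have hval1 : ∀ A ∈ s.powerset, P (insert x s) D c (insert x A) = g A + h A := by
      intro A _
      rw [P_insert hx, if_pos (Finset.mem_insert_self x A), P_ins hx, Hp_ins hx, one_mul]
    have s4 : ∑ A ∈ (insert x s).powerset, ‖P (insert x s) D c A‖ ^ 4 ≤
        2 * ((∑ A ∈ s.powerset, ‖g A‖ ^ 4) + 6 * (∑ A ∈ s.powerset, ‖g A‖ ^ 2 * ‖h A‖ ^ 2) +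
          ∑ A ∈ s.powerset, ‖h A‖ ^ 4) := by
      rw [Finset.sum_powerset_insert hx, ← Finset.sum_add_distrib, Finset.mul_sum,
        ← Finset.sum_add_distrib, ← Finset.sum_add_distrib, Finset.mul_sum]
      refine Finset.sum_le_sum fun A hA => ?_
      rw [hval0 A hA, hval1 A hA, add_comm (‖g A + -1 * h A‖ ^ 4)]
      exact fourth (g A) (h A)
    have s2 : ∑ A ∈ (insert x s).powerset, ‖P (insert x s) D c A‖ ^ 2 =
        2 * ((∑ A ∈ s.powerset, ‖g A‖ ^ 2) + ∑ A ∈ s.powerset, ‖h A‖ ^ 2) := by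
      rw [Finset.sum_powerset_insert hx, ← Finset.sum_add_distrib,
        ← Finset.sum_add_distrib, Finset.mul_sum]
      refine Finset.sum_congr rfl fun A hA => ?_
      rw [hval0 A hA, hval1 A hA, add_comm (‖g A + -1 * h A‖ ^ 2)]
      exact second (g A) (h A)
    set G4 := ∑ A ∈ s.powerset, ‖g A‖ ^ 4 with hG4
    set H4 := ∑ A ∈ s.powerset, ‖h A‖ ^ 4 with hH4
    set G2 := ∑ A ∈ s.powerset, ‖g A‖ ^ 2 with hG2
    set H2 := ∑ A ∈ s.powerset, ‖h A‖ ^ 2 with hH2
    set M := ∑ A ∈ s.powerset, ‖g A‖ ^ 2 * ‖h A‖ ^ 2 with hM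
    have hG2n : 0 ≤ G2 := Finset.sum_nonneg fun _ _ => by positivity
    have hH2n : 0 ≤ H2 := Finset.sum_nonneg fun _ _ => by positivity
    have hG4n : 0 ≤ G4 := Finset.sum_nonneg fun _ _ => by positivity
    have hH4n : 0 ≤ H4 := Finset.sum_nonneg fun _ _ => by positivity
    have hMn : 0 ≤ M := Finset.sum_nonneg fun _ _ => by positivity
    have hcs : M ^ 2 ≤ G4 * H4 := by
      have := Finset.sum_mul_sq_le_sq_mul_sq s.powerset (fun A => ‖g A‖ ^ 2)
        (fun A => ‖h A‖ ^ 2)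
      refine this.trans (le_of_eq ?_)
      rw [hG4, hH4]
      congr 1
      · exact Finset.sum_congr rfl fun A _ => by ring
      · exact Finset.sum_congr rfl fun A _ => by ring
    have ig : G4 * 2 ^ s.card ≤ 9 ^ D * G2 ^ 2 := ih D c
    have hN : (0:ℝ) < 2 ^ s.card := by positivity
    rw [s2, Finset.card_insert_of_notMem hx, pow_succ]
    rcases Nat.eq_zero_or_pos D with hD | hD
    · -- degree zero
      have hz : ∀ A, h A = 0 := by
        intro A
        show Hp s x D c A = 0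
        unfold Hp
        refine Finset.sum_eq_zero fun a _ => ?_
        rw [if_neg (by omega)]
      have hM0 : M = 0 := by
        rw [hM]
        refine Finset.sum_eq_zero fun A _ => ?_
        rw [hz A]
        simp
      have hH40 : H4 = 0 := by
        rw [hH4]
        refine Finset.sum_eq_zero fun A _ => ?_
        rw [hz A]
        simp
      have hH20 : H2 = 0 := by
        rw [hH2]
        refine Finset.sum_eq_zero fun A _ => ?_
        rw [hz A]
        simp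
      rw [hM0, hH40] at s4
      rw [hH20]
      have h9 : (0:ℝ) < 9 ^ D := by positivity
      calc (∑ A ∈ (insert x s).powerset, ‖P (insert x s) D c A‖ ^ 4) * (2 ^ s.card * 2)
          ≤ (2 * (G4 + 6 * 0 + 0)) * (2 ^ s.card * 2) :=
            mul_le_mul_of_nonneg_right s4 (by positivity)
        _ = 4 * (G4 * 2 ^ s.card) := by ring
        _ ≤ 4 * (9 ^ D * G2 ^ 2) := by linarith
        _ = 9 ^ D * (2 * (G2 + 0)) ^ 2 := by ring
    · obtain ⟨D', rfl⟩ : ∃ D', D = D' + 1 := ⟨D - 1, by omega⟩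
      have hHP : ∀ A, h A = P s D' (fun a => c (insert x a)) A := by
        intro A
        show Hp s x (D' + 1) c A = _
        unfold Hp P
        refine Finset.sum_congr rfl fun a _ => ?_
        by_cases hc : a.card ≤ D'
        · rw [if_pos (by omega), if_pos hc]
        · rw [if_neg (by omega), if_neg hc]
      have ihh : H4 * 2 ^ s.card ≤ 9 ^ D' * H2 ^ 2 := by
        have h1 := ih D' (fun a => c (insert x a))
        have e1 : H4 = ∑ A ∈ s.powerset, ‖P s D' (fun a => c (insert x a)) A‖ ^ 4 :=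
          Finset.sum_congr rfl fun A _ => by rw [hHP A]
        have e2 : H2 = ∑ A ∈ s.powerset, ‖P s D' (fun a => c (insert x a)) A‖ ^ 2 :=
          Finset.sum_congr rfl fun A _ => by rw [hHP A]
        rw [e1, e2]
        exact h1
      have h9 : (9:ℝ) ^ (D' + 1) = 9 * 9 ^ D' := by ring
      have h9p : (0:ℝ) < 9 ^ D' := by positivity
      rw [h9] at ig
      set q : ℝ := 9 ^ D' with hq
      set N : ℝ := 2 ^ s.card with hNd
      have hMq : M * N ≤ 3 * q * (G2 * H2) := by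
        have h1 : (M * N) ^ 2 ≤ (3 * q * (G2 * H2)) ^ 2 := by
          calc (M * N) ^ 2 = M ^ 2 * N ^ 2 := by ring
            _ ≤ (G4 * H4) * N ^ 2 := mul_le_mul_of_nonneg_right hcs (by positivity)
            _ = (G4 * N) * (H4 * N) := by ring
            _ ≤ (9 * q * G2 ^ 2) * (q * H2 ^ 2) :=
              mul_le_mul ig ihh (by positivity) (by positivity)
            _ = (3 * q * (G2 * H2)) ^ 2 := by ring
        exact le_of_sq_le_sq h1 (by positivity)
      rw [h9]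
      calc (∑ A ∈ (insert x s).powerset, ‖P (insert x s) (D' + 1) c A‖ ^ 4) * (N * 2)
          ≤ (2 * (G4 + 6 * M + H4)) * (N * 2) :=
            mul_le_mul_of_nonneg_right s4 (by positivity)
        _ = 4 * (G4 * N) + 24 * (M * N) + 4 * (H4 * N) := by ring
        _ ≤ 4 * (9 * q * G2 ^ 2) + 24 * (3 * q * (G2 * H2)) + 4 * (q * H2 ^ 2) := by linarith
        _ ≤ 9 * q * (2 * (G2 + H2)) ^ 2 := by nlinarith [mul_nonneg h9p.le (sq_nonneg H2)]

end BonamiAux

/-- Bonami's lemma. (For real `f` this is `Pool.Agent.H595R2.PTF.bonami_cube` of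
`Pool/Agent/H595R2/PTF/Bonami.lean`, on the cube `ι → ℤˣ`, or `bonami` of
`Pool/Agent/H562R2/Walsh.lean`; for complex `f = a + i b`:
`E|f|⁴ = E a⁴ + 2 E a² b² + E b⁴ ≤ (√(E a⁴) + √(E b⁴))²`.) -/
theorem bonami {n D : ℕ} {f : Finset ℕ → ℂ} (hf : Deg n D f) :
    Ex n (fun A => ‖f A‖ ^ 4) ≤ 9 ^ D * (Ex n (fun A => ‖f A‖ ^ 2)) ^ 2 := by
  obtain ⟨c, hc⟩ := hf
  have hP : ∀ A ∈ (Cl n).powerset, f A = BonamiAux.P (Cl n) D c A := by
    intro A hA
    rw [hc A hA, Finset.sum_filter]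
    rfl
  have hcard : (Cl n).card = n / 2 := by
    unfold Cl
    rw [Nat.card_Icc]
    omega
  have e4 : ∑ A ∈ (Cl n).powerset, ‖f A‖ ^ 4 =
      ∑ A ∈ (Cl n).powerset, ‖BonamiAux.P (Cl n) D c A‖ ^ 4 :=
    Finset.sum_congr rfl fun A hA => by rw [hP A hA]
  have e2 : ∑ A ∈ (Cl n).powerset, ‖f A‖ ^ 2 =
      ∑ A ∈ (Cl n).powerset, ‖BonamiAux.P (Cl n) D c A‖ ^ 2 :=
    Finset.sum_congr rfl fun A hA => by rw [hP A hA]
  have hm := BonamiAux.main (Cl n) D c
  rw [hcard] at hm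
  unfold Ex
  rw [e4, e2]
  have hN : (0:ℝ) < 2 ^ (n / 2) := by positivity
  rw [div_pow, mul_div_assoc', div_le_div_iff₀ hN (by positivity)]
  calc (∑ A ∈ (Cl n).powerset, ‖BonamiAux.P (Cl n) D c A‖ ^ 4) * (2 ^ (n / 2)) ^ 2
      = ((∑ A ∈ (Cl n).powerset, ‖BonamiAux.P (Cl n) D c A‖ ^ 4) * 2 ^ (n / 2)) *
        2 ^ (n / 2) := by ring
    _ ≤ _ := mul_le_mul_of_nonneg_right hm hN.le

end Pool.Agent.H276R2.Th
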