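import Pool.Agent.H276R2.Th.Lib3

/-!
# Library 4: structural facts on the chaoses `F` (task LIB4: replace the sorries)
-/

set_option autoImplicit false

namespace Pool.Agent.H276R2.Th

open Finset

/-- `lv` as a homomorphism. -/
def lvH {n : ℕ} (t : Tree) (e : t.E) : (t.V → ZMod n) →+ ZMod n where
  toFun l := lv t l e
  map_zero' := by simp [lv]
  map_add' := by intro a b; simp [lv, mul_add, Finset.sum_add_distrib]

/-- `bl` as a homomorphism. -/
def blH {n : ℕ} {I : Type} (B : I → Tree) (p : BE B) : BLab n B →+ ZMod n where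
  toFun l := bl B l p
  map_zero' := by simp [bl, lv]
  map_add' := by intro a b; simp [bl, lv, mul_add, Finset.sum_add_distrib]

/-- `kb` as a homomorphism. -/
def kbH {n : ℕ} {I : Type} [Fintype I] (B : I → Tree) : BLab n B →+ ZMod n where
  toFun l := kb B l
  map_zero' := by simp [kb, lv]
  map_add' := by intro a b; simp [kb, lv, mul_add, Finset.sum_add_distrib]

@[simp] theorem lvH_apply {n : ℕ} (t : Tree) (e : t.E) (l : t.V → ZMod n) :
    lvH t e l = lv t l e := rfl

@[simp] theorem blH_apply {n : ℕ} {I : Type} (B : I → Tree) (p : BE B) (l : BLab n B) :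
    blH B p l = bl B l p := rfl

@[simp] theorem kbH_apply {n : ℕ} {I : Type} [Fintype I] (B : I → Tree) (l : BLab n B) :
    kbH B l = kb B l := rfl

theorem Gen_iff {n : ℕ} {I : Type} (B : I → Tree) (l : BLab n B) : Gen B l ↔ GenL (bl B l) :=
  Iff.rfl

theorem lv_leaf {n : ℕ} (t : Tree) (l : t.V → ZMod n) (v : t.V) : lv t l (t.leaf v) = l v := by
  rw [lv, Finset.sum_eq_single v]
  · rw [t.form_leaf]
    simp
  · intro w _ hw
    rw [t.form_leaf]
    simp [hw]
  · simp

theorem lv_root {n : ℕ} (t : Tree) (l : t.V → ZMod n) : lv t l t.root = ∑ v, l v := by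
  simp [lv, t.form_root]

/-- The labels determine the labelling. -/
theorem lv_inj {n : ℕ} (t : Tree) (l : t.V → ZMod n) (h : ∀ e, lv t l e = 0) : l = 0 := by
  funext v
  have := h (t.leaf v)
  rwa [lv_leaf] at this

theorem bl_inj {n : ℕ} {I : Type} (B : I → Tree) (l : BLab n B) (h : ∀ p, bl B l p = 0) :
    l = 0 := by
  funext i
  exact lv_inj (B i) (l i) (fun e => h ⟨i, e⟩)

theorem lv_single {n : ℕ} (t : Tree) (v : t.V) (z : ZMod n) (e : t.E) :
    lv t (Pi.single v z) e = ((t.form e v : ℤ) : ZMod n) * z := by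
  rw [lv, Finset.sum_eq_single v]
  · simp
  · intro w _ hw
    simp [Pi.single_eq_of_ne hw]
  · simp

/-- Number of labellings. -/
theorem card_BLab (n : ℕ) [NeZero n] {I : Type} [Fintype I] [DecidableEq I] (B : I → Tree) :
    Nat.card (BLab n B) = n ^ nb B := by
  rw [Nat.card_eq_fintype_card, Fintype.card_pi]
  simp only [Fintype.card_fun, ZMod.card]
  rw [Finset.prod_pow_eq_pow_sum]
  rfl

/-- Composition with an equivalence of the labels. -/
theorem GenL_comp {n : ℕ} {M M' : Type} (e : M ≃ M') (v : M' → ZMod n) :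
    GenL (fun p => v (e p)) ↔ GenL v := by
  constructor
  · rintro ⟨h1, h2⟩
    refine ⟨fun p => ?_, fun p q hpq => ?_⟩
    · have := h1 (e.symm p)
      simpa using this
    · have := h2 (e.symm p) (e.symm q) (fun h => hpq (e.symm.injective h))
      simpa using this
  · rintro ⟨h1, h2⟩
    exact ⟨fun p => h1 (e p), fun p q hpq => h2 (e p) (e q) (fun h => hpq (e.injective h))⟩

theorem GenL_neg {n : ℕ} {M : Type} (v : M → ZMod n) : GenL (fun p => -v p) ↔ GenL v := by
  have key : ∀ w : M → ZMod n, GenL w → GenL (fun p => -w p) := by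
    rintro w ⟨h1, h2⟩
    refine ⟨fun p => neg_ne_zero.2 (h1 p), fun p q hpq => ⟨?_, ?_⟩⟩
    · intro h
      exact (h2 p q hpq).1 (neg_injective h)
    · intro h
      rw [neg_neg] at h
      exact (h2 p q hpq).2 (by rw [← h, neg_neg])
  constructor
  · intro h
    have := key _ h
    simpa using this
  · exact key v

theorem bl_neg {n : ℕ} {I : Type} (B : I → Tree) (l : BLab n B) (p : BE B) :
    bl B (-l) p = -bl B l p := map_neg (blH B p) l

theorem kb_neg {n : ℕ} {I : Type} [Fintype I] (B : I → Tree) (l : BLab n B) :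
    kb B (-l) = -kb B l := map_neg (kbH B) l

theorem Gen_neg {n : ℕ} {I : Type} (B : I → Tree) (l : BLab n B) : Gen B (-l) ↔ Gen B l := by
  rw [Gen_iff, Gen_iff, ← GenL_neg (bl B l)]
  have : bl B (-l) = fun p => -bl B l p := funext (bl_neg B l)
  rw [this]

open Classical in
/-- The chaos of a single tree. -/
theorem F_unit (n : ℕ) [NeZero n] (t : Tree) (A : Finset ℕ) (x : ZMod n) :
    F n (fun _ : Unit => t) A x = (∑ l : t.V → ZMod n, if GenL (lv t l) then
      ((∏ e, sg A (lv t l e) : ℝ) : ℂ) * ch n (lv t l t.root * x) else 0) /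
        (Real.sqrt n : ℂ) ^ Fintype.card t.V := by
  have hnb : nb (fun _ : Unit => t) = Fintype.card t.V := by
    show ∑ _i : Unit, Fintype.card t.V = Fintype.card t.V
    simp
  rw [F, hnb]
  congr 1
  symm
  refine Finset.sum_equiv (Equiv.funUnique Unit (t.V → ZMod n)).symm
    (fun l => iff_of_true (@Finset.mem_univ _ (_) _) (@Finset.mem_univ _ (_) _)) (fun l _ => ?_)
  have h1 : GenL (lv t l) ↔
      Gen (fun _ : Unit => t) ((Equiv.funUnique Unit (t.V → ZMod n)).symm l) :=
    (GenL_comp (Equiv.uniqueSigma (fun _ : Unit => t.E)) (lv t l)).symm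
  have h2 : ∏ p, sg A (bl (fun _ : Unit => t)
      ((Equiv.funUnique Unit (t.V → ZMod n)).symm l) p) = ∏ e, sg A (lv t l e) :=
    Fintype.prod_equiv (Equiv.uniqueSigma (fun _ : Unit => t.E)) _ _ (fun p => rfl)
  have h3 : kb (fun _ : Unit => t) ((Equiv.funUnique Unit (t.V → ZMod n)).symm l) =
      lv t l t.root := by
    simp [kb, Equiv.funUnique]
  rw [h2, h3]
  by_cases h : GenL (lv t l)
  · rw [if_pos h, if_pos (h1.1 h)]
  · rw [if_neg h, if_neg (fun h' => h (h1.2 h'))]

/-- The chaos of the leaf. -/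
theorem F_leaf (n : ℕ) [NeZero n] (A : Finset ℕ) (x : ZMod n) :
    F n (fun _ : Unit => leafTree) A x =
      (∑ l : ZMod n, if l = 0 then 0 else (sg A l : ℂ) * ch n (l * x)) / (Real.sqrt n : ℂ) := by
  classical
  rw [F_unit]
  have hc : Fintype.card leafTree.V = 1 := Fintype.card_unit
  rw [hc, pow_one]
  congr 1
  symm
  refine Fintype.sum_equiv (Equiv.funUnique Unit (ZMod n)).symm _ _ (fun l => ?_)
  set l' : leafTree.V → ZMod n := (Equiv.funUnique Unit (ZMod n)).symm l with hl'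
  have h0 : ∀ e, lv leafTree l' e = l := by
    intro e
    show ∑ v : Unit, (((1 : ℤ) : ℤ) : ZMod n) * l = l
    simp
  have h1 : GenL (lv leafTree l') ↔ l ≠ 0 := by
    constructor
    · rintro ⟨h, -⟩
      have := h ()
      rwa [h0] at this
    · intro h
      exact ⟨fun p => by rw [h0]; exact h, fun p q hpq => absurd rfl hpq⟩
  have h2 : ∏ e, sg A (lv leafTree l' e) = sg A l := by
    simp_rw [h0]
    exact Fintype.prod_unique (fun _ : Unit => sg A l)
  rw [h2, h0]
  by_cases h : l = 0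
  · rw [if_pos h, if_neg (fun h' => (h1.1 h') h)]
  · rw [if_neg h, if_pos (h1.2 h)]

theorem F_reindex (n : ℕ) [NeZero n] {I I' : Type} [Fintype I] [Fintype I'] (e : I ≃ I')
    (B : I' → Tree) (A : Finset ℕ) (x : ZMod n) :
    F n (fun i => B (e i)) A x = F n B A x := by
  classical
  have hnb : nb (fun i => B (e i)) = nb B := Equiv.sum_comp e (fun i => Fintype.card (B i).V)
  rw [F, F, hnb]
  congr 1
  symm
  refine Fintype.sum_equiv (Equiv.piCongrLeft (fun i' => (B i').V → ZMod n) e).symm _ _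
    (fun l => ?_)
  have hl : (Equiv.piCongrLeft (fun i' => (B i').V → ZMod n) e).symm l = fun i => l (e i) := rfl
  rw [hl]
  have h1 : Gen (fun i => B (e i)) (fun i => l (e i)) ↔ Gen B l :=
    GenL_comp (Equiv.sigmaCongrLeft (β := fun i' => (B i').E) e) (bl B l)
  have h2 : ∏ p, sg A (bl (fun i => B (e i)) (fun i => l (e i)) p) = ∏ p, sg A (bl B l p) :=
    Fintype.prod_equiv (Equiv.sigmaCongrLeft (β := fun i' => (B i').E) e) _ _ (fun p => rfl)
  have h3 : kb (fun i => B (e i)) (fun i => l (e i)) = kb B l :=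
    Equiv.sum_comp e (fun i => lv (B i) (l i) (B i).root)
  rw [h2, h3]
  by_cases h : Gen B l
  · rw [if_pos h, if_pos (h1.2 h)]
  · rw [if_neg h, if_neg (fun h' => h (h1.1 h'))]

theorem F_empty (n : ℕ) [NeZero n] {I : Type} [Fintype I] [IsEmpty I] (B : I → Tree)
    (A : Finset ℕ) (x : ZMod n) : F n B A x = 1 := by
  classical
  have hE : IsEmpty (BE B) := inferInstance
  have h1 : ∀ l : BLab n B, Gen B l := fun l => ⟨fun p => hE.elim p, fun p => hE.elim p⟩
  have h2 : ∀ l : BLab n B, kb B l = 0 := fun l => by simp [kb]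
  have h3 : nb B = 0 := by simp [nb]
  rw [F, h3, pow_zero, div_one]
  simp_rw [if_pos (h1 _), h2, zero_mul, ch_zero]
  simp

/-- `l ↦ -l`. -/
theorem F_conj (n : ℕ) [NeZero n] {I : Type} [Fintype I] (B : I → Tree) (A : Finset ℕ)
    (x : ZMod n) : (starRingEnd ℂ) (F n B A x) = F n B A x := by
  classical
  rw [F, map_div₀, map_pow, Complex.conj_ofReal, map_sum]
  congr 1
  refine Fintype.sum_equiv (Equiv.neg (BLab n B)) _ _ (fun l => ?_)
  rw [Equiv.neg_apply]
  have h2 : ∏ p, sg A (bl B (-l) p) = ∏ p, sg A (bl B l p) :=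
    Finset.prod_congr rfl (fun p _ => by rw [bl_neg, sg_neg])
  rw [h2, kb_neg]
  by_cases h : Gen B l
  · rw [if_pos h, if_pos ((Gen_neg B l).2 h), map_mul, Complex.conj_ofReal, ← ch_neg, neg_mul]
  · rw [if_neg h, if_neg (fun h' => h ((Gen_neg B l).1 h')), map_zero]

theorem F_even (n : ℕ) [NeZero n] {I : Type} [Fintype I] (B : I → Tree) (A : Finset ℕ)
    (x : ZMod n) : F n B A (-x) = F n B A x := by
  classical
  rw [F, F]
  congr 1
  refine Fintype.sum_equiv (Equiv.neg (BLab n B)) _ _ (fun l => ?_)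
  rw [Equiv.neg_apply]
  have h2 : ∏ p, sg A (bl B (-l) p) = ∏ p, sg A (bl B l p) :=
    Finset.prod_congr rfl (fun p _ => by rw [bl_neg, sg_neg])
  rw [h2, kb_neg]
  by_cases h : Gen B l
  · rw [if_pos h, if_pos ((Gen_neg B l).2 h), neg_mul, mul_neg]
  · rw [if_neg h, if_neg (fun h' => h ((Gen_neg B l).1 h'))]

theorem DB_F {I : Type} [Fintype I] (B : I → Tree) : DB (fun n _ A x => F n B A x) := by
  classical
  refine ⟨(Finset.univ : Finset (BE B)).card, fun n _ x => ?_⟩
  have h1 : ∀ l : BLab n B, Deg n (Finset.univ : Finset (BE B)).card (fun A =>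
      if Gen B l then ((∏ p, sg A (bl B l p) : ℝ) : ℂ) * ch n (kb B l * x) else 0) := by
    intro l
    by_cases h : Gen B l
    · simp only [if_pos h]
      have h2 := Deg_smul (ch n (kb B l * x)) (Deg_prod (Finset.univ : Finset (BE B))
        (f := fun p A => (sg A (bl B l p) : ℂ)) (fun p _ => Deg_sg n (bl B l p)))
      refine Deg_congr (fun A _ => ?_) h2
      push_cast
      ring
    · simp only [if_neg h]
      exact Deg_const n _ 0
  have h3 := Deg_smul (((Real.sqrt n : ℂ) ^ nb B)⁻¹) (Deg_sum Finset.univ (fun l _ => h1 l))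
  refine Deg_congr (fun A _ => ?_) h3
  show _ = F n B A x
  rw [F, div_eq_inv_mul]

/-- The mean of a product of signs with distinct classes. -/
theorem ExC_prod_sg (n : ℕ) [NeZero n] {M : Type} [Fintype M] [Nonempty M] (v : M → ZMod n)
    (hv : GenL v) : ExC n (fun A => ((∏ p, sg A (v p) : ℝ) : ℂ)) = 0 := by
  classical
  have hinj : Function.Injective (fun p => cls n (v p)) := by
    intro p q hpq
    by_contra hne
    rcases (cls_eq_iff n (v p) (v q)).1 hpq with h | h
    · exact (hv.2 p q hne).1 h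
    · exact (hv.2 p q hne).2 h
  set a : Finset ℕ := Finset.univ.image (fun p => cls n (v p)) with ha
  have h1 : ∀ A, ((∏ p, sg A (v p) : ℝ) : ℂ) = wal a A := by
    intro A
    rw [wal, ha, Finset.prod_image (fun p _ q _ h => hinj h)]
    push_cast
    refine Finset.prod_congr rfl (fun p _ => ?_)
    rw [sg_eq_wal A (v p) (hv.1 p), wal, Finset.prod_singleton]
  have h2 : a ⊆ Cl n := by
    intro j hj
    obtain ⟨p, -, rfl⟩ := Finset.mem_image.1 hj
    exact cls_mem n (v p) (hv.1 p)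
  have h3 : a ≠ ∅ := by
    obtain ⟨p⟩ := ‹Nonempty M›
    exact Finset.ne_empty_of_mem (Finset.mem_image_of_mem _ (Finset.mem_univ p))
  have h4 : (fun A => ((∏ p, sg A (v p) : ℝ) : ℂ)) = wal a := funext h1
  rw [h4, ExC_wal n a h2, if_neg h3]

/-- The labels are distinct nonzero, so the mean of the product of the signs is `0`. -/
theorem ExC_F (n : ℕ) [NeZero n] {I : Type} [Fintype I] [Nonempty I] (B : I → Tree) (x : ZMod n) :
    ExC n (fun A => F n B A x) = 0 := by
  classical
  have : Nonempty (BE B) := by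
    obtain ⟨i⟩ := ‹Nonempty I›
    exact ⟨⟨i, (B i).root⟩⟩
  have h0 : ∀ A, F n B A x = (((Real.sqrt n : ℂ) ^ nb B)⁻¹) * ∑ l : BLab n B, if Gen B l then
      ((∏ p, sg A (bl B l p) : ℝ) : ℂ) * ch n (kb B l * x) else 0 := by
    intro A
    rw [F, div_eq_inv_mul]
  have h1 : (fun A => F n B A x) = fun A => (((Real.sqrt n : ℂ) ^ nb B)⁻¹) *
      ∑ l : BLab n B, if Gen B l then
      ((∏ p, sg A (bl B l p) : ℝ) : ℂ) * ch n (kb B l * x) else 0 := funext h0
  rw [h1, ExC_mul, ExC_sum, Finset.sum_eq_zero, mul_zero]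
  intro l _
  by_cases h : Gen B l
  · simp only [if_pos h]
    have h2 : (fun A => ((∏ p, sg A (bl B l p) : ℝ) : ℂ) * ch n (kb B l * x)) =
        fun A => ch n (kb B l * x) * ((∏ p, sg A (bl B l p) : ℝ) : ℂ) :=
      funext (fun A => mul_comm _ _)
    rw [h2, ExC_mul, ExC_prod_sg n (bl B l) h, mul_zero]
  · simp only [if_neg h]
    exact ExC_const n 0

open Classical in
/-- The chaos of `optB t B` as a sum over pairs of labellings. -/
theorem F_optB (n : ℕ) [NeZero n] (t : Tree) {I : Type} [Fintype I] (B : I → Tree) (A : Finset ℕ)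
    (x : ZMod n) : F n (optB t B) A x = (∑ l : PL t B n,
      if GenL (lv t l.1) ∧ Gen B l.2 ∧ (∀ e p, lv t l.1 e ≠ bl B l.2 p ∧ lv t l.1 e ≠ -bl B l.2 p)
      then (((∏ e, sg A (lv t l.1 e)) * ∏ p, sg A (bl B l.2 p) : ℝ) : ℂ) *
        ch n ((lv t l.1 t.root + kb B l.2) * x) else 0) /
          (Real.sqrt n : ℂ) ^ (Fintype.card t.V + nb B) := by
  have hnb : nb (optB t B) = Fintype.card t.V + nb B := by
    exact Fintype.sum_option (fun o => Fintype.card (optB t B o).V)
  rw [F, hnb]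
  congr 1
  refine Finset.sum_equiv (Equiv.piOptionEquivProd (β := fun o => (optB t B o).V → ZMod n))
    (fun l => iff_of_true (@Finset.mem_univ _ (_) _) (@Finset.mem_univ _ (_) _)) (fun l _ => ?_)
  set l1 : t.V → ZMod n := l none with hl1
  set l2 : BLab n B := fun i => l (some i) with hl2
  have h1 : Gen (optB t B) l ↔ (GenL (lv t l1) ∧ Gen B l2 ∧
      (∀ e p, lv t l1 e ≠ bl B l2 p ∧ lv t l1 e ≠ -bl B l2 p)) := by
    constructor
    · rintro ⟨g1, g2⟩
      refine ⟨⟨fun e => g1 ⟨none, e⟩, fun e e' he => ?_⟩,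
        ⟨fun p => g1 ⟨some p.1, p.2⟩, fun p q hpq => ?_⟩, fun e p => ?_⟩
      · refine g2 ⟨none, e⟩ ⟨none, e'⟩ (fun h => he ?_)
        exact eq_of_heq (Sigma.mk.inj h).2
      · refine g2 ⟨some p.1, p.2⟩ ⟨some q.1, q.2⟩ (fun h => hpq ?_)
        obtain ⟨h3, h4⟩ := Sigma.mk.inj h
        exact Sigma.ext (Option.some.inj h3) h4
      · refine g2 ⟨none, e⟩ ⟨some p.1, p.2⟩ (fun h => ?_)
        exact absurd (Sigma.mk.inj h).1 (by simp)
    · rintro ⟨⟨g1, g2⟩, ⟨g3, g4⟩, g5⟩
      refine ⟨?_, ?_⟩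
      · rintro ⟨_ | i, e⟩
        · exact g1 e
        · exact g3 ⟨i, e⟩
      · rintro ⟨_ | i, e⟩ ⟨_ | j, e'⟩ hne
        · exact g2 e e' (fun h => hne (by rw [h]))
        · exact g5 e ⟨j, e'⟩
        · have h5 := g5 e' ⟨i, e⟩
          refine ⟨fun h => h5.1 h.symm, fun h => h5.2 ?_⟩
          have h6 : bl B l2 ⟨i, e⟩ = -lv t l1 e' := h
          rw [h6, neg_neg]
        · refine g4 ⟨i, e⟩ ⟨j, e'⟩ (fun h => hne ?_)
          obtain ⟨h3, h4⟩ := Sigma.mk.inj h
          subst h3
          rw [eq_of_heq h4]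
  have h2 : ∏ p, sg A (bl (optB t B) l p) =
      (∏ e, sg A (lv t l1 e)) * ∏ p, sg A (bl B l2 p) := by
    rw [Fintype.prod_sigma, Fintype.prod_option, Fintype.prod_sigma]
    rfl
  have h3 : kb (optB t B) l = lv t l1 t.root + kb B l2 :=
    Fintype.sum_option (fun o => lv (optB t B o) (l o) (optB t B o).root)
  rw [h2, h3]
  by_cases h : Gen (optB t B) l
  · rw [if_pos h]
    exact (if_pos (h1.1 h)).symm
  · rw [if_neg h]
    exact (if_neg (fun h' => h (h1.2 h'))).symm

open Classical in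
/-- Fourier coefficients of a chaos. -/
theorem fc_F (n : ℕ) [NeZero n] {I : Type} [Fintype I] (B : I → Tree) (A : Finset ℕ) (k : ZMod n) :
    fc (F n B A) k = (∑ l : BLab n B, if Gen B l ∧ kb B l = k then
      ((∏ p, sg A (bl B l p) : ℝ) : ℂ) else 0) / (Real.sqrt n : ℂ) ^ nb B := by
  have h0 : F n B A = fun x => (((Real.sqrt n : ℂ) ^ nb B)⁻¹) * ∑ l : BLab n B,
      (if Gen B l then ((∏ p, sg A (bl B l p) : ℝ) : ℂ) else 0) * ch n (kb B l * x) := by
    funext x
    rw [F, div_eq_inv_mul]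
    congr 1
    refine Finset.sum_congr rfl (fun l _ => ?_)
    split_ifs
    · rfl
    · rw [zero_mul]
  rw [h0, fc_mul, fc_sum_ch', div_eq_inv_mul]
  congr 1
  refine Finset.sum_congr rfl (fun l _ => ?_)
  by_cases h1 : kb B l = k <;> by_cases h2 : Gen B l <;> simp [h1, h2]

end Pool.Agent.H276R2.Th
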