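import Pool.Agent.H276R2.Th.Spec

/-!
# Bad patterns are negligible (task P3)
-/

set_option autoImplicit false

namespace Pool.Agent.H276R2.Th

open Finset

section p3

variable {t : Tree} {I : Type} {B : I → Tree}

/-- the unmatched labels -/
abbrev p3_M (τ : Pat t B) : Type := {e : t.E // τ e = none} ⊕ {p : BE B // ¬ Mtc τ p}

/-- the unmatched labels as homomorphisms -/
def p3_h (n : ℕ) (τ : Pat t B) : p3_M τ → PL t B n →+ ZMod n :=
  Sum.elim (fun e => (lvH t e.1).comp (AddMonoidHom.fst _ _))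
    (fun p => (blH B p.1).comp (AddMonoidHom.snd _ _))

/-- the frequency as a homomorphism -/
def p3_k [Fintype I] (n : ℕ) : PL t B n →+ ZMod n :=
  (lvH t t.root).comp (AddMonoidHom.fst _ _) + (kbH B).comp (AddMonoidHom.snd _ _)

theorem p3_rel {τ : Pat t B} {n : ℕ} {l : PL t B n} (h : PatOK τ l) : RelP τ l := by
  intro e p b hb
  cases b
  · rw [(h.2.2 e p hb).1]; simp [sb]
  · rw [h.2.1 e p hb]; simp [sb]

theorem p3_rel_sub {τ : Pat t B} {n : ℕ} {l l' : PL t B n} (h : RelP τ l) (h' : RelP τ l') :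
    RelP τ (l - l') := by
  intro e p b hb
  have h1 := h e p b hb
  have h2 := h' e p b hb
  have e1 : lv t (l - l').1 e = lv t l.1 e - lv t l'.1 e := (lvH t e).map_sub l.1 l'.1
  have e2 : bl B (l - l').2 p = bl B l.2 p - bl B l'.2 p := (blH B p).map_sub l.2 l'.2
  rw [e1, e2, h1, h2, mul_sub]

theorem p3_genL {τ : Pat t B} {n : ℕ} {l : PL t B n} (h1 : GenL (lv t l.1)) (h2 : Gen B l.2)
    (h3 : PatOK τ l) : GenL (fun m => p3_h n τ m l) := by
  constructor
  · rintro (e | p)
    · exact h1.1 e.1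
    · exact h2.1 p.1
  · rintro (e | p) (e' | p') hne
    · exact h1.2 e.1 e'.1 (fun h => hne (congrArg Sum.inl (Subtype.ext h)))
    · exact h3.1 e.1 e.2 p'.1
    · have := h3.1 e'.1 e'.2 p.1
      refine ⟨fun h => this.1 h.symm, fun h => this.2 ?_⟩
      have h' : bl B l.2 p.1 = - lv t l.1 e'.1 := h
      rw [h', neg_neg]
    · exact h2.2 p.1 p'.1 (fun h => hne (congrArg Sum.inr (Subtype.ext h)))

open Classical in
theorem p3_prod [Fintype I] {τ : Pat t B} {n : ℕ} (l : PL t B n) (A : Finset ℕ) :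
    (∏ e, if τ e = none then sg A (lv t l.1 e) else 1) *
      (∏ p, if Mtc τ p then 1 else sg A (bl B l.2 p)) = ∏ m, sg A (p3_h n τ m l) := by
  rw [Fintype.prod_sum_type]
  congr 1
  · rw [← Finset.prod_filter]
    exact Finset.prod_subtype _ (by intro x; simp) _
  · have : ∀ p, (if Mtc τ p then 1 else sg A (bl B l.2 p)) =
        if ¬ Mtc τ p then sg A (bl B l.2 p) else 1 := by
      intro p
      by_cases h : Mtc τ p <;> simp [h]
    simp_rw [this]
    rw [← Finset.prod_filter]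
    exact Finset.prod_subtype _ (by intro x; simp) _

open Classical in
theorem p3_PT [Fintype I] (n : ℕ) [NeZero n] (τ : Pat t B) :
    ∃ D : Finset (PL t B n), (∀ l, l ∈ D ↔ GenL (lv t l.1) ∧ Gen B l.2 ∧ PatOK τ l) ∧
      ∀ (A : Finset ℕ) (x : ZMod n), PT n τ A x =
        (∑ l ∈ D, (1 : ℂ) * ((∏ m, sg A (p3_h n τ m l) : ℝ) : ℂ) * ch n (p3_k n l * x)) /
          (Real.sqrt n : ℂ) ^ (Fintype.card t.V + nb B) := by
  refine ⟨univ.filter (fun l => GenL (lv t l.1) ∧ Gen B l.2 ∧ PatOK τ l), by intro l; simp, ?_⟩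
  intro A x
  unfold PT
  rw [Finset.sum_filter]
  congr 1
  apply Finset.sum_congr rfl
  intro l _
  by_cases h : GenL (lv t l.1) ∧ Gen B l.2 ∧ PatOK τ l
  · rw [if_pos h, if_pos h, one_mul, ← p3_prod]
    rfl
  · rw [if_neg h, if_neg h]

end p3

open Classical in
theorem t_P3 (m2 : S_M2) (p2 : S_P2) : S_P3 := by
  intro t I _ _ B τ hτ hbad
  by_cases hinj : ∀ e e' p b b', τ e = some (p, b) → τ e' = some (p, b') → e = e'
  · have hp2 := p2 t I B τ hτ hinj hbad
    refine ⟨2 * ((Fintype.card (p3_M τ)).factorial * 2 ^ Fintype.card (p3_M τ)), ?_⟩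
    intro n _
    obtain ⟨D, hD, hPT⟩ := p3_PT n τ
    have hn : (0 : ℝ) < n := by exact_mod_cast Nat.pos_of_ne_zero (NeZero.ne n)
    have hN : (0 : ℝ) < (n : ℝ) ^ (Fintype.card t.V + nb B) := pow_pos hn _
    have hm := m2 n (p3_M τ) (PL t B n) (p3_h n τ) (p3_k n) (RelP τ) D (fun _ => 1)
      (fun l hl l' hl' => p3_rel_sub (p3_rel ((hD l).1 hl).2.2) (p3_rel ((hD l').1 hl').2.2))
      (fun _ _ => by simp)
      (fun l hl => p3_genL ((hD l).1 hl).1 ((hD l).1 hl).2.1 ((hD l).1 hl).2.2)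
    have hW : Nat.card {u : PL t B n // RelP τ u ∧ (∀ m, p3_h n τ m u = 0) ∧ p3_k n u = 0} =
        Nat.card {u : PL t B n // WP τ u} := by
      apply Nat.card_congr
      apply Equiv.subtypeEquivRight
      intro u
      constructor
      · rintro ⟨h1, h2, h3⟩
        exact ⟨h1, fun e he => h2 (Sum.inl ⟨e, he⟩), fun p hp => h2 (Sum.inr ⟨p, hp⟩), h3⟩
      · rintro ⟨h1, h2, h3, h4⟩
        refine ⟨h1, ?_, h4⟩
        rintro (e | p)
        · exact h2 e.1 e.2
        · exact h3 p.1 p.2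
    rw [hW] at hm
    have hDc : (D.card : ℝ) ≤ Nat.card {l : PL t B n // RelP τ l} := by
      have : D.card ≤ Nat.card {l : PL t B n // RelP τ l} := by
        have h1 := Nat.card_le_card_of_injective
          (fun l : {l // l ∈ D} => (⟨l.1, p3_rel ((hD l.1).1 l.2).2.2⟩ :
            {l : PL t B n // RelP τ l})) (by
            intro a b hab
            have hab' := congrArg Subtype.val hab
            exact Subtype.ext hab')
        rwa [Nat.card_eq_fintype_card, Fintype.card_coe] at h1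
      exact_mod_cast this
    have hcard : (Nat.card (PL t B n) : ℝ) = (n : ℝ) ^ (Fintype.card t.V + nb B) := by
      rw [Nat.card_prod, card_BLab, Nat.card_eq_fintype_card, Fintype.card_fun, ZMod.card,
        ← pow_add]
      push_cast
      rfl
    have hp := hp2 n
    rw [hcard] at hp
    have hnorm : ∀ (A : Finset ℕ) (x : ZMod n), ‖PT n τ A x‖ ^ 2 =
        ((n : ℝ) ^ (Fintype.card t.V + nb B))⁻¹ *
        ‖∑ l ∈ D, (1 : ℂ) * ((∏ m, sg A (p3_h n τ m l) : ℝ) : ℂ) * ch n (p3_k n l * x)‖ ^ 2 := by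
      intro A x
      rw [hPT, norm_div, div_pow, norm_pow, Complex.norm_real, Real.norm_eq_abs,
        abs_of_nonneg (Real.sqrt_nonneg _), ← pow_mul, mul_comm _ 2, pow_mul,
        Real.sq_sqrt hn.le, div_eq_mul_inv, mul_comm]
    simp_rw [hnorm, Ex_mul]
    rw [← Finset.mul_sum]
    have hK : (0 : ℝ) ≤ ((Fintype.card (p3_M τ)).factorial * 2 ^ Fintype.card (p3_M τ) : ℝ) := by
      positivity
    rw [inv_mul_le_iff₀ hN]
    refine hm.trans ?_
    have hWn : (0 : ℝ) ≤ Nat.card {u : PL t B n // WP τ u} := Nat.cast_nonneg _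
    calc (n : ℝ) * ((Fintype.card (p3_M τ)).factorial * 2 ^ Fintype.card (p3_M τ)) * D.card *
          Nat.card {u : PL t B n // WP τ u}
        ≤ (n : ℝ) * ((Fintype.card (p3_M τ)).factorial * 2 ^ Fintype.card (p3_M τ)) *
          Nat.card {l : PL t B n // RelP τ l} * Nat.card {u : PL t B n // WP τ u} := by
          apply mul_le_mul_of_nonneg_right _ hWn
          exact mul_le_mul_of_nonneg_left hDc (mul_nonneg hn.le hK)
      _ = ((Fintype.card (p3_M τ)).factorial * 2 ^ Fintype.card (p3_M τ)) *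
          ((Nat.card {l : PL t B n // RelP τ l} : ℝ) * Nat.card {u : PL t B n // WP τ u} * n) := by
          ring
      _ ≤ ((Fintype.card (p3_M τ)).factorial * 2 ^ Fintype.card (p3_M τ)) *
          (2 * (n : ℝ) ^ (Fintype.card t.V + nb B)) := mul_le_mul_of_nonneg_left hp hK
      _ = _ := by ring
  · push Not at hinj
    obtain ⟨e, e', p, b, b', h1, h2, hne⟩ := hinj
    apply O1_congr (f := fun _ _ _ _ => 0) _ O1_zero
    intro n _ A x _
    obtain ⟨D, hD, hPT⟩ := p3_PT n τ
    have hDe : D = ∅ := by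
      rw [Finset.eq_empty_iff_forall_notMem]
      intro l hl
      rw [hD] at hl
      obtain ⟨g1, -, g3⟩ := hl
      have r := p3_rel g3
      have r1 := r e p b h1
      have r2 := r e' p b' h2
      have g := g1.2 e e' hne
      cases b <;> cases b' <;> simp [sb] at r1 r2
      · exact g.1 (r1.trans r2.symm)
      · exact g.2 (by rw [r1, r2])
      · exact g.2 (by rw [r1, r2, neg_neg])
      · exact g.1 (r1.trans r2.symm)
    rw [hPT, hDe]
    simp

end Pool.Agent.H276R2.Th
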