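import Pool.Agent.H276R2.Th.Spec

set_option autoImplicit false
set_option linter.unusedSectionVars false

namespace Pool.Agent.H276R2.Th

open Finset

section

variable {t : Tree} {I : Type} [Fintype I] [DecidableEq I] {B : I → Tree}

/-- the bush without the tree `i` -/
abbrev rmv (B : I → Tree) (i : I) : {j : I // j ≠ i} → Tree := fun j => B j

/-- restriction of a labelling -/
def p45_res (i : I) {n : ℕ} (l : PL t B n) : BLab n (rmv B i) := fun j => l.2 j

/-- the condition of the sum `PT` -/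
def p45_cond (τ : Pat t B) {n : ℕ} (l : PL t B n) : Prop :=
  GenL (lv t l.1) ∧ Gen B l.2 ∧ PatOK τ l

open Classical in
/-- the multiplicity -/
noncomputable def p45_N (τ : Pat t B) (i : I) {n : ℕ} [NeZero n] (l' : BLab n (rmv B i)) : ℕ :=
  #{l : PL t B n | p45_cond τ l ∧ p45_res i l = l'}

lemma p45_bl_res (i : I) {n : ℕ} (l : PL t B n) (p : BE (rmv B i)) :
    bl (rmv B i) (p45_res i l) p = bl B l.2 ⟨p.1, p.2⟩ := rfl

lemma p45_gen_res (i : I) {n : ℕ} (l : PL t B n) (h : Gen B l.2) :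
    Gen (rmv B i) (p45_res i l) := by
  refine ⟨fun p => h.1 ⟨p.1, p.2⟩, fun p q hpq => h.2 ⟨p.1, p.2⟩ ⟨q.1, q.2⟩ ?_⟩
  rintro heq
  apply hpq
  obtain ⟨⟨p1, hp⟩, p2⟩ := p
  obtain ⟨⟨q1, hq⟩, q2⟩ := q
  simp only [Sigma.mk.inj_iff] at heq
  obtain ⟨h1, h2⟩ := heq
  subst h1
  simp only [heq_eq_eq] at h2
  subst h2
  rfl

lemma p45_kb (i : I) {n : ℕ} (l : PL t B n) :
    kb B l.2 = lv (B i) (l.2 i) (B i).root + kb (rmv B i) (p45_res i l) := by
  unfold kb
  rw [Fintype.sum_eq_add_sum_subtype_ne _ i]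
  rfl

lemma p45_nb (i : I) : nb B = Fintype.card (B i).V + nb (rmv B i) := by
  unfold nb
  rw [Fintype.sum_eq_add_sum_subtype_ne _ i]

variable {τ : Pat t B} {i : I} {φ : t.E ≃ (B i).E} {b : t.E → Bool}

lemma p45_mtc (hp : Perfect τ i φ b) (p : BE B) : Mtc τ p ↔ p.1 = i := by
  constructor
  · rintro ⟨e, b', h⟩
    rw [hp.2.2 e] at h
    simp only [Option.some.injEq, Prod.mk.injEq] at h
    rw [← h.1]
  · intro h
    obtain ⟨j, e'⟩ := p
    simp only at h
    subst h
    refine ⟨φ.symm e', b (φ.symm e'), ?_⟩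
    rw [hp.2.2]
    simp

/-- relations -/
lemma p45_rel (hp : Perfect τ i φ b) {n : ℕ} (l : PL t B n) (h : PatOK τ l) (e : t.E) :
    lv t l.1 e = ((sb (b e) : ℤ) : ZMod n) * lv (B i) (l.2 i) (φ e) := by
  have h1 := hp.2.2 e
  cases hb : b e with
  | true =>
    rw [hb] at h1
    rw [h.2.1 e _ h1]
    simp [sb, bl]
  | false =>
    rw [hb] at h1
    rw [(h.2.2 e _ h1).1]
    simp [sb, bl]

lemma p45_root (hp : Perfect τ i φ b) {n : ℕ} (l : PL t B n) (h : PatOK τ l) :
    lv t l.1 t.root + kb B l.2 = kb (rmv B i) (p45_res i l) := by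
  rw [p45_kb i l, p45_rel hp l h, hp.1, hp.2.1]
  simp [sb]

open Classical in
lemma p45_prod (hp : Perfect τ i φ b) {n : ℕ} (l : PL t B n) (A : Finset ℕ) :
    (∏ p, if Mtc τ p then (1 : ℝ) else sg A (bl B l.2 p)) =
      ∏ p, sg A (bl (rmv B i) (p45_res i l) p) := by
  rw [Fintype.prod_sigma, Fintype.prod_sigma, Fintype.prod_eq_mul_prod_subtype_ne _ i]
  rw [Finset.prod_eq_one, one_mul]
  · refine Finset.prod_congr rfl fun j _ => ?_
    refine Finset.prod_congr rfl fun e _ => ?_
    rw [if_neg]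
    · rfl
    · rw [p45_mtc hp]
      exact j.2
  · intro e _
    rw [if_pos]
    rw [p45_mtc hp]

open Classical in
lemma p45_pt (hp : Perfect τ i φ b) (n : ℕ) [NeZero n] (A : Finset ℕ) (x : ZMod n) :
    PT n τ A x = (∑ l' : BLab n (rmv B i), if Gen (rmv B i) l' then
      (p45_N τ i l' : ℂ) * (((∏ p, sg A (bl (rmv B i) l' p) : ℝ) : ℂ) *
        ch n (kb (rmv B i) l' * x)) else 0) /
      (Real.sqrt n : ℂ) ^ (Fintype.card t.V + nb B) := by
  unfold PT
  congr 1
  have h1 : ∀ l : PL t B n, (if GenL (lv t l.1) ∧ Gen B l.2 ∧ PatOK τ l then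
      (((∏ e, if τ e = none then sg A (lv t l.1 e) else 1) *
        (∏ p, if Mtc τ p then 1 else sg A (bl B l.2 p)) : ℝ) : ℂ) *
        ch n ((lv t l.1 t.root + kb B l.2) * x) else 0) =
      ∑ l' : BLab n (rmv B i), if p45_cond τ l ∧ p45_res i l = l' then
        (if Gen (rmv B i) l' then ((∏ p, sg A (bl (rmv B i) l' p) : ℝ) : ℂ) *
        ch n (kb (rmv B i) l' * x) else 0) else 0 := by
    intro l
    by_cases hc : p45_cond τ l
    · have hc' : GenL (lv t l.1) ∧ Gen B l.2 ∧ PatOK τ l := hc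
      rw [if_pos hc']
      rw [Finset.sum_eq_single (p45_res i l)]
      · rw [if_pos ⟨hc, rfl⟩, if_pos (p45_gen_res i l hc.2.1), p45_prod hp l A, p45_root hp l hc.2.2]
        have h0 : (∏ e, if τ e = none then sg A (lv t l.1 e) else 1) = 1 := by
          refine Finset.prod_eq_one fun e _ => ?_
          rw [if_neg]
          rw [hp.2.2 e]
          simp
        rw [h0, one_mul]
      · intro l' _ hl'
        rw [if_neg]
        rintro ⟨_, h⟩
        exact hl' h.symm
      · intro h
        exact absurd (Finset.mem_univ _) h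
    · have hc' : ¬ (GenL (lv t l.1) ∧ Gen B l.2 ∧ PatOK τ l) := hc
      rw [if_neg hc']
      symm
      refine Finset.sum_eq_zero fun l' _ => ?_
      rw [if_neg]
      rintro ⟨h, _⟩
      exact hc h
  rw [Finset.sum_congr rfl fun l _ => h1 l, Finset.sum_comm]
  refine Finset.sum_congr rfl fun l' _ => ?_
  rw [← Finset.sum_filter, Finset.sum_const, nsmul_eq_mul]
  have h2 : (Finset.univ.filter fun l : PL t B n => p45_cond τ l ∧ p45_res i l = l').card =
    p45_N τ i l' := by
    unfold p45_N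
    congr!
  split_ifs
  · rw [← h2]
    congr!
  · simp

end

/-- The constant in `M3`. -/
noncomputable irreducible_def p45_K {I : Type} [Fintype I] (B : I → Tree) : ℝ :=
  (Fintype.card (BE B)).factorial * 2 ^ Fintype.card (BE B)

lemma p45_K_nonneg {I : Type} [Fintype I] (B : I → Tree) : 0 ≤ p45_K B := by
  rw [p45_K]; positivity

/-- `M3` with coefficients of size at most `c`. -/
lemma p45_m3 (m3 : S_M3) (n : ℕ) [NeZero n] {I : Type} [Fintype I] [DecidableEq I] (B : I → Tree)
    (c : ℝ) (w : BLab n B → ℝ) (hw : ∀ l, Gen B l → |w l| ≤ c) (x : ZMod n) :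
    open Classical in
    Ex n (fun A => ‖(∑ l : BLab n B, if Gen B l then
      (w l : ℂ) * (((∏ p, sg A (bl B l p) : ℝ) : ℂ) * ch n (kb B l * x)) else 0)‖ ^ 2) ≤
      p45_K B * c ^ 2 * (n : ℝ) ^ nb B := by
  classical
  rw [p45_K]
  by_cases hc : c ≤ 0
  · have h0 : ∀ l, Gen B l → w l = 0 := fun l hl => by
      have := hw l hl
      have h2 := abs_nonneg (w l)
      exact abs_eq_zero.mp (le_antisymm (this.trans hc) h2)
    have h1 : ∀ A : Finset ℕ, (∑ l : BLab n B, if Gen B l then
      (w l : ℂ) * (((∏ p, sg A (bl B l p) : ℝ) : ℂ) * ch n (kb B l * x)) else 0) = 0 := by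
      intro A
      refine Finset.sum_eq_zero fun l _ => ?_
      split_ifs with h
      · rw [h0 l h]; simp
      · rfl
    simp only [h1]
    rw [show (fun _ : Finset ℕ => ‖(0:ℂ)‖ ^ 2) = fun _ => (0:ℝ) from by ext; simp, Ex_const]
    positivity
  · push Not at hc
    have key := m3 n (BE B) (BLab n B) (fun p => blH B p) (Finset.univ.filter fun l => Gen B l)
      (fun l => (w l / c : ℂ) * ch n (kb B l * x)) (fun u hu => bl_inj B u hu)
      (by
        intro l hl
        have hl' := (Finset.mem_filter.mp hl).2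
        rw [norm_mul, norm_ch, mul_one, norm_div, Complex.norm_real, Complex.norm_real,
          Real.norm_eq_abs, Real.norm_eq_abs, abs_of_pos hc]
        exact (div_le_one hc).mpr (hw l hl'))
      (by
        intro l hl
        exact (Finset.mem_filter.mp hl).2)
    have hcard : ((Finset.univ.filter fun l : BLab n B => Gen B l).card : ℝ) ≤ (n : ℝ) ^ nb B := by
      have h1 : (Finset.univ.filter fun l : BLab n B => Gen B l).card ≤ n ^ nb B := by
        calc _ ≤ (Finset.univ : Finset (BLab n B)).card := Finset.card_filter_le _ _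
          _ = Nat.card (BLab n B) := by rw [Nat.card_eq_fintype_card, Finset.card_univ]
          _ = n ^ nb B := card_BLab n B
      exact_mod_cast h1
    have h2 : ∀ A : Finset ℕ, ‖(∑ l : BLab n B, if Gen B l then
      (w l : ℂ) * (((∏ p, sg A (bl B l p) : ℝ) : ℂ) * ch n (kb B l * x)) else 0)‖ ^ 2 =
      c ^ 2 * ‖∑ l ∈ (Finset.univ.filter fun l => Gen B l), ((w l / c : ℂ) * ch n (kb B l * x)) *
        ((∏ p, sg A (blH B p l) : ℝ) : ℂ)‖ ^ 2 := by
      intro A
      rw [← Finset.sum_filter]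
      have : (∑ l ∈ (Finset.univ.filter fun l => Gen B l),
          (w l : ℂ) * (((∏ p, sg A (bl B l p) : ℝ) : ℂ) * ch n (kb B l * x))) =
          (c : ℂ) * ∑ l ∈ (Finset.univ.filter fun l => Gen B l), ((w l / c : ℂ) *
          ch n (kb B l * x)) * ((∏ p, sg A (blH B p l) : ℝ) : ℂ) := by
        rw [Finset.mul_sum]
        refine Finset.sum_congr rfl fun l _ => ?_
        have hc' : (c : ℂ) ≠ 0 := by exact_mod_cast hc.ne'
        simp only [blH_apply]
        field_simp
      rw [this, norm_mul, mul_pow, Complex.norm_real, Real.norm_eq_abs, sq_abs]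
    simp only [h2]
    rw [Ex_mul]
    calc c ^ 2 * _ ≤ c ^ 2 * (((Fintype.card (BE B)).factorial : ℝ) * 2 ^ Fintype.card (BE B) *
          ((Finset.univ.filter fun l : BLab n B => Gen B l).card : ℝ)) := by
          apply mul_le_mul_of_nonneg_left _ (sq_nonneg c)
          convert key using 4
      _ ≤ c ^ 2 * (((Fintype.card (BE B)).factorial : ℝ) * 2 ^ Fintype.card (BE B) *
          (n : ℝ) ^ nb B) := by gcongr
      _ = _ := by ring

end Pool.Agent.H276R2.Th
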