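import Pool.Agent.H276R2.Th.Lib4

/-!
# Statements of the parts of the proof

Every part `X` is a proposition `S_X`; the task `X` proves `theorem t_X (h : S_Y) ... : S_X` in the
file `Pool/Agent/H276R2/Th/X.lean`.
-/

set_option autoImplicit false

namespace Pool.Agent.H276R2.Th

open Finset Real

/-! ## Part A: reduction of the theta function to functions on the group -/

/-- A1. -/
def S_A1 : Prop := ∀ (n : ℕ) [NeZero n] (S : Finset ℕ) (g : ZMod n → ℝ), S ⊆ Cl n →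
  Nice (Cl n \ S) g → (∀ x, 0 ≤ g x) → g 0 ≤ theta n S

/-- A2. -/
def S_A2 : Prop := ∀ (n : ℕ) [NeZero n] (S : Finset ℕ) (h : ZMod n → ℝ), S ⊆ Cl n →
  Nice S h → (∀ x, 0 ≤ h x) → 0 < h 0 → theta n S ≤ n / h 0

/-! ## Part U: concentration, and the final deduction -/

/-- U0: the supremum in `lam` is attained. -/
def S_U0 : Prop := ∀ (n : ℕ) [NeZero n] (A : Finset ℕ),
  (∃ g : ZMod n → ℝ, Nice A g ∧ (∀ x, 0 ≤ g x) ∧ ∑ x, (g x) ^ 2 ≤ 5 / 4 * n ∧ g 0 = lam n A) ∧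
  (∀ g : ZMod n → ℝ, Nice A g → (∀ x, 0 ≤ g x) → ∑ x, (g x) ^ 2 ≤ 5 / 4 * n → g 0 ≤ lam n A) ∧
  1 ≤ lam n A

/-- U1: Poincare inequality. -/
def S_U1 : Prop := ∀ (n : ℕ) (f : Finset ℕ → ℝ),
  Ex n (fun A => f A ^ 2) - (Ex n f) ^ 2 ≤
    1 / 4 * ∑ j ∈ Cl n, Ex n (fun A => (f A - f (symmDiff A {j})) ^ 2)

/-- U2: the second moment of `√n / lam` is bounded by the square of the first moment. -/
def S_U2 : Prop := ∀ (n : ℕ) [NeZero n],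
  Ex n (fun A => (√n / lam n A) ^ 2) ≤ 4 / 3 * (Ex n (fun A => √n / lam n A)) ^ 2

/-- U3: bounded second moment. -/
def S_U3 : Prop := StatementR → ∃ K : ℝ, ∃ n₀ : ℕ, ∀ (n : ℕ) [NeZero n], n₀ ≤ n →
  Ex n (fun A => (√n / lam n A) ^ 2) ≤ K

/-- U4: the main theorem from `StatementR`. -/
def S_U4 : Prop := StatementR →
  Filter.Tendsto (fun n : ℕ => Ex n (theta n) / √n) Filter.atTop (nhds 1)

/-! ## Part R: repair -/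

/-- R0: representation of the noise. -/
def S_R0 : Prop := ∀ (n : ℕ) [NeZero n] (w : ZMod n → ℝ), ∃ a : ℕ → ZMod n → ℝ,
  (∀ (A : Finset ℕ) (q : ℝ) (x : ZMod n), q ≠ 0 → A ⊆ Cl n →
    proj A w x / q - (w x - (∑ y, w y) / n) = ∑ j ∈ Cl n, ((if j ∈ A then 1 / q else 0) - 1) * a j x) ∧
  (∀ x, (∑ j ∈ Cl n, a j x ^ 2) * n ≤ 2 * ∑ y, w y ^ 2) ∧
  ∀ δ : ℝ, (∀ k : ZMod n, k ≠ 0 → ‖fc (fun y => (w y : ℂ)) k‖ ≤ δ) →
    ∀ j ∈ Cl n, ∀ x, |a j x| ≤ 2 * δ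

/-- R0': facts on `proj`. -/
def S_R0' : Prop := ∀ (n : ℕ) [NeZero n] (A : Finset ℕ) (w : ZMod n → ℝ),
  (∀ x, w (-x) = w x) →
  (∀ x, proj A w (-x) = proj A w x) ∧ ∑ x, proj A w x = 0 ∧
  (∀ k : ZMod n, fc (fun x => (proj A w x : ℂ)) k =
    if k ≠ 0 ∧ cls n k ∈ A then fc (fun y => (w y : ℂ)) k else 0) ∧
  ∑ x, proj A w x ^ 2 ≤ ∑ x, w x ^ 2

/-- R1: expectations for the density `q`. -/
def S_R1 : Prop :=
  (∀ (n : ℕ) (q : ℝ), Ed n q (fun _ => 1) = 1) ∧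
  (∀ (n : ℕ) (q : ℝ) (f g : Finset ℕ → ℝ), 0 ≤ q → q ≤ 1 → (∀ A, A ⊆ Cl n → f A ≤ g A) →
    Ed n q f ≤ Ed n q g) ∧
  (∀ (n : ℕ) (p q : ℝ) (f : Finset ℕ → ℝ),
    Ed n p (fun A => Ed n q (fun B => f (A ∪ B))) = Ed n (p + q - p * q) f) ∧
  (∀ (n : ℕ) (p q : ℝ) (f : Finset ℕ → ℝ),
    Ed n p (fun A => Ed n q (fun B => f (A ∩ B))) = Ed n (p * q) f) ∧
  (∀ (n : ℕ) (f : Finset ℕ → ℝ), Ed n (1 / 2) f = Ex n f) ∧
  (∀ (n : ℕ) (p q : ℝ) (f : Finset ℕ → ℝ), 0 ≤ p → p ≤ q → q ≤ 1 →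
    (∀ A B, A ⊆ B → B ⊆ Cl n → f A ≤ f B) → Ed n p f ≤ Ed n q f) ∧
  (∀ (n : ℕ) (q : ℝ) (f : Finset ℕ → ℝ) (c : ℝ), 0 ≤ q → q ≤ 1 → 0 < c →
    (∀ A, A ⊆ Cl n → 0 ≤ f A) → 1 - Ed n q f / c ≤ Pq n q (fun A => f A ≤ c)) ∧
  (∀ (n : ℕ) (q : ℝ) (a : ℕ → ℝ) (b : ℕ → ℝ),
    Ed n q (fun A => ∏ j ∈ Cl n, if j ∈ A then a j else b j) =
      ∏ j ∈ Cl n, (q * a j + (1 - q) * b j))

/-- R2: exponential moments. -/
def S_R2 : Prop :=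
  (∀ (n : ℕ) (q : ℝ), 0 < q → q ≤ 1 → ∀ a : ℕ → ℝ,
    Ed n q (fun A => exp (∑ j ∈ Cl n, ((if j ∈ A then 1 / q else 0) - 1) * a j)) ≤
      exp ((∑ j ∈ Cl n, a j ^ 2) / (2 * q ^ 2))) ∧
  (∀ (n : ℕ) (q : ℝ), 1 / 2 ≤ q → q ≤ 1 → ∀ a : ℕ → ℝ, (∀ j ∈ Cl n, |a j| ≤ 1) →
    Ed n q (fun A => exp (∑ j ∈ Cl n, ((if j ∈ A then 1 / q else 0) - 1) * a j)) ≤
      exp (2 * (1 - q) * ∑ j ∈ Cl n, a j ^ 2))

/-- R3: one stage of the sprinkling. -/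
def S_R3 : Prop := ∀ (n : ℕ) [NeZero n] (w : ZMod n → ℝ) (q κ ω : ℝ),
  0 < q → q ≤ 1 → 0 < κ → 0 < ω → ∑ x, w x ^ 2 ≤ ω * n →
  Ed n q (fun A => ∑ x, (max (|proj A w x / q - (w x - (∑ y, w y) / n)| - κ) 0) ^ 2) ≤
    n * (4 * (2 * ω / q ^ 2) ^ 2 / κ ^ 2) * exp (-κ ^ 2 / (2 * (2 * ω / q ^ 2)))

/-- R4: domination of a small function. -/
def S_R4 : Prop := ∀ (n : ℕ) [NeZero n] (κ η p : ℝ), 0 < κ → κ ≤ 1 → 0 < η → η ≤ 1 → 0 < p → p ≤ 1 →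
  ∀ w : ZMod n → ℝ, (∀ x, w (-x) = w x) → (∀ x, 0 ≤ w x) →
  ∑ x, w x ^ 2 ≤ (κ * η * p) ^ 8 / 10 ^ 6 * n →
  1 - p ≤ Pq n η (fun A => ∃ v : ZMod n → ℝ, (∀ x, v (-x) = v x) ∧ ∑ x, v x = 0 ∧
    (∀ k : ZMod n, k ≠ 0 → cls n k ∉ A → fc (fun x => (v x : ℂ)) k = 0) ∧
    (∀ x, w x ≤ v x + κ) ∧ ∑ x, v x ^ 2 ≤ κ ^ 2 * n)

/-- R5: thinning a function with small Fourier coefficients. -/
def S_R5 : Prop := ∀ (n : ℕ) [NeZero n] (g : ZMod n → ℝ) (q κ C δ : ℝ),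
  1 / 2 ≤ q → q < 1 → 0 < κ → 0 < C → 0 ≤ δ → ∑ x, g x ^ 2 ≤ C * n →
  (∀ k : ZMod n, k ≠ 0 → ‖fc (fun y => (g y : ℂ)) k‖ ≤ δ) → 2 * δ * κ ≤ 8 * (1 - q) * C →
  Ed n q (fun A => ∑ x, (max (|proj A g x / q - (g x - (∑ y, g y) / n)| - κ) 0) ^ 2) ≤
    n * (4 * (8 * (1 - q) * C) ^ 2 / κ ^ 2) * exp (-κ ^ 2 / (2 * (8 * (1 - q) * C)))

/-- R6: deterministic assembly. -/
def S_R6 : Prop := ∀ (n : ℕ) [NeZero n] (A R B : Finset ℕ) (g v : ZMod n → ℝ) (C η κ : ℝ),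
  0 ≤ C → 0 ≤ η → η ≤ 1 / 2 → 0 ≤ κ → κ ≤ 1 → Nice A g → ∑ x, g x ^ 2 ≤ C * n →
  (∀ x, v (-x) = v x) → ∑ x, v x = 0 →
  (∀ k : ZMod n, k ≠ 0 → cls n k ∉ B → fc (fun x => (v x : ℂ)) k = 0) →
  ∑ x, v x ^ 2 ≤ κ ^ 2 * n →
  (∀ x, max (-(g x)) 0 + max (|proj R g x / (1 - η) - (g x - 1)| - κ) 0 ≤ v x + κ) →
  ∃ G : ZMod n → ℝ, Nice ((A ∩ R) ∪ B) G ∧ (∀ x, 0 ≤ G x) ∧ ∑ x, G x ^ 2 ≤ (4 + 2 * √C) ^ 2 * n ∧
    (g 0 - |proj R g 0 / (1 - η) - (g 0 - 1)|) / (1 + 2 * κ) ≤ G 0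

/-- R7: conclusion of part R. -/
def S_R7 : Prop := StatementM → StatementR

/-! ## Part D: approximation of the profile by polynomials -/

/-- D1: Hermite expansions. -/
def S_D1 : Prop :=
  (∀ P : Polynomial ℝ, MeasureTheory.Integrable (fun x => P.eval x) gam) ∧
  (∀ d : ℕ, ∫ x, (He d).eval x ∂gam = if d = 0 then 1 else 0) ∧
  (∀ P : Polynomial ℝ, ∃ (D : ℕ) (c : ℕ → ℝ), P = PP D c) ∧
  (∀ (D : ℕ) (c : ℕ → ℝ),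
    ∫ x, ((PP D c).eval x) ^ 2 ∂gam = ∑ d ∈ range (D + 1), c d ^ 2 * d.factorial) ∧
  ∀ P : Polynomial ℝ, (∀ x, P.eval (-x) = P.eval x) → ∫ x, P.eval x ∂gam = 0 →
    ∃ (D : ℕ) (c : ℕ → ℝ), P = PP D c ∧ c 0 = 0 ∧ c 1 = 0 ∧
      ∫ x, (P.derivative.eval x) ^ 2 ∂gam = ∑ d ∈ range (D + 1), (d : ℝ) * (c d ^ 2 * d.factorial)

/-- D2a: odd trigonometric polynomials close to the sign. -/
def S_D2a : Prop := ∀ τ L δ : ℝ, 0 < τ → τ < L → 0 < δ →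
  ∃ (s : Finset ℕ) (b : ℕ → ℝ) (μ : ℝ), 0 < μ ∧ 0 ∉ s ∧
    (∀ x : ℝ, |∑ j ∈ s, b j * sin (j * μ * x)| ≤ 1 + δ) ∧
    ∀ x : ℝ, τ ≤ x → x ≤ L → |∑ j ∈ s, b j * sin (j * μ * x) - 1| ≤ δ

/-- D2: polynomial approximation of `√(2π)|x| - 2`. -/
def S_D2 : Prop := ∀ δ : ℝ, 0 < δ → ∃ P Q : Polynomial ℝ, (∀ x, P.eval (-x) = P.eval x) ∧
  (∀ x : ℝ, |√(2 * π) * |x| - 2 - P.eval x| ≤ Q.eval x) ∧
  ∫ x, (Q.eval x) ^ 2 ∂gam ≤ δ ∧ ∫ x, (P.derivative.eval x) ^ 2 ∂gam ≤ 2 * π + δ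

/-- D: the profile. -/
def S_D : Prop := ∀ δ : ℝ, 0 < δ → ∃ (D : ℕ) (c : ℕ → ℝ) (Q : Polynomial ℝ), c 0 = 0 ∧ c 1 = 0 ∧
  (∀ x : ℝ, |√(2 * π) * |x| - 2 - (PP D c).eval x| ≤ Q.eval x) ∧
  ∫ x, (Q.eval x) ^ 2 ∂gam ≤ δ ∧
  ∑ d ∈ range (D + 1), ((d : ℝ) - 1) * (c d ^ 2 * d.factorial) ≤ 4 + δ ∧
  |∑ d ∈ range (D + 1), c d ^ 2 * d.factorial - (2 * π - 4)| ≤ δ

/-! ## Part S: convergence of the correlations -/

/-- S: the correlations come close to one. -/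
def S_S : Prop := ∀ ε : ℝ, 0 < ε → ∃ δ : ℝ, 0 < δ ∧ ∀ (D : ℕ) (c : ℕ → ℝ), c 0 = 0 → c 1 = 0 →
  ∑ d ∈ range (D + 1), ((d : ℝ) - 1) * (c d ^ 2 * d.factorial) ≤ 4 + δ →
  |∑ d ∈ range (D + 1), c d ^ 2 * d.factorial - (2 * π - 4)| ≤ δ →
  ∃ m, 1 - rho D c m ≤ ε

/-! ## Part N: from the iteration to `StatementM` -/

/-- The function `2 √n δ₀ + P(G)`. -/
noncomputable def psi (n : ℕ) (P : Polynomial ℝ) (G : ZMod n → ℝ) (y : ZMod n) : ℝ :=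
  (if y = 0 then 2 * √n else 0) + P.eval (G y)

/-- N1: the construction for one graph. -/
def S_N1 : Prop := ∀ (n : ℕ) [NeZero n] (A : Finset ℕ) (G H : ZMod n → ℝ) (P Q : Polynomial ℝ)
  (s : ℝ), A ⊆ Cl n → (∀ x, G (-x) = G x) → 0 ≤ s →
  (∀ x : ℝ, |√(2 * π) * |x| - 2 - P.eval x| ≤ Q.eval x) →
  ∃ g : ZMod n → ℝ, Nice A g ∧
    √n - |1 + (P.eval (G 0) + s * H 0) / 2| -
      ‖T A (fun y => (psi n P G y : ℂ)) 0 - ((s * H 0 : ℝ) : ℂ)‖ - |(∑ x, psi n P G x) / n| ≤ g 0 ∧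
    ∑ x, (max (-(g x)) 0) ^ 2 ≤ 5 * (2 * π * ∑ x, (G x - H x) ^ 2 +
      (s - √(2 * π)) ^ 2 * ∑ x, H x ^ 2 + ∑ x, (Q.eval (G x)) ^ 2 +
      ∑ x, ‖T A (fun y => (psi n P G y : ℂ)) x - ((s * H x : ℝ) : ℂ)‖ ^ 2 +
      n * ((∑ x, psi n P G x) / n) ^ 2) ∧
    ∑ x, g x ^ 2 ≤ 18 * n + 4 * ∑ x, (P.eval (G x)) ^ 2 ∧
    ∀ k : ZMod n, k ≠ 0 → ‖fc (fun x => (g x : ℂ)) k‖ ≤
      2 / √n + ‖fc (fun x => ((P.eval (G x) : ℝ) : ℂ)) k‖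

/-- N2: the probabilistic part. -/
def S_N2 : Prop := ∀ (D : ℕ) (c : ℕ → ℝ) (m : ℕ) (G H : RFam) (Q : Polynomial ℝ) (δ : ℝ),
  Step D c m G H → c 0 = 0 → c 1 = 0 → 0 < δ →
  (∀ x : ℝ, |√(2 * π) * |x| - 2 - (PP D c).eval x| ≤ Q.eval x) →
  ∑ d ∈ range (D + 1), c d ^ 2 * d.factorial ≤ 5 / 2 →
  5 * (4 * π * (1 - rho D c m) + (sP D c - √(2 * π)) ^ 2 + ∫ x, (Q.eval x) ^ 2 ∂gam) ≤ δ ^ 2 / 4 →
  ∃ n₀ : ℕ, ∀ (n : ℕ) [NeZero n], n₀ ≤ n → 1 - δ ≤ Pr n (ApproxGood 30 δ n)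

/-- N3: conclusion. -/
def S_N3 : Prop := (∀ (D : ℕ) (c : ℕ → ℝ), c 0 = 0 → c 1 = 0 → ∀ m, ∃ G H : RFam, Step D c m G H) →
  StatementM

/-! ## Part M: the chaoses -/

/-- M1: orthogonality of products of signs. -/
def S_M1 : Prop := ∀ (n : ℕ) [NeZero n] (M : Type) [Fintype M] (v w : M → ZMod n),
  GenL v → GenL w → (¬ ∃ σ : Equiv.Perm M, ∀ p, w p = v (σ p) ∨ w p = -v (σ p)) →
  Ex n (fun A => (∏ p, sg A (v p)) * ∏ p, sg A (w p)) = 0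

/-- M2: bound for sums over the group. -/
def S_M2 : Prop := ∀ (n : ℕ) [NeZero n] (M Λ : Type) [Fintype M] [AddCommGroup Λ] [Fintype Λ]
  (h : M → Λ →+ ZMod n) (κ : Λ →+ ZMod n) (R : Λ → Prop) (D : Finset Λ) (a : Λ → ℂ),
  (∀ l ∈ D, ∀ l' ∈ D, R (l - l')) → (∀ l ∈ D, ‖a l‖ ≤ 1) → (∀ l ∈ D, GenL (fun p => h p l)) →
  ∑ x : ZMod n, Ex n (fun A => ‖∑ l ∈ D, a l * ((∏ p, sg A (h p l) : ℝ) : ℂ) * ch n (κ l * x)‖ ^ 2) ≤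
    n * ((Fintype.card M).factorial * 2 ^ Fintype.card M) * D.card *
      Nat.card {u : Λ // R u ∧ (∀ p, h p u = 0) ∧ κ u = 0}

/-- M3: pointwise bound. -/
def S_M3 : Prop := ∀ (n : ℕ) [NeZero n] (M Λ : Type) [Fintype M] [AddCommGroup Λ] [Fintype Λ]
  (h : M → Λ →+ ZMod n) (D : Finset Λ) (z : Λ → ℂ),
  (∀ u, (∀ p, h p u = 0) → u = 0) → (∀ l ∈ D, ‖z l‖ ≤ 1) → (∀ l ∈ D, GenL (fun p => h p l)) →
  Ex n (fun A => ‖∑ l ∈ D, z l * ((∏ p, sg A (h p l) : ℝ) : ℂ)‖ ^ 2) ≤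
    (Fintype.card M).factorial * 2 ^ Fintype.card M * D.card

/-- K1: number of solutions of a linear equation. -/
def S_K1 : Prop := ∀ (n : ℕ) [NeZero n] (Λ : Type) [AddCommGroup Λ] [Fintype Λ]
  (h : Λ →+ ZMod n) (ι : ZMod n → Λ) (a : ℤ), a ≠ 0 → (∀ z, h (ι z) = (a : ZMod n) * z) →
  ∀ c : ZMod n, (Nat.card {l : Λ // h l = c} : ℝ) * n ≤ |(a : ℝ)| * Nat.card Λ

/-- FB: the chaoses have bounded second moments and small Fourier coefficients. -/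
def S_FB : Prop := ∀ (I : Type) [Fintype I] (B : I → Tree),
  Bd (fun n _ A x => F n B A x) ∧
  (Nonempty I → ∃ C : ℝ, ∀ (n : ℕ) [NeZero n] (k : ZMod n),
    Ex n (fun A => ‖fc (F n B A) k‖ ^ 2) ≤ C / n)

/-- CR: the capped bush is a tree. -/
def S_CR : Prop := ∀ (I : Type) [Fintype I] [DecidableEq I] (B : I → Tree), CapRel B

/-- CAP: `T` maps the chaos of a bush with at least two trees to the chaos of the capped bush. -/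
def S_CAP : Prop := ∀ (I : Type) [Fintype I] [DecidableEq I] [Nontrivial I] (B : I → Tree)
  (hB : CapRel B),
  O1 (fun n _ A x => T A (F n B A) x - F n (fun _ : Unit => capTree B hB) A x)

/-- P1: expansion of a product according to the coincidences. -/
def S_P1 : Prop := ∀ (t : Tree) (I : Type) [Fintype I] [DecidableEq I] (B : I → Tree)
  (n : ℕ) [NeZero n] (A : Finset ℕ) (x : ZMod n),
  F n (fun _ : Unit => t) A x * F n B A x = ∑ τ : Pat t B, PT n τ A x ∧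
  PT n (fun _ => none : Pat t B) A x = F n (optB t B) A x

/-- P2: counting for bad patterns. -/
def S_P2 : Prop := ∀ (t : Tree) (I : Type) [Fintype I] [DecidableEq I] (B : I → Tree)
  (τ : Pat t B), (∃ e, τ e ≠ none) → (∀ e e' p b b', τ e = some (p, b) → τ e' = some (p, b') → e = e') →
  (¬ ∃ (i : I) (φ : t.E ≃ (B i).E) (b : t.E → Bool), Perfect τ i φ b) →
  ∀ (n : ℕ) [NeZero n], (Nat.card {l : PL t B n // RelP τ l} : ℝ) *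
    Nat.card {l : PL t B n // WP τ l} * n ≤ 2 * Nat.card (PL t B n)

/-- P3: bad patterns are negligible. -/
def S_P3 : Prop := ∀ (t : Tree) (I : Type) [Fintype I] [DecidableEq I] (B : I → Tree)
  (τ : Pat t B), (∃ e, τ e ≠ none) →
  (¬ ∃ (i : I) (φ : t.E ≃ (B i).E) (b : t.E → Bool), Perfect τ i φ b) →
  O1 (fun n _ A x => PT n τ A x)

/-- P4: perfect patterns given by an isomorphism. -/
def S_P4 : Prop := ∀ (t : Tree) (I : Type) [Fintype I] [DecidableEq I] (B : I → Tree)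
  (τ : Pat t B) (i : I) (φ : t.E ≃ (B i).E) (b : t.E → Bool), Perfect τ i φ b →
  IsTIso t (B i) φ b →
  O1 (fun n _ A x => PT n τ A x - F n (fun j : {j : I // j ≠ i} => B j) A x)

/-- P5a: counting for the other perfect patterns. -/
def S_P5a : Prop := ∀ (t t' : Tree) (φ : t.E ≃ t'.E) (b : t.E → Bool), φ t.root = t'.root →
  b t.root = false → ¬ IsTIso t t' φ b → ∃ C : ℝ, ∀ (n : ℕ) [NeZero n],
  (Nat.card {l : (t.V → ZMod n) × (t'.V → ZMod n) //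
    ∀ e, lv t l.1 e = ((sb (b e) : ℤ) : ZMod n) * lv t' l.2 (φ e)} : ℝ) ^ 2 * n ≤
      C * n ^ (Fintype.card t.V + Fintype.card t'.V)

/-- P5: the other perfect patterns are negligible. -/
def S_P5 : Prop := ∀ (t : Tree) (I : Type) [Fintype I] [DecidableEq I] (B : I → Tree)
  (τ : Pat t B) (i : I) (φ : t.E ≃ (B i).E) (b : t.E → Bool), Perfect τ i φ b →
  ¬ IsTIso t (B i) φ b → O1 (fun n _ A x => PT n τ A x)

/-- PR: the product formula. -/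
def S_PR : Prop := ∀ (t : Tree) (I : Type) [Fintype I] [DecidableEq I] (B : I → Tree),
  O1 (fun n _ A x => F n (fun _ : Unit => t) A x * F n B A x - F n (optB t B) A x -
    ∑ i, (cc t (B i) : ℂ) * F n (fun j : {j : I // j ≠ i} => B j) A x)

/-- W0: facts on linear combinations. -/
def S_W0 : Prop := ∀ (J : Type) [Fintype J] (tr : J → Tree) (r : ℕ) (γ : Fin r → J → ℝ),
  Bd (fun n _ A x => Wf tr γ n A x) ∧ (∀ α : J → ℝ, Bd (fun n _ A x => Gf tr α n A x)) ∧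
  (∀ α : J → ℝ, ∀ (n : ℕ) [NeZero n] (A : Finset ℕ) (x : ZMod n),
    Gf tr α n A x = ((Gf tr α n A x).re : ℂ) ∧ Gf tr α n A (-x) = Gf tr α n A x) ∧
  (∀ (n : ℕ) [NeZero n] (A : Finset ℕ) (x : ZMod n), Wf tr γ n A x = ((Wf tr γ n A x).re : ℂ)) ∧
  (0 < r → (∀ (n : ℕ) [NeZero n] (x : ZMod n), ExC n (fun A => Wf tr γ n A x) = 0) ∧
    ∃ C : ℝ, ∀ (n : ℕ) [NeZero n] (k : ZMod n), Ex n (fun A => ‖fc (Wf tr γ n A) k‖ ^ 2) ≤ C / n) ∧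
  (r = 0 → ∀ (n : ℕ) [NeZero n] (A : Finset ℕ) (x : ZMod n), Wf tr γ n A x = 1) ∧
  (∀ α : J → ℝ, ∀ (n : ℕ) [NeZero n] (A : Finset ℕ) (x : ZMod n),
    Wf tr (fun _ : Fin 1 => α) n A x = Gf tr α n A x)

/-- W1: Wick product rule. -/
def S_W1 : Prop := ∀ (J : Type) [Fintype J] (tr : J → Tree) (r : ℕ) (α : J → ℝ)
  (γ : Fin (r + 1) → J → ℝ),
  O1 (fun n _ A x => Gf tr α n A x * Wf tr γ n A x -
    Wf tr (Fin.cons α γ : Fin (r + 2) → J → ℝ) n A x -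
    ∑ i : Fin (r + 1), (CC tr α (γ i) : ℂ) * Wf tr (fun j => γ (i.succAbove j)) n A x)

/-- W2: Hermite polynomials of a normalised linear combination. -/
def S_W2 : Prop := ∀ (J : Type) [Fintype J] (tr : J → Tree) (α : J → ℝ), CC tr α α = 1 →
  ∀ d : ℕ, O1 (fun n _ A x => Polynomial.aeval (Gf tr α n A x) (He d) -
    Wf tr (fun _ : Fin d => α) n A x)

/-- W3: covariances of Wick powers. -/
def S_W3 : Prop := ∀ (J : Type) [Fintype J] (tr : J → Tree) (α : J → ℝ) (d r : ℕ)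
  (γ : Fin r → J → ℝ), ∃ K : ℝ, ∀ (n : ℕ) [NeZero n],
  ‖ExC n (fun A => (∑ x, Wf tr (fun _ : Fin d => α) n A x * Wf tr γ n A x) / n) -
    (if d = r then ((d.factorial * ∏ i, CC tr α (γ i) : ℝ) : ℂ) else 0)‖ ≤ K / √n

/-- W4: covariances after one step of the iteration. -/
def S_W4 : Prop := ∀ (J J' : Type) [Fintype J] [Fintype J'] (tr : J → Tree) (tr' : J' → Tree)
  (α β : J → ℝ) (α' β' : J' → ℝ) (D : ℕ) (c₁ c₂ : ℕ → ℝ) (a b s₁ s₂ : ℝ),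
  CC tr α α = 1 → CC tr β β = 1 →
  O1 (fun n _ A x => T A (fun y => (if y = 0 then ((a * √n : ℝ) : ℂ) else 0) +
    Polynomial.aeval (Gf tr α n A y) (PP D c₁)) x - (s₁ : ℂ) * Gf tr' α' n A x) →
  O1 (fun n _ A x => T A (fun y => (if y = 0 then ((b * √n : ℝ) : ℂ) else 0) +
    Polynomial.aeval (Gf tr β n A y) (PP D c₂)) x - (s₂ : ℂ) * Gf tr' β' n A x) →
  s₁ * s₂ * CC tr' α' β' =
    a * b + ∑ d ∈ range (D + 1), c₁ d * c₂ d * d.factorial * CC tr α β ^ d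

/-- NX: one step of the iteration. -/
def S_NX : Prop := ∀ (J : Type) [Fintype J] (tr : J → Tree) (D : ℕ) (c : ℕ → ℝ) (s : ℝ),
  s ≠ 0 → c 0 = 0 → c 1 = 0 → ∃ (K : Type) (_ : Fintype K) (tr'' : K → Tree),
  ∀ α : J → ℝ, CC tr α α = 1 → ∃ α' : Option K → ℝ,
    O1 (fun n _ A x => T A (fun y => (if y = 0 then ((2 * √n : ℝ) : ℂ) else 0) +
      Polynomial.aeval (Gf tr α n A y) (PP D c)) x -
        (s : ℂ) * Gf (fun o : Option K => o.elim leafTree tr'') α' n A x)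

/-- IT0: start of the iteration. -/
def S_IT0 : Prop := ∀ (D : ℕ) (c : ℕ → ℝ), c 0 = 0 → c 1 = 0 →
  ∃ (J : Type) (_ : Fintype J) (tr : J → Tree) (α β : J → ℝ), St D c 0 tr α β

/-- IT1: step of the iteration. -/
def S_IT1 : Prop := ∀ (D : ℕ) (c : ℕ → ℝ) (m : ℕ), c 0 = 0 → c 1 = 0 →
  (∃ (J : Type) (_ : Fintype J) (tr : J → Tree) (α β : J → ℝ), St D c m tr α β) →
  ∃ (J : Type) (_ : Fintype J) (tr : J → Tree) (α β : J → ℝ), St D c (m + 1) tr α β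

/-- GL: normalised linear combinations are Gaussian. -/
def S_GL : Prop := ∀ (J : Type) [Fintype J] (tr : J → Tree) (α : J → ℝ), CC tr α α = 1 →
  GaussLike (fun n _ A x => (Gf tr α n A x).re)

/-- ST: the iterates. -/
def S_ST : Prop := ∀ (D : ℕ) (c : ℕ → ℝ) (m : ℕ) (J : Type) [Fintype J] (tr : J → Tree)
  (α β : J → ℝ), St D c m tr α β →
  Step D c m (fun n _ A x => (Gf tr α n A x).re) (fun n _ A x => (Gf tr β n A x).re)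

/-! ## Assembly -/

theorem main_of (m_it0 : S_IT0) (m_it1 : S_IT1) (m_st : S_ST) (n3 : S_N3) (r7 : S_R7)
    (u4 : S_U4) :
    Filter.Tendsto (fun n : ℕ => Ex n (theta n) / √n) Filter.atTop (nhds 1) := by
  refine u4 (r7 (n3 ?_))
  intro D c h0 h1 m
  have key : ∀ m, ∃ (J : Type) (_ : Fintype J) (tr : J → Tree) (α β : J → ℝ), St D c m tr α β := by
    intro m
    induction m with
    | zero => exact m_it0 D c h0 h1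
    | succ m ih => exact m_it1 D c m h0 h1 ih
  obtain ⟨J, hJ, tr, α, β, h⟩ := key m
  exact ⟨_, _, m_st D c m J tr α β h⟩

end Pool.Agent.H276R2.Th
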